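import Pool.Agent.PU.Defs

set_option autoImplicit false

/-!
# PU / StD: density block, statements (compare `PT/StD.lean` and the proofs of the modules PT/D3,
PT/HH, PT/HJ, PT/TB, PT/TM, PT/IS, PT/IB, PT/IJ, PT/IR: only the region changes)
-/

namespace Pool.Agent.PU

open Finset Filter Pool.Agent.MT Pool.Agent.PT MeasureTheory

open Classical in
/-- D3. Three variables. As `PT/D3.lean`; the outer two sums are over `s e ≤ ρ`,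
`s e' ≤ min ρ (r 2 - s e)`, the inner one over `s e'' ≤ TT ρ r 2 (s e) (s e')` (three times `D1`; all
the upper limits are 1-Lipschitz and `≥ 0` because `ρ ≤ r j`). -/
def St_D3 : Prop :=
  ∀ K ε0 : ℝ, 0 < ε0 → ∃ ε : ℝ, 0 < ε ∧ ∀ (E : Type) [Fintype E] (wt s : E → ℝ) (A ρ : ℝ)
    (r : Fin 3 → ℝ), 0 < A → 0 < ρ → ρ ≤ 1 → (∀ j, ρ ≤ r j) → Dist wt s A ε ρ →
    ∀ f : (Fin 3 → ℝ) → ℝ, (∀ a, Reg2 ρ r a → |f a| ≤ K) →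
      (∀ a a', Reg2 ρ r a → Reg2 ρ r a' → |f a - f a'| ≤ K * ∑ i, |a i - a' i|) →
      |(∑ e, ∑ e', ∑ e'', if Reg2 ρ r ![s e, s e', s e''] then
          wt e * wt e' * wt e'' * f ![s e, s e', s e''] else 0) -
        A ^ 3 * ∫ a in (0 : ℝ)..ρ, ∫ b in (0 : ℝ)..(min ρ (r 2 - a)),
          ∫ c in (0 : ℝ)..(TT ρ r 2 a b), f ![a, b, c]| ≤ ε0 * A ^ 3

/-- HH. As `PT/HH.lean` with `TT ρ r j a b` instead of `ρ - max a b`. -/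
def St_HH : Prop :=
  ∀ (ρ K : ℝ) (r : Fin 3 → ℝ) (F : (Fin 3 → ℝ) → ℝ), 0 < ρ → ρ ≤ 1 → (∀ j, ρ ≤ r j) →
    Pf ρ r K F → ∀ j : Fin 3,
    (∀ a b x y : ℝ, 0 ≤ a → 0 ≤ b →
      IntervalIntegrable (fun t => F (cor j a b t)) volume x y) ∧
    (∀ a b u : ℝ, 0 ≤ a → 0 ≤ b → 0 ≤ u → |hh F ρ j a b u| ≤ K) ∧
    (∀ a b u : ℝ, 0 ≤ a → 0 ≤ b → 0 ≤ u → r j < a + b → hh F ρ j a b u = 0) ∧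
    (∀ a b a' b' u : ℝ, 0 ≤ a → 0 ≤ b → a ≤ ρ → b ≤ ρ → a + b ≤ r j → 0 ≤ a' → 0 ≤ b' →
      a' ≤ ρ → b' ≤ ρ → a' + b' ≤ r j → 0 ≤ u →
      |hh F ρ j a b u - hh F ρ j a' b' u| ≤ 2 * K * (|a - a'| + |b - b'|)) ∧
    (∀ a b u u' : ℝ, 0 ≤ a → 0 ≤ b → 0 ≤ u → 0 ≤ u' →
      |hh F ρ j a b u - hh F ρ j a b u'| ≤ K * |u - u'|) ∧
    (∀ (n : ℕ) (u : Fin n → ℝ) (a b : ℝ), (∀ i, 0 ≤ u i) → 0 ≤ a → 0 ≤ b →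
      |hB F ρ j u a b| ≤ 2 ^ n * K) ∧
    (∀ (n : ℕ) (u : Fin n → ℝ) (a b a' b' : ℝ), (∀ i, 0 ≤ u i) → 0 ≤ a → 0 ≤ b → a + b ≤ ρ →
      0 ≤ a' → 0 ≤ b' → a' + b' ≤ ρ →
      |hB F ρ j u a b - hB F ρ j u a' b'| ≤ 2 ^ n * (2 * K) * (|a - a'| + |b - b'|)) ∧
    (∀ (n : ℕ) (u u' : Fin n → ℝ) (a b : ℝ), (∀ i, 0 ≤ u i) → (∀ i, 0 ≤ u' i) → 0 ≤ a → 0 ≤ b →
      |hB F ρ j u a b - hB F ρ j u' a b| ≤ 2 ^ n * K * ∑ i, |u i - u' i|)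

/-- HJ. As `PT/HJ.lean` (the triangle `a + b ≤ σ ≤ ρ`). -/
def St_HJ : Prop :=
  ∀ (ρ σ K : ℝ) (r : Fin 3 → ℝ) (F : (Fin 3 → ℝ) → ℝ), 0 < ρ → ρ ≤ 1 → (∀ j, ρ ≤ r j) → 0 < σ →
    σ ≤ ρ → Pf ρ r K F →
    ∀ (j : Fin 3) (n : ℕ) (u u' : Fin n → ℝ), (∀ i, 0 ≤ u i) → (∀ i, 0 ≤ u' i) →
      0 ≤ JJ F ρ σ j u ∧ JJ F ρ σ j u ≤ (2 ^ n * K) ^ 2 ∧
      |JJ F ρ σ j u - JJ F ρ σ j u'| ≤ 2 * (2 ^ n * K) ^ 2 * ∑ i, |u i - u' i|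

/-- TB. As `PT/TB.lean`: `FB F j u a = 0` if `ρ < a j` or `r j < a (o1 j) + a (o2 j)`. -/
def St_TB : Prop :=
  ∀ (ρ K : ℝ) (r : Fin 3 → ℝ) (F : (Fin 3 → ℝ) → ℝ) (w X M N : ℕ) (j : Fin 3) (n : ℕ)
    (u : Fin n → ℝ), 8 ≤ w → 0 < ρ → (∀ j, ρ ≤ r j) → Pf ρ r K F → (∀ i, 0 ≤ u i) →
    ∀ τ : PP w X → Option (Fin 3),
      ((∃ i, τ i = some j) → tB F M N j u τ = 0) ∧
      (r j < szs M N τ (o1 j) + szs M N τ (o2 j) → tB F M N j u τ = 0) ∧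
      |tB F M N j u τ| ≤ |sg τ| * (2 ^ n * K) * (2 * GG w X M N ρ) ∧
      ((∀ i, τ i ≠ some j) →
        |tB F M N j u τ - sg τ * tm (w := w) (X := X) F M N j u (szs M N τ (o1 j))
          (szs M N τ (o2 j))| ≤
          |sg τ| * (2 ^ n * K) * GG w X M N ρ * (8 / w + ∑ i ∈ supp τ, qq i))

/-- TM. As `PT/TM.lean`: if `r j < a + b` or `ρ < a` or `ρ < b` everything is `0`; otherwise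
`τ_S = TT ρ r j a b - u_S`. -/
def St_TM : Prop :=
  ∀ K ε : ℝ, 0 < ε → ∃ ε1 : ℝ, 0 < ε1 ∧ ∀ (ρ : ℝ) (r : Fin 3 → ℝ) (F : (Fin 3 → ℝ) → ℝ)
    (w X M N : ℕ), 0 < ρ → ρ ≤ 1 → (∀ j, ρ ≤ r j) → Pf ρ r K F → 0 < AA w N →
    Dist (fun e : Finset (PP w X) => ∏ i ∈ e, qq i) (ss M N) (AA w N) ε1 ρ →
    ∀ (j : Fin 3) (n : ℕ) (u : Fin n → ℝ) (a b : ℝ), n ≤ 3 → (∀ i, 0 ≤ u i) → 0 ≤ a → 0 ≤ b →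
      |tm (w := w) (X := X) F M N j u a b - AA w N * hB F ρ j u a b| ≤ ε * AA w N

/-- S1. As `PT/IS.lean`. -/
def St_S1 : Prop :=
  ∀ (ρ K ε : ℝ) (r : Fin 3 → ℝ) (F : (Fin 3 → ℝ) → ℝ), 0 < ρ → ρ < 1 / 2 → (∀ j, ρ ≤ r j) →
    Pf ρ r K F → 0 < ε →
    ∃ w0 M0 : ℕ, ∀ w M : ℕ, w0 ≤ w → M0 ≤ M → ∀ᶠ N : ℕ in atTop,
      ∑ τ : PP w (XR ρ N) → Option (Fin 3), F (szs M N τ) ^ 2 *
        ∏ i ∈ supp τ, (qq i * (1 + qq i)) ≤ AA w N ^ 3 * (II F ρ + ε)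

/-- tB. As `PT/IB.lean`. -/
def St_tB : Prop :=
  ∀ (ρ K : ℝ) (r : Fin 3 → ℝ) (F : (Fin 3 → ℝ) → ℝ), 0 < ρ → ρ < 1 / 2 → (∀ j, ρ ≤ r j) →
    Pf ρ r K F →
    ∃ w0 M0 : ℕ, ∀ w M : ℕ, w0 ≤ w → M0 ≤ M → ∀ᶠ N : ℕ in atTop,
      ∀ (j : Fin 3) (n : ℕ) (u : Fin n → ℝ), n ≤ 3 → (∀ i, 0 ≤ u i) →
        ∀ τ : PP w (XR ρ N) → Option (Fin 3),
          |tB F M N j u τ| ≤ 16 * K * (|sg τ| * AA w N) ∧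
          (r j < szs M N τ (o1 j) + szs M N τ (o2 j) → tB F M N j u τ = 0) ∧
          ((∃ i, τ i = some j) → tB F M N j u τ = 0)

/-- J. As `PT/IJ.lean`. -/
def St_J : Prop :=
  ∀ (ρ σ K ε : ℝ) (r : Fin 3 → ℝ) (F : (Fin 3 → ℝ) → ℝ), 0 < ρ → ρ < 1 / 2 → (∀ j, ρ ≤ r j) →
    0 < σ → σ ≤ ρ → Pf ρ r K F →
    0 < ε → ∃ w0 M0 : ℕ, ∀ w M : ℕ, w0 ≤ w → M0 ≤ M → ∀ᶠ N : ℕ in atTop,
      ∀ (j : Fin 3) (n : ℕ) (u : Fin n → ℝ), n ≤ 3 → (∀ i, 0 ≤ u i) →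
        AA w N ^ 4 * (JJ F ρ σ j u - ε) ≤
          ∑ τ : PP w (XR ρ N) → Option (Fin 3), tK F σ M N j u τ ^ 2 *
            ∏ i ∈ supp τ, (qq i * (1 - 2 * qq i))

/-- R. As `PT/IR.lean`. -/
def St_R : Prop :=
  ∀ (ρ σ K ε : ℝ) (r : Fin 3 → ℝ) (F : (Fin 3 → ℝ) → ℝ) (j : Fin 3) (n : ℕ), 0 < ρ → ρ < 1 / 2 →
    (∀ j, ρ ≤ r j) → 0 < σ → σ ≤ ρ →
    Pf ρ r K F → 0 < ε → ∃ M0 : ℕ, ∀ M : ℕ, M0 ≤ M →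
      QQ F ρ σ j n - ε ≤ ∑ k ∈ boxes ρ M n, mu k M * JJ F ρ σ j (uu k M)

end Pool.Agent.PU
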