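import Pool.Agent.PU.Stmts
import Pool.Agent.PU.StD
import Pool.Agent.PT.TB
import Pool.Agent.PT.DS
import Pool.Agent.PT.DG

set_option autoImplicit false

/-!
# PU / CB: the coefficients on the primes (helper7)
-/

namespace Pool.Agent.PU

open Finset Filter Pool.Agent.MT Pool.Agent.PT

section one

variable {w X : ℕ}

/-- one prime factor -/
noncomputable def CBw (i : PP w X) (s t : Option (Fin 3)) : ℝ :=
  (if s = none then 1 else -((pr i : ℝ) / ((pr i : ℝ) - 1))) * lc {0} (bb i) (bb i) s t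

theorem CB_ns (h : Fin 3) (i : PP w X) : CBw i none (some h) = 0 := by
  simp [CBw, lc]

theorem CB_hn (h : Fin 3) (hh : h ≠ 0) (i : PP w X) : CBw i (some h) none = 0 := by
  simp only [CBw, lc, mem_singleton, hh, reduceCtorEq, if_false, sub_self, mul_zero]

theorem CB_ss (h h' : Fin 3) (i : PP w X) : CBw i (some h) (some h') =
    if h = h' ∧ h ≠ 0 then -((pr i : ℝ) / ((pr i : ℝ) - 1)) else 0 := by
  simp only [CBw, lc, mem_singleton, reduceCtorEq, if_false]
  by_cases h1 : h = h' ∧ ¬ h = 0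
  · rw [if_pos h1, if_pos h1, mul_one]
  · rw [if_neg h1, if_neg h1, mul_zero]

theorem CB_eq (i : PP w X) (s t : Option (Fin 3)) (h : t ≠ none ∨ s = none ∨ s = some 0) :
    CBw i s t = TBw 0 i s t := by
  unfold CBw TBw
  congr 1
  rcases h with h | h | h
  · obtain ⟨h', rfl⟩ := Option.ne_none_iff_exists'.1 h
    cases s with
    | none => rfl
    | some g => rfl
  · subst h
    cases t with
    | none => rfl
    | some g => rfl
  · subst h
    cases t with
    | none =>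
      simp only [lc, mem_singleton, if_true]
    | some g => rfl

theorem CB_cb (F : (Fin 3 → ℝ) → ℝ) (M N : ℕ) (τ : PP w X → Option (Fin 3)) :
    cb F M N τ = ∑ σ : PP w X → Option (Fin 3), F (szs M N σ) *
      ∏ i, CBw i (σ i) (τ i) := by
  unfold cb sbst cc sg
  refine Finset.sum_congr rfl fun σ _ => ?_
  have h1 : ∏ i ∈ supp σ, (-((pr i : ℝ) / ((pr i : ℝ) - 1))) =
      ∏ i, (if σ i = none then 1 else -((pr i : ℝ) / ((pr i : ℝ) - 1))) := by
    unfold supp
    rw [Finset.prod_filter]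
    refine Finset.prod_congr rfl fun i _ => ?_
    by_cases h : σ i = none
    · simp [h]
    · simp [h]
  rw [h1, mul_assoc, ← Finset.prod_mul_distrib]
  rfl

theorem CB_FB (F : (Fin 3 → ℝ) → ℝ) (u : Fin 0 → ℝ) (a : Fin 3 → ℝ) : FB F 0 u a = F a := by
  unfold FB
  rw [Fintype.sum_eq_single (∅ : Finset (Fin 0)) (fun S hS =>
    absurd (Finset.eq_empty_of_isEmpty S) hS)]
  rw [Finset.card_empty, pow_zero, one_mul, Finset.sum_empty, add_zero, Function.update_eq_self]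

theorem CB_hB (F : (Fin 3 → ℝ) → ℝ) (ρ : ℝ) (u : Fin 0 → ℝ) (a b : ℝ) :
    hB F ρ 0 u a b = hh F ρ 0 a b 0 := by
  unfold hB
  rw [Fintype.sum_eq_single (∅ : Finset (Fin 0)) (fun S hS =>
    absurd (Finset.eq_empty_of_isEmpty S) hS)]
  rw [Finset.card_empty, pow_zero, one_mul, Finset.sum_empty]

/-- the coefficient of a configuration without the value `0` -/
theorem CB_diag (F : (Fin 3 → ℝ) → ℝ) (M N : ℕ) (u : Fin 0 → ℝ) (τ : PP w X → Option (Fin 3))
    (hτ : ∀ i, τ i ≠ some 0) :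
    cb F M N τ = sg τ * ∑ e ∈ univ.filter (fun e : Finset (PP w X) => ∀ i ∈ e, τ i = none),
      (∏ i ∈ e, qq i) * FB F 0 u (cor 0 (szs M N τ (o1 0)) (szs M N τ (o2 0)) (ss M N e)) := by
  rw [← TB_diag F M N 0 u τ hτ, CB_cb]
  rw [Finset.sum_filter]
  refine Finset.sum_congr rfl fun σ _ => ?_
  split_ifs with h
  · rw [CB_FB]
    congr 1
    exact Finset.prod_congr rfl fun i _ => CB_eq i _ _ (h i)
  · push Not at h
    obtain ⟨i, h1, h2, h3⟩ := h
    rw [Finset.prod_eq_zero (mem_univ i), mul_zero]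
    obtain ⟨g, hg⟩ := Option.ne_none_iff_exists'.1 h2
    rw [h1, hg]
    refine CB_hn g (fun h4 => h3 ?_) i
    rw [hg, h4]

theorem CB_o : o1 (0 : Fin 3) = 1 ∧ o2 (0 : Fin 3) = 2 := by decide

theorem CB_zero {ρ K : ℝ} {r : Fin 3 → ℝ} {F : (Fin 3 → ℝ) → ℝ} (hF : Pf ρ r K F)
    (a : Fin 3 → ℝ) (h : ρ < a 0 ∨ ρ < a 1 ∨ ρ < a 2 ∨ r 0 < a 1 + a 2) : F a = 0 := by
  apply hF.zero
  rintro ⟨h1, h2⟩
  have h3 := h2 0
  rw [CB_o.1, CB_o.2] at h3
  rcases h with h | h | h | h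
  · exact absurd (h1 0).2 (not_le.2 h)
  · exact absurd (h1 1).2 (not_le.2 h)
  · exact absurd (h1 2).2 (not_le.2 h)
  · exact absurd h3 (not_le.2 h)

/-- the difference to the sum without the condition of disjointness -/
theorem CB_low {ρ K : ℝ} {r : Fin 3 → ℝ} {F : (Fin 3 → ℝ) → ℝ} (hF : Pf ρ r K F) (M N : ℕ)
    (u : Fin 0 → ℝ) (τ : PP w X → Option (Fin 3)) (hτ : ∀ i, τ i ≠ some 0) :
    |cb F M N τ - sg τ * tm (w := w) (X := X) F M N 0 u (szs M N τ 1) (szs M N τ 2)| ≤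
      |sg τ| * K * GG w X M N ρ * ∑ i ∈ supp τ, qq i := by
  classical
  have hK : 0 ≤ K := (abs_nonneg _).trans (hF.bd 0)
  rw [CB_diag F M N u τ hτ, CB_o.1, CB_o.2, ← mul_sub, abs_mul, mul_assoc, mul_assoc]
  refine mul_le_mul_of_nonneg_left ?_ (abs_nonneg _)
  unfold tm
  set A := univ.filter (fun e : Finset (PP w X) => ∀ i ∈ e, τ i = none) with hA
  have e1 := Finset.sum_add_sum_compl A (fun e : Finset (PP w X) => (∏ i ∈ e, qq i) *
    FB F 0 u (cor 0 (szs M N τ 1) (szs M N τ 2) (ss M N e)))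
  rw [← e1, sub_add_cancel_left, abs_neg]
  refine (Finset.abs_sum_le_sum_abs _ _).trans ?_
  have e2 : ∀ e ∈ Aᶜ, |(∏ i ∈ e, qq i) *
      FB F 0 u (cor 0 (szs M N τ 1) (szs M N τ 2) (ss M N e))| ≤
      K * ∑ i ∈ supp τ, (if i ∈ e ∧ ss M N e ≤ ρ then ∏ l ∈ e, qq l else 0) := by
    intro e he
    have hqe : 0 ≤ ∏ i ∈ e, qq i := Finset.prod_nonneg fun i _ => (TB_q i).le
    have hnn : ∀ i ∈ supp τ, 0 ≤ (if i ∈ e ∧ ss M N e ≤ ρ then ∏ l ∈ e, qq l else 0) := by
      intro i _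
      split_ifs
      · exact hqe
      · exact le_rfl
    rw [abs_mul, abs_of_nonneg hqe, CB_FB]
    by_cases h3 : ss M N e ≤ ρ
    · rw [mem_compl, hA, mem_filter] at he
      push Not at he
      obtain ⟨i, hi, hτi⟩ := he (mem_univ _)
      have hi' : i ∈ supp τ := by
        rw [supp, mem_filter]
        exact ⟨mem_univ _, hτi⟩
      have h4 := Finset.single_le_sum hnn hi'
      rw [if_pos ⟨hi, h3⟩] at h4
      calc (∏ i ∈ e, qq i) * |F (cor 0 (szs M N τ 1) (szs M N τ 2) (ss M N e))|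
          ≤ (∏ i ∈ e, qq i) * K := mul_le_mul_of_nonneg_left (hF.bd _) hqe
        _ = K * ∏ i ∈ e, qq i := mul_comm _ _
        _ ≤ _ := mul_le_mul_of_nonneg_left h4 hK
    · rw [CB_zero hF _ (Or.inl (by
        unfold cor
        rw [if_pos rfl]
        exact not_le.1 h3)), abs_zero, mul_zero]
      exact mul_nonneg hK (Finset.sum_nonneg hnn)
  refine (Finset.sum_le_sum e2).trans ?_
  rw [← Finset.mul_sum]
  refine mul_le_mul_of_nonneg_left ?_ hK
  refine (Finset.sum_le_sum_of_subset_of_nonneg (Finset.subset_univ _) ?_).trans ?_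
  · intro e _ _
    refine Finset.sum_nonneg fun i _ => ?_
    split_ifs
    · exact Finset.prod_nonneg fun i _ => (TB_q i).le
    · exact le_rfl
  · rw [Finset.sum_comm, Finset.mul_sum]
    refine Finset.sum_le_sum fun i _ => ?_
    rw [mul_comm]
    exact TB_inj M N ρ i

/-- the product of a configuration vanishes unless it coincides with `τ` on the support -/
theorem CB_van (τ σ : PP w X → Option (Fin 3)) (h : ∃ i, τ i ≠ none ∧ (σ i ≠ τ i ∨ τ i = some 0)) :
    ∏ i, CBw i (σ i) (τ i) = 0 := by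
  obtain ⟨i, h1, h2⟩ := h
  rw [Finset.prod_eq_zero (mem_univ i)]
  obtain ⟨g, hg⟩ := Option.ne_none_iff_exists'.1 h1
  rw [hg] at h2 ⊢
  cases hσi : σ i with
  | none => exact CB_ns g i
  | some h' =>
    rw [CB_ss, if_neg]
    rintro ⟨h3, h4⟩
    rcases h2 with h2 | h2
    · exact h2 (by rw [hσi, h3])
    · exact h4 (h3.trans (Option.some.inj h2))

end one

theorem thm_CB (hTM : St_TM) : St_CB := by
  intro ρ K ε r F hρ hρ2 hr hF hε
  have hK : 0 ≤ K := (abs_nonneg _).trans (hF.bd 0)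
  obtain ⟨ε1, hε1, hT⟩ := hTM K ε hε
  obtain ⟨w1, M1, h1⟩ := (PT.thm_DS PT.thm_DG) (1 / 2) (by norm_num)
  obtain ⟨w2, M2, h2⟩ := (PT.thm_DS PT.thm_DG) ε1 hε1
  refine ⟨max (max w1 w2) 2, max M1 M2, fun w M hw hM => ?_⟩
  have hw1 : w1 ≤ w := (le_max_left _ _).trans ((le_max_left _ _).trans hw)
  have hw2 : w2 ≤ w := (le_max_right _ _).trans ((le_max_left _ _).trans hw)
  filter_upwards [h1 w hw1 M ((le_max_left _ _).trans hM) ρ hρ hρ2.le,
    h2 w hw2 M ((le_max_right _ _).trans hM) ρ hρ hρ2.le, eventually_ge_atTop 2] with N hN hN' hN2 τ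
  have hA : 0 < AA w N := by
    unfold AA phW
    refine mul_pos (div_pos ?_ ?_) (Real.log_pos (by exact_mod_cast hN2))
    · exact_mod_cast Nat.totient_pos.2 (primorial_pos w)
    · exact_mod_cast primorial_pos w
  have hG : GG w (XR ρ N) M N ρ ≤ AA w N := by
    have h4 := (abs_le.mp (hN.le ρ hρ.le le_rfl)).2
    have h5 : AA w N * ρ ≤ AA w N * (1 / 2) := mul_le_mul_of_nonneg_left hρ2.le hA.le
    have h6 : GG w (XR ρ N) M N ρ - AA w N * ρ ≤ 1 / 2 * AA w N := h4
    linarith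
  refine ⟨?_, ?_, ?_⟩
  · rintro ⟨i, hi⟩
    rw [CB_cb]
    refine Finset.sum_eq_zero fun σ _ => ?_
    rw [CB_van τ σ ⟨i, by rw [hi]; simp, Or.inr hi⟩, mul_zero]
  · intro h
    rw [CB_cb]
    refine Finset.sum_eq_zero fun σ _ => ?_
    by_cases hσ : ∀ i, τ i ≠ none → σ i = τ i
    · have hsub : ∀ g : Fin 3, part τ g ⊆ part σ g := by
        intro g i hi
        rw [part, mem_filter] at hi ⊢
        refine ⟨mem_univ _, ?_⟩
        rw [hσ i (by rw [hi.2]; simp), hi.2]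
      have h3 : szs M N τ 1 ≤ szs M N σ 1 := TB_ssmono M N (hsub _)
      have h4 : szs M N τ 2 ≤ szs M N σ 2 := TB_ssmono M N (hsub _)
      rw [CB_zero hF (szs M N σ), zero_mul]
      rcases h with h | h | h
      · exact Or.inr (Or.inl (by linarith))
      · exact Or.inr (Or.inr (Or.inl (by linarith)))
      · exact Or.inr (Or.inr (Or.inr (by linarith)))
    · push Not at hσ
      obtain ⟨i, h3, h4⟩ := hσ
      rw [CB_van τ σ ⟨i, h3, Or.inl h4⟩, mul_zero]
  · intro hτ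
    have u : Fin 0 → ℝ := fun i => i.elim0
    have hs : ∀ h : Fin 3, 0 ≤ szs M N τ h := fun h => by
      unfold szs ss
      exact Finset.sum_nonneg fun i _ => TB_sz M N _ (TB_pr i).2.one_lt.le
    have g1 := CB_low hF M N u τ hτ
    have g2 := hT ρ r F w (XR ρ N) M N hρ (by linarith) hr hF hA hN' 0 0 u (szs M N τ 1)
      (szs M N τ 2) (by norm_num) (fun i => i.elim0) (hs 1) (hs 2)
    rw [CB_hB] at g2
    set T := tm (w := w) (X := XR ρ N) F M N 0 u (szs M N τ 1) (szs M N τ 2) with hTdef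
    have hq : 0 ≤ ∑ i ∈ supp τ, qq i := Finset.sum_nonneg fun i _ => (TB_q i).le
    have g3 : |sg τ * T - sg τ * (AA w N * hh F ρ 0 (szs M N τ 1) (szs M N τ 2) 0)| ≤
        |sg τ| * (ε * AA w N) := by
      rw [← mul_sub, abs_mul]
      exact mul_le_mul_of_nonneg_left g2 (abs_nonneg _)
    have g4 : |sg τ| * K * GG w (XR ρ N) M N ρ * ∑ i ∈ supp τ, qq i ≤
        |sg τ| * K * AA w N * ∑ i ∈ supp τ, qq i := by
      refine mul_le_mul_of_nonneg_right ?_ hq
      exact mul_le_mul_of_nonneg_left hG (mul_nonneg (abs_nonneg _) hK)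
    have g5 := abs_sub_le (cb F M N τ) (sg τ * T)
      (sg τ * (AA w N * hh F ρ 0 (szs M N τ 1) (szs M N τ 2) 0))
    have g6 : |sg τ| * AA w N * (ε + K * ∑ i ∈ supp τ, qq i) = |sg τ| * (ε * AA w N) +
        |sg τ| * K * AA w N * ∑ i ∈ supp τ, qq i := by ring
    rw [g6]
    linarith

end Pool.Agent.PU
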