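import Pool.Agent.PU.Stmts
import Pool.Agent.PT.Cfg

set_option autoImplicit false

/-!
# PU / Cfg

As `PT/Cfg.lean`, for the profiles with the larger region `Reg2`.
-/

namespace Pool.Agent.PU

open Finset Filter Pool.Agent.MT Pool.Agent.PT

private lemma cfg2_vanish {ρ K : ℝ} {r : Fin 3 → ℝ} {F : (Fin 3 → ℝ) → ℝ} (hF : Pf ρ r K F)
    (j : Fin 3) (x : Fin 3 → ℝ) (hx : ∀ i, 0 ≤ x i) (t : ℝ) (ht : ρ < t) :
    F (Function.update x j (x j + t)) = 0 := by
  refine hF.zero _ fun hR => ?_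
  have h1 := (hR.1 j).2
  rw [Function.update_self] at h1
  linarith [hx j]

/-- the signed sum over the sieving primes in the box is the profile of the box -/
private lemma cfg2_sum {w X : ℕ} {ρ K : ℝ} {r : Fin 3 → ℝ} {F : (Fin 3 → ℝ) → ℝ} (hF : Pf ρ r K F) (M N : ℕ) (j : Fin 3)
    {n : ℕ} (u : Fin n → ℝ) (p : Fin n → ℕ) (hp : Function.Injective p) (hu : ∀ l, 0 ≤ u l)
    (E : Finset (PP w X)) (hE : ∀ i, i ∈ E ↔ ∃ l, p l = pr i)
    (hsz : ∀ l, sz M N (p l) = u l) (hbig : ∀ l, (∃ i : PP w X, pr i = p l) ∨ ρ < u l)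
    (x : Fin 3 → ℝ) (hx : ∀ i, 0 ≤ x i) :
    ∑ S ∈ E.powerset, (-1 : ℝ) ^ S.card * F (Function.update x j (x j + ss M N S)) =
      FB F j u x := by
  classical
  set I : Finset (Fin n) := univ.filter (fun l => ∃ i : PP w X, pr i = p l) with hI
  have h1 : FB F j u x = ∑ S ∈ I.powerset,
      (-1 : ℝ) ^ S.card * F (Function.update x j (x j + ∑ i ∈ S, u i)) := by
    unfold FB
    symm
    refine Finset.sum_subset (Finset.subset_univ _) fun S _ hS => ?_
    rw [Finset.mem_powerset, Finset.not_subset] at hS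
    obtain ⟨l, hl, hlI⟩ := hS
    have h2 : ρ < u l := by
      rcases hbig l with h3 | h3
      · exact absurd (by rw [hI, mem_filter]; exact ⟨mem_univ _, h3⟩) hlI
      · exact h3
    have h3 : u l ≤ ∑ i ∈ S, u i := Finset.single_le_sum (fun i _ => hu i) hl
    rw [cfg2_vanish hF j x hx _ (lt_of_lt_of_le h2 h3), mul_zero]
  rw [h1]
  have hpr : Function.Injective (pr : PP w X → ℕ) := Subtype.val_injective
  have h4 := cfg_pow E pr hpr
    (fun c s => (-1 : ℝ) ^ c * F (Function.update x j (x j + s))) (sz M N)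
  have h5 := cfg_pow I p hp
    (fun c s => (-1 : ℝ) ^ c * F (Function.update x j (x j + s))) (sz M N)
  have h6 : E.image pr = I.image p := by
    ext q
    rw [mem_image, mem_image]
    constructor
    · rintro ⟨i, hi, rfl⟩
      obtain ⟨l, hl⟩ := (hE i).1 hi
      exact ⟨l, by rw [hI, mem_filter]; exact ⟨mem_univ _, i, hl.symm⟩, hl⟩
    · rintro ⟨l, hl, rfl⟩
      rw [hI, mem_filter] at hl
      obtain ⟨i, hi⟩ := hl.2
      exact ⟨i, (hE i).2 ⟨l, hi.symm⟩, hi⟩
  unfold ss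
  rw [h4, h6, ← h5]
  simp only [hsz]

theorem thm_Cfg : St_Cfg := by
  classical
  intro ρ K r F hρ0 hρ1 hr hK hF
  refine ⟨162 * K, by positivity, fun sh hsh w hw hshw M hM => ?_⟩
  have hM' : (0 : ℝ) < M := by exact_mod_cast hM
  have e1 : ∀ᶠ N : ℕ in atTop, (8 : ℝ) < (N : ℝ) ^ (1 / (M : ℝ)) :=
    ((tendsto_rpow_atTop (by positivity : (0 : ℝ) < 1 / (M : ℝ))).comp
      tendsto_natCast_atTop_atTop).eventually_gt_atTop 8
  have e2 : ∀ᶠ N : ℕ in atTop, (w : ℝ) < (N : ℝ) ^ (1 / 1000 : ℝ) :=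
    ((tendsto_rpow_atTop (by norm_num : (0 : ℝ) < 1 / 1000)).comp
      tendsto_natCast_atTop_atTop).eventually_gt_atTop (w : ℝ)
  filter_upwards [e1, e2, eventually_gt_atTop 1] with N h8 hwN hN n hn k hk j a ha1 ha2 hb
  have hN' : (1 : ℝ) < N := by exact_mod_cast hN
  have hN0 : (0 : ℝ) < N := by linarith
  obtain ⟨p, q, hp1, hq, hmq, hpm, hp2, hqρ⟩ := cfg_box hM hN h8 ha1 hk hb
  have hsize : ∀ l, (N : ℝ) ^ (1 / 1000 : ℝ) < p l ∧ sz M N (p l) = uu k M l := fun l =>
    cfg_size hM hN (hk.2.1 l) (hp2 l).1 (hp2 l).2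
  -- the configuration
  set Y : PP w (XR ρ N) → Option (Fin 3) := YY pr sh a with hY
  have hi_pr : ∀ i : PP w (XR ρ N), (pr i).Prime ∧ w < pr i ∧ pr i ≤ XR ρ N := by
    intro i
    have h := i.2
    rw [mem_filter, mem_Ioc] at h
    exact ⟨h.2, h.1.1, h.1.2⟩
  have hlt : ∀ (i : PP w (XR ρ N)) (h : Fin 3), sh h < pr i := fun i h =>
    lt_of_le_of_lt (hshw h) (hi_pr i).2.1
  have hYj : ∀ i : PP w (XR ρ N), Y i = some j ↔ ∃ l, p l = pr i := by
    intro i
    rw [hY, YY_eq_some pr sh hsh hlt a i j, hmq]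
    constructor
    · intro hd
      rcases ((hi_pr i).1.dvd_mul).1 hd with h1 | h1
      · obtain ⟨l, -, hl⟩ := ((hi_pr i).1.prime.dvd_finsetProd_iff _).1 h1
        exact ⟨l, ((Nat.prime_dvd_prime_iff_eq (hi_pr i).1 (hp1 l)).1 hl).symm⟩
      · exfalso
        have h2 := (Nat.prime_dvd_prime_iff_eq (hi_pr i).1 hq).1 h1
        have h3 : (pr i : ℝ) ≤ (N : ℝ) ^ ρ :=
          le_trans (by exact_mod_cast (hi_pr i).2.2)
            (Nat.floor_le (Real.rpow_nonneg hN0.le ρ))
        rw [h2] at h3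
        linarith
    · rintro ⟨l, hl⟩
      rw [← hl]
      exact Dvd.dvd.mul_right (Finset.dvd_prod_of_mem _ (mem_univ l)) _
  set E : Finset (PP w (XR ρ N)) := univ.filter (fun i => Y i = some j) with hE
  have hE' : ∀ i, i ∈ E ↔ Y i = some j := fun i => by
    rw [hE, mem_filter]
    exact ⟨fun e => e.2, fun e => ⟨mem_univ _, e⟩⟩
  have hEl : ∀ i, i ∈ E ↔ ∃ l, p l = pr i := fun i => (hE' i).trans (hYj i)
  have hEcard : E.card ≤ 3 := by
    have h1 : E.image pr ⊆ (univ : Finset (Fin n)).image p := by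
      intro x hx
      rw [mem_image] at hx ⊢
      obtain ⟨i, hi, rfl⟩ := hx
      obtain ⟨l, hl⟩ := (hEl i).1 hi
      exact ⟨l, mem_univ _, hl⟩
    have h2 := Finset.card_le_card h1
    rw [Finset.card_image_of_injective E
      (show Function.Injective (pr : PP w (XR ρ N) → ℕ) from Subtype.val_injective)] at h2
    refine h2.trans (Finset.card_image_le.trans ?_)
    rw [Finset.card_univ, Fintype.card_fin]
    exact hn
  -- the bound for `q`
  set ε : ℝ := 2 * (N : ℝ) ^ (-(1 / 1000) : ℝ) with hε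
  have hqε : ∀ i ∈ E, qq i ≤ ε := by
    intro i hi
    obtain ⟨l, hl⟩ := (hEl i).1 hi
    have h1 := (hsize l).1
    rw [hl] at h1
    have h2 := cbd_pr i
    have h3 : 0 < (N : ℝ) ^ (1 / 1000 : ℝ) := Real.rpow_pos_of_pos hN0 _
    unfold qq
    rw [hε, Real.rpow_neg hN0.le, ← div_eq_mul_inv, div_le_div_iff₀ (by linarith) h3]
    linarith
  have hε0 : 0 ≤ ε := by
    rw [hε]
    positivity
  -- the bounds `T`
  set T : PP w (XR ρ N) → ℝ := fun i => (if Y i = none then 1 else 2) * (1 + 3 * qq i) with hT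
  have hqq0 : ∀ i : PP w (XR ρ N), 0 < qq i := by
    intro i
    have h2 := cbd_pr i
    have h3 : (0 : ℝ) < (pr i : ℝ) - 1 := by linarith
    unfold qq
    positivity
  have hT1 : ∀ i, 1 ≤ T i := by
    intro i
    rw [hT]
    dsimp only
    have h1 := hqq0 i
    split_ifs
    · linarith
    · linarith
  have hTY : ∀ i, ∑ s, cbdG Y i s ≤ T i := fun i => cbd_one Y i
  have hTd : ∀ i, ∑ s, cbdG (dl j Y) i s ≤ T i := by
    intro i
    refine (cbd_one (dl j Y) i).trans ?_
    rw [hT]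
    dsimp only
    have h1 := hqq0 i
    by_cases hy : Y i = none
    · have h2 : dl j Y i = none := by
        unfold dl
        rw [hy]
        simp
      rw [if_pos h2, if_pos hy]
    · rw [if_neg hy]
      split_ifs
      · linarith
      · exact le_refl _
  have hTprod : ∏ i, T i = 2 ^ (supp Y).card * ∏ i : PP w (XR ρ N), (1 + 3 * qq i) := by
    rw [hT, Finset.prod_mul_distrib]
    congr 1
    unfold supp
    rw [Finset.prod_ite, Finset.prod_const_one, one_mul, Finset.prod_const]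
  have hTP0 : 0 ≤ ∏ i, T i := Finset.prod_nonneg fun i _ => le_trans zero_le_one (hT1 i)
  -- the pairs
  set B : Finset (PP w (XR ρ N) × Fin 3) := E ×ˢ univ with hB
  have hBcard : (B.card : ℝ) ≤ 9 := by
    rw [hB, Finset.card_product, Finset.card_univ, Fintype.card_fin]
    have : E.card * 3 ≤ 9 := by omega
    exact_mod_cast this
  set B' : Finset (PP w (XR ρ N) × Fin 3) := B.filter (fun p => p.2 ≠ j) with hB'
  have hB'card : (B'.card : ℝ) ≤ 9 :=
    le_trans (by exact_mod_cast Finset.card_filter_le _ _) hBcard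
  -- splitting
  have hG : ∀ x : Fin 3 → ℝ, |FB F j (uu k M) x| ≤ 8 * K := by
    intro x
    unfold FB
    refine (Finset.abs_sum_le_sum_abs _ _).trans ?_
    have h1 : ∀ S ∈ (univ : Finset (Finset (Fin n))),
        |(-1 : ℝ) ^ S.card * F (Function.update x j (x j + ∑ i ∈ S, uu k M i))| ≤ K := by
      intro S _
      rw [abs_mul, abs_pow, abs_neg, abs_one, one_pow, one_mul]
      exact hF.bd _
    refine (Finset.sum_le_card_nsmul _ _ _ h1).trans ?_
    rw [Finset.card_univ, Fintype.card_finset, Fintype.card_fin, nsmul_eq_mul]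
    refine mul_le_mul_of_nonneg_right ?_ hK.le
    have h2 : 2 ^ n ≤ 2 ^ 3 := Nat.pow_le_pow_right (by norm_num) hn
    have h3 : ((2 ^ n : ℕ) : ℝ) ≤ ((2 ^ 3 : ℕ) : ℝ) := by exact_mod_cast h2
    norm_num at h3
    exact_mod_cast h3
  have huu : ∀ l, 0 ≤ uu k M l := by
    intro l
    unfold uu
    positivity
  have hbig : ∀ l, (∃ i : PP w (XR ρ N), pr i = p l) ∨ ρ < uu k M l := by
    intro l
    by_cases hl : p l ≤ XR ρ N
    · left
      have h1 : w < p l := by
        have := lt_trans hwN (hsize l).1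
        exact_mod_cast this
      exact ⟨⟨p l, by rw [mem_filter, mem_Ioc]; exact ⟨⟨h1, hl⟩, hp1 l⟩⟩, rfl⟩
    · right
      push Not at hl
      have h1 : (N : ℝ) ^ ρ < p l := Nat.lt_of_floor_lt hl
      have h2 := lt_of_lt_of_le h1 (hp2 l).2
      exact (Real.rpow_lt_rpow_left_iff hN').1 h2
  have hmain := cfg_main F (FB F j (uu k M)) M N j Y E hE' (fun τ =>
    cfg2_sum hF M N j (uu k M) p hpm.injective huu E hEl (fun l => (hsize l).2) hbig
      (szs M N τ) (cfg_szs_nonneg M N τ))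
  unfold Lam
  rw [cfg_comb, cfg_comb]
  rw [← Finset.sum_filter_add_sum_filter_not univ
    (fun σ : PP w (XR ρ N) → Option (Fin 3) => ∀ i ∈ E, σ i = none ∨ σ i = some j)
    (fun σ => F (szs M N σ) * ∏ i, cfgF Y i (σ i)),
    ← Finset.sum_filter_add_sum_filter_not univ
    (fun σ : PP w (XR ρ N) → Option (Fin 3) => ∀ i ∈ E, σ i = none)
    (fun σ => FB F j (uu k M) (szs M N σ) * ∏ i, cfgF (dl j Y) i (σ i)), hmain]
  -- the errors
  have herr1 : |∑ σ ∈ univ.filter (fun σ : PP w (XR ρ N) → Option (Fin 3) =>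
      ¬ ∀ i ∈ E, σ i = none ∨ σ i = some j), F (szs M N σ) * ∏ i, cfgF Y i (σ i)| ≤
      K * (9 * (ε * ∏ i, T i)) := by
    refine (Finset.abs_sum_le_sum_abs _ _).trans ?_
    have h1 : ∀ σ ∈ univ.filter (fun σ : PP w (XR ρ N) → Option (Fin 3) =>
        ¬ ∀ i ∈ E, σ i = none ∨ σ i = some j),
        |F (szs M N σ) * ∏ i, cfgF Y i (σ i)| ≤ K * ∏ i, cbdG Y i (σ i) := by
      intro σ _
      rw [abs_mul, Finset.abs_prod, Finset.prod_congr rfl fun i _ => cfg_abs Y i (σ i)]
      exact mul_le_mul_of_nonneg_right (hF.bd _)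
        (Finset.prod_nonneg fun i _ => cfg_nonneg Y i _)
    refine (Finset.sum_le_sum h1).trans ?_
    rw [← Finset.mul_sum]
    refine mul_le_mul_of_nonneg_left ?_ hK.le
    refine (cfg_bad Y T hTY hT1 ε B' ?_ _ ?_).trans
      (mul_le_mul_of_nonneg_right hB'card (mul_nonneg hε0 hTP0))
    · intro p hp
      rw [hB', mem_filter, hB, mem_product] at hp
      rw [cfg_diff Y p.1 p.2]
      · exact hqε _ hp.1.1
      · rw [(hE' p.1).1 hp.1.1]
        intro e
        exact hp.2 (Option.some.inj e).symm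
    · intro σ hσ
      rw [mem_filter] at hσ
      have h2 := hσ.2
      push Not at h2
      obtain ⟨i, hi, h3, h4⟩ := h2
      obtain ⟨h, hh⟩ := Option.ne_none_iff_exists'.1 h3
      refine ⟨(i, h), ?_, hh⟩
      rw [hB', mem_filter, hB, mem_product]
      refine ⟨⟨hi, mem_univ _⟩, fun e => h4 ?_⟩
      rw [hh, ← e]
  have herr2 : |∑ σ ∈ univ.filter (fun σ : PP w (XR ρ N) → Option (Fin 3) =>
      ¬ ∀ i ∈ E, σ i = none), FB F j (uu k M) (szs M N σ) * ∏ i, cfgF (dl j Y) i (σ i)| ≤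
      8 * K * (9 * (ε * ∏ i, T i)) := by
    refine (Finset.abs_sum_le_sum_abs _ _).trans ?_
    have h1 : ∀ σ ∈ univ.filter (fun σ : PP w (XR ρ N) → Option (Fin 3) =>
        ¬ ∀ i ∈ E, σ i = none),
        |FB F j (uu k M) (szs M N σ) * ∏ i, cfgF (dl j Y) i (σ i)| ≤
          8 * K * ∏ i, cbdG (dl j Y) i (σ i) := by
      intro σ _
      rw [abs_mul, Finset.abs_prod, Finset.prod_congr rfl fun i _ => cfg_abs (dl j Y) i (σ i)]
      exact mul_le_mul_of_nonneg_right (hG _)
        (Finset.prod_nonneg fun i _ => cfg_nonneg (dl j Y) i _)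
    refine (Finset.sum_le_sum h1).trans ?_
    rw [← Finset.mul_sum]
    refine mul_le_mul_of_nonneg_left ?_ (by positivity)
    refine (cfg_bad (dl j Y) T hTd hT1 ε B ?_ _ ?_).trans
      (mul_le_mul_of_nonneg_right hBcard (mul_nonneg hε0 hTP0))
    · intro p hp
      rw [hB, mem_product] at hp
      rw [cfg_diff (dl j Y) p.1 p.2]
      · exact hqε _ hp.1
      · unfold dl
        rw [if_pos ((hE' p.1).1 hp.1)]
        simp
    · intro σ hσ
      rw [mem_filter] at hσ
      have h2 := hσ.2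
      push Not at h2
      obtain ⟨i, hi, h3⟩ := h2
      obtain ⟨h, hh⟩ := Option.ne_none_iff_exists'.1 h3
      refine ⟨(i, h), ?_, hh⟩
      rw [hB, mem_product]
      exact ⟨hi, mem_univ _⟩
  rw [add_sub_add_left_eq_sub]
  refine (abs_sub _ _).trans ?_
  refine (add_le_add herr1 herr2).trans (le_of_eq ?_)
  rw [hTprod, hε]
  ring

end Pool.Agent.PU
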