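import Pool.Agent.PU.Stmts
import Pool.Agent.PU.StD
import Pool.Agent.PT.Core

set_option autoImplicit false

/-!
# PU / Core: the criterion with two squares
-/

namespace Pool.Agent.PU

open Finset Filter Pool.Agent.MT Pool.Agent.PT

/-- The sum of one square over the boxes of one of the three numbers. -/
theorem core_low (hFace : St_Face) (hMass : St_Mass) (hR : St_R) (η : ℝ → ℝ) (hη : IsWt η)
    (hmη : 0 < mη η) (ρ σ K ε CM : ℝ) (r : Fin 3 → ℝ) (F : (Fin 3 → ℝ) → ℝ) (hσ : 0 < σ)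
    (hσρ : σ ≤ ρ) (hρ2 : ρ < 1 / 2) (hr : ∀ j, ρ ≤ r j) (hK : 0 < K) (hF : Pf ρ r K F)
    (hε : 0 < ε) (hε1 : ε ≤ 1 / 2) (sh : Fin 3 → ℕ) (hsh : Function.Injective sh) (hCM : 0 < CM)
    (hmu : ∀ M n : ℕ, 1 ≤ M → n ≤ 3 →
      (∀ k ∈ boxes ρ M n, 0 ≤ mu k M) ∧ ∑ k ∈ boxes ρ M n, mu k M ≤ CM)
    (j : Fin 3) (hj : r j + σ < 1 / 2) :
    ∃ w0 M0 : ℕ, ∀ w M : ℕ, w0 ≤ w → M0 ≤ M → ∀ v : ℕ,
      (∀ h, (v + sh h).Coprime (primorial w)) → ∀ c : ℕ → ℝ, (∀ m, 0 ≤ c m ∧ c m ≤ 1) →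
      ∀ᶠ N : ℕ in atTop,
      N * mη η / primorial w * AA w N ^ 3 * ((1 - ε) *
          (∑ n ∈ range 4, c (n + 1) * QQ F ρ σ j n - 4 * (ε * (1 + CM)))) -
        N * ∑ n ∈ range 4, ((boxes ρ M n).card : ℝ) ≤
      ∑ a ∈ (range (N + 1)).filter (fun a => a % primorial w = v % primorial w),
        η ((a : ℝ) / N) * Lam F ρ M w N sh a ^ 2 *
          ∑ n ∈ range 4, ∑ k ∈ boxes ρ M n, c (n + 1) * bz k M N (a + sh j) := by
  classical
  have hρ : 0 < ρ := lt_of_lt_of_le hσ hσρ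
  obtain ⟨w2, M2, hF1⟩ := hFace η hη ρ σ K ε r F hσ hσρ hρ2 hr hK hF hε sh hsh
  choose M3 hM3 using fun (n : ℕ) => hR ρ σ K ε r F j n hρ hρ2 hr hσ hσρ hF hε
  refine ⟨w2 + 14, M2 + 1 + ∑ n ∈ range 4, M3 n, ?_⟩
  intro w M hw hM v hv c hc
  have hM1 : 1 ≤ M := by omega
  have hM3' : ∀ n ∈ range 4, M3 n ≤ M := by
    intro n hn
    have h1 : M3 n ≤ ∑ n ∈ range 4, M3 n :=
      single_le_sum (f := fun n => M3 n) (fun _ _ => Nat.zero_le _) hn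
    omega
  have hWn : 0 < primorial w := primorial_pos w
  obtain ⟨W, hW⟩ : ∃ W : ℝ, W = (primorial w : ℝ) := ⟨_, rfl⟩
  have hW0 : 0 < W := by rw [hW]; exact_mod_cast hWn
  have hph := phW_pos1 w
  have hev1 : ∀ᶠ N : ℕ in atTop, ∀ n ∈ range 4, ∀ k ∈ boxes ρ M n,
      B0 η N (bz k M N) / (primorial w).totient *
        (AA w N ^ 4 * (JJ F ρ σ j (uu k M) - ε)) - N ≤
      ∑ a ∈ (range (N + 1)).filter (fun a => a % primorial w = v % primorial w),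
        η ((a : ℝ) / N) * bz k M N (a + sh j) * Lam F ρ M w N sh a ^ 2 := by
    rw [eventually_all_finset]
    intro n hn
    rw [eventually_all_finset]
    intro k hk
    have hk' : BoxOK ρ M k := by
      unfold boxes at hk
      exact (mem_filter.1 hk).2
    exact hF1 w M (by omega) (by omega) v hv n (by have := mem_range.1 hn; omega) k hk' j hj
  have hev2 : ∀ᶠ N : ℕ in atTop, ∀ n ∈ range 4, ∀ k ∈ boxes ρ M n,
      (1 - ε) * (mη η * (N / Real.log N) * mu k M) ≤ B0 η N (bz k M N) := by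
    rw [eventually_all_finset]
    intro n hn
    rw [eventually_all_finset]
    intro k hk
    have hk' : BoxOK ρ M k := by
      unfold boxes at hk
      exact (mem_filter.1 hk).2
    exact hMass η hη ρ hρ M hM1 n (by have := mem_range.1 hn; omega) k hk' ε hε
  filter_upwards [hev1, hev2, eventually_ge_atTop 2] with N g2 g3 hN
  have hNR : (2 : ℝ) ≤ N := by exact_mod_cast hN
  have hN0 : (0 : ℝ) < N := by linarith
  obtain ⟨L, hL⟩ : ∃ L : ℝ, L = Real.log N := ⟨_, rfl⟩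
  have hL0 : 0 < L := by rw [hL]; exact Real.log_pos (by linarith)
  obtain ⟨A, hA⟩ : ∃ A : ℝ, A = AA w N := ⟨_, rfl⟩
  have hAL : A = phW w * L := by rw [hA, hL]; rfl
  have hA0 : 0 < A := by rw [hAL]; positivity
  obtain ⟨X, hX⟩ : ∃ X : ℝ, X = N * mη η / W * A ^ 3 := ⟨_, rfl⟩
  have hX0 : 0 < X := by rw [hX]; positivity
  obtain ⟨T, hT⟩ : ∃ T : Finset ℕ,
    T = (range (N + 1)).filter (fun a => a % primorial w = v % primorial w) := ⟨_, rfl⟩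
  simp only [← hT, ← hA] at g2
  simp only [← hL] at g3
  rw [← hT, ← hW, ← hA, ← hX]
  obtain ⟨ϕ, hϕ⟩ : ∃ ϕ : ℝ, ϕ = ((primorial w).totient : ℝ) := ⟨_, rfl⟩
  have hϕ0 : 0 < ϕ := by rw [hϕ]; exact_mod_cast Nat.totient_pos.2 hWn
  have hphϕ : phW w = ϕ / W := by rw [hϕ, hW]; rfl
  -- lower bound for one box
  have hbox : ∀ n ∈ range 4, ∀ k ∈ boxes ρ M n,
      (1 - ε) * (X * (mu k M * JJ F ρ σ j (uu k M) - ε * mu k M)) - N ≤
      ∑ a ∈ T, η ((a : ℝ) / N) * bz k M N (a + sh j) * Lam F ρ M w N sh a ^ 2 := by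
    intro n hn k hk
    have e0 := g2 n hn k hk
    have e1 := g3 n hn k hk
    have hmu0 := (hmu M n hM1 (by have := mem_range.1 hn; omega)).1 k hk
    rw [← hϕ] at e0
    rcases le_or_gt 0 (JJ F ρ σ j (uu k M) - ε) with h | h
    · refine le_trans ?_ e0
      have e2 : (1 - ε) * (mη η * (N / L) * mu k M) / ϕ * (A ^ 4 * (JJ F ρ σ j (uu k M) - ε)) ≤
          B0 η N (bz k M N) / ϕ * (A ^ 4 * (JJ F ρ σ j (uu k M) - ε)) := by
        refine mul_le_mul_of_nonneg_right (div_le_div_of_nonneg_right e1 hϕ0.le) ?_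
        exact mul_nonneg (by positivity) h
      have e3 : (1 - ε) * (mη η * (N / L) * mu k M) / ϕ * (A ^ 4 * (JJ F ρ σ j (uu k M) - ε)) =
          (1 - ε) * (X * (mu k M * JJ F ρ σ j (uu k M) - ε * mu k M)) := by
        have e4 : A ^ 4 = A ^ 3 * (ϕ / W * L) := by
          rw [pow_succ, hAL, hphϕ]
        rw [hX, e4]
        field_simp
      linarith
    · have e5 : 0 ≤ ∑ a ∈ T, η ((a : ℝ) / N) * bz k M N (a + sh j) *
          Lam F ρ M w N sh a ^ 2 :=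
        sum_nonneg fun a _ => mul_nonneg (mul_nonneg (hη.nonneg _) (face_bz_nonneg _ _ _ _))
          (sq_nonneg _)
      have e6 : mu k M * JJ F ρ σ j (uu k M) - ε * mu k M ≤ 0 := by
        have : mu k M * JJ F ρ σ j (uu k M) - ε * mu k M =
          mu k M * (JJ F ρ σ j (uu k M) - ε) := by ring
        rw [this]
        exact mul_nonpos_of_nonneg_of_nonpos hmu0 h.le
      have e7 : (1 - ε) * (X * (mu k M * JJ F ρ σ j (uu k M) - ε * mu k M)) ≤ 0 :=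
        mul_nonpos_of_nonneg_of_nonpos (by linarith) (mul_nonpos_of_nonneg_of_nonpos hX0.le e6)
      linarith
  -- sum over the boxes
  have hjn : ∀ n ∈ range 4,
      (1 - ε) * X * (c (n + 1) * QQ F ρ σ j n - ε * (1 + CM)) -
        N * ((boxes ρ M n).card : ℝ) ≤
      ∑ k ∈ boxes ρ M n, c (n + 1) *
        ∑ a ∈ T, η ((a : ℝ) / N) * bz k M N (a + sh j) * Lam F ρ M w N sh a ^ 2 := by
    intro n hn
    have e1 := hM3 n M (hM3' n hn)
    have e2 := (hmu M n hM1 (by have := mem_range.1 hn; omega)).2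
    have e3 : ∑ k ∈ boxes ρ M n,
        ((1 - ε) * (X * (mu k M * JJ F ρ σ j (uu k M) - ε * mu k M)) - N) ≤
        ∑ k ∈ boxes ρ M n,
          ∑ a ∈ T, η ((a : ℝ) / N) * bz k M N (a + sh j) * Lam F ρ M w N sh a ^ 2 :=
      sum_le_sum fun k hk => hbox n hn k hk
    rw [sum_sub_distrib, ← mul_sum, ← mul_sum, sum_sub_distrib, ← mul_sum, sum_const,
      nsmul_eq_mul] at e3
    obtain ⟨hc0, hc1⟩ := hc (n + 1)
    have e4 := mul_le_mul_of_nonneg_left e3 hc0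
    rw [← mul_sum]
    refine le_trans ?_ e4
    have e5 : QQ F ρ σ j n - ε - ε * CM ≤
        ∑ k ∈ boxes ρ M n, mu k M * JJ F ρ σ j (uu k M) - ε * ∑ k ∈ boxes ρ M n, mu k M := by
      have := mul_le_mul_of_nonneg_left e2 hε.le
      linarith
    have e6 : 0 ≤ (1 - ε) * X := mul_nonneg (by linarith) hX0.le
    have e7 := mul_le_mul_of_nonneg_left e5 e6
    have e8 := mul_le_mul_of_nonneg_left e7 hc0
    have e9 : c (n + 1) * (((boxes ρ M n).card : ℝ) * N) ≤ N * ((boxes ρ M n).card : ℝ) := by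
      calc c (n + 1) * (((boxes ρ M n).card : ℝ) * N) ≤
          1 * (((boxes ρ M n).card : ℝ) * N) := mul_le_mul_of_nonneg_right hc1 (by positivity)
        _ = N * ((boxes ρ M n).card : ℝ) := by ring
    have e10 : c (n + 1) * ((1 - ε) * X * (ε * (1 + CM))) ≤ (1 - ε) * X * (ε * (1 + CM)) :=
      mul_le_of_le_one_left (mul_nonneg e6 (by positivity)) hc1
    linarith
  have hgsum : ∑ a ∈ T, η ((a : ℝ) / N) * Lam F ρ M w N sh a ^ 2 *
        (∑ n ∈ range 4, ∑ k ∈ boxes ρ M n, c (n + 1) * bz k M N (a + sh j)) =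
      ∑ n ∈ range 4, ∑ k ∈ boxes ρ M n, c (n + 1) *
        ∑ a ∈ T, η ((a : ℝ) / N) * bz k M N (a + sh j) * Lam F ρ M w N sh a ^ 2 := by
    simp only [mul_sum]
    rw [sum_comm]
    refine sum_congr rfl fun n _ => ?_
    rw [sum_comm]
    refine sum_congr rfl fun k _ => ?_
    refine sum_congr rfl fun a _ => ?_
    ring
  rw [hgsum]
  refine le_trans (le_of_eq ?_) (sum_le_sum fun n hn => hjn n hn)
  simp only [sum_sub_distrib, ← mul_sum, sum_const, card_range, nsmul_eq_mul]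
  push_cast
  ring

/-- The elementary inequality behind the criterion. -/
theorem core_alg {κ l m : ℝ} (hκ : 0 < κ) :
    (1 - κ) * l ^ 2 - 1 / κ * (l - m) ^ 2 ≤ m ^ 2 := by
  have h1 : 0 ≤ (κ * l - (l - m)) ^ 2 / κ := by positivity
  have h2 : (κ * l - (l - m)) ^ 2 / κ = κ * l ^ 2 - 2 * l * (l - m) + 1 / κ * (l - m) ^ 2 := by
    field_simp
    ring
  nlinarith [sq_nonneg (l - m)]

/-- The sign of the weight. -/
theorem core_sign {κ l m g0 g1 g2 : ℝ} (hκ : 0 < κ) (h0 : 0 ≤ g0) (h0' : g0 ≤ 1)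
    (h1 : 0 ≤ g1) (h1' : g1 ≤ 1) (h2 : 0 ≤ g2) (h2' : g2 ≤ 1) :
    g0 * ((1 - κ) * l ^ 2 - 1 / κ * (l - m) ^ 2) - l ^ 2 * (1 - g1) - m ^ 2 * (1 - g2) ≤ l ^ 2 ∧
    (g0 = 0 ∨ g1 = 0 ∨ g2 = 0 →
      g0 * ((1 - κ) * l ^ 2 - 1 / κ * (l - m) ^ 2) - l ^ 2 * (1 - g1) - m ^ 2 * (1 - g2) ≤ 0) := by
  obtain ⟨Y, hY⟩ : ∃ Y : ℝ, Y = (1 - κ) * l ^ 2 - 1 / κ * (l - m) ^ 2 := ⟨_, rfl⟩
  have hYm : Y ≤ m ^ 2 := by rw [hY]; exact core_alg hκ
  have hYl : Y ≤ l ^ 2 := by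
    rw [hY]
    have e1 : 0 ≤ κ * l ^ 2 := by positivity
    have e2 : 0 ≤ 1 / κ * (l - m) ^ 2 := by positivity
    linarith
  rw [← hY]
  have hgY : ∀ z : ℝ, 0 ≤ z → Y ≤ z → g0 * Y ≤ z := by
    intro z hz hYz
    rcases le_or_gt 0 Y with h | h
    · exact (mul_le_of_le_one_left h h0').trans hYz
    · exact (mul_nonpos_of_nonneg_of_nonpos h0 h.le).trans hz
  have e1 := hgY (l ^ 2) (sq_nonneg _) hYl
  have e2 := hgY (m ^ 2) (sq_nonneg _) hYm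
  have e3 : 0 ≤ l ^ 2 * (1 - g1) := mul_nonneg (sq_nonneg _) (by linarith)
  have e4 : 0 ≤ m ^ 2 * (1 - g2) := mul_nonneg (sq_nonneg _) (by linarith)
  refine ⟨by linarith, ?_⟩
  rintro (h | h | h)
  · rw [h, zero_mul]
    linarith
  · rw [h, sub_zero, mul_one]
    linarith
  · rw [h, sub_zero, mul_one]
    linarith

theorem thm_Core (hInt : St_Int) (hFace : St_Face) (hDif : St_Dif) (hBox : St_Box)
    (hMu : St_MuSum) (hMass : St_Mass) (hR : St_R) (hCBd : St_CBd) (hAdm : St_Adm) (hZ : St_Z1) :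
    St_Core := by
  classical
  intro ρ σ K r r' F G hσ hσρ hr hr' hr0 hs0 hr1 hr2 hρρ hK hF hG hmar c hc hgap sh hsh hadm
  have hρ : 0 < ρ := lt_of_lt_of_le hσ hσρ
  have hρ2 : ρ < 1 / 2 := by linarith
  obtain ⟨η, hη⟩ := exists_wt
  obtain ⟨hmη, -⟩ := hZ η hη
  obtain ⟨CM, hCM, hmu⟩ := hMu ρ hρ (by linarith)
  obtain ⟨c0, hc0d⟩ : ∃ c0 : ℕ → ℝ, c0 = fun m => if m = 1 then 1 else 0 := ⟨_, rfl⟩
  have hc0 : ∀ m, 0 ≤ c0 m ∧ c0 m ≤ 1 := by
    intro m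
    rw [hc0d]
    show 0 ≤ (if m = 1 then (1 : ℝ) else 0) ∧ (if m = 1 then (1 : ℝ) else 0) ≤ 1
    split_ifs
    · exact ⟨zero_le_one, le_rfl⟩
    · exact ⟨le_rfl, zero_le_one⟩
  obtain ⟨q0, hq0⟩ : ∃ q : ℝ, q = ∑ n ∈ range 4, c0 (n + 1) * QQ F ρ σ 0 n := ⟨_, rfl⟩
  obtain ⟨q1, hq1⟩ : ∃ q : ℝ, q = ∑ n ∈ range 4, c 1 (n + 1) * QQ F ρ ρ 1 n := ⟨_, rfl⟩
  obtain ⟨q2, hq2⟩ : ∃ q : ℝ, q = ∑ n ∈ range 4, c 2 (n + 1) * QQ G ρ ρ 2 n := ⟨_, rfl⟩
  have hq0' : q0 = QQ F ρ σ 0 0 := by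
    rw [hq0, hc0d]
    simp [sum_range_succ]
  rw [← hq0', ← hq1, ← hq2] at hgap
  obtain ⟨I, hI⟩ : ∃ I : ℝ, I = II F ρ := ⟨_, rfl⟩
  obtain ⟨I', hI'⟩ : ∃ I : ℝ, I = II G ρ := ⟨_, rfl⟩
  rw [← hI, ← hI'] at hgap
  obtain ⟨g, hg⟩ : ∃ g : ℝ, g = q0 + q1 + q2 - I - I' := ⟨_, rfl⟩
  have hg0 : 0 < g := by rw [hg]; linarith
  obtain ⟨κ, hκd⟩ : ∃ κ : ℝ, κ = min (1 / 2) (g / (8 * (|q0| + 1))) := ⟨_, rfl⟩
  have hκ : 0 < κ := by rw [hκd]; exact lt_min (by norm_num) (by positivity)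
  have hκ1 : κ ≤ 1 / 2 := by rw [hκd]; exact min_le_left _ _
  have hκq : κ * |q0| ≤ g / 8 := by
    have h1 : κ ≤ g / (8 * (|q0| + 1)) := by rw [hκd]; exact min_le_right _ _
    calc κ * |q0| ≤ κ * (|q0| + 1) := mul_le_mul_of_nonneg_left (by linarith) hκ.le
      _ ≤ g / (8 * (|q0| + 1)) * (|q0| + 1) := mul_le_mul_of_nonneg_right h1 (by positivity)
      _ = g / 8 := by field_simp
  obtain ⟨V, hV⟩ : ∃ V : ℝ, V = |q0| + |q1| + |q2| + 12 * (1 + CM) + 3 := ⟨_, rfl⟩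
  have hV0 : 0 < V := by rw [hV]; positivity
  obtain ⟨ε, hεd⟩ : ∃ ε : ℝ, ε = min (1 / 2) (g / (8 * V)) := ⟨_, rfl⟩
  have hε : 0 < ε := by rw [hεd]; exact lt_min (by norm_num) (by positivity)
  have hε1 : ε ≤ 1 / 2 := by rw [hεd]; exact min_le_left _ _
  have hεV : ε * V ≤ g / 8 := by
    have h1 : ε ≤ g / (8 * V) := by rw [hεd]; exact min_le_right _ _
    calc ε * V ≤ g / (8 * V) * V := mul_le_mul_of_nonneg_right h1 hV0.le
      _ = g / 8 := by field_simp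
  have hκε : 0 < κ * ε := mul_pos hκ hε
  -- the main numerical inequality
  have hkey : g / 2 ≤ (1 - κ) * ((1 - ε) * (q0 - 4 * (ε * (1 + CM)))) +
      (1 - ε) * (q1 - 4 * (ε * (1 + CM))) + (1 - ε) * (q2 - 4 * (ε * (1 + CM))) -
      (I + ε) - (I' + ε) - ε := by
    have e0 : q0 - (κ + ε) * |q0| ≤ (1 - κ) * ((1 - ε) * q0) := by
      have f1 : (1 - κ) * ((1 - ε) * q0) = q0 - (κ + ε - κ * ε) * q0 := by ring
      have f2 : (κ + ε - κ * ε) * q0 ≤ (κ + ε - κ * ε) * |q0| :=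
        mul_le_mul_of_nonneg_left (le_abs_self _) (by nlinarith)
      have f3 : (κ + ε - κ * ε) * |q0| ≤ (κ + ε) * |q0| :=
        mul_le_mul_of_nonneg_right (by linarith) (abs_nonneg _)
      linarith
    have e1 : q1 - ε * |q1| ≤ (1 - ε) * q1 := by
      have := mul_le_mul_of_nonneg_left (le_abs_self q1) hε.le
      linarith
    have e2 : q2 - ε * |q2| ≤ (1 - ε) * q2 := by
      have := mul_le_mul_of_nonneg_left (le_abs_self q2) hε.le
      linarith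
    have e3 : (1 - κ) * ((1 - ε) * (4 * (ε * (1 + CM)))) ≤ 4 * (ε * (1 + CM)) := by
      have f1 : 0 ≤ 4 * (ε * (1 + CM)) := by positivity
      calc (1 - κ) * ((1 - ε) * (4 * (ε * (1 + CM)))) ≤ 1 * (1 * (4 * (ε * (1 + CM)))) :=
            mul_le_mul (by linarith) (mul_le_mul_of_nonneg_right (by linarith) f1)
              (mul_nonneg (by linarith) f1) zero_le_one
        _ = 4 * (ε * (1 + CM)) := by ring
    have e4 : (1 - ε) * (4 * (ε * (1 + CM))) ≤ 4 * (ε * (1 + CM)) :=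
      mul_le_of_le_one_left (by positivity) (by linarith)
    have e5 : ε * V = ε * |q0| + ε * |q1| + ε * |q2| + 12 * (ε * (1 + CM)) + 3 * ε := by
      rw [hV]; ring
    rw [e5] at hεV
    have e6 : (κ + ε) * |q0| = κ * |q0| + ε * |q0| := by ring
    rw [e6] at e0
    have e7 : (1 - κ) * ((1 - ε) * (q0 - 4 * (ε * (1 + CM)))) =
      (1 - κ) * ((1 - ε) * q0) - (1 - κ) * ((1 - ε) * (4 * (ε * (1 + CM)))) := by ring
    have e8 : (1 - ε) * (q1 - 4 * (ε * (1 + CM))) = (1 - ε) * q1 - (1 - ε) * (4 * (ε * (1 + CM))) := by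
      ring
    have e9 : (1 - ε) * (q2 - 4 * (ε * (1 + CM))) = (1 - ε) * q2 - (1 - ε) * (4 * (ε * (1 + CM))) := by
      ring
    rw [e7, e8, e9]
    linarith
  obtain ⟨w1, M1, hI1⟩ := hInt η hη ρ K ε r F hρ hr ⟨1, by rw [hr1]; exact hρρ⟩ hK hF hε sh hsh
  obtain ⟨w2, M2, hI2⟩ := hInt η hη ρ K ε r' G hρ hr' ⟨2, by rw [hr2]; exact hρρ⟩ hK hG hε sh hsh
  obtain ⟨w3, M3, hD1⟩ := hDif η hη ρ K (κ * ε) r r' F G hρ hr hr' hr0 (by linarith) hK hF hG hmar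
    hκε sh hsh
  obtain ⟨w4, M4, hL0⟩ := core_low hFace hMass hR η hη hmη ρ σ K ε CM r F hσ hσρ hρ2 hr hK hF hε
    hε1 sh hsh hCM hmu 0 hs0
  obtain ⟨w5, M5, hL1⟩ := core_low hFace hMass hR η hη hmη ρ ρ K ε CM r F hρ le_rfl hρ2 hr hK hF hε
    hε1 sh hsh hCM hmu 1 (by rw [hr1]; exact hρρ)
  obtain ⟨w6, M6, hL2⟩ := core_low hFace hMass hR η hη hmη ρ ρ K ε CM r' G hρ le_rfl hρ2 hr' hK hG
    hε hε1 sh hsh hCM hmu 2 (by rw [hr2]; exact hρρ)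
  obtain ⟨w, hw⟩ : ∃ w : ℕ, w = w1 + w2 + w3 + w4 + w5 + w6 + 14 + ∑ h, sh h := ⟨_, rfl⟩
  obtain ⟨M, hM⟩ : ∃ M : ℕ, M = M1 + M2 + M3 + M4 + M5 + M6 + 1 := ⟨_, rfl⟩
  have hM1 : 1 ≤ M := by omega
  have hshw : ∀ h, sh h ≤ w := fun h => by
    have h2 : sh h ≤ ∑ h, sh h := single_le_sum (fun _ _ => Nat.zero_le _) (mem_univ h)
    omega
  obtain ⟨v, hv⟩ := hAdm sh hadm w
  obtain ⟨E, hE⟩ : ∃ E : ℝ, E = Real.exp 8 := ⟨_, rfl⟩
  have hE0 : 0 < E := by rw [hE]; exact Real.exp_pos _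
  have hWn : 0 < primorial w := primorial_pos w
  obtain ⟨W, hW⟩ : ∃ W : ℝ, W = (primorial w : ℝ) := ⟨_, rfl⟩
  have hW0 : 0 < W := by rw [hW]; exact_mod_cast hWn
  obtain ⟨B, hB⟩ : ∃ B : ℝ, B = ∑ n ∈ range 4, ((boxes ρ M n).card : ℝ) := ⟨_, rfl⟩
  have hB0 : 0 ≤ B := by rw [hB]; exact sum_nonneg fun _ _ => Nat.cast_nonneg _
  have hph := phW_pos1 w
  refine ⟨mη η / W * phW w ^ 3 * (g / 4) / (K ^ 2 * 2 ^ 24 * E ^ 6), by positivity, ?_⟩
  have hA3 : ∀ᶠ N : ℕ in atTop, (3 * B + 2 + 1 / κ) ≤ mη η / W * AA w N ^ 3 * (g / 4) := by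
    have h1 : Tendsto (fun N : ℕ => AA w N ^ 3) atTop atTop :=
      (tendsto_pow_atTop (by norm_num)).comp (AA_tendsto w)
    have h2 : Tendsto (fun N : ℕ => mη η / W * (g / 4) * AA w N ^ 3) atTop atTop :=
      Tendsto.const_mul_atTop (by positivity) h1
    filter_upwards [h2.eventually_ge_atTop (3 * B + 2 + 1 / κ)] with N hN
    linarith
  filter_upwards [hI1 w M (by omega) (by omega) v, hI2 w M (by omega) (by omega) v,
    hD1 w M (by omega) (by omega) v, hL0 w M (by omega) (by omega) v hv c0 hc0,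
    hL1 w M (by omega) (by omega) v hv (c 1) (hc 1),
    hL2 w M (by omega) (by omega) v hv (c 2) (hc 2), hBox ρ hρ M hM1,
    mert_ev hρ (by linarith) (by omega : 2 ≤ w), hA3, eventually_ge_atTop (8 * w + 8)]
    with N s1 s2 s3 s4 s5 s6 g4 g5 g6 hN
  rw [← hE] at g5
  have hN1 : 1 ≤ N := by omega
  have hNR : (2 : ℝ) ≤ N := by exact_mod_cast (by omega : 2 ≤ N)
  have hN0 : (0 : ℝ) < N := by linarith
  obtain ⟨L, hL⟩ : ∃ L : ℝ, L = Real.log N := ⟨_, rfl⟩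
  have hL0 : 0 < L := by rw [hL]; exact Real.log_pos (by linarith)
  obtain ⟨A, hA⟩ : ∃ A : ℝ, A = AA w N := ⟨_, rfl⟩
  have hAL : A = phW w * L := by rw [hA, hL]; rfl
  have hA0 : 0 < A := by rw [hAL]; positivity
  obtain ⟨X, hX⟩ : ∃ X : ℝ, X = N * mη η / W * A ^ 3 := ⟨_, rfl⟩
  have hX0 : 0 < X := by rw [hX]; positivity
  obtain ⟨T, hT⟩ : ∃ T : Finset ℕ,
    T = (range (N + 1)).filter (fun a => a % primorial w = v % primorial w) := ⟨_, rfl⟩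
  obtain ⟨l, hl⟩ : ∃ l : ℕ → ℝ, l = fun a => Lam F ρ M w N sh a := ⟨_, rfl⟩
  obtain ⟨m, hm⟩ : ∃ m : ℕ → ℝ, m = fun a => Lam G ρ M w N sh a := ⟨_, rfl⟩
  have hl' : ∀ a, Lam F ρ M w N sh a = l a := fun a => by rw [hl]
  have hm' : ∀ a, Lam G ρ M w N sh a = m a := fun a => by rw [hm]
  obtain ⟨g0, hg0d⟩ : ∃ g0 : ℕ → ℝ, g0 = fun a => ∑ n ∈ range 4, ∑ k ∈ boxes ρ M n,
    c0 (n + 1) * bz k M N (a + sh 0) := ⟨_, rfl⟩
  obtain ⟨g1, hg1d⟩ : ∃ g1 : ℕ → ℝ, g1 = fun a => ∑ n ∈ range 4, ∑ k ∈ boxes ρ M n,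
    c 1 (n + 1) * bz k M N (a + sh 1) := ⟨_, rfl⟩
  obtain ⟨g2, hg2d⟩ : ∃ g2 : ℕ → ℝ, g2 = fun a => ∑ n ∈ range 4, ∑ k ∈ boxes ρ M n,
    c 2 (n + 1) * bz k M N (a + sh 2) := ⟨_, rfl⟩
  have hg0' : ∀ a, ∑ n ∈ range 4, ∑ k ∈ boxes ρ M n, c0 (n + 1) * bz k M N (a + sh 0) = g0 a :=
    fun a => by rw [hg0d]
  have hg1' : ∀ a, ∑ n ∈ range 4, ∑ k ∈ boxes ρ M n, c 1 (n + 1) * bz k M N (a + sh 1) = g1 a :=
    fun a => by rw [hg1d]
  have hg2' : ∀ a, ∑ n ∈ range 4, ∑ k ∈ boxes ρ M n, c 2 (n + 1) * bz k M N (a + sh 2) = g2 a :=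
    fun a => by rw [hg2d]
  simp only [hl', hm', hg0', hg1', hg2', ← hT, ← hW, ← hA, ← hI, ← hI', ← hX, ← hq0, ← hq1,
    ← hq2, ← hB] at s1 s2 s4 s5 s6
  simp only [hl', hm', ← hW, ← hA] at s3
  rw [← hA] at g6
  -- properties of the three functions
  have hcnn : ∀ (c' : ℕ → ℝ), (∀ m, 0 ≤ c' m ∧ c' m ≤ 1) → ∀ (j : Fin 3) (a : ℕ),
      0 ≤ ∑ n ∈ range 4, ∑ k ∈ boxes ρ M n, c' (n + 1) * bz k M N (a + sh j) :=
    fun c' hc' j a => sum_nonneg fun n _ => sum_nonneg fun k _ =>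
      mul_nonneg (hc' _).1 (face_bz_nonneg _ _ _ _)
  have hg0n : ∀ a, 0 ≤ g0 a := fun a => by rw [← hg0']; exact hcnn c0 hc0 0 a
  have hg1n : ∀ a, 0 ≤ g1 a := fun a => by rw [← hg1']; exact hcnn (c 1) (hc 1) 1 a
  have hg2n : ∀ a, 0 ≤ g2 a := fun a => by rw [← hg2']; exact hcnn (c 2) (hc 2) 2 a
  have hrange : ∀ a : ℕ, η ((a : ℝ) / N) ≠ 0 → N < 8 * a ∧ 8 * a < 7 * N := by
    intro a hz
    have hz' := hη.supp _ hz
    constructor
    · have := hz'.1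
      rw [lt_div_iff₀ hN0] at this
      have h6 : (N : ℝ) < 8 * (a : ℝ) := by linarith
      exact_mod_cast h6
    · have := hz'.2
      rw [div_lt_iff₀ hN0] at this
      have h6 : 8 * (a : ℝ) < 7 * N := by linarith
      exact_mod_cast h6
  have hbx : ∀ (c' : ℕ → ℝ), (∀ m, 0 ≤ c' m ∧ c' m ≤ 1) → ∀ (j : Fin 3) (a : ℕ),
      η ((a : ℝ) / N) ≠ 0 →
      ∑ n ∈ range 4, ∑ k ∈ boxes ρ M n, c' (n + 1) * bz k M N (a + sh j) ≤
        c' (ArithmeticFunction.cardFactors (a + sh j)) ∧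
      (∑ n ∈ range 4, ∑ k ∈ boxes ρ M n, c' (n + 1) * bz k M N (a + sh j) ≠ 0 →
        ArithmeticFunction.cardFactors (a + sh j) ≤ 4 ∧
        ∀ p : ℕ, p.Prime → p ∣ a + sh j → (N : ℝ) ^ (1 / 1000 : ℝ) < p) := by
    intro c' hc' j a hz
    obtain ⟨h1, h2⟩ := hrange a hz
    have h7 := hshw j
    exact g4 c' (fun r => (hc' r).1) (a + sh j) (by omega) (by omega)
  have hb0 : ∀ a : ℕ, η ((a : ℝ) / N) ≠ 0 → g0 a ≤ c0 (ArithmeticFunction.cardFactors (a + sh 0)) ∧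
      (g0 a ≠ 0 → ArithmeticFunction.cardFactors (a + sh 0) ≤ 4 ∧
        ∀ p : ℕ, p.Prime → p ∣ a + sh 0 → (N : ℝ) ^ (1 / 1000 : ℝ) < p) := fun a hz => by
    rw [← hg0']
    exact hbx c0 hc0 0 a hz
  have hb1 : ∀ a : ℕ, η ((a : ℝ) / N) ≠ 0 → g1 a ≤ c 1 (ArithmeticFunction.cardFactors (a + sh 1)) ∧
      (g1 a ≠ 0 → ArithmeticFunction.cardFactors (a + sh 1) ≤ 4 ∧
        ∀ p : ℕ, p.Prime → p ∣ a + sh 1 → (N : ℝ) ^ (1 / 1000 : ℝ) < p) := fun a hz => by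
    rw [← hg1']
    exact hbx (c 1) (hc 1) 1 a hz
  have hb2 : ∀ a : ℕ, η ((a : ℝ) / N) ≠ 0 → g2 a ≤ c 2 (ArithmeticFunction.cardFactors (a + sh 2)) ∧
      (g2 a ≠ 0 → ArithmeticFunction.cardFactors (a + sh 2) ≤ 4 ∧
        ∀ p : ℕ, p.Prime → p ∣ a + sh 2 → (N : ℝ) ^ (1 / 1000 : ℝ) < p) := fun a hz => by
    rw [← hg2']
    exact hbx (c 2) (hc 2) 2 a hz
  have hpr : ∀ a : ℕ, η ((a : ℝ) / N) ≠ 0 → g0 a ≠ 0 → (a + sh 0).Prime := by
    intro a hz hne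
    have h1 := (hb0 a hz).1
    have h2 : 0 < g0 a := lt_of_le_of_ne (hg0n a) (Ne.symm hne)
    by_contra h3
    have h4 : ¬ ArithmeticFunction.cardFactors (a + sh 0) = 1 := fun h5 =>
      h3 (ArithmeticFunction.cardFactors_eq_one_iff_prime.1 h5)
    have h6 : c0 (ArithmeticFunction.cardFactors (a + sh 0)) = 0 := by
      rw [hc0d]
      exact if_neg h4
    linarith
  -- the difference on the primes
  have hdif : ∑ a ∈ T, η ((a : ℝ) / N) * g0 a * (l a - m a) ^ 2 ≤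
      N * mη η / W * (A ^ 3 * (κ * ε)) + N := by
    refine le_trans ?_ s3
    have h1 : (range (N + 1)).filter (fun a => a % primorial w = v % primorial w ∧
        (a + sh 0).Prime) = T.filter (fun a => (a + sh 0).Prime) := by
      rw [hT, filter_filter]
    rw [h1, sum_filter]
    refine sum_le_sum fun a _ => ?_
    by_cases hz : η ((a : ℝ) / N) = 0
    · rw [hz, zero_mul, zero_mul, ite_self]
    by_cases hp : (a + sh 0).Prime
    · rw [if_pos hp]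
      have h2 : g0 a ≤ 1 := (hb0 a hz).1.trans (hc0 _).2
      have h3 : η ((a : ℝ) / N) * g0 a ≤ η ((a : ℝ) / N) :=
        mul_le_of_le_one_right (hη.nonneg _) h2
      exact mul_le_mul_of_nonneg_right h3 (sq_nonneg _)
    · rw [if_neg hp]
      have h2 : g0 a = 0 := by
        by_contra h3
        exact hp (hpr a hz h3)
      rw [h2, mul_zero, zero_mul]
  obtain ⟨Zf, hZf⟩ : ∃ Zf : ℕ → ℝ, Zf = fun a =>
    g0 a * ((1 - κ) * l a ^ 2 - 1 / κ * (l a - m a) ^ 2) - l a ^ 2 * (1 - g1 a) -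
      m a ^ 2 * (1 - g2 a) := ⟨_, rfl⟩
  have hlow : X * (g / 4) ≤ ∑ a ∈ T, η ((a : ℝ) / N) * Zf a := by
    have e1 : ∑ a ∈ T, η ((a : ℝ) / N) * Zf a =
        (1 - κ) * (∑ a ∈ T, η ((a : ℝ) / N) * l a ^ 2 * g0 a) -
        1 / κ * (∑ a ∈ T, η ((a : ℝ) / N) * g0 a * (l a - m a) ^ 2) -
        (∑ a ∈ T, η ((a : ℝ) / N) * l a ^ 2) + (∑ a ∈ T, η ((a : ℝ) / N) * l a ^ 2 * g1 a) -
        (∑ a ∈ T, η ((a : ℝ) / N) * m a ^ 2) + (∑ a ∈ T, η ((a : ℝ) / N) * m a ^ 2 * g2 a) := by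
      rw [mul_sum, mul_sum, ← sum_sub_distrib, ← sum_sub_distrib, ← sum_add_distrib,
        ← sum_sub_distrib, ← sum_add_distrib]
      refine sum_congr rfl fun a _ => ?_
      rw [hZf]
      ring
    rw [e1]
    have f1 : N * mη η / W * (A ^ 3 * (I + ε)) = X * (I + ε) := by rw [hX]; ring
    have f2 : N * mη η / W * (A ^ 3 * (I' + ε)) = X * (I' + ε) := by rw [hX]; ring
    have f3 : N * mη η / W * (A ^ 3 * (κ * ε)) = X * (κ * ε) := by rw [hX]; ring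
    rw [f1] at s1
    rw [f2] at s2
    rw [f3] at hdif
    have k1 : 0 ≤ 1 / κ := by positivity
    have f4 := mul_le_mul_of_nonneg_left hdif k1
    have f5 : 1 / κ * (X * (κ * ε) + N) = X * ε + N * (1 / κ) := by
      field_simp
    rw [f5] at f4
    have f6 := mul_le_mul_of_nonneg_left s4 (by linarith : (0 : ℝ) ≤ 1 - κ)
    have f7 : (1 - κ) * (N * B) ≤ N * B := mul_le_of_le_one_left (by positivity) (by linarith)
    have f8 : (1 - κ) * (X * ((1 - ε) * (q0 - 4 * (ε * (1 + CM)))) - N * B) =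
        X * ((1 - κ) * ((1 - ε) * (q0 - 4 * (ε * (1 + CM))))) - (1 - κ) * (N * B) := by ring
    rw [f8] at f6
    have f9 : X * (g / 2) ≤ X * ((1 - κ) * ((1 - ε) * (q0 - 4 * (ε * (1 + CM)))) +
      (1 - ε) * (q1 - 4 * (ε * (1 + CM))) + (1 - ε) * (q2 - 4 * (ε * (1 + CM))) -
      (I + ε) - (I' + ε) - ε) := mul_le_mul_of_nonneg_left hkey hX0.le
    have f10 : X * ((1 - κ) * ((1 - ε) * (q0 - 4 * (ε * (1 + CM)))) +
      (1 - ε) * (q1 - 4 * (ε * (1 + CM))) + (1 - ε) * (q2 - 4 * (ε * (1 + CM))) -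
      (I + ε) - (I' + ε) - ε) = X * ((1 - κ) * ((1 - ε) * (q0 - 4 * (ε * (1 + CM))))) +
      X * ((1 - ε) * (q1 - 4 * (ε * (1 + CM)))) + X * ((1 - ε) * (q2 - 4 * (ε * (1 + CM)))) -
      X * (I + ε) - X * (I' + ε) - X * ε := by ring
    rw [f10] at f9
    have f11 : N * (3 * B + 2 + 1 / κ) ≤ X * (g / 4) := by
      have := mul_le_mul_of_nonneg_left g6 hN0.le
      rw [hX]
      calc N * (3 * B + 2 + 1 / κ) ≤ N * (mη η / W * A ^ 3 * (g / 4)) := this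
        _ = N * mη η / W * A ^ 3 * (g / 4) := by ring
    have f12 : N * (3 * B + 2 + 1 / κ) = N * B + N * B + N * B + N + N + N * (1 / κ) := by ring
    rw [f12] at f11
    linarith
  -- upper bound
  obtain ⟨R, hRd⟩ : ∃ R : Finset ℕ, R = (range (N + 1)).filter (fun n : ℕ =>
      (n + sh 0).Prime ∧ 0 < c 1 (ArithmeticFunction.cardFactors (n + sh 1)) ∧
      0 < c 2 (ArithmeticFunction.cardFactors (n + sh 2)) ∧
      ∀ j, ∀ p : ℕ, p.Prime → p ∣ n + sh j → (N : ℝ) ^ (1 / 1000 : ℝ) < p) := ⟨_, rfl⟩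
  obtain ⟨Z, hZd⟩ : ∃ Z : ℝ, Z = K * 2 ^ 12 * (E * L) ^ 3 := ⟨_, rfl⟩
  have hZ0 : 0 < Z := by rw [hZd]; positivity
  have hpt : ∀ a ∈ T, η ((a : ℝ) / N) * Zf a ≤ if a ∈ R then Z ^ 2 else 0 := by
    intro a ha
    have haN : a ≤ N := by
      rw [hT, mem_filter, mem_range] at ha
      omega
    have hrhs : 0 ≤ if a ∈ R then Z ^ 2 else 0 := by
      split_ifs
      · positivity
      · exact le_rfl
    by_cases hz : η ((a : ℝ) / N) = 0
    · rw [hz, zero_mul]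
      exact hrhs
    obtain ⟨ha1, ha2⟩ := hrange a hz
    obtain ⟨k01, k02⟩ := hb0 a hz
    obtain ⟨k11, k12⟩ := hb1 a hz
    obtain ⟨k21, k22⟩ := hb2 a hz
    obtain ⟨z1, z2⟩ := core_sign (κ := κ) (l := l a) (m := m a) hκ (hg0n a)
      (k01.trans (hc0 _).2) (hg1n a) (k11.trans (hc 1 _).2) (hg2n a) (k21.trans (hc 2 _).2)
    have hZa : Zf a = g0 a * ((1 - κ) * l a ^ 2 - 1 / κ * (l a - m a) ^ 2) -
        l a ^ 2 * (1 - g1 a) - m a ^ 2 * (1 - g2 a) := by rw [hZf]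
    rw [← hZa] at z1 z2
    by_cases h0 : g0 a = 0 ∨ g1 a = 0 ∨ g2 a = 0
    · exact (mul_nonpos_of_nonneg_of_nonpos (hη.nonneg _) (z2 h0)).trans hrhs
    push Not at h0
    obtain ⟨n0, n1, n2⟩ := h0
    have haR : a ∈ R := by
      rw [hRd, mem_filter, mem_range]
      refine ⟨by omega, hpr a hz n0, lt_of_lt_of_le (lt_of_le_of_ne (hg1n a) (Ne.symm n1)) k11,
        lt_of_lt_of_le (lt_of_le_of_ne (hg2n a) (Ne.symm n2)) k21, ?_⟩
      intro j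
      fin_cases j
      · exact (k02 n0).2
      · exact (k12 n1).2
      · exact (k22 n2).2
    rw [if_pos haR]
    have hlt : ∀ (i : PP w (XR ρ N)) h, sh h < pr i := fun i h =>
      lt_of_le_of_lt (hshw h) (pr_gt i)
    have hcard := core_supp (w := w) (X := XR ρ N) sh hsh hlt a (fun h => by omega)
    have h12 : (supp (YY (pr (w := w) (X := XR ρ N)) sh a)).card ≤ 12 := by
      refine hcard.trans ?_
      rw [Fin.sum_univ_three]
      have e0 := (k02 n0).1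
      have e1 := (k12 n1).1
      have e2 := (k22 n2).1
      omega
    have hLam : |l a| ≤ Z := by
      rw [← hl']
      unfold Lam
      refine (hCBd w (XR ρ N) F K hF.bd M N (YY pr sh a)).trans ?_
      rw [hZd]
      have e1 : (2 : ℝ) ^ (supp (YY (pr (w := w) (X := XR ρ N)) sh a)).card ≤ 2 ^ 12 :=
        pow_le_pow_right₀ (by norm_num) h12
      have e2 : ∏ i : PP w (XR ρ N), (1 + 3 * qq i) ≤ (E * L) ^ 3 := by
        have e3 := prod_qq_le (w := w) (X := XR ρ N) 3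
        push_cast at e3
        rw [← hL] at g5
        refine e3.trans (pow_le_pow_left₀ ?_ g5 3)
        exact le_trans zero_le_one one_le_prod_qq
      refine mul_le_mul (mul_le_mul_of_nonneg_left e1 hK.le) e2
        (prod_nonneg fun i _ => by linarith [qq_pos i]) (by positivity)
    have hLam2 : l a ^ 2 ≤ Z ^ 2 := by
      rw [← sq_abs]
      exact pow_le_pow_left₀ (abs_nonneg _) hLam 2
    have h13 : Zf a ≤ Z ^ 2 := z1.trans hLam2
    rcases le_or_gt 0 (Zf a) with h14 | h14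
    · exact (mul_le_of_le_one_left h14 (hη.le_one _)).trans h13
    · exact (mul_nonpos_of_nonneg_of_nonpos (hη.nonneg _) h14.le).trans (sq_nonneg _)
  have hup : ∑ a ∈ T, η ((a : ℝ) / N) * Zf a ≤ (R.card : ℝ) * Z ^ 2 := by
    refine (sum_le_sum hpt).trans ?_
    rw [← sum_filter, sum_const, nsmul_eq_mul]
    refine mul_le_mul_of_nonneg_right ?_ (by positivity)
    exact_mod_cast card_le_card (fun a ha => (mem_filter.1 ha).2)
  have hfin := hlow.trans hup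
  rw [← hRd, ← hL]
  have hZ2 : 0 < Z ^ 2 := by positivity
  have h15 : X * (g / 4) / Z ^ 2 ≤ (R.card : ℝ) := by
    rw [div_le_iff₀ hZ2]
    exact hfin
  refine le_trans (le_of_eq ?_) h15
  rw [hX, hZd, hAL]
  field_simp

end Pool.Agent.PU
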