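import Pool.Agent.PU.StD
import Pool.Agent.PT.D1

set_option autoImplicit false

/-!
# PU / D3

Module of the density block of PU: three variables, on the region `Reg2`. Three times `PT.thm_D1`.
-/

namespace Pool.Agent.PU

open Finset Filter Pool.Agent.MT Pool.Agent.PT MeasureTheory

private theorem d3_mono {E : Type} [Fintype E] {wt s : E → ℝ} {A ε ε' ρ : ℝ} (hA : 0 < A)
    (h : Dist wt s A ε ρ) (he : ε ≤ ε') : Dist wt s A ε' ρ where
  wn := h.wn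
  sn := h.sn
  le := fun t h0 h1 => (h.le t h0 h1).trans (mul_le_mul_of_nonneg_right he hA.le)

private theorem d3_reg {ρ a b c : ℝ} {r : Fin 3 → ℝ} :
    Reg2 ρ r ![a, b, c] ↔
      (0 ≤ a ∧ a ≤ ρ) ∧ (0 ≤ b ∧ b ≤ min ρ (r 2 - a)) ∧ 0 ≤ c ∧ c ≤ TT ρ r 2 a b := by
  have e1 : o1 2 = 0 := by decide
  have e2 : o2 2 = 1 := by decide
  have e3 : o1 0 = 1 := by decide
  have e4 : o2 0 = 2 := by decide
  have e5 : o1 1 = 0 := by decide
  have e6 : o2 1 = 2 := by decide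
  unfold Reg2 TT
  rw [e1, e2]
  constructor
  · rintro ⟨h0, h1⟩
    have ha := h0 0
    have hb := h0 1
    have hc := h0 2
    have h10 := h1 0
    have h11 := h1 1
    have h12 := h1 2
    rw [e3, e4] at h10
    rw [e5, e6] at h11
    rw [e1, e2] at h12
    simp only [Matrix.cons_val] at ha hb hc h10 h11 h12
    exact ⟨ha, ⟨hb.1, le_min hb.2 (by linarith)⟩, hc.1,
      le_min hc.2 (le_min (by linarith) (by linarith))⟩
  · rintro ⟨⟨ha, ha'⟩, ⟨hb, hb'⟩, hc, hc'⟩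
    have h1 := hb'.trans (min_le_left _ _)
    have h2 := hb'.trans (min_le_right _ _)
    have h3 := hc'.trans (min_le_left _ _)
    have h4 := hc'.trans ((min_le_right _ _).trans (min_le_left _ _))
    have h5 := hc'.trans ((min_le_right _ _).trans (min_le_right _ _))
    refine ⟨fun i => ?_, fun j => ?_⟩
    · fin_cases i
      · exact ⟨ha, ha'⟩
      · exact ⟨hb, h1⟩
      · exact ⟨hc, h3⟩
    · fin_cases j
      · change ![a, b, c] (o1 0) + ![a, b, c] (o2 0) ≤ r 0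
        rw [e3, e4]
        simp only [Matrix.cons_val]
        linarith
      · change ![a, b, c] (o1 1) + ![a, b, c] (o2 1) ≤ r 1
        rw [e5, e6]
        simp only [Matrix.cons_val]
        linarith
      · change ![a, b, c] (o1 2) + ![a, b, c] (o2 2) ≤ r 2
        rw [e1, e2]
        simp only [Matrix.cons_val]
        linarith

private theorem d3_int {K T : ℝ} (hK : 0 ≤ K) {g : ℝ → ℝ}
    (hl : ∀ x y, 0 ≤ x → x ≤ T → 0 ≤ y → y ≤ T → |g x - g y| ≤ K * |x - y|)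
    {x y : ℝ} (hx : 0 ≤ x) (hxy : x ≤ y) (hy : y ≤ T) : IntervalIntegrable g volume x y := by
  have h : LipschitzOnWith K.toNNReal g (Set.Icc 0 T) := by
    refine LipschitzOnWith.of_dist_le_mul fun x hx y hy => ?_
    rw [Real.coe_toNNReal K hK, Real.dist_eq, Real.dist_eq]
    exact hl x y hx.1 hx.2 hy.1 hy.2
  refine ContinuousOn.intervalIntegrable (h.continuousOn.mono ?_)
  rw [Set.uIcc_of_le hxy]
  exact Set.Icc_subset_Icc hx hy

private theorem d3_bd {K T : ℝ} {g : ℝ → ℝ} (hb : ∀ x, 0 ≤ x → x ≤ T → |g x| ≤ K)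
    {x y : ℝ} (hx : 0 ≤ x) (hxy : x ≤ y) (hy : y ≤ T) :
    |∫ c in x..y, g c| ≤ K * (y - x) := by
  have h := intervalIntegral.norm_integral_le_of_norm_le_const (a := x) (b := y) (C := K)
    (f := g) (fun c hc => by
      rw [Set.uIoc_of_le hxy] at hc
      exact hb c (hx.trans hc.1.le) (hc.2.trans hy))
  rwa [Real.norm_eq_abs, abs_of_nonneg (sub_nonneg.2 hxy)] at h

/-- the integral over a fibre is Lipschitz, the case `T ≤ T'` -/
private theorem d3_lip0 {K T T' δ : ℝ} (hK : 0 ≤ K) {g g' : ℝ → ℝ} (hT : 0 ≤ T) (hTT : T ≤ T')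
    (hT' : T' ≤ 1)
    (hb' : ∀ x, 0 ≤ x → x ≤ T' → |g' x| ≤ K)
    (hl : ∀ x y, 0 ≤ x → x ≤ T → 0 ≤ y → y ≤ T → |g x - g y| ≤ K * |x - y|)
    (hl' : ∀ x y, 0 ≤ x → x ≤ T' → 0 ≤ y → y ≤ T' → |g' x - g' y| ≤ K * |x - y|)
    (hd : ∀ x, 0 ≤ x → x ≤ T → x ≤ T' → |g x - g' x| ≤ K * δ) (hδ : |T - T'| ≤ δ) :
    |(∫ c in (0 : ℝ)..T, g c) - ∫ c in (0 : ℝ)..T', g' c| ≤ 2 * K * δ := by
  have hδ0 : 0 ≤ δ := (abs_nonneg _).trans hδ
  have e1 : (∫ c in (0 : ℝ)..T', g' c) = (∫ c in (0 : ℝ)..T, g' c) + ∫ c in T..T', g' c :=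
    (intervalIntegral.integral_add_adjacent_intervals (d3_int hK hl' le_rfl hT hTT)
      (d3_int hK hl' hT hTT le_rfl)).symm
  have e2 : (∫ c in (0 : ℝ)..T, g c) - (∫ c in (0 : ℝ)..T, g' c) =
      ∫ c in (0 : ℝ)..T, (g c - g' c) :=
    (intervalIntegral.integral_sub (d3_int hK hl le_rfl hT le_rfl)
      (d3_int hK hl' le_rfl hT hTT)).symm
  have e3 : |∫ c in (0 : ℝ)..T, (g c - g' c)| ≤ K * δ * (T - 0) :=
    d3_bd (T := T) (g := fun c => g c - g' c)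
      (fun x hx0 hx1 => hd x hx0 hx1 (hx1.trans hTT)) le_rfl hT le_rfl
  have e4 : |∫ c in T..T', g' c| ≤ K * (T' - T) := d3_bd hb' hT hTT le_rfl
  have e5 : K * δ * (T - 0) ≤ K * δ := by
    have h1 : 0 ≤ K * δ := mul_nonneg hK hδ0
    have h2 : T - 0 ≤ 1 := by linarith
    calc K * δ * (T - 0) ≤ K * δ * 1 := mul_le_mul_of_nonneg_left h2 h1
      _ = K * δ := mul_one _
  have e6 : K * (T' - T) ≤ K * δ := by
    refine mul_le_mul_of_nonneg_left ?_ hK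
    rw [abs_sub_comm, abs_of_nonneg (sub_nonneg.2 hTT)] at hδ
    exact hδ
  have e7 : (∫ c in (0 : ℝ)..T, g c) - (∫ c in (0 : ℝ)..T', g' c) =
      (∫ c in (0 : ℝ)..T, (g c - g' c)) - ∫ c in T..T', g' c := by
    rw [e1, ← e2]
    ring
  rw [e7]
  refine (abs_sub _ _).trans ?_
  linarith

/-- the integral over a fibre is Lipschitz -/
private theorem d3_lip {K T T' δ : ℝ} (hK : 0 ≤ K) {g g' : ℝ → ℝ} (hT : 0 ≤ T) (hT1 : T ≤ 1)
    (hT' : 0 ≤ T') (hT1' : T' ≤ 1)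
    (hb : ∀ x, 0 ≤ x → x ≤ T → |g x| ≤ K) (hb' : ∀ x, 0 ≤ x → x ≤ T' → |g' x| ≤ K)
    (hl : ∀ x y, 0 ≤ x → x ≤ T → 0 ≤ y → y ≤ T → |g x - g y| ≤ K * |x - y|)
    (hl' : ∀ x y, 0 ≤ x → x ≤ T' → 0 ≤ y → y ≤ T' → |g' x - g' y| ≤ K * |x - y|)
    (hd : ∀ x, 0 ≤ x → x ≤ T → x ≤ T' → |g x - g' x| ≤ K * δ) (hδ : |T - T'| ≤ δ) :
    |(∫ c in (0 : ℝ)..T, g c) - ∫ c in (0 : ℝ)..T', g' c| ≤ 2 * K * δ := by
  rcases le_total T T' with h | h
  · exact d3_lip0 hK hT h hT1' hb' hl hl' hd hδ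
  · rw [abs_sub_comm]
    refine d3_lip0 hK hT' h hT1 hb hl' hl (fun x h0 h1 h2 => ?_) (by rwa [abs_sub_comm])
    rw [abs_sub_comm]
    exact hd x h0 h2 h1

open Classical in
/-- one step: `D1` with approximate values -/
private theorem d3_step {E : Type} [Fintype E] {wt s : E → ℝ} {A ρ τ ε η B I : ℝ} (hA : 0 < A)
    (hρ1 : ρ ≤ 1) (hD : Dist wt s A 1 ρ) (hτ : 0 ≤ τ) (hτρ : τ ≤ ρ) (hB : 0 ≤ B)
    {x y : E → ℝ}
    (hx : ∀ e, s e ≤ τ → |x e - B * y e| ≤ η)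
    (h1 : |(∑ e, if s e ≤ τ then wt e * y e else 0) - A * I| ≤ ε * A) (hη : 0 ≤ η) :
    |(∑ e, if s e ≤ τ then wt e * x e else 0) - A * B * I| ≤ 2 * A * η + B * (ε * A) := by
  have hm : (∑ e, if s e ≤ τ then wt e else 0) ≤ 2 * A := by
    have h := (abs_le.1 (hD.le τ hτ hτρ)).2
    nlinarith
  have e1 : |(∑ e, if s e ≤ τ then wt e * x e else 0) -
      B * ∑ e, (if s e ≤ τ then wt e * y e else 0)| ≤ 2 * A * η := by
    rw [Finset.mul_sum, ← Finset.sum_sub_distrib]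
    refine (Finset.abs_sum_le_sum_abs _ _).trans ?_
    calc ∑ e, |(if s e ≤ τ then wt e * x e else 0) - B * (if s e ≤ τ then wt e * y e else 0)|
        ≤ ∑ e, (if s e ≤ τ then wt e else 0) * η := by
          refine Finset.sum_le_sum fun e _ => ?_
          by_cases h : s e ≤ τ
          · rw [if_pos h, if_pos h, if_pos h]
            have h2 : wt e * x e - B * (wt e * y e) = wt e * (x e - B * y e) := by ring
            rw [h2, abs_mul, abs_of_nonneg (hD.wn e)]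
            exact mul_le_mul_of_nonneg_left (hx e h) (hD.wn e)
          · rw [if_neg h, if_neg h, if_neg h]
            simp
      _ = (∑ e, if s e ≤ τ then wt e else 0) * η := by rw [Finset.sum_mul]
      _ ≤ 2 * A * η := mul_le_mul_of_nonneg_right hm hη
  have e2 : |B * (∑ e, (if s e ≤ τ then wt e * y e else 0)) - A * B * I| ≤ B * (ε * A) := by
    have h2 : B * (∑ e, (if s e ≤ τ then wt e * y e else 0)) - A * B * I =
        B * ((∑ e, (if s e ≤ τ then wt e * y e else 0)) - A * I) := by ring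
    rw [h2, abs_mul, abs_of_nonneg hB]
    exact mul_le_mul_of_nonneg_left h1 hB
  exact (abs_sub_le _ _ _).trans (add_le_add e1 e2)

open Classical in
theorem thm_D3 : St_D3 := by
  intro K ε0 hε0
  obtain ⟨ε1, hε1, H1⟩ := thm_D1 (4 * K) (ε0 / 8) (by positivity)
  refine ⟨min ε1 1, lt_min hε1 one_pos, ?_⟩
  intro E _ wt s A ρ r hA hρ hρ1 hr hD f hbd hl
  have hT0 : ∀ a, a ≤ ρ → 0 ≤ min ρ (r 2 - a) := fun a ha =>
    le_min hρ.le (by linarith [hr 2])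
  have e1 : o1 2 = 0 := by decide
  have e2 : o2 2 = 1 := by decide
  have hTT0 : ∀ a b, a ≤ ρ → b ≤ ρ → 0 ≤ TT ρ r 2 a b := fun a b ha hb =>
    le_min hρ.le (le_min (by linarith [hr (o1 2)]) (by linarith [hr (o2 2)]))
  have hTTρ : ∀ a b, TT ρ r 2 a b ≤ ρ := fun a b => min_le_left _ _
  have hR0 : Reg2 ρ r ![0, 0, 0] :=
    d3_reg.2 ⟨⟨le_rfl, hρ.le⟩, ⟨le_rfl, hT0 0 hρ.le⟩, le_rfl, hTT0 0 0 hρ.le hρ.le⟩
  have hK : 0 ≤ K := (abs_nonneg _).trans (hbd _ hR0)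
  have D1 : Dist wt s A ε1 ρ := d3_mono hA hD (min_le_left _ _)
  have D3 : Dist wt s A 1 ρ := d3_mono hA hD (min_le_right _ _)
  -- the function f of three variables
  have hl3 : ∀ a b c a' b' c' : ℝ, Reg2 ρ r ![a, b, c] → Reg2 ρ r ![a', b', c'] →
      |f ![a, b, c] - f ![a', b', c']| ≤ K * (|a - a'| + |b - b'| + |c - c'|) := by
    intro a b c a' b' c' h h'
    have := hl _ _ h h'
    simpa [Fin.sum_univ_three] using this
  have hfl : ∀ a b : ℝ, 0 ≤ a → a ≤ ρ → 0 ≤ b → b ≤ min ρ (r 2 - a) →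
      ∀ x y, 0 ≤ x → x ≤ TT ρ r 2 a b → 0 ≤ y → y ≤ TT ρ r 2 a b →
      |f ![a, b, x] - f ![a, b, y]| ≤ K * |x - y| := by
    intro a b ha ha' hb hb' x y hx0 hx1 hy0 hy1
    have h2 := hl3 _ _ _ _ _ _ (d3_reg.2 ⟨⟨ha, ha'⟩, ⟨hb, hb'⟩, hx0, hx1⟩)
      (d3_reg.2 ⟨⟨ha, ha'⟩, ⟨hb, hb'⟩, hy0, hy1⟩)
    simpa using h2
  have hfb : ∀ a b : ℝ, 0 ≤ a → a ≤ ρ → 0 ≤ b → b ≤ min ρ (r 2 - a) →
      ∀ x, 0 ≤ x → x ≤ TT ρ r 2 a b → |f ![a, b, x]| ≤ K :=
    fun a b ha ha' hb hb' x hx0 hx1 => hbd _ (d3_reg.2 ⟨⟨ha, ha'⟩, ⟨hb, hb'⟩, hx0, hx1⟩)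
  -- the function g of two variables
  obtain ⟨g, hg⟩ : ∃ g : ℝ → ℝ → ℝ, ∀ a b, g a b = ∫ c in (0 : ℝ)..(TT ρ r 2 a b), f ![a, b, c] :=
    ⟨_, fun _ _ => rfl⟩
  have hgb : ∀ a b, 0 ≤ a → a ≤ ρ → 0 ≤ b → b ≤ min ρ (r 2 - a) → |g a b| ≤ 2 * K := by
    intro a b ha ha' hb hb'
    have h0 := hTT0 a b ha' (hb'.trans (min_le_left _ _))
    rw [hg]
    refine (d3_bd (hfb a b ha ha' hb hb') le_rfl h0 le_rfl).trans ?_
    have := hTTρ a b
    nlinarith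
  have hTTl : ∀ a b a' b' : ℝ, |TT ρ r 2 a b - TT ρ r 2 a' b'| ≤ |a - a'| + |b - b'| := by
    intro a b a' b'
    unfold TT
    have h1 : |min ρ (min (r (o1 2) - b) (r (o2 2) - a)) -
        min ρ (min (r (o1 2) - b') (r (o2 2) - a'))| ≤
        max |ρ - ρ| |min (r (o1 2) - b) (r (o2 2) - a) - min (r (o1 2) - b') (r (o2 2) - a')| :=
      abs_min_sub_min_le_max _ _ _ _
    have h2 : |min (r (o1 2) - b) (r (o2 2) - a) - min (r (o1 2) - b') (r (o2 2) - a')| ≤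
        max |(r (o1 2) - b) - (r (o1 2) - b')| |(r (o2 2) - a) - (r (o2 2) - a')| :=
      abs_min_sub_min_le_max _ _ _ _
    have h3 : (r (o1 2) - b) - (r (o1 2) - b') = -(b - b') := by ring
    have h4 : (r (o2 2) - a) - (r (o2 2) - a') = -(a - a') := by ring
    rw [h3, h4, abs_neg, abs_neg] at h2
    rw [sub_self, abs_zero] at h1
    have h5 := abs_nonneg (a - a')
    have h6 := abs_nonneg (b - b')
    refine h1.trans (max_le (by linarith) (h2.trans (max_le (by linarith) (by linarith))))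
  have hgl : ∀ a b a' b', 0 ≤ a → a ≤ ρ → 0 ≤ b → b ≤ min ρ (r 2 - a) →
      0 ≤ a' → a' ≤ ρ → 0 ≤ b' → b' ≤ min ρ (r 2 - a') →
      |g a b - g a' b'| ≤ 2 * K * (|a - a'| + |b - b'|) := by
    intro a b a' b' ha haρ hb hbρ ha' haρ' hb' hbρ'
    rw [hg, hg]
    refine d3_lip hK (hTT0 a b haρ (hbρ.trans (min_le_left _ _))) ((hTTρ a b).trans hρ1)
      (hTT0 a' b' haρ' (hbρ'.trans (min_le_left _ _))) ((hTTρ a' b').trans hρ1)
      (hfb a b ha haρ hb hbρ) (hfb a' b' ha' haρ' hb' hbρ') (hfl a b ha haρ hb hbρ)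
      (hfl a' b' ha' haρ' hb' hbρ') (fun x hx0 hx1 hx2 => ?_) (hTTl a b a' b')
    have h2 := hl3 _ _ _ _ _ _ (d3_reg.2 ⟨⟨ha, haρ⟩, ⟨hb, hbρ⟩, hx0, hx1⟩)
      (d3_reg.2 ⟨⟨ha', haρ'⟩, ⟨hb', hbρ'⟩, hx0, hx2⟩)
    rwa [sub_self, abs_zero, add_zero] at h2
  -- the function k of one variable
  obtain ⟨k, hk⟩ : ∃ k : ℝ → ℝ, ∀ a, k a = ∫ b in (0 : ℝ)..(min ρ (r 2 - a)), g a b :=
    ⟨_, fun _ => rfl⟩
  have hgl1 : ∀ a, 0 ≤ a → a ≤ ρ → ∀ x y, 0 ≤ x → x ≤ min ρ (r 2 - a) → 0 ≤ y →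
      y ≤ min ρ (r 2 - a) → |g a x - g a y| ≤ 2 * K * |x - y| := by
    intro a ha haρ x y hx0 hx1 hy0 hy1
    have h2 := hgl a x a y ha haρ hx0 hx1 ha haρ hy0 hy1
    rwa [sub_self, abs_zero, zero_add] at h2
  have hkb : ∀ a, 0 ≤ a → a ≤ ρ → |k a| ≤ 2 * K := by
    intro a ha haρ
    have h0 := hT0 a haρ
    have h1 : min ρ (r 2 - a) ≤ ρ := min_le_left _ _
    rw [hk]
    refine (d3_bd (hgb a · ha haρ) le_rfl h0 le_rfl).trans ?_
    nlinarith
  have hkl : ∀ a a', 0 ≤ a → a ≤ ρ → 0 ≤ a' → a' ≤ ρ → |k a - k a'| ≤ 4 * K * |a - a'| := by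
    intro a a' ha haρ ha' haρ'
    rw [hk, hk]
    have h1 : |min ρ (r 2 - a) - min ρ (r 2 - a')| ≤ |a - a'| := by
      have h2 : |min ρ (r 2 - a) - min ρ (r 2 - a')| ≤
          max |ρ - ρ| |(r 2 - a) - (r 2 - a')| := abs_min_sub_min_le_max _ _ _ _
      have h3 : (r 2 - a) - (r 2 - a') = -(a - a') := by ring
      rw [h3, abs_neg, sub_self, abs_zero] at h2
      exact h2.trans (max_le (abs_nonneg _) le_rfl)
    have h2 := d3_lip (K := 2 * K) (by linarith) (hT0 a haρ) ((min_le_left _ _).trans hρ1)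
      (hT0 a' haρ') ((min_le_left _ _).trans hρ1) (hgb a · ha haρ) (hgb a' · ha' haρ')
      (hgl1 a ha haρ) (hgl1 a' ha' haρ') (fun x hx0 hx1 hx2 => by
        have h2 := hgl a x a' x ha haρ hx0 hx1 ha' haρ' hx0 hx2
        rwa [sub_self, abs_zero, add_zero] at h2) h1
    linarith
  -- the nested form of the sum
  have hS : (∑ e, ∑ e', ∑ e'', if Reg2 ρ r ![s e, s e', s e''] then
      wt e * wt e' * wt e'' * f ![s e, s e', s e''] else 0) =
      ∑ e, if s e ≤ ρ then wt e * (∑ e', if s e' ≤ min ρ (r 2 - s e) then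
        wt e' * (∑ e'', if s e'' ≤ TT ρ r 2 (s e) (s e') then
          wt e'' * f ![s e, s e', s e''] else 0) else 0) else 0 := by
    refine Finset.sum_congr rfl fun e _ => ?_
    by_cases h : s e ≤ ρ
    · rw [if_pos h, Finset.mul_sum]
      refine Finset.sum_congr rfl fun e' _ => ?_
      by_cases h' : s e' ≤ min ρ (r 2 - s e)
      · rw [if_pos h', Finset.mul_sum, Finset.mul_sum]
        refine Finset.sum_congr rfl fun e'' _ => ?_
        by_cases h'' : s e'' ≤ TT ρ r 2 (s e) (s e')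
        · rw [if_pos h'', if_pos (d3_reg.2 ⟨⟨hD.sn e, h⟩, ⟨hD.sn e', h'⟩, hD.sn e'', h''⟩)]
          ring
        · rw [if_neg h'', if_neg (fun hR => h'' (d3_reg.1 hR).2.2.2)]
          ring
      · rw [if_neg h', mul_zero]
        exact Finset.sum_eq_zero fun e'' _ => if_neg fun hR => h' (d3_reg.1 hR).2.1.2
    · rw [if_neg h]
      exact Finset.sum_eq_zero fun e' _ => Finset.sum_eq_zero fun e'' _ =>
        if_neg fun hR => h (d3_reg.1 hR).1.2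
  have hI : (∫ a in (0 : ℝ)..ρ, ∫ b in (0 : ℝ)..(min ρ (r 2 - a)),
      ∫ c in (0 : ℝ)..(TT ρ r 2 a b), f ![a, b, c]) = ∫ a in (0 : ℝ)..ρ, k a := by
    refine intervalIntegral.integral_congr fun a _ => ?_
    rw [hk]
    refine intervalIntegral.integral_congr fun b _ => ?_
    exact (hg a b).symm
  -- first step
  have s1 : ∀ e e', s e ≤ ρ → s e' ≤ min ρ (r 2 - s e) →
      |(∑ e'', if s e'' ≤ TT ρ r 2 (s e) (s e') then wt e'' * f ![s e, s e', s e''] else 0) -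
        A * g (s e) (s e')| ≤ ε0 / 8 * A := by
    intro e e' h h'
    rw [hg]
    refine H1 E wt s A ρ hA hρ hρ1 D1 (TT ρ r 2 (s e) (s e')) (fun c => f ![s e, s e', c])
      (hTT0 _ _ h (h'.trans (min_le_left _ _))) (hTTρ _ _) (fun x hx0 hx1 => ?_)
      (fun x y hx0 hx1 hy0 hy1 => ?_)
    · refine (hfb _ _ (hD.sn e) h (hD.sn e') h' x hx0 hx1).trans ?_
      linarith
    · refine (hfl _ _ (hD.sn e) h (hD.sn e') h' x y hx0 hx1 hy0 hy1).trans ?_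
      exact mul_le_mul_of_nonneg_right (by linarith) (abs_nonneg _)
  -- second step
  have s2 : ∀ e, s e ≤ ρ →
      |(∑ e', if s e' ≤ min ρ (r 2 - s e) then
        wt e' * (∑ e'', if s e'' ≤ TT ρ r 2 (s e) (s e') then
          wt e'' * f ![s e, s e', s e''] else 0) else 0) - A ^ 2 * k (s e)| ≤
        3 * (ε0 / 8) * A ^ 2 := by
    intro e h
    have h1 : |(∑ e', if s e' ≤ min ρ (r 2 - s e) then wt e' * g (s e) (s e') else 0) -
        A * k (s e)| ≤ ε0 / 8 * A := by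
      rw [hk]
      refine H1 E wt s A ρ hA hρ hρ1 D1 (min ρ (r 2 - s e)) (fun b => g (s e) b)
        (hT0 _ h) (min_le_left _ _) (fun x hx0 hx1 => ?_) (fun x y hx0 hx1 hy0 hy1 => ?_)
      · refine (hgb _ _ (hD.sn e) h hx0 hx1).trans ?_
        linarith
      · refine (hgl1 _ (hD.sn e) h x y hx0 hx1 hy0 hy1).trans ?_
        exact mul_le_mul_of_nonneg_right (by linarith) (abs_nonneg _)
    have h2 := d3_step hA hρ1 D3 (hT0 _ h) (min_le_left _ _) hA.le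
      (x := fun e' => ∑ e'', if s e'' ≤ TT ρ r 2 (s e) (s e') then
          wt e'' * f ![s e, s e', s e''] else 0)
      (fun e' h' => s1 e e' h h') h1 (by positivity)
    have h3 : A ^ 2 * k (s e) = A * A * k (s e) := by ring
    rw [h3]
    refine h2.trans (le_of_eq ?_)
    ring
  -- third step
  have h1 : |(∑ e, if s e ≤ ρ then wt e * k (s e) else 0) -
      A * ∫ a in (0 : ℝ)..ρ, k a| ≤ ε0 / 8 * A := by
    refine H1 E wt s A ρ hA hρ hρ1 D1 ρ k hρ.le le_rfl (fun x hx0 hx1 => ?_)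
      (fun x y hx0 hx1 hy0 hy1 => ?_)
    · refine (hkb _ hx0 hx1).trans ?_
      linarith
    · exact hkl _ _ hx0 hx1 hy0 hy1
  have h2 := d3_step hA hρ1 D3 hρ.le le_rfl (sq_nonneg A)
    (x := fun e => ∑ e', if s e' ≤ min ρ (r 2 - s e) then
        wt e' * (∑ e'', if s e'' ≤ TT ρ r 2 (s e) (s e') then
          wt e'' * f ![s e, s e', s e''] else 0) else 0)
    (fun e h => s2 e h) h1 (by positivity)
  have h3 : A ^ 3 * (∫ a in (0 : ℝ)..ρ, k a) = A * A ^ 2 * (∫ a in (0 : ℝ)..ρ, k a) := by ring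
  rw [hS, hI, h3]
  refine h2.trans ?_
  have h4 : 0 ≤ ε0 * A ^ 3 := by positivity
  nlinarith

end Pool.Agent.PU
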