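import Pool.Agent.PU.SP
import Pool.Agent.PT.Elem
import Pool.Agent.PT.StD
import Pool.Agent.MT.YY
import Pool.Agent.MT.Wt

set_option autoImplicit false

/-!
# PU / Dif: the two weights almost coincide on the primes

See the docstring of `St_Dif` in `PU/Stmts.lean`.
-/

namespace Pool.Agent.PU

open Finset Filter Pool.Agent.MT Pool.Agent.PT

theorem Dif_part {w X : ℕ} (τ : PP w X → Option (Fin 3)) (h : Fin 3) (hh : h ≠ 0) :
    part (dl 0 τ) h = part τ h := by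
  ext i
  rw [part, mem_filter, part, mem_filter]
  unfold dl
  by_cases h1 : τ i = some 0
  · rw [if_pos h1, h1]
    simp [Ne.symm hh]
  · rw [if_neg h1]

theorem Dif_dl0 {w X : ℕ} (τ : PP w X → Option (Fin 3)) (i : PP w X) : dl 0 τ i ≠ some 0 := by
  unfold dl
  split_ifs with h
  · simp
  · exact h

theorem Dif_sum_le {w X : ℕ} (s : Finset (PP w X)) :
    ∑ i ∈ s, qq i ≤ ∏ i : PP w X, (1 + qq i) := by
  have h1 : ∀ s : Finset (PP w X), 1 + ∑ i ∈ s, qq i ≤ ∏ i ∈ s, (1 + qq i) := by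
    intro s
    induction s using Finset.induction_on with
    | empty => simp
    | insert a s ha ih =>
      rw [Finset.sum_insert ha, Finset.prod_insert ha]
      have h2 := qq_pos a
      have h3 : 0 ≤ ∑ i ∈ s, qq i := Finset.sum_nonneg fun i _ => (qq_pos i).le
      nlinarith
  have h2 : ∑ i ∈ s, qq i ≤ ∑ i : PP w X, qq i :=
    Finset.sum_le_sum_of_subset_of_nonneg (subset_univ _) fun i _ _ => (qq_pos i).le
  have h3 := h1 (univ : Finset (PP w X))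
  linarith

/-- size of the spread coefficients -/
theorem Dif_spr_le {w X M N : ℕ} {τ₀ T P : ℝ} (h0 : 0 ≤ τ₀)
    (hP : P = ∏ i : PP w X, (1 + qq i)) (D : (PP w X → Option (Fin 3)) → ℝ)
    (hT : ∀ τ, (∀ i, τ i ≠ some 0) → |D τ| ≤ T) (τ : PP w X → Option (Fin 3)) :
    |spr D τ₀ M N τ| ≤ P * T := by
  have hP1 : 1 ≤ P := by rw [hP]; exact one_le_prod_qq
  have hT0 : 0 ≤ T := (abs_nonneg _).trans (hT (dl 0 τ) (Dif_dl0 τ))
  unfold spr
  split_ifs with h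
  · rw [abs_mul, Finset.abs_prod, abs_div]
    have h1 : ∏ i ∈ part τ 0, |-((pr i : ℝ) / ((pr i : ℝ) - 1))| ≤ P := by
      rw [hP]
      have h2 : ∏ i ∈ part τ 0, |-((pr i : ℝ) / ((pr i : ℝ) - 1))| =
          ∏ i ∈ part τ 0, (1 + qq i) := by
        refine prod_congr rfl fun i _ => ?_
        rw [abs_neg, one_add_qq, abs_of_pos]
        linarith [qq_pos i]
      rw [h2]
      exact Finset.prod_le_prod_of_subset_of_one_le (subset_univ _)
        (fun i _ => by linarith [qq_pos i]) (fun i _ _ => by linarith [qq_pos i])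
    have h2 : |D (dl 0 τ)| / |nr τ₀ M N (dl 0 τ)| ≤ T := by
      have h3 := SP_nr τ₀ M N h0 (dl 0 τ)
      have h4 : 1 ≤ |nr τ₀ M N (dl 0 τ)| := h3.trans (le_abs_self _)
      exact (div_le_self (abs_nonneg _) h4).trans (hT _ (Dif_dl0 τ))
    exact mul_le_mul h1 h2 (div_nonneg (abs_nonneg _) (abs_nonneg _)) (by linarith)
  · rw [abs_zero]
    exact mul_nonneg (by linarith) hT0

/-- level of the spread coefficients -/
theorem Dif_level {w X M N : ℕ} {τ₀ R : ℝ} (hM : 1 ≤ M) (hN : 2 ≤ N)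
    (D : (PP w X → Option (Fin 3)) → ℝ)
    (hD : ∀ τ, R < szs M N τ 1 + szs M N τ 2 → D τ = 0)
    (τ : PP w X → Option (Fin 3)) (h : spr D τ₀ M N τ ≠ 0) :
    (nrm pr τ : ℝ) ≤ (N : ℝ) ^ (R + τ₀) := by
  refine (nrm_le hM hN τ).trans ?_
  have h1 : (2 : ℝ) ≤ N := by exact_mod_cast hN
  refine Real.rpow_le_rpow_of_exponent_le (by linarith) ?_
  rw [Fin.sum_univ_three]
  unfold spr at h
  split_ifs at h with h2
  · have h3 : szs M N (dl 0 τ) 1 + szs M N (dl 0 τ) 2 ≤ R := by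
      by_contra hc
      push Not at hc
      apply h
      rw [hD _ hc, zero_div, mul_zero]
    have h4 : szs M N (dl 0 τ) 1 = szs M N τ 1 := by
      unfold szs
      rw [Dif_part τ 1 (by decide)]
    have h5 : szs M N (dl 0 τ) 2 = szs M N τ 2 := by
      unfold szs
      rw [Dif_part τ 2 (by decide)]
    rw [h4, h5] at h3
    have h6 : szs M N τ 0 = ss M N (part τ 0) := rfl
    linarith
  · exact absurd rfl h

theorem Dif_YY {w N : ℕ} {ρ : ℝ} (sh : Fin 3 → ℕ) (hsh : Function.Injective sh)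
    (hshw : ∀ h, sh h ≤ w) (a : ℕ) (hp : (a + sh 0).Prime) (hX : XR ρ N < a + sh 0)
    (i : PP w (XR ρ N)) : YY pr sh a i ≠ some 0 := by
  intro h
  rw [YY_eq_some pr sh hsh (fun i h => lt_of_le_of_lt (hshw h) (pr_gt i))] at h
  rcases (Nat.dvd_prime hp).1 h with h1 | h1
  · exact (pr_prime i).one_lt.ne' h1
  · have := pr_le i
    omega

/-- on the primes the difference of the weights is the combination of the spread coefficients -/
theorem Dif_Lam (hSP : St_SP) {w M N : ℕ} {ρ τ₀ : ℝ} (F G : (Fin 3 → ℝ) → ℝ) (hw : 2 ≤ w)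
    (h0 : 0 ≤ τ₀) (hM : 1 ≤ M) (hN : 2 ≤ N) (sh : Fin 3 → ℕ) (a : ℕ)
    (hD : ∀ τ : PP w (XR ρ N) → Option (Fin 3), (∃ i, τ i = some 0) →
      cb F M N τ - cb G M N τ = 0)
    (hY : ∀ i : PP w (XR ρ N), YY pr sh a i ≠ some 0) :
    Lam F ρ M w N sh a - Lam G ρ M w N sh a =
      comb bb (spr (fun τ : PP w (XR ρ N) → Option (Fin 3) => cb F M N τ - cb G M N τ) τ₀ M N)
        (YY pr sh a) := by
  rw [hSP w (XR ρ N) M N τ₀ _ hw h0 hM hN hD (YY pr sh a) hY]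
  unfold Lam
  rw [comb_sbst {0} bb bb (cc F M N) (YY pr sh a) (fun i h hi hh => hY i (by
    rw [mem_singleton] at hh
    rw [hi, hh])), comb_sbst {0} bb bb (cc G M N) (YY pr sh a) (fun i h hi hh => hY i (by
    rw [mem_singleton] at hh
    rw [hi, hh]))]
  unfold comb
  rw [← Finset.sum_sub_distrib]
  refine Finset.sum_congr rfl fun σ _ => ?_
  unfold cb
  ring

theorem thm_Dif (hCB : St_CB) (_hNR : St_NR) (hSP : St_SP) (hIG : St_IntG) (hS2 : St_S2)
    (hZ : St_Z1) : St_Dif := by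
  classical
  intro η hη ρ K ε r r' F G hρ hr hr' hrr hr0 hK hF hG hh0 hε sh hsh
  obtain ⟨C, hC, hexp⟩ := hIG η hη
  obtain ⟨hmη, CZ, hCZ, hZ1⟩ := hZ η hη
  have hρ2 : ρ < 1 / 2 := lt_of_le_of_lt (hr 0) hr0
  obtain ⟨τ₀, hτ₀⟩ : ∃ τ₀ : ℝ, τ₀ = min ρ ((1 / 2 - r 0) / 2) := ⟨_, rfl⟩
  have hτ1 : 0 < τ₀ := by rw [hτ₀]; exact lt_min hρ (by linarith)
  have hτ2 : τ₀ ≤ ρ := by rw [hτ₀]; exact min_le_left _ _
  have hτ3 : τ₀ ≤ (1 / 2 - r 0) / 2 := by rw [hτ₀]; exact min_le_right _ _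
  obtain ⟨δ, hδ, w1, M1, h1⟩ := hS2 ρ τ₀ (2 * K) ε hτ1 hτ2 hρ2 (by linarith) hε
  obtain ⟨w2, M2, h2⟩ := hCB ρ K (δ / 2) r F hρ hρ2 hr hF (by linarith)
  obtain ⟨w3, M3, h3⟩ := hCB ρ K (δ / 2) r' G hρ hρ2 hr' hG (by linarith)
  refine ⟨w1 + w2 + w3 + 14 + ∑ h, sh h, M1 + M2 + M3 + 1, ?_⟩
  intro w M hw hM v
  have hshw : ∀ h, sh h ≤ w := fun h => by
    have h2 : sh h ≤ ∑ h, sh h := Finset.single_le_sum (fun _ _ => Nat.zero_le _) (mem_univ h)
    omega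
  have hw14 : 14 ≤ w := by omega
  obtain ⟨E, hE⟩ : ∃ E : ℝ, E = Real.exp 8 := ⟨_, rfl⟩
  have hE0 : 0 < E := by rw [hE]; exact Real.exp_pos _
  obtain ⟨f, hf⟩ : ∃ f : ℝ, f = phW w := ⟨_, rfl⟩
  have hf0 : 0 < f := by rw [hf]; exact phW_pos1 w
  obtain ⟨B, hB⟩ : ∃ B : ℝ, B = E * (E * f * (δ + 2 * K * E)) := ⟨_, rfl⟩
  have hB0 : 0 < B := by rw [hB]; positivity
  obtain ⟨α, hα⟩ : ∃ α : ℝ, α = 1 - 2 * (r 0 + τ₀) := ⟨_, rfl⟩
  have hα0 : 0 < α := by rw [hα]; linarith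
  filter_upwards [h1 w M (by omega) (by omega), h2 w M (by omega) (by omega),
    h3 w M (by omega) (by omega), mert_ev hρ (by linarith) (by omega : 2 ≤ w),
    log_pow_le (2 * C * B ^ 2 * E ^ 15) 23 hα0,
    log_pow_le (2 * CZ * f ^ 3 * ε) 3 (show (0 : ℝ) < 1 by norm_num),
    log_pow_le 8 0 (show (0 : ℝ) < 1 - ρ by linarith),
    eventually_ge_atTop 3] with N g1 g2 g3 g4 g5 g6 g7 hN
  rw [← hE] at g4
  have hN1 : (3 : ℝ) ≤ N := by exact_mod_cast hN
  have hN0 : (0 : ℝ) < N := by linarith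
  have hW0 : (0 : ℝ) < primorial w := by exact_mod_cast primorial_pos w
  have hW1 : (1 : ℝ) ≤ primorial w := by
    exact_mod_cast Nat.succ_le_of_lt (primorial_pos w)
  obtain ⟨L, hL⟩ : ∃ L : ℝ, L = Real.log N := ⟨_, rfl⟩
  have hL1 : 1 ≤ L := by
    rw [hL]
    have h4 : Real.exp 1 ≤ N := by
      have := Real.exp_one_lt_d9
      linarith
    calc (1 : ℝ) = Real.log (Real.exp 1) := (Real.log_exp 1).symm
      _ ≤ Real.log N := Real.log_le_log (Real.exp_pos _) h4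
  have hAL : AA w N = f * L := by rw [hf, hL]; rfl
  rw [← hL] at g4 g5 g6 g7
  obtain ⟨P, hP⟩ : ∃ P : ℝ, P = ∏ i : PP w (XR ρ N), (1 + qq i) := ⟨_, rfl⟩
  have hP1 : 1 ≤ P := by rw [hP]; exact one_le_prod_qq
  rw [← hP] at g4
  -- the coefficients
  obtain ⟨D, hDd⟩ : ∃ D : (PP w (XR ρ N) → Option (Fin 3)) → ℝ,
    D = fun τ => cb F M N τ - cb G M N τ := ⟨_, rfl⟩
  have hD1 : ∀ τ, (∃ i, τ i = some 0) → D τ = 0 := by
    intro τ hτ
    rw [hDd]
    beta_reduce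
    rw [(g2 τ).1 hτ, (g3 τ).1 hτ, sub_zero]
  have hD2 : ∀ τ, ρ < szs M N τ 1 ∨ ρ < szs M N τ 2 → D τ = 0 := by
    intro τ hτ
    rw [hDd]
    beta_reduce
    rcases hτ with hτ | hτ
    · rw [(g2 τ).2.1 (Or.inl hτ), (g3 τ).2.1 (Or.inl hτ), sub_zero]
    · rw [(g2 τ).2.1 (Or.inr (Or.inl hτ)), (g3 τ).2.1 (Or.inr (Or.inl hτ)), sub_zero]
  have hD3 : ∀ τ, r 0 < szs M N τ 1 + szs M N τ 2 → D τ = 0 := by
    intro τ hτ
    rw [hDd]
    beta_reduce
    rw [(g2 τ).2.1 (Or.inr (Or.inr hτ)), (g3 τ).2.1 (Or.inr (Or.inr (by rw [hrr]; exact hτ))),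
      sub_zero]
  have hD4 : ∀ τ, (∀ i, τ i ≠ some 0) →
      |D τ| ≤ |sg τ| * AA w N * (δ + 2 * K * ∑ i ∈ supp τ, qq i) := by
    intro τ hτ
    have k1 := (g2 τ).2.2 hτ
    have k2 := (g3 τ).2.2 hτ
    rw [← hh0 _ _ (szs_nonneg (by omega) (by omega) τ 1) (szs_nonneg (by omega) (by omega) τ 2)]
      at k2
    rw [hDd]
    beta_reduce
    obtain ⟨m, hm⟩ : ∃ m : ℝ, m = sg τ * (AA w N * hh F ρ 0 (szs M N τ 1) (szs M N τ 2) 0) :=
      ⟨_, rfl⟩
    rw [← hm] at k1 k2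
    have k3 : |cb F M N τ - cb G M N τ| ≤ |cb F M N τ - m| + |cb G M N τ - m| := by
      have k4 : cb F M N τ - cb G M N τ = (cb F M N τ - m) - (cb G M N τ - m) := by ring
      rw [k4]
      exact abs_sub _ _
    refine k3.trans ((add_le_add k1 k2).trans (le_of_eq ?_))
    ring
  have hS := g1 D hD1 hD2 hD4
  have hT : ∀ τ, (∀ i, τ i ≠ some 0) → |D τ| ≤ P * (f * L) * (δ + 2 * K * P) := by
    intro τ hτ
    refine (hD4 τ hτ).trans ?_
    rw [hAL]
    have k1 : |sg τ| ≤ P := by rw [hP]; exact abs_sg_le τ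
    have k2 : ∑ i ∈ supp τ, qq i ≤ P := by rw [hP]; exact Dif_sum_le _
    have k3 : 0 ≤ ∑ i ∈ supp τ, qq i := Finset.sum_nonneg fun i _ => (qq_pos i).le
    refine mul_le_mul (mul_le_mul_of_nonneg_right k1 (by positivity)) ?_ (by positivity)
      (by positivity)
    have k4 : 2 * K * ∑ i ∈ supp τ, qq i ≤ 2 * K * P :=
      mul_le_mul_of_nonneg_left k2 (by linarith)
    linarith
  obtain ⟨T, hTd⟩ : ∃ T : ℝ, T = P * (P * (f * L) * (δ + 2 * K * P)) := ⟨_, rfl⟩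
  have hsT : ∀ τ, |spr D τ₀ M N τ| ≤ T := by
    intro τ
    rw [hTd]
    exact Dif_spr_le hτ1.le hP D hT τ
  have hT0 : 0 ≤ T := by rw [hTd]; positivity
  have hTB : T ≤ B * L ^ 4 := by
    have k1 : δ + 2 * K * P ≤ (δ + 2 * K * E) * L := by
      have k2 : 2 * K * P ≤ 2 * K * (E * L) := mul_le_mul_of_nonneg_left g4 (by linarith)
      have k3 : δ * 1 ≤ δ * L := mul_le_mul_of_nonneg_left hL1 hδ.le
      linarith
    rw [hTd, hB]
    calc P * (P * (f * L) * (δ + 2 * K * P)) ≤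
        (E * L) * ((E * L) * (f * L) * ((δ + 2 * K * E) * L)) := by
          refine mul_le_mul g4 (mul_le_mul (mul_le_mul_of_nonneg_right g4 (by positivity)) k1
            (by positivity) (by positivity)) (by positivity) (by positivity)
      _ = _ := by ring
  obtain ⟨D1, hD1d⟩ : ∃ D1 : ℕ, D1 = ⌊(N : ℝ) ^ (r 0 + τ₀)⌋₊ := ⟨_, rfl⟩
  have hlev : ∀ τ, spr D τ₀ M N τ ≠ 0 → nrm pr τ ≤ D1 := by
    intro τ hτ
    rw [hD1d]
    exact Nat.le_floor (Dif_level (by omega) (by omega) D hD3 τ hτ)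
  have hmain := hexp w (XR ρ N) N v D1 (spr D τ₀ M N) T hsT hlev sh hsh hshw (by omega) hw14
  rw [← hP] at hmain
  -- the sum
  have hX8 : ∀ a : ℕ, η ((a : ℝ) / N) ≠ 0 → XR ρ N < a + sh 0 := by
    intro a ha
    have k1 := (hη.supp _ ha).1
    rw [lt_div_iff₀ hN0] at k1
    rw [pow_zero, mul_one] at g7
    have k2 : (N : ℝ) ^ ρ * (N : ℝ) ^ (1 - ρ) = N := by
      rw [← Real.rpow_add hN0]
      simp
    have k3 : (N : ℝ) ^ ρ * 8 ≤ N := by
      calc (N : ℝ) ^ ρ * 8 ≤ (N : ℝ) ^ ρ * (N : ℝ) ^ (1 - ρ) :=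
            mul_le_mul_of_nonneg_left g7 (by positivity)
        _ = N := k2
    have k4 : ((XR ρ N : ℕ) : ℝ) ≤ (N : ℝ) ^ ρ := Nat.floor_le (by positivity)
    have k5 : ((XR ρ N : ℕ) : ℝ) < a := by linarith
    have k6 : XR ρ N < a := by exact_mod_cast k5
    omega
  have hsum : ∑ a ∈ (range (N + 1)).filter (fun a => a % primorial w = v % primorial w ∧
        (a + sh 0).Prime),
      η ((a : ℝ) / N) * (Lam F ρ M w N sh a - Lam G ρ M w N sh a) ^ 2 ≤
      ∑ a ∈ (range (N + 1)).filter (fun a => a % primorial w = v % primorial w),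
        η ((a : ℝ) / N) * comb bb (spr D τ₀ M N) (YY pr sh a) ^ 2 := by
    refine le_trans (le_of_eq (Finset.sum_congr rfl fun a ha => ?_))
      (Finset.sum_le_sum_of_subset_of_nonneg (s := (range (N + 1)).filter
        (fun a => a % primorial w = v % primorial w ∧ (a + sh 0).Prime)) ?_ ?_)
    · by_cases h0 : η ((a : ℝ) / N) = 0
      · rw [h0, zero_mul, zero_mul]
      · have k1 := (mem_filter.1 ha).2.2
        rw [hDd, Dif_Lam hSP F G (by omega) hτ1.le (by omega) (by omega) sh a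
          (fun τ hτ => by
            have k2 := hD1 τ hτ
            rw [hDd] at k2
            exact k2)
          (Dif_YY sh hsh hshw a k1 (hX8 a h0))]
    · intro a ha
      rw [mem_filter] at ha ⊢
      exact ⟨ha.1, ha.2.1⟩
    · intro a _ _
      exact mul_nonneg (hη.nonneg _) (sq_nonneg _)
  -- the main term
  obtain ⟨S, hSd⟩ : ∃ S : ℝ, S = ∑ τ, spr D τ₀ M N τ ^ 2 * ∏ i ∈ supp τ, bb i := ⟨_, rfl⟩
  rw [← hSd] at hS hmain
  have h7 : Z1 η N / primorial w * S ≤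
      N * mη η / primorial w * (AA w N ^ 3 * ε) + N / 2 := by
    have h8 := (abs_le.1 (hZ1 N (by omega))).2
    have h9 : 0 ≤ Z1 η N := Z1_nonneg η hη N
    have hA0 := AA_nonneg w N
    have hAI : 0 ≤ AA w N ^ 3 * ε := by positivity
    calc Z1 η N / primorial w * S ≤ Z1 η N / primorial w * (AA w N ^ 3 * ε) :=
          mul_le_mul_of_nonneg_left (by linarith) (by positivity)
      _ ≤ (N * mη η + CZ) / primorial w * (AA w N ^ 3 * ε) := by
          refine mul_le_mul_of_nonneg_right ?_ hAI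
          exact div_le_div_of_nonneg_right (by linarith) hW0.le
      _ = N * mη η / primorial w * (AA w N ^ 3 * ε) +
          CZ / primorial w * (AA w N ^ 3 * ε) := by ring
      _ ≤ N * mη η / primorial w * (AA w N ^ 3 * ε) + N / 2 := by
          have h10 : CZ / primorial w * (AA w N ^ 3 * ε) ≤ CZ * (AA w N ^ 3 * ε) := by
            refine mul_le_mul_of_nonneg_right ?_ hAI
            exact div_le_self hCZ.le hW1
          have h11 : CZ * (AA w N ^ 3 * ε) = (2 * CZ * f ^ 3 * ε * L ^ 3) / 2 := by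
            rw [hAL]
            ring
          rw [Real.rpow_one] at g6
          linarith
  -- the error
  have h12 : C * T ^ 2 * P ^ 15 * (D1 : ℝ) ^ 2 ≤ N / 2 := by
    have h13 : (D1 : ℝ) ≤ (N : ℝ) ^ (r 0 + τ₀) := by
      rw [hD1d]
      exact Nat.floor_le (by positivity)
    have h14 : (D1 : ℝ) ^ 2 ≤ (N : ℝ) ^ (2 * (r 0 + τ₀)) := by
      calc (D1 : ℝ) ^ 2 ≤ ((N : ℝ) ^ (r 0 + τ₀)) ^ 2 := pow_le_pow_left₀ (by positivity) h13 2
        _ = (N : ℝ) ^ (2 * (r 0 + τ₀)) := by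
          rw [← Real.rpow_natCast, ← Real.rpow_mul (by linarith)]
          congr 1
          push_cast
          ring
    have h15 : P ^ 15 ≤ (E * L) ^ 15 := pow_le_pow_left₀ (by linarith) g4 15
    have h16 : (N : ℝ) ^ α * (N : ℝ) ^ (2 * (r 0 + τ₀)) = N := by
      rw [← Real.rpow_add hN0, hα]
      simp
    have h17 : T ^ 2 ≤ (B * L ^ 4) ^ 2 := pow_le_pow_left₀ hT0 hTB 2
    calc C * T ^ 2 * P ^ 15 * (D1 : ℝ) ^ 2 ≤
        C * (B * L ^ 4) ^ 2 * (E * L) ^ 15 * (N : ℝ) ^ (2 * (r 0 + τ₀)) := by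
          refine mul_le_mul (mul_le_mul (mul_le_mul_of_nonneg_left h17 hC.le) h15 (by positivity)
            (by positivity)) h14 (by positivity) (by positivity)
      _ = (2 * C * B ^ 2 * E ^ 15 * L ^ 23) * (N : ℝ) ^ (2 * (r 0 + τ₀)) / 2 := by ring
      _ ≤ ((N : ℝ) ^ α) * (N : ℝ) ^ (2 * (r 0 + τ₀)) / 2 := by
          refine div_le_div_of_nonneg_right (mul_le_mul_of_nonneg_right g5 (by positivity))
            (by norm_num)
      _ = N / 2 := by rw [h16]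
  linarith

end Pool.Agent.PU
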