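import Pool.Agent.PU.Stmts
import Pool.Agent.PU.StD
import Pool.Agent.PT.Face

set_option autoImplicit false

/-!
# PU / Face: lower bound for a face
-/

namespace Pool.Agent.PU

open Finset Filter Pool.Agent.MT Pool.Agent.PT

/-- comparison of the weight with the weight of the configuration -/
theorem face_pt2 (hCBd : St_CBd) (hCfg : St_Cfg) (hCr : St_Crude) (hBox : St_Box) (η : ℝ → ℝ)
    (hη : IsWt η) (ρ K : ℝ) (r : Fin 3 → ℝ) (F : (Fin 3 → ℝ) → ℝ) (hρ : 0 < ρ) (hρ1 : ρ < 1)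
    (hr : ∀ j, ρ ≤ r j) (hK : 0 < K) (hF : Pf ρ r K F) (sh : Fin 3 → ℕ) (hsh : Function.Injective sh) (w : ℕ) (hw : 2 ≤ w)
    (hshw : ∀ h, sh h ≤ w) (M : ℕ) (hM : 1 ≤ M) :
    ∀ᶠ N : ℕ in atTop, ∀ n : ℕ, n ≤ 3 → ∀ k : Fin n → ℕ, BoxOK ρ M k → ∀ (j : Fin 3) (a : ℕ),
      a ≤ N →
      η (((a + sh j : ℕ) : ℝ) / N) * bz k M N (a + sh j) *
        comb bb (cc (FB F j (uu k M)) M N) (dl j (YY (pr (w := w) (X := XR ρ N)) sh a)) ^ 2 -
          1 / 8 ≤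
      η ((a : ℝ) / N) * bz k M N (a + sh j) * Lam F ρ M w N sh a ^ 2 := by
  obtain ⟨C, hC, hcfg⟩ := hCfg ρ K r F hρ hρ1 hr hK hF
  obtain ⟨Cη, hCη, hLip⟩ := wt_lipschitz η hη
  filter_upwards [hcfg sh hsh w hw hshw M hM,
    hCr ρ (1 / 4000) hρ hρ1.le (by norm_num) sh hsh w hw hshw, face_bz_le hBox hρ hM,
    log_pow_le (144 * C * K) 0 (show (0 : ℝ) < 1 / 2000 by norm_num),
    log_pow_le (16 * Cη * w * K ^ 2) 0 (show (0 : ℝ) < 1999 / 2000 by norm_num),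
    eventually_ge_atTop (8 * w + 8)] with N h1 h2 h3 h4 h5 hN
  intro n hn k hk j a ha
  have hNR : (1 : ℝ) ≤ N := by exact_mod_cast (by omega : 1 ≤ N)
  have hN0 : (0 : ℝ) < N := by linarith
  have hb0 := face_bz_nonneg k M N (a + sh j)
  obtain ⟨b, hb⟩ : ∃ b : ℝ, b = bz k M N (a + sh j) := ⟨_, rfl⟩
  obtain ⟨η1, hη1⟩ : ∃ x : ℝ, x = η ((a : ℝ) / N) := ⟨_, rfl⟩
  obtain ⟨η2, hη2⟩ : ∃ x : ℝ, x = η (((a + sh j : ℕ) : ℝ) / N) := ⟨_, rfl⟩
  obtain ⟨Q, hQ⟩ : ∃ x : ℝ, x = comb bb (cc (FB F j (uu k M)) M N)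
    (dl j (YY (pr (w := w) (X := XR ρ N)) sh a)) := ⟨_, rfl⟩
  obtain ⟨R, hR⟩ : ∃ x : ℝ, x = Lam F ρ M w N sh a := ⟨_, rfl⟩
  have hη10 : 0 ≤ η1 := by rw [hη1]; exact hη.nonneg _
  have hη20 : 0 ≤ η2 := by rw [hη2]; exact hη.nonneg _
  have hη21 : η2 ≤ 1 := by rw [hη2]; exact hη.le_one _
  rw [← hb] at hb0 ⊢
  rw [← hη1, ← hη2, ← hQ, ← hR]
  have hrhs : 0 ≤ η1 * b * R ^ 2 := by positivity
  by_cases hz : η2 = 0
  · rw [hz]
    linarith
  by_cases hbz : b = 0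
  · rw [hbz]
    norm_num
  have hz' := hη.supp _ (by rw [← hη2]; exact hz)
  have hm1 : N < 8 * (a + sh j) := by
    have := hz'.1
    rw [lt_div_iff₀ hN0] at this
    have h6 : (N : ℝ) < 8 * ((a + sh j : ℕ) : ℝ) := by linarith
    exact_mod_cast h6
  have hm2 : a + sh j ≤ N := by
    have := hz'.2
    rw [div_lt_iff₀ hN0] at this
    have h6 : ((a + sh j : ℕ) : ℝ) ≤ N := by linarith
    exact_mod_cast h6
  have ha1 : 1 ≤ a := by
    have := hshw j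
    omega
  have hb1 : b ≤ 1 := by rw [hb]; exact h3 n hn k hk (a + sh j) hm1 hm2
  have hS := h2 a ha1 ha
  obtain ⟨S, hSd⟩ : ∃ x : ℝ, x = 2 ^ (supp (YY (pr (w := w) (X := XR ρ N)) sh a)).card *
    ∏ i : PP w (XR ρ N), (1 + 3 * qq i) := ⟨_, rfl⟩
  rw [← hSd] at hS
  have hP0 : 0 ≤ ∏ i : PP w (XR ρ N), (1 + 3 * qq i) :=
    prod_nonneg fun i _ => by linarith [qq_pos i]
  have hS0 : 0 ≤ S := by rw [hSd]; positivity
  obtain ⟨D, hD⟩ : ∃ x : ℝ, x = (N : ℝ) ^ (1 / 4000 : ℝ) := ⟨_, rfl⟩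
  have hD0 : 0 < D := by rw [hD]; positivity
  rw [← hD] at hS
  obtain ⟨B, hB⟩ : ∃ x : ℝ, x = (N : ℝ) ^ (-(1 / 1000) : ℝ) := ⟨_, rfl⟩
  have hB0 : 0 < B := by rw [hB]; positivity
  have h7 := h1 n hn k hk j a hm1 hm2 (by rw [← hb]; exact hbz)
  rw [← hR, ← hQ, mul_assoc, mul_assoc, ← hSd, ← hB] at h7
  have h7' : |R - Q| ≤ C * B * D := by
    rw [mul_assoc]
    exact h7.trans (mul_le_mul_of_nonneg_left (mul_le_mul_of_nonneg_left hS hB0.le) hC.le)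
  have h8 : |R| ≤ K * D := by
    rw [hR]
    unfold Lam
    refine (hCBd w (XR ρ N) F K hF.bd M N (YY pr sh a)).trans ?_
    rw [mul_assoc, ← hSd]
    exact mul_le_mul_of_nonneg_left hS hK.le
  have h9 : |Q| ≤ 8 * K * D := by
    rw [hQ]
    refine (hCBd w (XR ρ N) (FB F j (uu k M)) (8 * K) (face_FB_le hF.bd j hn _) M N
      (dl j (YY pr sh a))).trans ?_
    rw [mul_assoc]
    refine mul_le_mul_of_nonneg_left ?_ (by positivity)
    refine le_trans ?_ hS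
    rw [hSd]
    refine mul_le_mul_of_nonneg_right ?_ hP0
    exact pow_le_pow_right₀ (by norm_num) (face_supp_dl j _)
  have h10 : |η2 - η1| ≤ Cη * (w / N) := by
    rw [hη1, hη2]
    refine (hLip _ _).trans (mul_le_mul_of_nonneg_left ?_ hCη.le)
    rw [← sub_div, abs_div, abs_of_pos hN0]
    refine div_le_div_of_nonneg_right ?_ hN0.le
    push_cast
    have : (a : ℝ) + sh j - a = sh j := by ring
    rw [this, abs_of_nonneg (Nat.cast_nonneg _)]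
    exact_mod_cast hshw j
  -- the two errors
  have hBD : B * D * D * (N : ℝ) ^ (1 / 2000 : ℝ) = 1 := by
    rw [hB, hD, ← Real.rpow_add hN0, ← Real.rpow_add hN0, ← Real.rpow_add hN0]
    norm_num
  have hDN : D * D * (N : ℝ) ^ (1999 / 2000 : ℝ) = N := by
    rw [hD, ← Real.rpow_add hN0, ← Real.rpow_add hN0]
    norm_num
  rw [pow_zero, mul_one] at h4 h5
  have e1 : |Q ^ 2 - R ^ 2| ≤ 9 * C * K * (B * D * D) := by
    have : Q ^ 2 - R ^ 2 = -((R - Q) * (Q + R)) := by ring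
    rw [this, abs_neg, abs_mul]
    have e2 : |Q + R| ≤ 9 * K * D := (abs_add_le _ _).trans (by linarith)
    calc |R - Q| * |Q + R| ≤ (C * B * D) * (9 * K * D) :=
          mul_le_mul h7' e2 (abs_nonneg _) (by positivity)
      _ = 9 * C * K * (B * D * D) := by ring
  have e3 : 9 * C * K * (B * D * D) ≤ 1 / 16 := by
    have e4 : 0 < B * D * D := by positivity
    have e5 : 144 * C * K * (B * D * D) ≤ 1 := by
      calc 144 * C * K * (B * D * D) ≤ (N : ℝ) ^ (1 / 2000 : ℝ) * (B * D * D) :=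
            mul_le_mul_of_nonneg_right h4 e4.le
        _ = 1 := by rw [mul_comm]; exact hBD
    linarith
  have e6 : |η2 - η1| * R ^ 2 ≤ 1 / 16 := by
    have e7 : R ^ 2 ≤ (K * D) ^ 2 := by
      rw [← sq_abs]
      exact pow_le_pow_left₀ (abs_nonneg _) h8 2
    have e8 : |η2 - η1| * R ^ 2 ≤ Cη * (w / N) * (K * D) ^ 2 :=
      mul_le_mul h10 e7 (sq_nonneg _) (by positivity)
    refine e8.trans ?_
    have e9 : Cη * (w / N) * (K * D) ^ 2 = (16 * Cη * w * K ^ 2) * (D * D) / N / 16 := by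
      field_simp
    rw [e9]
    have e10 : (16 * Cη * w * K ^ 2) * (D * D) ≤ N := by
      calc (16 * Cη * w * K ^ 2) * (D * D) ≤ (N : ℝ) ^ (1999 / 2000 : ℝ) * (D * D) :=
            mul_le_mul_of_nonneg_right h5 (by positivity)
        _ = N := by rw [mul_comm]; exact hDN
    have e11 : (16 * Cη * w * K ^ 2) * (D * D) / N ≤ 1 := (div_le_one hN0).2 e10
    linarith
  have e12 : η2 * b * Q ^ 2 - η1 * b * R ^ 2 =
      η2 * b * (Q ^ 2 - R ^ 2) + b * ((η2 - η1) * R ^ 2) := by ring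
  have e13 : η2 * b * (Q ^ 2 - R ^ 2) ≤ |Q ^ 2 - R ^ 2| := by
    have e14 : η2 * b ≤ 1 := mul_le_one₀ hη21 hb0 hb1
    calc η2 * b * (Q ^ 2 - R ^ 2) ≤ η2 * b * |Q ^ 2 - R ^ 2| :=
          mul_le_mul_of_nonneg_left (le_abs_self _) (by positivity)
      _ ≤ 1 * |Q ^ 2 - R ^ 2| := mul_le_mul_of_nonneg_right e14 (abs_nonneg _)
      _ = |Q ^ 2 - R ^ 2| := one_mul _
  have e15 : b * ((η2 - η1) * R ^ 2) ≤ |η2 - η1| * R ^ 2 := by
    calc b * ((η2 - η1) * R ^ 2) ≤ b * (|η2 - η1| * R ^ 2) :=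
          mul_le_mul_of_nonneg_left (mul_le_mul_of_nonneg_right (le_abs_self _) (sq_nonneg _)) hb0
      _ ≤ 1 * (|η2 - η1| * R ^ 2) := mul_le_mul_of_nonneg_right hb1 (by positivity)
      _ = |η2 - η1| * R ^ 2 := one_mul _
  linarith

theorem thm_Face (hBE : St_BExp) (hE0 : St_EE0) (hCBd : St_CBd) (hCfg : St_Cfg) (hCr : St_Crude)
    (hBox : St_Box) (htB : St_tB) (hJ : St_J) (hBV : St_BVB) : St_Face := by
  classical
  intro η hη ρ σ K ε r F hσ hσρ hρ2 hr hK hF hε sh hsh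
  have hρ : 0 < ρ := lt_of_lt_of_le hσ hσρ
  obtain ⟨w1, M1, h1⟩ := htB ρ K r F hρ hρ2 hr hF
  obtain ⟨w2, M2, h2⟩ := hJ ρ σ K ε r F hρ hρ2 hr hσ hσρ hF hε
  refine ⟨max (max w1 w2) (14 + ∑ h, sh h), max (max M1 M2) 1, ?_⟩
  intro w M hw hM v hv n hn k hk j hrj
  have hw1 : w1 ≤ w := ((le_max_left _ _).trans (le_max_left _ _)).trans hw
  have hw2 : w2 ≤ w := ((le_max_right _ _).trans (le_max_left _ _)).trans hw
  have hw3 : 14 + ∑ h, sh h ≤ w := (le_max_right _ _).trans hw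
  have hM1 : M1 ≤ M := ((le_max_left _ _).trans (le_max_left _ _)).trans hM
  have hM2 : M2 ≤ M := ((le_max_right _ _).trans (le_max_left _ _)).trans hM
  have hM3 : 1 ≤ M := (le_max_right _ _).trans hM
  have hshw : ∀ h, sh h ≤ w := fun h => by
    have h2 : sh h ≤ ∑ h, sh h := Finset.single_le_sum (fun _ _ => Nat.zero_le _) (mem_univ h)
    omega
  obtain ⟨θ, hθ⟩ : ∃ θ : ℝ, θ = (r j + σ + 1 / 2) / 2 := ⟨_, rfl⟩
  have hθ1 : r j + σ < θ := by rw [hθ]; linarith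
  have hθ2 : θ < 1 / 2 := by rw [hθ]; linarith
  obtain ⟨E, hE⟩ : ∃ E : ℝ, E = Real.exp 8 := ⟨_, rfl⟩
  have hE0' : 0 < E := by rw [hE]; exact Real.exp_pos _
  have hlogt : Tendsto (fun N : ℕ => Real.log (N : ℝ)) atTop atTop :=
    Real.tendsto_log_atTop.comp tendsto_natCast_atTop_atTop
  filter_upwards [h1 w M hw1 hM1, h2 w M hw2 hM2,
    face_pt2 hCBd hCfg hCr hBox η hη ρ K r F hρ (by linarith) hr hK hF sh hsh w (by omega) hshw M hM3,
    hBV η hη θ (by linarith [hr j]) hθ2 11 9 ρ hρ M hM3 n hn k hk,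
    mert_ev hρ (by linarith) (by omega : 2 ≤ w),
    log_pow_le (primorial w) 0 (show (0 : ℝ) < θ - (r j + σ) by linarith),
    hlogt.eventually_ge_atTop (3072 * K ^ 2 * E ^ 8), hlogt.eventually_ge_atTop 1,
    eventually_ge_atTop (8 * w + 8)] with N g1 g2 g3 g4 g5 g6 g7 g8 hN
  rw [← hE] at g5
  have hN1 : 1 ≤ N := by omega
  have hN2 : 2 ≤ N := by omega
  have hNR : (1 : ℝ) ≤ N := by exact_mod_cast hN1
  have hN0 : (0 : ℝ) < N := by linarith
  obtain ⟨L, hL⟩ : ∃ L : ℝ, L = Real.log N := ⟨_, rfl⟩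
  rw [← hL] at g5 g7 g8
  have hL0 : 0 < L := by linarith
  obtain ⟨A, hA⟩ : ∃ A : ℝ, A = AA w N := ⟨_, rfl⟩
  have hA0 : 0 ≤ A := by rw [hA]; exact AA_nonneg w N
  have hAL : A ≤ L := by
    rw [hA, hL]
    unfold AA
    exact mul_le_of_le_one_left (Real.log_natCast_nonneg N) (face_phW_le w)
  obtain ⟨P, hP⟩ : ∃ P : ℝ, P = ∏ i : PP w (XR ρ N), (1 + qq i) := ⟨_, rfl⟩
  have hP1 : 1 ≤ P := by rw [hP]; exact one_le_prod_qq
  obtain ⟨P3, hP3⟩ : ∃ P3 : ℝ, P3 = ∏ i : PP w (XR ρ N), (1 + 3 * qq i) := ⟨_, rfl⟩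
  have hP30 : 0 ≤ P3 := by
    rw [hP3]
    exact prod_nonneg fun i _ => by linarith [qq_pos i]
  have hP3P : P3 ≤ P ^ 3 := by
    have := prod_qq_le (w := w) (X := XR ρ N) 3
    push_cast at this
    rw [← hP, ← hP3] at this
    exact this
  rw [← hP] at g5
  obtain ⟨u, hu⟩ : ∃ u : Fin n → ℝ, u = uu k M := ⟨_, rfl⟩
  have hu0 : ∀ i, 0 ≤ u i := fun i => by rw [hu]; exact face_uu_nonneg k M i
  obtain ⟨τ0, hτ0⟩ : ∃ τ0 : ℝ, τ0 = 16 * K * (P * A) := ⟨_, rfl⟩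
  have htBb : ∀ τ : PP w (XR ρ N) → Option (Fin 3), |tB F M N j u τ| ≤ τ0 := by
    intro τ
    refine (g1 j n u hn hu0 τ).1.trans ?_
    rw [hτ0, ← hA, hP]
    exact mul_le_mul_of_nonneg_left (mul_le_mul_of_nonneg_right (abs_sg_le τ) hA0)
      (by positivity)
  have hτ00 : 0 ≤ τ0 := (abs_nonneg _).trans (htBb fun _ => none)
  have htKb : ∀ τ : PP w (XR ρ N) → Option (Fin 3), |tK F σ M N j u τ| ≤ τ0 := by
    intro τ
    unfold tK
    split_ifs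
    · exact htBb τ
    · rw [abs_zero]; exact hτ00
  have htUb : ∀ τ : PP w (XR ρ N) → Option (Fin 3), |tU F σ M N j u τ| ≤ τ0 := by
    intro τ
    unfold tU
    split_ifs
    · rw [abs_zero]; exact hτ00
    · exact htBb τ
  have htBj : ∀ τ : PP w (XR ρ N) → Option (Fin 3), tB F M N j u τ ≠ 0 → ∀ i, τ i ≠ some j := by
    intro τ hτ i hi
    exact hτ (face_tB_val F j u τ ⟨i, hi⟩)
  have htKne : ∀ τ : PP w (XR ρ N) → Option (Fin 3), tK F σ M N j u τ ≠ 0 →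
      tB F M N j u τ ≠ 0 ∧ szs M N τ (o1 j) + szs M N τ (o2 j) ≤ σ := by
    intro τ hτ
    unfold tK at hτ
    split_ifs at hτ with h
    · exact ⟨hτ, h⟩
    · exact absurd rfl hτ
  have htUne : ∀ τ : PP w (XR ρ N) → Option (Fin 3), tU F σ M N j u τ ≠ 0 →
      tB F M N j u τ ≠ 0 ∧ ¬ szs M N τ (o1 j) + szs M N τ (o2 j) ≤ σ := by
    intro τ hτ
    unfold tU at hτ
    split_ifs at hτ with h
    · exact absurd rfl hτ
    · exact ⟨hτ, h⟩
  obtain ⟨D1, hD1⟩ : ∃ D1 : ℕ, D1 = ⌊(N : ℝ) ^ σ⌋₊ := ⟨_, rfl⟩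
  obtain ⟨D2, hD2⟩ : ∃ D2 : ℕ, D2 = ⌊(N : ℝ) ^ r j⌋₊ := ⟨_, rfl⟩
  have hD12 : D1 ≤ D2 := by
    rw [hD1, hD2]
    exact Nat.floor_le_floor (Real.rpow_le_rpow_of_exponent_le hNR (hσρ.trans (hr j)))
  have hlK : ∀ τ : PP w (XR ρ N) → Option (Fin 3), tK F σ M N j u τ ≠ 0 → nrm pr τ ≤ D1 := by
    intro τ hτ
    obtain ⟨e1, e2⟩ := htKne τ hτ
    rw [hD1]
    refine Nat.le_floor ((nrm_le_two hM3 hN2 j τ (htBj τ e1)).trans ?_)
    exact Real.rpow_le_rpow_of_exponent_le hNR e2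
  have hlU : ∀ τ : PP w (XR ρ N) → Option (Fin 3), tU F σ M N j u τ ≠ 0 → nrm pr τ ≤ D2 := by
    intro τ hτ
    obtain ⟨e1, _⟩ := htUne τ hτ
    have e2 : szs M N τ (o1 j) + szs M N τ (o2 j) ≤ r j := by
      by_contra hc
      push Not at hc
      exact e1 ((g1 j n u hn hu0 τ).2.1 hc)
    rw [hD2]
    refine Nat.le_floor ((nrm_le_two hM3 hN2 j τ (htBj τ e1)).trans ?_)
    exact Real.rpow_le_rpow_of_exponent_le hNR e2
  have hlev12 : ((primorial w * (D1 * D2) : ℕ) : ℝ) ≤ (N : ℝ) ^ θ := by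
    have e1 : (D1 : ℝ) ≤ (N : ℝ) ^ σ := by rw [hD1]; exact Nat.floor_le (by positivity)
    have e2 : (D2 : ℝ) ≤ (N : ℝ) ^ r j := by rw [hD2]; exact Nat.floor_le (by positivity)
    have e3 : (D1 : ℝ) * D2 ≤ (N : ℝ) ^ (r j + σ) := by
      rw [add_comm, Real.rpow_add hN0]
      exact mul_le_mul e1 e2 (by positivity) (by positivity)
    rw [pow_zero, mul_one] at g6
    push_cast
    calc (primorial w : ℝ) * (D1 * D2) ≤ (N : ℝ) ^ (θ - (r j + σ)) * (N : ℝ) ^ (r j + σ) :=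
          mul_le_mul g6 e3 (by positivity) (by positivity)
      _ = (N : ℝ) ^ θ := by
          rw [← Real.rpow_add hN0]
          congr 1
          ring
  have hlev11 : ((primorial w * (D1 * D1) : ℕ) : ℝ) ≤ (N : ℝ) ^ θ := by
    refine le_trans ?_ hlev12
    exact_mod_cast Nat.mul_le_mul_left _ (Nat.mul_le_mul_left _ hD12)
  have h8j : 8 * sh j ≤ N := by
    have := hshw j
    omega
  have hx1 := facex_exp hBE η hη θ (by linarith [hr j]) 11 w (XR ρ N) N v sh j (bz k M N) hsh hshw hN1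
    h8j (hv j) g4 (tK F σ M N j u) (tK F σ M N j u) τ0 τ0 D1 D1 htKb htKb hlK hlK hlev11
  have hx2 := facex_exp hBE η hη θ (by linarith [hr j]) 11 w (XR ρ N) N v sh j (bz k M N) hsh hshw hN1
    h8j (hv j) g4 (tK F σ M N j u) (tU F σ M N j u) τ0 τ0 D1 D2 htKb htUb hlK hlU hlev12
  -- the cross term vanishes
  have hvj : ∀ t : (PP w (XR ρ N) → Option (Fin 3)) → ℝ,
      (∀ τ, t τ ≠ 0 → tB F M N j u τ ≠ 0) →
      ∀ τ, (∃ i h, τ i = some h ∧ h ∉ (univ : Finset (Fin 3)).erase j) → t τ = 0 := by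
    intro t ht τ hτ
    obtain ⟨i, h, hi, hh⟩ := hτ
    by_contra hc
    have e1 := htBj τ (ht τ hc) i
    apply e1
    rw [hi]
    congr 1
    by_contra hne
    exact hh (mem_erase.2 ⟨hne, mem_univ _⟩)
  have hcross := hE0 w (XR ρ N) (univ.erase j) qq (tK F σ M N j u) (tU F σ M N j u)
    (fun τ τ' hs => by
      by_contra hc
      have e1 : tK F σ M N j u τ ≠ 0 := fun h => hc (by rw [h, zero_mul])
      have e2 : tU F σ M N j u τ' ≠ 0 := fun h => hc (by rw [h, mul_zero])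
      obtain ⟨e3, e4⟩ := htKne τ e1
      obtain ⟨e5, e6⟩ := htUne τ' e2
      apply e6
      rw [face_szs_two j τ' (htBj τ' e5), ← hs, ← face_szs_two j τ (htBj τ e3)]
      exact e4)
    (hvj _ fun τ h => (htKne τ h).1) (hvj _ fun τ h => (htUne τ h).1)
  rw [hcross, mul_zero, sub_zero] at hx2
  -- the main term
  obtain ⟨S, hS⟩ : ∃ S : ℝ, S = EE ((univ : Finset (Fin 3)).erase j) (qq (w := w) (X := XR ρ N))
    (fun Z => comb qq (tK F σ M N j u) Z * comb qq (tK F σ M N j u) Z) := ⟨_, rfl⟩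
  rw [← hS] at hx1
  have hq2 : ∀ i : PP w (XR ρ N), 2 * qq i ≤ 1 := by
    intro i
    have e1 := pr_gtR i
    have e2 : (14 : ℝ) ≤ w := by exact_mod_cast (by omega : 14 ≤ w)
    unfold qq
    rw [mul_one_div, div_le_one (by linarith)]
    linarith
  have hmainS : A ^ 4 * (JJ F ρ σ j u - ε) ≤ S := by
    have e1 := g2 j n u hn hu0
    rw [← hA] at e1
    refine e1.trans ?_
    have e2 := le_EE_comb_sq ((univ : Finset (Fin 3)).erase j) (qq (w := w) (X := XR ρ N))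
      (fun i => (qq_pos i).le) (fun i => by rw [face_card]; exact hq2 i) (tK F σ M N j u)
      (hvj _ fun τ h => (htKne τ h).1)
    rw [face_card] at e2
    refine e2.trans (le_of_eq ?_)
    rw [hS]
    congr 1
    funext Z
    ring
  -- the errors
  obtain ⟨Er, hEr⟩ : ∃ Er : ℝ, Er = (τ0 * P3) * (τ0 * P3) * (N / L ^ 11) := ⟨_, rfl⟩
  rw [← hP3, ← hL, ← hEr] at hx1 hx2
  have hErr : Er ≤ N / 12 := by
    have e1 : τ0 * P3 ≤ 16 * K * E ^ 4 * L ^ 5 := by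
      have e2 : P * A ≤ E * L * L := mul_le_mul g5 hAL hA0 (by positivity)
      have e3 : P3 ≤ (E * L) ^ 3 := hP3P.trans (pow_le_pow_left₀ (by linarith) g5 3)
      have e4 : τ0 ≤ 16 * K * (E * L * L) := by
        rw [hτ0]
        exact mul_le_mul_of_nonneg_left e2 (by positivity)
      calc τ0 * P3 ≤ (16 * K * (E * L * L)) * (E * L) ^ 3 :=
            mul_le_mul e4 e3 hP30 (by positivity)
        _ = 16 * K * E ^ 4 * L ^ 5 := by ring
    have e5 : 0 ≤ τ0 * P3 := mul_nonneg hτ00 hP30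
    have e6 : (τ0 * P3) * (τ0 * P3) ≤ (16 * K * E ^ 4 * L ^ 5) * (16 * K * E ^ 4 * L ^ 5) :=
      mul_le_mul e1 e1 e5 (by positivity)
    have e7 : Er ≤ (16 * K * E ^ 4 * L ^ 5) * (16 * K * E ^ 4 * L ^ 5) * (N / L ^ 11) := by
      rw [hEr]
      exact mul_le_mul_of_nonneg_right e6 (by positivity)
    refine e7.trans ?_
    have e8 : (16 * K * E ^ 4 * L ^ 5) * (16 * K * E ^ 4 * L ^ 5) * (N / L ^ 11) =
        (3072 * K ^ 2 * E ^ 8) / L * (N / 12) := by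
      field_simp
      ring
    rw [e8]
    have e9 : (3072 * K ^ 2 * E ^ 8) / L ≤ 1 := (div_le_one hL0).2 g7
    calc (3072 * K ^ 2 * E ^ 8) / L * (N / 12) ≤ 1 * (N / 12) :=
          mul_le_mul_of_nonneg_right e9 (by positivity)
      _ = N / 12 := one_mul _
  -- assembly
  obtain ⟨T, hT⟩ : ∃ T : Finset ℕ,
    T = (range (N + 1)).filter (fun a => a % primorial w = v % primorial w) := ⟨_, rfl⟩
  rw [← hT] at hx1 hx2 ⊢
  have hB0 : 0 ≤ B0 η N (bz k M N) :=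
    sum_nonneg fun m _ => mul_nonneg (face_bz_nonneg k M N m) (hη.nonneg _)
  obtain ⟨m0, hm0⟩ : ∃ m0 : ℝ, m0 = B0 η N (bz k M N) / (primorial w).totient := ⟨_, rfl⟩
  have hm00 : 0 ≤ m0 := by rw [hm0]; positivity
  rw [← hm0] at hx1 ⊢
  have hpt : ∀ a ∈ T, (η (((a + sh j : ℕ) : ℝ) / N) * bz k M N (a + sh j)) *
      (comb qq (tK F σ M N j u) (dl j (YY (pr (w := w) (X := XR ρ N)) sh a)) *
        comb qq (tK F σ M N j u) (dl j (YY (pr (w := w) (X := XR ρ N)) sh a))) +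
      2 * ((η (((a + sh j : ℕ) : ℝ) / N) * bz k M N (a + sh j)) *
      (comb qq (tK F σ M N j u) (dl j (YY (pr (w := w) (X := XR ρ N)) sh a)) *
        comb qq (tU F σ M N j u) (dl j (YY (pr (w := w) (X := XR ρ N)) sh a)))) - 1 / 8 ≤
      η ((a : ℝ) / N) * bz k M N (a + sh j) * Lam F ρ M w N sh a ^ 2 := by
    intro a ha
    rw [hT, mem_filter, mem_range] at ha
    refine le_trans ?_ (g3 n hn k hk j a (by omega))
    rw [← hu, face_comb F σ j u (dl j (YY (pr (w := w) (X := XR ρ N)) sh a)) (fun i hi =>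
      ((facex_dl_some j (YY (pr (w := w) (X := XR ρ N)) sh a) i j).1 hi).1 rfl)]
    have e1 : 0 ≤ η (((a + sh j : ℕ) : ℝ) / N) * bz k M N (a + sh j) :=
      mul_nonneg (hη.nonneg _) (face_bz_nonneg _ _ _ _)
    have e2 := mul_nonneg e1 (sq_nonneg (comb qq (tU F σ M N j u) (dl j
      (YY (pr (w := w) (X := XR ρ N)) sh a))))
    linarith
  have hsum := sum_le_sum hpt
  rw [sum_sub_distrib, sum_add_distrib, ← mul_sum, sum_const, nsmul_eq_mul] at hsum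
  have hcard : (T.card : ℝ) ≤ N + 1 := by
    have : T.card ≤ N + 1 := by
      rw [hT]
      exact (card_filter_le _ _).trans (by rw [card_range])
    exact_mod_cast this
  have e1 := (abs_le.1 hx1).1
  have e2 := (abs_le.1 hx2).1
  have e3 := mul_le_mul_of_nonneg_left hmainS hm00
  rw [← hu, ← hA]
  linarith

end Pool.Agent.PU
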