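import Pool.Agent.PU.StD
import Pool.Agent.PT.HH

set_option autoImplicit false

/-!
# PU / HH

Module of the density block of PU (see the docstring of the statement in `PU/StD.lean`).
-/

namespace Pool.Agent.PU

open Finset Filter Pool.Agent.MT Pool.Agent.PT MeasureTheory

theorem le_TT {ρ : ℝ} {r : Fin 3 → ℝ} {j : Fin 3} {a b t : ℝ} :
    t ≤ TT ρ r j a b ↔ t ≤ ρ ∧ t + b ≤ r (o1 j) ∧ t + a ≤ r (o2 j) := by
  unfold TT
  rw [le_min_iff, le_min_iff, le_sub_iff_add_le, le_sub_iff_add_le]

theorem TT_lip (ρ : ℝ) (r : Fin 3 → ℝ) (j : Fin 3) (a b a' b' : ℝ) :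
    |TT ρ r j a b - TT ρ r j a' b'| ≤ |a - a'| + |b - b'| := by
  unfold TT
  refine (abs_min_sub_min_le_max _ _ _ _).trans ?_
  rw [sub_self, abs_zero]
  refine max_le (by positivity) ?_
  refine (abs_min_sub_min_le_max _ _ _ _).trans ?_
  have h1 : r (o1 j) - b - (r (o1 j) - b') = -(b - b') := by ring
  have h2 : r (o2 j) - a - (r (o2 j) - a') = -(a - a') := by ring
  rw [h1, h2, abs_neg, abs_neg]
  exact max_le (le_add_of_nonneg_left (abs_nonneg _)) (le_add_of_nonneg_right (abs_nonneg _))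

theorem TT_nonneg {ρ : ℝ} {r : Fin 3 → ℝ} (hρ : 0 ≤ ρ) (hr : ∀ j, ρ ≤ r j) (j : Fin 3) {a b : ℝ}
    (ha : a ≤ ρ) (hb : b ≤ ρ) : 0 ≤ TT ρ r j a b := by
  rw [le_TT]
  have h1 := hr (o1 j)
  have h2 := hr (o2 j)
  exact ⟨hρ, by linarith, by linarith⟩

theorem HH_reg (j : Fin 3) (ρ : ℝ) (r : Fin 3 → ℝ) (a b t : ℝ) : Reg2 ρ r (cor j a b t) ↔
    0 ≤ t ∧ 0 ≤ a ∧ 0 ≤ b ∧ a ≤ ρ ∧ b ≤ ρ ∧ a + b ≤ r j ∧ t ≤ TT ρ r j a b := by
  rw [le_TT]
  constructor
  · rintro ⟨h1, h2⟩
    have a0 := h1 0
    have a1 := h1 1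
    have a2 := h1 2
    have b0 := h2 0
    have b1 := h2 1
    have b2 := h2 2
    fin_cases j <;> simp [cor, o1, o2] at a0 a1 a2 b0 b1 b2 ⊢ <;>
      refine ⟨?_, ?_, ?_, ?_, ?_, ?_, ?_, ?_, ?_⟩ <;> linarith
  · rintro ⟨h1, h2, h3, h4, h5, h6, h7, h8, h9⟩
    refine ⟨fun i => ?_, fun l => ?_⟩
    · fin_cases j <;> fin_cases i <;> simp [cor, o1] <;> constructor <;> assumption
    · fin_cases j <;> fin_cases l <;> simp [cor, o1, o2] at h6 h7 h8 h9 ⊢ <;> linarith

section

variable {ρ K : ℝ} {r : Fin 3 → ℝ} {F : (Fin 3 → ℝ) → ℝ}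

theorem HH_K (hF : Pf ρ r K F) : 0 ≤ K := (abs_nonneg _).trans (hF.bd 0)

/-- integrability -/
theorem HH_int (hF : Pf ρ r K F) (j : Fin 3) (a b : ℝ) (ha : 0 ≤ a) (hb : 0 ≤ b) :
    Integrable (fun t => F (cor j a b t)) volume := by
  by_cases hab : a ≤ ρ ∧ b ≤ ρ ∧ a + b ≤ r j
  · obtain ⟨ha', hb', hab⟩ := hab
    have hc : ContinuousOn (fun t => F (cor j a b t)) (Set.Icc 0 (TT ρ r j a b)) := by
      have hL : LipschitzOnWith ⟨K, HH_K hF⟩ (fun t => F (cor j a b t))
          (Set.Icc 0 (TT ρ r j a b)) := by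
        apply LipschitzOnWith.of_dist_le_mul
        intro t ht t' ht'
        rw [Real.dist_eq, Real.dist_eq]
        have h1 := hF.lip (cor j a b t) (cor j a b t')
          ((HH_reg j ρ r a b t).2 ⟨ht.1, ha, hb, ha', hb', hab, ht.2⟩)
          ((HH_reg j ρ r a b t').2 ⟨ht'.1, ha, hb, ha', hb', hab, ht'.2⟩)
        rw [HH_sum, sub_self, sub_self, abs_zero, add_zero, add_zero] at h1
        exact h1
      exact hL.continuousOn
    have h2 : (fun t => F (cor j a b t)) =
        Set.indicator (Set.Icc 0 (TT ρ r j a b)) (fun t => F (cor j a b t)) := by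
      funext t
      by_cases ht : t ∈ Set.Icc 0 (TT ρ r j a b)
      · rw [Set.indicator_of_mem ht]
      · rw [Set.indicator_of_notMem ht]
        apply hF.zero
        rw [HH_reg]
        rintro ⟨h3, -, -, -, -, -, h4⟩
        exact ht ⟨h3, h4⟩
    rw [h2]
    exact (hc.integrableOn_Icc).integrable_indicator measurableSet_Icc
  · have h2 : (fun t => F (cor j a b t)) = fun _ => 0 := by
      funext t
      apply hF.zero
      rw [HH_reg]
      rintro ⟨-, -, -, h4, h5, h6, -⟩
      exact hab ⟨h4, h5, h6⟩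
    rw [h2]
    exact integrable_zero _ _ _

theorem HH_u (hF : Pf ρ r K F) (j : Fin 3) (a b u u' : ℝ) (ha : 0 ≤ a) (hb : 0 ≤ b) :
    |hh F ρ j a b u - hh F ρ j a b u'| ≤ K * |u - u'| := by
  have hi := HH_int hF j a b ha hb
  unfold hh
  rw [intervalIntegral.integral_interval_sub_interval_comm hi.intervalIntegrable
    hi.intervalIntegrable hi.intervalIntegrable, intervalIntegral.integral_same, sub_zero]
  have h1 := intervalIntegral.norm_integral_le_of_norm_le_const (a := u) (b := u')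
    (f := fun t => F (cor j a b t)) (C := K) fun t _ => hF.bd _
  rw [Real.norm_eq_abs, abs_sub_comm] at h1
  exact h1

theorem HH_far (hF : Pf ρ r K F) (j : Fin 3) (a b u : ℝ) (hu : ρ ≤ u) :
    hh F ρ j a b u = 0 := by
  unfold hh
  rw [intervalIntegral.integral_symm, neg_eq_zero]
  refine (intervalIntegral.integral_congr_ae (g := fun _ => (0 : ℝ)) ?_).trans ?_
  · refine Filter.Eventually.of_forall fun t ht => ?_
    rw [Set.uIoc_of_le hu] at ht
    apply hF.zero
    rw [HH_reg, le_TT]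
    rintro ⟨-, -, -, -, -, -, h4, -⟩
    linarith [ht.1]
  · rw [intervalIntegral.integral_zero]

theorem HH_bd (hF : Pf ρ r K F) (hρ : ρ ≤ 1) (j : Fin 3) (a b u : ℝ) (ha : 0 ≤ a)
    (hb : 0 ≤ b) (hu : 0 ≤ u) : |hh F ρ j a b u| ≤ K := by
  have hK := HH_K hF
  by_cases h : ρ ≤ u
  · rw [HH_far hF j a b u h, abs_zero]
    exact hK
  · push Not at h
    have h1 := HH_u hF j a b u ρ ha hb
    have h2 : |u - ρ| = ρ - u := by rw [abs_of_neg (by linarith : u - ρ < 0)]; ring
    rw [HH_far hF j a b ρ le_rfl, sub_zero, h2] at h1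
    have h3 : K * (ρ - u) ≤ K * 1 := mul_le_mul_of_nonneg_left (by linarith) hK
    linarith

theorem HH_ab (hF : Pf ρ r K F) (hρ : ρ ≤ 1) (j : Fin 3) (a b a' b' u : ℝ) (ha : 0 ≤ a)
    (hb : 0 ≤ b) (ha1 : a ≤ ρ) (hb1 : b ≤ ρ) (hab : a + b ≤ r j) (ha' : 0 ≤ a') (hb' : 0 ≤ b')
    (ha1' : a' ≤ ρ) (hb1' : b' ≤ ρ) (hab' : a' + b' ≤ r j) (hu : 0 ≤ u) :
    |hh F ρ j a b u - hh F ρ j a' b' u| ≤ 2 * K * (|a - a'| + |b - b'|) := by
  have hK := HH_K hF
  have hD : 0 ≤ |a - a'| + |b - b'| := by positivity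
  set D := |a - a'| + |b - b'| with hDdef
  by_cases h : ρ ≤ u
  · rw [HH_far hF j a b u h, HH_far hF j a' b' u h, sub_zero, abs_zero]
    positivity
  push Not at h
  have hi := HH_int hF j a b ha hb
  have hi' := HH_int hF j a' b' ha' hb'
  set m := min (TT ρ r j a b) (TT ρ r j a' b') with hm
  set m' := max (TT ρ r j a b) (TT ρ r j a' b') with hm'
  have hmm : m ≤ m' := min_le_max
  have hmd : m' - m ≤ D := by
    rw [hm, hm', max_sub_min_eq_abs, abs_sub_comm]
    exact TT_lip ρ r j a b a' b'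
  unfold hh
  rw [← intervalIntegral.integral_sub hi.intervalIntegrable hi'.intervalIntegrable]
  have hpt : ∀ t ∈ Set.Ioc u ρ, ‖F (cor j a b t) - F (cor j a' b' t)‖ ≤
      K * D + Set.indicator (Set.Icc m m') (fun _ => K) t := by
    intro t ht
    have ht0 : 0 ≤ t := hu.trans ht.1.le
    rw [Real.norm_eq_abs]
    have hind : 0 ≤ Set.indicator (Set.Icc m m') (fun _ => K) t :=
      Set.indicator_nonneg (fun _ _ => hK) t
    by_cases h1 : t ≤ m
    · have h2 : t ≤ TT ρ r j a b := h1.trans (min_le_left _ _)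
      have h3 : t ≤ TT ρ r j a' b' := h1.trans (min_le_right _ _)
      have h4 := hF.lip (cor j a b t) (cor j a' b' t)
          ((HH_reg j ρ r a b t).2 ⟨ht0, ha, hb, ha1, hb1, hab, h2⟩)
          ((HH_reg j ρ r a' b' t).2 ⟨ht0, ha', hb', ha1', hb1', hab', h3⟩)
      rw [HH_sum, sub_self, abs_zero, zero_add] at h4
      linarith
    · push Not at h1
      have hz : F (cor j a b t) = 0 ∨ F (cor j a' b' t) = 0 := by
        rcases min_choice (TT ρ r j a b) (TT ρ r j a' b') with h2 | h2
        · left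
          apply hF.zero
          rw [HH_reg]
          rintro ⟨-, -, -, -, -, -, h4⟩
          rw [hm, h2] at h1
          linarith
        · right
          apply hF.zero
          rw [HH_reg]
          rintro ⟨-, -, -, -, -, -, h4⟩
          rw [hm, h2] at h1
          linarith
      by_cases h3 : t ≤ m'
      · rw [Set.indicator_of_mem (show t ∈ Set.Icc m m' from ⟨h1.le, h3⟩)]
        have h4 : |F (cor j a b t) - F (cor j a' b' t)| ≤ K := by
          rcases hz with h5 | h5
          · rw [h5, zero_sub, abs_neg]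
            exact hF.bd _
          · rw [h5, sub_zero]
            exact hF.bd _
        have : 0 ≤ K * D := by positivity
        linarith
      · push Not at h3
        have h4 : F (cor j a b t) = 0 := by
          apply hF.zero
          rw [HH_reg]
          rintro ⟨-, -, -, -, -, -, h4⟩
          have h6 := (le_max_left (TT ρ r j a b) (TT ρ r j a' b')).trans_lt h3
          linarith
        have h4' : F (cor j a' b' t) = 0 := by
          apply hF.zero
          rw [HH_reg]
          rintro ⟨-, -, -, -, -, -, h4⟩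
          have h6 := (le_max_right (TT ρ r j a b) (TT ρ r j a' b')).trans_lt h3
          linarith
        rw [h4, h4', sub_zero, abs_zero]
        have : 0 ≤ K * D := by positivity
        linarith
  have hindI : Integrable (Set.indicator (Set.Icc m m') (fun _ => K)) (volume : Measure ℝ) :=
    (integrableOn_const (by rw [Real.volume_Icc]; exact ENNReal.ofReal_ne_top)).integrable_indicator
      measurableSet_Icc
  have h1 := intervalIntegral.norm_integral_le_of_norm_le h.le
    (Filter.Eventually.of_forall fun t ht => hpt t ht)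
    ((intervalIntegrable_const).add hindI.intervalIntegrable)
  rw [Real.norm_eq_abs] at h1
  refine h1.trans ?_
  rw [intervalIntegral.integral_add intervalIntegrable_const
    hindI.intervalIntegrable, intervalIntegral.integral_const, smul_eq_mul]
  have h2 : ∫ t in u..ρ, Set.indicator (Set.Icc m m') (fun _ => K) t ≤ K * (m' - m) := by
    rw [intervalIntegral.integral_of_le h.le]
    refine (setIntegral_le_integral hindI (Filter.Eventually.of_forall fun t =>
      Set.indicator_nonneg (fun _ _ => hK) t)).trans ?_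
    rw [integral_indicator measurableSet_Icc, setIntegral_const, smul_eq_mul,
      Real.volume_real_Icc_of_le hmm, mul_comm]
  have h3 : (ρ - u) * (K * D) ≤ 1 * (K * D) :=
    mul_le_mul_of_nonneg_right (by linarith) (by positivity)
  have h4 : K * (m' - m) ≤ K * D := mul_le_mul_of_nonneg_left hmd hK
  linarith

end

theorem thm_HH : St_HH := by
  intro ρ K r F hρ hρ1 hr hF j
  refine ⟨fun a b x y ha hb => (HH_int hF j a b ha hb).intervalIntegrable,
    fun a b u ha hb hu => HH_bd hF hρ1 j a b u ha hb hu, ?_,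
    fun a b a' b' u ha hb ha1 hb1 hab ha' hb' ha1' hb1' hab' hu =>
      HH_ab hF hρ1 j a b a' b' u ha hb ha1 hb1 hab ha' hb' ha1' hb1' hab' hu,
    fun a b u u' ha hb _ _ => HH_u hF j a b u u' ha hb, ?_, ?_, ?_⟩
  · intro a b u _ _ _ hab
    unfold hh
    have h2 : (fun t => F (cor j a b t)) = fun _ => 0 := by
      funext t
      apply hF.zero
      rw [HH_reg]
      rintro ⟨-, -, -, -, -, h4, -⟩
      linarith
    rw [h2, intervalIntegral.integral_zero]
  · intro n u a b hu ha hb
    unfold hB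
    exact HH_sumB _ _ fun S => HH_bd hF hρ1 j a b _ ha hb (Finset.sum_nonneg fun i _ => hu i)
  · intro n u a b a' b' hu ha hb hab ha' hb' hab'
    unfold hB
    rw [← Finset.sum_sub_distrib]
    simp only [← mul_sub]
    refine (HH_sumB (fun S => hh F ρ j a b (∑ i ∈ S, u i) - hh F ρ j a' b' (∑ i ∈ S, u i))
      (2 * K * (|a - a'| + |b - b'|)) fun S => ?_).trans (le_of_eq (by ring))
    have hj := hr j
    exact HH_ab hF hρ1 j a b a' b' _ ha hb (by linarith) (by linarith) (by linarith) ha' hb'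
      (by linarith) (by linarith) (by linarith) (Finset.sum_nonneg fun i _ => hu i)
  · intro n u u' a b hu hu' ha hb
    unfold hB
    rw [← Finset.sum_sub_distrib]
    simp only [← mul_sub]
    refine (HH_sumB (fun S => hh F ρ j a b (∑ i ∈ S, u i) - hh F ρ j a b (∑ i ∈ S, u' i))
      (K * ∑ i, |u i - u' i|) fun S => ?_).trans (le_of_eq (by ring))
    refine (HH_u hF j a b _ _ ha hb).trans (mul_le_mul_of_nonneg_left ?_ (HH_K hF))
    rw [← Finset.sum_sub_distrib]
    refine (Finset.abs_sum_le_sum_abs _ _).trans ?_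
    exact Finset.sum_le_sum_of_subset_of_nonneg (Finset.subset_univ _) fun _ _ _ => abs_nonneg _

end Pool.Agent.PU
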