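import Pool.Agent.PU.StD

set_option autoImplicit false

/-!
# PU / HJ

The mean square `JJ` is nonnegative, bounded and Lipschitz in the sizes (compare `PT/HJ.lean`).
-/

namespace Pool.Agent.PU

open Finset Filter Pool.Agent.MT Pool.Agent.PT MeasureTheory

private theorem hj_int (f : ℝ → ℝ → ℝ) (σ L : ℝ) (hL : 0 ≤ L)
    (hl : ∀ a b a' b', 0 ≤ a → 0 ≤ b → a + b ≤ σ → 0 ≤ a' → 0 ≤ b' → a' + b' ≤ σ →
      |f a b - f a' b'| ≤ L * (|a - a'| + |b - b'|)) (a x y : ℝ) (ha : 0 ≤ a)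
    (hx : 0 ≤ x) (hxy : x ≤ y) (hy : y ≤ σ - a) :
    IntervalIntegrable (fun b => f a b) volume x y := by
  refine ContinuousOn.intervalIntegrable_of_Icc hxy ?_
  refine (LipschitzOnWith.of_dist_le_mul (K := Real.toNNReal L) ?_).continuousOn
  intro b hb b' hb'
  rw [Real.dist_eq, Real.dist_eq, Real.coe_toNNReal _ hL]
  have h := hl a b a b' ha (hx.trans hb.1) (by linarith [hb.2]) ha (hx.trans hb'.1)
    (by linarith [hb'.2])
  rw [sub_self, abs_zero, zero_add] at h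
  exact h

private theorem hj_lip (f : ℝ → ℝ → ℝ) (σ C L : ℝ) (hC : 0 ≤ C) (hL : 0 ≤ L) (hσ0 : 0 ≤ σ)
    (hb : ∀ a b, 0 ≤ a → 0 ≤ b → a + b ≤ σ → |f a b| ≤ C)
    (hl : ∀ a b a' b', 0 ≤ a → 0 ≤ b → a + b ≤ σ → 0 ≤ a' → 0 ≤ b' → a' + b' ≤ σ →
      |f a b - f a' b'| ≤ L * (|a - a'| + |b - b'|)) (a a' : ℝ) (ha : 0 ≤ a) (haa : a ≤ a')
    (ha' : a' ≤ σ) :
    |(∫ b in (0 : ℝ)..(σ - a), f a b) - ∫ b in (0 : ℝ)..(σ - a'), f a' b| ≤
      (L * σ + C) * |a - a'| := by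
  have i1 := hj_int f σ L hL hl a 0 (σ - a') ha le_rfl (by linarith) (by linarith)
  have i2 := hj_int f σ L hL hl a (σ - a') (σ - a) ha (by linarith) (by linarith) le_rfl
  have i3 := hj_int f σ L hL hl a' 0 (σ - a') (ha.trans haa) le_rfl (by linarith) le_rfl
  rw [← intervalIntegral.integral_add_adjacent_intervals i1 i2]
  have e1 : (∫ b in (0 : ℝ)..(σ - a'), f a b) + (∫ b in (σ - a')..(σ - a), f a b) -
      (∫ b in (0 : ℝ)..(σ - a'), f a' b) =
      (∫ b in (0 : ℝ)..(σ - a'), (f a b - f a' b)) + ∫ b in (σ - a')..(σ - a), f a b := by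
    rw [intervalIntegral.integral_sub i1 i3]
    ring
  rw [e1]
  have b1 : |∫ b in (0 : ℝ)..(σ - a'), (f a b - f a' b)| ≤ (L * |a - a'|) * σ := by
    have h := intervalIntegral.norm_integral_le_of_norm_le_const (a := (0 : ℝ)) (b := σ - a')
      (f := fun b => f a b - f a' b) (C := L * |a - a'|) (by
        intro b hb'
        rw [Set.uIoc_of_le (by linarith)] at hb'
        have h2 := hl a b a' b ha hb'.1.le (by linarith [hb'.2]) (ha.trans haa) hb'.1.le
          (by linarith [hb'.2])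
        rw [sub_self, abs_zero, add_zero] at h2
        exact h2)
    rw [Real.norm_eq_abs, sub_zero, abs_of_nonneg (by linarith : (0 : ℝ) ≤ σ - a')] at h
    exact h.trans (mul_le_mul_of_nonneg_left (by linarith) (by positivity))
  have b2 : |∫ b in (σ - a')..(σ - a), f a b| ≤ C * |a - a'| := by
    have h := intervalIntegral.norm_integral_le_of_norm_le_const (a := σ - a') (b := σ - a)
      (f := fun b => f a b) (C := C) (by
        intro b hb'
        rw [Set.uIoc_of_le (by linarith)] at hb'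
        exact hb a b ha (by linarith [hb'.1]) (by linarith [hb'.2]))
    rw [Real.norm_eq_abs, show σ - a - (σ - a') = a' - a by ring, abs_sub_comm a' a] at h
    exact h
  refine (abs_add_le _ _).trans ?_
  calc _ ≤ (L * |a - a'|) * σ + C * |a - a'| := add_le_add b1 b2
    _ = _ := by ring

private theorem hj_cont (f : ℝ → ℝ → ℝ) (σ C L : ℝ) (hC : 0 ≤ C) (hL : 0 ≤ L) (hσ0 : 0 ≤ σ)
    (hb : ∀ a b, 0 ≤ a → 0 ≤ b → a + b ≤ σ → |f a b| ≤ C)
    (hl : ∀ a b a' b', 0 ≤ a → 0 ≤ b → a + b ≤ σ → 0 ≤ a' → 0 ≤ b' → a' + b' ≤ σ →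
      |f a b - f a' b'| ≤ L * (|a - a'| + |b - b'|)) :
    IntervalIntegrable (fun a => ∫ b in (0 : ℝ)..(σ - a), f a b) volume 0 σ := by
  refine ContinuousOn.intervalIntegrable_of_Icc hσ0 ?_
  have hM : 0 ≤ L * σ + C := by positivity
  refine (LipschitzOnWith.of_dist_le_mul (K := Real.toNNReal (L * σ + C)) ?_).continuousOn
  intro a ha a' ha'
  rw [Real.dist_eq, Real.dist_eq, Real.coe_toNNReal _ hM]
  rcases le_total a a' with h | h
  · exact hj_lip f σ C L hC hL hσ0 hb hl a a' ha.1 h ha'.2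
  · rw [abs_sub_comm, abs_sub_comm a a']
    exact hj_lip f σ C L hC hL hσ0 hb hl a' a ha'.1 h ha.2

theorem thm_HJ (hHH : St_HH) : St_HJ := by
  intro ρ σ K r F hρ hρ1 hr hσ hσρ hF j n u u' hu hu'
  have hK : 0 ≤ K := (abs_nonneg _).trans (hF.bd 0)
  set B : ℝ := 2 ^ n * K with hBdef
  have hB0 : 0 ≤ B := by positivity
  have hH := hHH ρ K r F hρ hρ1 hr hF j
  have hbd : ∀ v : Fin n → ℝ, (∀ i, 0 ≤ v i) → ∀ a b : ℝ, 0 ≤ a → 0 ≤ b → a + b ≤ σ →
      |hB F ρ j v a b ^ 2| ≤ B ^ 2 := by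
    intro v hv a b ha hb _
    rw [abs_of_nonneg (sq_nonneg _), ← sq_abs]
    exact pow_le_pow_left₀ (abs_nonneg _) (hH.2.2.2.2.2.1 n v a b hv ha hb) 2
  have hsq : ∀ x y : ℝ, |x| ≤ B → |y| ≤ B → ∀ D : ℝ, |x - y| ≤ D → |x ^ 2 - y ^ 2| ≤ 2 * B * D := by
    intro x y hx hy D hD
    have h1 := abs_le.mp hx
    have h2 := abs_le.mp hy
    have h3 : |x + y| ≤ 2 * B := by
      rw [abs_le]
      constructor <;> linarith [h1.1, h1.2, h2.1, h2.2]
    rw [show x ^ 2 - y ^ 2 = (x + y) * (x - y) by ring, abs_mul]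
    exact mul_le_mul h3 hD (abs_nonneg _) (by positivity)
  have hl : ∀ v : Fin n → ℝ, (∀ i, 0 ≤ v i) → ∀ a b a' b' : ℝ, 0 ≤ a → 0 ≤ b → a + b ≤ σ →
      0 ≤ a' → 0 ≤ b' → a' + b' ≤ σ →
      |hB F ρ j v a b ^ 2 - hB F ρ j v a' b' ^ 2| ≤ (4 * B ^ 2) * (|a - a'| + |b - b'|) := by
    intro v hv a b a' b' ha hb hab ha' hb' hab'
    have h1 := hH.2.2.2.2.2.2.1 n v a b a' b' hv ha hb (hab.trans hσρ) ha' hb' (hab'.trans hσρ)
    refine (hsq _ _ (hH.2.2.2.2.2.1 n v a b hv ha hb) (hH.2.2.2.2.2.1 n v a' b' hv ha' hb') _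
      h1).trans (le_of_eq ?_)
    rw [hBdef]
    ring
  have hD : ∀ a b : ℝ, 0 ≤ a → 0 ≤ b →
      |hB F ρ j u a b ^ 2 - hB F ρ j u' a b ^ 2| ≤ 2 * B ^ 2 * ∑ i, |u i - u' i| := by
    intro a b ha hb
    have h1 := hH.2.2.2.2.2.2.2 n u u' a b hu hu' ha hb
    refine (hsq _ _ (hH.2.2.2.2.2.1 n u a b hu ha hb) (hH.2.2.2.2.2.1 n u' a b hu' ha hb) _
      h1).trans (le_of_eq ?_)
    rw [hBdef]
    ring
  have hσ1 : σ ≤ 1 := hσρ.trans hρ1
  refine ⟨?_, ?_, ?_⟩
  · unfold JJ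
    refine intervalIntegral.integral_nonneg hσ.le fun a ha => ?_
    exact intervalIntegral.integral_nonneg (by linarith [ha.2]) fun b _ => sq_nonneg _
  · have h := intervalIntegral.norm_integral_le_of_norm_le_const (a := (0 : ℝ)) (b := σ)
      (f := fun a => ∫ b in (0 : ℝ)..(σ - a), hB F ρ j u a b ^ 2) (C := B ^ 2) (by
        intro a ha
        rw [Set.uIoc_of_le hσ.le] at ha
        have h2 := intervalIntegral.norm_integral_le_of_norm_le_const (a := (0 : ℝ)) (b := σ - a)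
          (f := fun b => hB F ρ j u a b ^ 2) (C := B ^ 2) (by
            intro b hb
            rw [Set.uIoc_of_le (by linarith [ha.2])] at hb
            exact hbd u hu a b ha.1.le hb.1.le (by linarith [hb.2]))
        refine h2.trans ?_
        rw [sub_zero, abs_of_nonneg (by linarith [ha.2] : (0 : ℝ) ≤ σ - a)]
        have h3 : σ - a ≤ 1 := by linarith [ha.1]
        nlinarith [sq_nonneg B])
    have h4 : JJ F ρ σ j u ≤ B ^ 2 * |σ - 0| := (le_abs_self _).trans h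
    rw [sub_zero, abs_of_pos hσ] at h4
    nlinarith [sq_nonneg B]
  · have i1 := hj_cont (fun a b => hB F ρ j u a b ^ 2) σ (B ^ 2) (4 * B ^ 2) (by positivity)
      (by positivity) hσ.le (hbd u hu) (hl u hu)
    have i2 := hj_cont (fun a b => hB F ρ j u' a b ^ 2) σ (B ^ 2) (4 * B ^ 2) (by positivity)
      (by positivity) hσ.le (hbd u' hu') (hl u' hu')
    have hs0 : 0 ≤ ∑ i, |u i - u' i| := sum_nonneg fun i _ => abs_nonneg _
    have e1 : JJ F ρ σ j u - JJ F ρ σ j u' =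
        ∫ a in (0 : ℝ)..σ, ((∫ b in (0 : ℝ)..(σ - a), hB F ρ j u a b ^ 2) -
          ∫ b in (0 : ℝ)..(σ - a), hB F ρ j u' a b ^ 2) :=
      (intervalIntegral.integral_sub i1 i2).symm
    rw [e1]
    have h := intervalIntegral.norm_integral_le_of_norm_le_const (a := (0 : ℝ)) (b := σ)
      (f := fun a => (∫ b in (0 : ℝ)..(σ - a), hB F ρ j u a b ^ 2) -
          ∫ b in (0 : ℝ)..(σ - a), hB F ρ j u' a b ^ 2)
      (C := 2 * B ^ 2 * ∑ i, |u i - u' i|) (by
        intro a ha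
        rw [Set.uIoc_of_le hσ.le] at ha
        have j1 := hj_int (fun a b => hB F ρ j u a b ^ 2) σ (4 * B ^ 2) (by positivity) (hl u hu) a
          0 (σ - a) ha.1.le le_rfl (by linarith [ha.2]) le_rfl
        have j2 := hj_int (fun a b => hB F ρ j u' a b ^ 2) σ (4 * B ^ 2) (by positivity) (hl u' hu') a
          0 (σ - a) ha.1.le le_rfl (by linarith [ha.2]) le_rfl
        rw [← intervalIntegral.integral_sub j1 j2]
        have h2 := intervalIntegral.norm_integral_le_of_norm_le_const (a := (0 : ℝ)) (b := σ - a)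
          (f := fun b => hB F ρ j u a b ^ 2 - hB F ρ j u' a b ^ 2)
          (C := 2 * B ^ 2 * ∑ i, |u i - u' i|) (by
            intro b hb
            rw [Set.uIoc_of_le (by linarith [ha.2])] at hb
            exact hD a b ha.1.le hb.1.le)
        refine h2.trans ?_
        rw [sub_zero, abs_of_nonneg (by linarith [ha.2] : (0 : ℝ) ≤ σ - a)]
        have h3 : σ - a ≤ 1 := by linarith [ha.1]
        have h4 : 0 ≤ 2 * B ^ 2 * ∑ i, |u i - u' i| := by positivity
        nlinarith)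
    rw [Real.norm_eq_abs, sub_zero, abs_of_pos hσ] at h
    refine h.trans ?_
    have h4 : 0 ≤ 2 * B ^ 2 * ∑ i, |u i - u' i| := by positivity
    nlinarith

end Pool.Agent.PU
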