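import Pool.Agent.PU.StD

set_option autoImplicit false

/-!
# PU / IJ

The mean square of the box coefficients (lower bound) from the expansion, the density statements and
the finite combinatorics of pairs of sets.
-/

namespace Pool.Agent.PU

open Finset Filter Pool.Agent.MT Pool.Agent.PT MeasureTheory

private theorem ij_dist_mono {E : Type} [Fintype E] {wt s : E → ℝ} {A ε ε' ρ : ℝ}
    (h : Dist wt s A ε ρ) (hε : ε ≤ ε') (hA : 0 ≤ A) : Dist wt s A ε' ρ :=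
  ⟨h.wn, h.sn, fun t h0 h1 => (h.le t h0 h1).trans (mul_le_mul_of_nonneg_right hε hA)⟩

private theorem ij_phW_pos (w : ℕ) : 0 < phW w := by
  unfold phW
  have h := primorial_pos w
  exact div_pos (by exact_mod_cast Nat.totient_pos.mpr h) (by exact_mod_cast h)

private theorem ij_AA_pos (w N : ℕ) (hN : 2 ≤ N) : 0 < AA w N := by
  unfold AA
  exact mul_pos (ij_phW_pos w) (Real.log_pos (by exact_mod_cast (by omega : 1 < N)))

private theorem ij_qq {w X : ℕ} (hw : 8 ≤ w) (i : PP w X) : 0 ≤ qq i ∧ qq i ≤ 1 / 2 ∧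
    (pr i : ℝ) / ((pr i : ℝ) - 1) = 1 + qq i := by
  have h1 : w < pr i := (mem_Ioc.mp (mem_filter.mp i.2).1).1
  have h2 : (9 : ℝ) ≤ (pr i : ℝ) := by exact_mod_cast (by omega : 9 ≤ pr i)
  refine ⟨?_, ?_, ?_⟩
  · unfold qq
    exact div_nonneg (by norm_num) (by linarith)
  · unfold qq
    exact one_div_le_one_div_of_le (by norm_num) (by linarith)
  · unfold qq
    have h3 : (pr i : ℝ) - 1 ≠ 0 := by linarith
    field_simp
    ring

private theorem ij_pt (A B D h r S Q Q1 Q0 : ℝ) (hA : 0 < A) (hB : 0 ≤ B) (hD : 0 ≤ D)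
    (hQ1 : Q1 ≤ S ^ 2 * Q) (hQ0 : S ^ 2 * Q ≤ Q0) (hQ : 0 ≤ Q) (hh : |h| ≤ B) (hr : |r| ≤ A * D) :
    A ^ 2 * h ^ 2 * Q1 - 2 * A ^ 2 * B * D * Q0 ≤ (S * (A * h + r)) ^ 2 * Q := by
  have h1 : (S * (A * h + r)) ^ 2 * Q = (S ^ 2 * Q) * (A ^ 2 * h ^ 2) + (S ^ 2 * Q) * r ^ 2 +
      (S ^ 2 * Q) * (2 * A * (h * r)) := by ring
  have hSQ : 0 ≤ S ^ 2 * Q := mul_nonneg (sq_nonneg _) hQ
  have h2 : |h * r| ≤ B * (A * D) := by
    rw [abs_mul]
    exact mul_le_mul hh hr (abs_nonneg _) hB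
  have h3 : -(B * (A * D)) ≤ h * r := (abs_le.mp h2).1
  have h4 : -(2 * A ^ 2 * B * D) ≤ 2 * A * (h * r) := by
    have := mul_le_mul_of_nonneg_left h3 (by linarith : 0 ≤ 2 * A)
    linarith [this, show 2 * A * -(B * (A * D)) = -(2 * A ^ 2 * B * D) by ring]
  have h5 : -(2 * A ^ 2 * B * D) * Q0 ≤ (S ^ 2 * Q) * (2 * A * (h * r)) := by
    have h6 : (S ^ 2 * Q) * (-(2 * A ^ 2 * B * D)) ≤ (S ^ 2 * Q) * (2 * A * (h * r)) :=
      mul_le_mul_of_nonneg_left h4 hSQ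
    have h7 : 0 ≤ 2 * A ^ 2 * B * D := by positivity
    nlinarith [mul_le_mul_of_nonneg_left hQ0 h7]
  have h8 : A ^ 2 * h ^ 2 * Q1 ≤ (S ^ 2 * Q) * (A ^ 2 * h ^ 2) := by
    rw [mul_comm (S ^ 2 * Q)]
    exact mul_le_mul_of_nonneg_left hQ1 (by positivity)
  have h9 : 0 ≤ (S ^ 2 * Q) * r ^ 2 := mul_nonneg hSQ (sq_nonneg _)
  rw [h1]
  linarith

private theorem ij_prod {w X : ℕ} (hw : 8 ≤ w) (τ : PP w X → Option (Fin 3)) :
    (∏ i ∈ supp τ, (qq i * (1 - 4 * qq i ^ 2))) ≤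
      sg τ ^ 2 * ∏ i ∈ supp τ, (qq i * (1 - 2 * qq i)) ∧
    sg τ ^ 2 * ∏ i ∈ supp τ, (qq i * (1 - 2 * qq i)) ≤ ∏ i ∈ supp τ, qq i ∧
    0 ≤ ∏ i ∈ supp τ, (qq i * (1 - 2 * qq i)) := by
  have h1 : sg τ ^ 2 * ∏ i ∈ supp τ, (qq i * (1 - 2 * qq i)) =
      ∏ i ∈ supp τ, ((1 + qq i) ^ 2 * (qq i * (1 - 2 * qq i))) := by
    have h0 : sg τ ^ 2 = ∏ i ∈ supp τ, (1 + qq i) ^ 2 := by
      unfold sg
      rw [← Finset.prod_pow]
      refine Finset.prod_congr rfl fun i _ => ?_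
      rw [neg_sq, (ij_qq hw i).2.2]
    rw [h0, ← Finset.prod_mul_distrib]
  rw [h1]
  refine ⟨Finset.prod_le_prod (fun i _ => ?_) (fun i _ => ?_),
    Finset.prod_le_prod (fun i _ => ?_) (fun i _ => ?_),
    Finset.prod_nonneg fun i _ => ?_⟩ <;> obtain ⟨h2, h3, -⟩ := ij_qq hw i
  · exact mul_nonneg h2 (by nlinarith)
  · have h4 : (1 + qq i) ^ 2 * (qq i * (1 - 2 * qq i)) - qq i * (1 - 4 * qq i ^ 2) =
        qq i * (qq i ^ 2 * (1 - 2 * qq i)) := by ring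
    have h5 : 0 ≤ qq i * (qq i ^ 2 * (1 - 2 * qq i)) :=
      mul_nonneg h2 (mul_nonneg (sq_nonneg _) (by linarith))
    linarith
  · exact mul_nonneg (sq_nonneg _) (mul_nonneg h2 (by linarith))
  · have h4 : qq i - (1 + qq i) ^ 2 * (qq i * (1 - 2 * qq i)) =
        qq i * (qq i ^ 2 * (3 + 2 * qq i)) := by ring
    have h5 : 0 ≤ qq i * (qq i ^ 2 * (3 + 2 * qq i)) :=
      mul_nonneg h2 (mul_nonneg (sq_nonneg _) (by linarith))
    linarith
  · exact mul_nonneg h2 (by linarith)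

private theorem ij_sz (M N p : ℕ) : 0 ≤ sz M N p := by
  unfold sz
  split_ifs
  · exact div_nonneg (Real.log_natCast_nonneg _) (Real.log_natCast_nonneg _)
  · positivity

private theorem ij_ss {w X : ℕ} (M N : ℕ) (e : Finset (PP w X)) : 0 ≤ ss M N e :=
  sum_nonneg fun _ _ => ij_sz M N _

private theorem ij_sg {w X : ℕ} (hw : 8 ≤ w) (τ : PP w X → Option (Fin 3)) : sg τ ≠ 0 := by
  unfold sg
  refine Finset.prod_ne_zero_iff.mpr fun i _ => ?_
  rw [(ij_qq hw i).2.2]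
  have := (ij_qq hw i).1
  linarith

/-- the coefficient in the form `sg (A h + r)` -/
private theorem ij_tB (hTB : St_TB) (ρ K : ℝ) (r : Fin 3 → ℝ) (F : (Fin 3 → ℝ) → ℝ) (w X M N : ℕ) (hw : 8 ≤ w)
    (hρ : 0 < ρ) (hr : ∀ j, ρ ≤ r j) (hF : Pf ρ r K F) (ε10 : ℝ)
    (j : Fin 3) (n : ℕ) (u : Fin n → ℝ) (hn : n ≤ 3) (hu : ∀ i, 0 ≤ u i)
    (hTM : ∀ a b : ℝ, 0 ≤ a → 0 ≤ b →
      |tm (w := w) (X := X) F M N j u a b - AA w N * hB F ρ j u a b| ≤ ε10 * AA w N)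
    (hG0 : 0 ≤ GG w X M N ρ) (hG : GG w X M N ρ ≤ AA w N) (τ : PP w X → Option (Fin 3))
    (hτ : ∀ i, τ i ≠ some j) :
    ∃ x : ℝ, tB F M N j u τ = sg τ * (AA w N * hB F ρ j u (szs M N τ (o1 j)) (szs M N τ (o2 j)) + x) ∧
      |x| ≤ AA w N * ((8 * (8 * K) / w + ε10) + (8 * K) * ∑ i ∈ supp τ, qq i) := by
  have hK : 0 ≤ K := (abs_nonneg _).trans (hF.bd 0)
  have hsg := ij_sg hw τ
  have hsg' : 0 < |sg τ| := abs_pos.mpr hsg
  have h1 := (hTB ρ K r F w X M N j n u hw hρ hr hF hu τ).2.2.2 hτ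
  have h2 := hTM (szs M N τ (o1 j)) (szs M N τ (o2 j)) (ij_ss M N _) (ij_ss M N _)
  set h := hB F ρ j u (szs M N τ (o1 j)) (szs M N τ (o2 j)) with hh
  set t := tm (w := w) (X := X) F M N j u (szs M N τ (o1 j)) (szs M N τ (o2 j)) with ht
  set A := AA w N with hAdef
  refine ⟨tB F M N j u τ / sg τ - A * h, ?_, ?_⟩
  · field_simp
    ring
  · have h3 : (tB F M N j u τ / sg τ - A * h) * sg τ = (tB F M N j u τ - sg τ * t) +
        sg τ * (t - A * h) := by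
      field_simp
      ring
    have hq : 0 ≤ ∑ i ∈ supp τ, qq i := sum_nonneg fun i _ => (ij_qq hw i).1
    have h2n : (2 : ℝ) ^ n ≤ 8 := by
      calc (2 : ℝ) ^ n ≤ 2 ^ 3 := pow_le_pow_right₀ (by norm_num) hn
        _ = 8 := by norm_num
    have h4 : |tB F M N j u τ / sg τ - A * h| * |sg τ| ≤
        |sg τ| * (2 ^ n * K) * GG w X M N ρ * (8 / w + ∑ i ∈ supp τ, qq i) +
          |sg τ| * (ε10 * A) := by
      rw [← abs_mul, h3]
      refine (abs_add_le _ _).trans (add_le_add h1 ?_)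
      rw [abs_mul]
      exact mul_le_mul_of_nonneg_left h2 (abs_nonneg _)
    have h5 : (2 ^ n * K) * GG w X M N ρ ≤ (8 * K) * A :=
      mul_le_mul (mul_le_mul_of_nonneg_right h2n hK) hG hG0 (by positivity)
    have h6 : |sg τ| * (2 ^ n * K) * GG w X M N ρ * (8 / w + ∑ i ∈ supp τ, qq i) ≤
        |sg τ| * ((8 * K) * A * (8 / w + ∑ i ∈ supp τ, qq i)) := by
      have h7 : 0 ≤ (8 : ℝ) / w + ∑ i ∈ supp τ, qq i := by positivity
      have h8 := mul_le_mul_of_nonneg_left (mul_le_mul_of_nonneg_right h5 h7) hsg'.le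
      calc |sg τ| * (2 ^ n * K) * GG w X M N ρ * (8 / w + ∑ i ∈ supp τ, qq i) =
          |sg τ| * ((2 ^ n * K) * GG w X M N ρ * (8 / w + ∑ i ∈ supp τ, qq i)) := by ring
        _ ≤ _ := h8
    have h9 : |tB F M N j u τ / sg τ - A * h| * |sg τ| ≤
        (A * ((8 * (8 * K) / w + ε10) + (8 * K) * ∑ i ∈ supp τ, qq i)) * |sg τ| := by
      calc _ ≤ |sg τ| * ((8 * K) * A * (8 / w + ∑ i ∈ supp τ, qq i)) + |sg τ| * (ε10 * A) := by
            linarith
        _ = _ := by ring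
    exact le_of_mul_le_mul_right h9 hsg'

private theorem ij_o (j h : Fin 3) (hj : h ≠ j) (x : ℝ) :
    x = (if h = o1 j then x else 0) + (if h = o2 j then x else 0) := by
  fin_cases j <;> fin_cases h <;> simp_all [o1, o2]

private theorem ij_supp {w X : ℕ} (τ : PP w X → Option (Fin 3)) (j : Fin 3)
    (hτ : ∀ i, τ i ≠ some j) (f : PP w X → ℝ) :
    ∑ i ∈ supp τ, f i = ∑ i ∈ part τ (o1 j), f i + ∑ i ∈ part τ (o2 j), f i := by
  unfold supp part
  rw [sum_filter, sum_filter, sum_filter, ← sum_add_distrib]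
  refine sum_congr rfl fun i _ => ?_
  rcases h : τ i with _ | x
  · simp
  · have hx : x ≠ j := by
      rintro rfl
      exact hτ i h
    have h1 := ij_o j x hx (f i)
    simpa using h1

open Classical in
private theorem ij_core (hTB : St_TB) (hHH : St_HH) (hDJ : St_DJ) (hPR : St_PR) (hSQ : St_SQ)
    (ρ σ K : ℝ) (r : Fin 3 → ℝ) (F : (Fin 3 → ℝ) → ℝ) (w X M N : ℕ) (hw : 8 ≤ w) (hρ : 0 < ρ)
    (hρ1 : ρ ≤ 1) (hr : ∀ j, ρ ≤ r j) (hσρ : σ ≤ ρ) (hF : Pf ρ r K F) (hA : 0 < AA w N) (ε10 : ℝ) (hε10 : 0 ≤ ε10)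
    (j : Fin 3) (n : ℕ) (u : Fin n → ℝ) (hn : n ≤ 3) (hu : ∀ i, 0 ≤ u i)
    (hTM : ∀ a b : ℝ, 0 ≤ a → 0 ≤ b →
      |tm (w := w) (X := X) F M N j u a b - AA w N * hB F ρ j u a b| ≤ ε10 * AA w N)
    (hG : GG w X M N ρ ≤ AA w N) (T : ℝ)
    (hT : T ≤ ∑ e : Finset (PP w X), ∑ e' : Finset (PP w X),
      if ss M N e + ss M N e' ≤ σ then (∏ i ∈ e, (qq i * (1 - 4 * qq i ^ 2))) *
        (∏ i ∈ e', (qq i * (1 - 4 * qq i ^ 2))) * hB F ρ j u (ss M N e) (ss M N e') ^ 2 else 0) :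
    AA w N ^ 2 * T - AA w N ^ 4 * (26 * (8 * K) ^ 2 / w + 2 * (8 * K) * ε10) ≤
      ∑ τ : PP w X → Option (Fin 3), tK F σ M N j u τ ^ 2 *
            ∏ i ∈ supp τ, (qq i * (1 - 2 * qq i)) := by
  have hK : 0 ≤ K := (abs_nonneg _).trans (hF.bd 0)
  have hw0 : (0 : ℝ) < w := by exact_mod_cast (by omega : 0 < w)
  have hq0 : ∀ i : PP w X, 0 ≤ qq i := fun i => (ij_qq hw i).1
  have hq1 : ∀ i : PP w X, 0 ≤ qq i * (1 - 4 * qq i ^ 2) := fun i =>
    mul_nonneg (hq0 i) (by nlinarith [(ij_qq hw i).2.1, hq0 i])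
  have hq2 : ∀ i : PP w X, qq i * (1 - 4 * qq i ^ 2) ≤ qq i := fun i => by
    nlinarith [hq0 i, mul_nonneg (hq0 i) (sq_nonneg (qq i))]
  have h2n : (2 : ℝ) ^ n ≤ 8 := by
    calc (2 : ℝ) ^ n ≤ 2 ^ 3 := pow_le_pow_right₀ (by norm_num) hn
      _ = 8 := by norm_num
  have hG0 : 0 ≤ GG w X M N ρ := by
    unfold GG
    refine sum_nonneg fun e _ => ?_
    split_ifs
    · exact prod_nonneg fun i _ => hq0 i
    · exact le_rfl
  set A := AA w N with hAdef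
  set B : ℝ := 8 * K with hBdef
  have hB0 : 0 ≤ B := by positivity
  set δ : ℝ := 8 * B / w + ε10 with hδdef
  have hδ0 : 0 ≤ δ := by positivity
  have hhB : ∀ a b : ℝ, 0 ≤ a → 0 ≤ b → |hB F ρ j u a b| ≤ B := by
    intro a b ha hb
    have h := (hHH ρ K r F hρ hρ1 hr hF j).2.2.2.2.2.1 n u a b hu ha hb
    exact h.trans (mul_le_mul_of_nonneg_right h2n hK)
  have hV := hSQ w X (by omega)
  set V : ℝ := ∑ i : PP w X, qq i ^ 2 with hVdef
  have hV0 : 0 ≤ V := sum_nonneg fun i _ => sq_nonneg _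
  obtain ⟨hPR1, hPR2⟩ := hPR (PP w X) qq (fun i => sz M N (pr i)) ρ (GG w X M N ρ) V hq0
    (fun i => ij_sz M N _) rfl rfl
  -- the two functions of a pair
  set Φ1 : Finset (PP w X) → Finset (PP w X) → ℝ := fun a b =>
    if ss M N a + ss M N b ≤ σ then A ^ 2 * hB F ρ j u (ss M N a) (ss M N b) ^ 2 else 0 with hΦ1
  set Φ2 : Finset (PP w X) → Finset (PP w X) → ℝ := fun a b =>
    if ss M N a + ss M N b ≤ σ then
      2 * A ^ 2 * B * (δ + B * (∑ i ∈ a, qq i + ∑ i ∈ b, qq i)) else 0 with hΦ2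
  have e1 := hDJ (PP w X) j (fun i => qq i * (1 - 4 * qq i ^ 2)) Φ1
  have e2 := hDJ (PP w X) j (fun i => qq i) Φ2
  have hpt : ∀ τ : PP w X → Option (Fin 3),
      (if ∀ i, τ i ≠ some j then Φ1 (part τ (o1 j)) (part τ (o2 j)) *
        ∏ i ∈ supp τ, (qq i * (1 - 4 * qq i ^ 2)) else 0) -
      (if ∀ i, τ i ≠ some j then Φ2 (part τ (o1 j)) (part τ (o2 j)) *
        ∏ i ∈ supp τ, qq i else 0) ≤
      tK F σ M N j u τ ^ 2 * ∏ i ∈ supp τ, (qq i * (1 - 2 * qq i)) := by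
    intro τ
    obtain ⟨hp1, hp2, hp3⟩ := ij_prod hw τ
    have hnn : 0 ≤ tK F σ M N j u τ ^ 2 * ∏ i ∈ supp τ, (qq i * (1 - 2 * qq i)) :=
      mul_nonneg (sq_nonneg _) hp3
    by_cases hτ : ∀ i, τ i ≠ some j
    · rw [if_pos hτ, if_pos hτ]
      by_cases hs : szs M N τ (o1 j) + szs M N τ (o2 j) ≤ σ
      · have hs' : ss M N (part τ (o1 j)) + ss M N (part τ (o2 j)) ≤ σ := hs
        rw [hΦ1, hΦ2]
        simp only []
        rw [if_pos hs', if_pos hs']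
        have htK : tK F σ M N j u τ = tB F M N j u τ := by
          unfold tK
          rw [if_pos hs]
        obtain ⟨x, hr1, hr2⟩ := ij_tB hTB ρ K r F w X M N hw hρ hr hF ε10 j n u hn hu hTM hG0 hG τ hτ
        rw [htK, hr1]
        have hD0 : 0 ≤ δ + B * ∑ i ∈ supp τ, qq i :=
          add_nonneg hδ0 (mul_nonneg hB0 (sum_nonneg fun i _ => hq0 i))
        have := ij_pt A B (δ + B * ∑ i ∈ supp τ, qq i)
          (hB F ρ j u (szs M N τ (o1 j)) (szs M N τ (o2 j))) x (sg τ)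
          (∏ i ∈ supp τ, (qq i * (1 - 2 * qq i)))
          (∏ i ∈ supp τ, (qq i * (1 - 4 * qq i ^ 2))) (∏ i ∈ supp τ, qq i) hA hB0 hD0 hp1 hp2 hp3
          (hhB _ _ (ij_ss M N _) (ij_ss M N _)) hr2
        rw [ij_supp τ j hτ] at this
        exact this
      · have hs' : ¬ (ss M N (part τ (o1 j)) + ss M N (part τ (o2 j)) ≤ σ) := hs
        rw [hΦ1, hΦ2]
        simp only []
        rw [if_neg hs', if_neg hs', zero_mul, zero_mul, sub_zero]
        exact hnn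
    · rw [if_neg hτ, if_neg hτ, sub_zero]
      exact hnn
  have hsum := Finset.sum_le_sum fun τ (_ : τ ∈ (univ : Finset (PP w X → Option (Fin 3)))) =>
    hpt τ
  rw [sum_sub_distrib] at hsum
  refine le_trans ?_ hsum
  rw [e1, e2]
  have hVw : V * GG w X M N ρ ^ 2 ≤ 2 / w * A ^ 2 :=
    mul_le_mul hV (pow_le_pow_left₀ hG0 hG 2) (sq_nonneg _) (by positivity)
  have hpa : ∀ a : Finset (PP w X), 0 ≤ ∏ i ∈ a, qq i := fun a => prod_nonneg fun i _ => hq0 i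
  have hpa1 : ∀ a : Finset (PP w X), 0 ≤ ∏ i ∈ a, (qq i * (1 - 4 * qq i ^ 2)) := fun a =>
    prod_nonneg fun i _ => hq1 i
  have hpa2 : ∀ a : Finset (PP w X), ∏ i ∈ a, (qq i * (1 - 4 * qq i ^ 2)) ≤ ∏ i ∈ a, qq i :=
    fun a => Finset.prod_le_prod (fun i _ => hq1 i) fun i _ => hq2 i
  -- the first sum
  have f1 : A ^ 2 * T - A ^ 4 * (B ^ 2 * (2 / w)) ≤
      ∑ a : Finset (PP w X), ∑ b : Finset (PP w X), if Disjoint a b then
        Φ1 a b * ((∏ i ∈ a, (qq i * (1 - 4 * qq i ^ 2))) *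
          ∏ i ∈ b, (qq i * (1 - 4 * qq i ^ 2))) else 0 := by
    have g1 : ∀ a b : Finset (PP w X),
        A ^ 2 * (if ss M N a + ss M N b ≤ σ then (∏ i ∈ a, (qq i * (1 - 4 * qq i ^ 2))) *
          (∏ i ∈ b, (qq i * (1 - 4 * qq i ^ 2))) * hB F ρ j u (ss M N a) (ss M N b) ^ 2 else 0) -
        A ^ 2 * B ^ 2 * (if ¬ Disjoint a b ∧ ∑ i ∈ a, sz M N (pr i) ≤ ρ ∧
          ∑ i ∈ b, sz M N (pr i) ≤ ρ then (∏ i ∈ a, qq i) * ∏ i ∈ b, qq i else 0) ≤
        if Disjoint a b then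
        Φ1 a b * ((∏ i ∈ a, (qq i * (1 - 4 * qq i ^ 2))) *
          ∏ i ∈ b, (qq i * (1 - 4 * qq i ^ 2))) else 0 := by
      intro a b
      have hsa := ij_ss M N a
      have hsb := ij_ss M N b
      have hP1 := hpa1 a
      have hP2 := hpa1 b
      have hPP : (∏ i ∈ a, (qq i * (1 - 4 * qq i ^ 2))) * (∏ i ∈ b, (qq i * (1 - 4 * qq i ^ 2))) ≤
          (∏ i ∈ a, qq i) * ∏ i ∈ b, qq i := mul_le_mul (hpa2 a) (hpa2 b) hP2 (hpa a)
      by_cases hs : ss M N a + ss M N b ≤ σ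
      · rw [hΦ1]
        simp only []
        rw [if_pos hs, if_pos hs]
        by_cases hd : Disjoint a b
        · rw [if_pos hd, if_neg (fun h => h.1 hd), mul_zero, sub_zero]
          exact le_of_eq (by ring)
        · have ha1 : ∑ i ∈ a, sz M N (pr i) ≤ ρ := by
            have : ss M N a ≤ ρ := by linarith
            exact this
          have hb1 : ∑ i ∈ b, sz M N (pr i) ≤ ρ := by
            have : ss M N b ≤ ρ := by linarith
            exact this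
          rw [if_neg hd, if_pos ⟨hd, ha1, hb1⟩]
          have hh2 : hB F ρ j u (ss M N a) (ss M N b) ^ 2 ≤ B ^ 2 := by
            rw [← sq_abs]
            exact pow_le_pow_left₀ (abs_nonneg _) (hhB _ _ hsa hsb) 2
          have h6 : (∏ i ∈ a, (qq i * (1 - 4 * qq i ^ 2))) * (∏ i ∈ b, (qq i * (1 - 4 * qq i ^ 2))) *
              hB F ρ j u (ss M N a) (ss M N b) ^ 2 ≤ ((∏ i ∈ a, qq i) * ∏ i ∈ b, qq i) * B ^ 2 :=
            mul_le_mul hPP hh2 (sq_nonneg _) (mul_nonneg (hpa a) (hpa b))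
          have h7 := mul_le_mul_of_nonneg_left h6 (sq_nonneg A)
          linarith [h7, show A ^ 2 * (((∏ i ∈ a, qq i) * ∏ i ∈ b, qq i) * B ^ 2) =
            A ^ 2 * B ^ 2 * ((∏ i ∈ a, qq i) * ∏ i ∈ b, qq i) by ring]
      · rw [hΦ1]
        simp only []
        rw [if_neg hs, if_neg hs, zero_mul, mul_zero, ite_self, zero_sub]
        have h6 : 0 ≤ A ^ 2 * B ^ 2 * (if ¬ Disjoint a b ∧ ∑ i ∈ a, sz M N (pr i) ≤ ρ ∧
          ∑ i ∈ b, sz M N (pr i) ≤ ρ then (∏ i ∈ a, qq i) * ∏ i ∈ b, qq i else 0) := by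
          refine mul_nonneg (by positivity) ?_
          split_ifs
          · exact mul_nonneg (hpa a) (hpa b)
          · exact le_rfl
        linarith
    have g2 := Finset.sum_le_sum fun a (_ : a ∈ (univ : Finset (Finset (PP w X)))) =>
      Finset.sum_le_sum fun b (_ : b ∈ (univ : Finset (Finset (PP w X)))) => g1 a b
    refine le_trans ?_ g2
    simp_rw [sum_sub_distrib, ← mul_sum]
    have g3 := mul_le_mul_of_nonneg_left hT (sq_nonneg A)
    have g4 := mul_le_mul_of_nonneg_left (hPR1.trans hVw) (by positivity : 0 ≤ A ^ 2 * B ^ 2)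
    have g5 : A ^ 2 * B ^ 2 * (2 / w * A ^ 2) = A ^ 4 * (B ^ 2 * (2 / w)) := by ring
    rw [g5] at g4
    exact sub_le_sub g3 g4
  have f2 : (∑ a : Finset (PP w X), ∑ b : Finset (PP w X), if Disjoint a b then
        Φ2 a b * ((∏ i ∈ a, qq i) * ∏ i ∈ b, qq i) else 0) ≤
      A ^ 4 * (2 * B * δ + 8 * B ^ 2 / w) := by
    have g1 : ∀ a b : Finset (PP w X),
        (if Disjoint a b then Φ2 a b * ((∏ i ∈ a, qq i) * ∏ i ∈ b, qq i) else 0) ≤
        2 * A ^ 2 * B * δ * ((if ss M N a ≤ ρ then ∏ i ∈ a, qq i else 0) *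
          (if ss M N b ≤ ρ then ∏ i ∈ b, qq i else 0)) +
        2 * A ^ 2 * B ^ 2 * (if Disjoint a b ∧ ∑ i ∈ a, sz M N (pr i) ≤ ρ ∧
          ∑ i ∈ b, sz M N (pr i) ≤ ρ then
          ((∑ i ∈ a, qq i) + ∑ i ∈ b, qq i) * ((∏ i ∈ a, qq i) * ∏ i ∈ b, qq i) else 0) := by
      intro a b
      have hsa := ij_ss M N a
      have hsb := ij_ss M N b
      have hab := mul_nonneg (hpa a) (hpa b)
      have hqa : 0 ≤ ∑ i ∈ a, qq i := sum_nonneg fun i _ => hq0 i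
      have hqb : 0 ≤ ∑ i ∈ b, qq i := sum_nonneg fun i _ => hq0 i
      have n1 : 0 ≤ 2 * A ^ 2 * B * δ * ((if ss M N a ≤ ρ then ∏ i ∈ a, qq i else 0) *
          (if ss M N b ≤ ρ then ∏ i ∈ b, qq i else 0)) := by
        refine mul_nonneg (by positivity) (mul_nonneg ?_ ?_) <;> split_ifs
        exacts [hpa a, le_rfl, hpa b, le_rfl]
      have n2 : 0 ≤ 2 * A ^ 2 * B ^ 2 * (if Disjoint a b ∧ ∑ i ∈ a, sz M N (pr i) ≤ ρ ∧
          ∑ i ∈ b, sz M N (pr i) ≤ ρ then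
          ((∑ i ∈ a, qq i) + ∑ i ∈ b, qq i) * ((∏ i ∈ a, qq i) * ∏ i ∈ b, qq i) else 0) := by
        refine mul_nonneg (by positivity) ?_
        split_ifs
        · exact mul_nonneg (add_nonneg hqa hqb) hab
        · exact le_rfl
      by_cases hd : Disjoint a b
      · by_cases hs : ss M N a + ss M N b ≤ σ
        · have ha0 : ss M N a ≤ ρ := by linarith
          have hb0 : ss M N b ≤ ρ := by linarith
          have ha1 : ∑ i ∈ a, sz M N (pr i) ≤ ρ := ha0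
          have hb1 : ∑ i ∈ b, sz M N (pr i) ≤ ρ := hb0
          rw [hΦ2]
          simp only []
          rw [if_pos hd, if_pos hs, if_pos ha0, if_pos hb0, if_pos ⟨hd, ha1, hb1⟩]
          exact le_of_eq (by ring)
        · rw [hΦ2]
          simp only []
          rw [if_neg hs, zero_mul, ite_self]
          linarith
      · rw [if_neg hd]
        linarith
    have g2 := Finset.sum_le_sum fun a (_ : a ∈ (univ : Finset (Finset (PP w X)))) =>
      Finset.sum_le_sum fun b (_ : b ∈ (univ : Finset (Finset (PP w X)))) => g1 a b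
    refine g2.trans ?_
    simp_rw [sum_add_distrib, ← mul_sum]
    have g3 : (∑ a : Finset (PP w X), (if ss M N a ≤ ρ then ∏ i ∈ a, qq i else 0) *
        ∑ b : Finset (PP w X), (if ss M N b ≤ ρ then ∏ i ∈ b, qq i else 0)) =
        GG w X M N ρ ^ 2 := by
      rw [← sum_mul, sq]
      rfl
    rw [g3]
    have g4 := mul_le_mul_of_nonneg_left hPR2 (by positivity : 0 ≤ 2 * A ^ 2 * B ^ 2)
    have g5 : GG w X M N ρ ^ 2 ≤ A ^ 2 := pow_le_pow_left₀ hG0 hG 2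
    have g6 := mul_le_mul_of_nonneg_left g5 (by positivity : 0 ≤ 2 * A ^ 2 * B * δ)
    have g7 := mul_le_mul_of_nonneg_left hVw (by positivity : 0 ≤ 4 * A ^ 2 * B ^ 2)
    refine (add_le_add g6 g4).trans ?_
    have g8 : 2 * A ^ 2 * B ^ 2 * (2 * V * GG w X M N ρ ^ 2) =
        4 * A ^ 2 * B ^ 2 * (V * GG w X M N ρ ^ 2) := by ring
    rw [g8]
    calc _ ≤ 2 * A ^ 2 * B * δ * A ^ 2 + 4 * A ^ 2 * B ^ 2 * (2 / w * A ^ 2) := by linarith
      _ = _ := by ring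
  have f3 : (26 * B ^ 2 / w + 2 * B * ε10) = B ^ 2 * (2 / w) + (2 * B * δ + 8 * B ^ 2 / w) := by
    rw [hδdef]
    ring
  rw [f3]
  linarith

theorem thm_J (hTB : St_TB) (hTM : St_TM) (hDS : St_DS) (hDP : St_DP) (hD2 : St_D2) (hHH : St_HH)
    (hDJ : St_DJ) (hPR : St_PR) (hSQ : St_SQ) : St_J := by
  intro ρ σ K ε r F hρ hρ2 hr hσ hσρ hF hε
  have hK : 0 ≤ K := (abs_nonneg _).trans (hF.bd 0)
  set B : ℝ := 8 * K with hBdef
  have hB0 : 0 ≤ B := by positivity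
  obtain ⟨εD, hεD, hD⟩ := hD2 (4 * B ^ 2) (ε / 4) (by positivity)
  obtain ⟨ε1, hε1, hT⟩ := hTM K (ε / (16 * (B + 1))) (by positivity)
  obtain ⟨w1, M1, h1⟩ := hDS (min ε1 (1 / 2)) (lt_min hε1 (by norm_num))
  obtain ⟨w2, M2, h2⟩ := hDP εD hεD
  obtain ⟨w3, hw3⟩ := exists_nat_ge (26 * B ^ 2 / (ε / 4))
  refine ⟨max (max w1 w2) (max w3 8), max M1 M2, fun w M hw hM => ?_⟩
  have hww1 : w1 ≤ w := (le_max_left _ _).trans ((le_max_left _ _).trans hw)
  have hww2 : w2 ≤ w := (le_max_right _ _).trans ((le_max_left _ _).trans hw)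
  have hww3 : w3 ≤ w := (le_max_left _ _).trans ((le_max_right _ _).trans hw)
  have hww8 : 8 ≤ w := (le_max_right _ _).trans ((le_max_right _ _).trans hw)
  have hMM1 : M1 ≤ M := (le_max_left _ _).trans hM
  have hMM2 : M2 ≤ M := (le_max_right _ _).trans hM
  filter_upwards [h1 w hww1 M hMM1 ρ hρ hρ2.le, h2 w hww2 M hMM2 ρ hρ hρ2.le,
    eventually_ge_atTop 2] with N hN1 hN2 hN j n u hn hu
  have hA : 0 < AA w N := ij_AA_pos w N hN
  have hρ1 : ρ ≤ 1 := by linarith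
  have hw0 : (0 : ℝ) < w := by exact_mod_cast (by omega : 0 < w)
  have h2n : (2 : ℝ) ^ n ≤ 8 := by
    calc (2 : ℝ) ^ n ≤ 2 ^ 3 := pow_le_pow_right₀ (by norm_num) hn
      _ = 8 := by norm_num
  have h2n0 : (0 : ℝ) ≤ 2 ^ n := by positivity
  have hhH := hHH ρ K r F hρ hρ1 hr hF j
  -- the bound of `G`
  have hG : GG w (XR ρ N) M N ρ ≤ AA w N := by
    have h3 := (ij_dist_mono hN1 (min_le_right _ _) hA.le).le ρ hρ.le le_rfl
    have h4 := (abs_le.mp h3).2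
    have h5 : AA w N * ρ ≤ AA w N * (1 / 2) := mul_le_mul_of_nonneg_left hρ2.le hA.le
    have h6 : GG w (XR ρ N) M N ρ - AA w N * ρ ≤ 1 / 2 * AA w N := h4
    linarith
  have hTM' : ∀ a b : ℝ, 0 ≤ a → 0 ≤ b →
      |tm (w := w) (X := XR ρ N) F M N j u a b - AA w N * hB F ρ j u a b| ≤
        ε / (16 * (B + 1)) * AA w N := fun a b ha hb =>
    hT ρ r F w (XR ρ N) M N hρ hρ1 hr hF hA (ij_dist_mono hN1 (min_le_left _ _) hA.le) j n u a b hn hu
      ha hb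
  -- the double sum
  have hbd : ∀ a b : ℝ, 0 ≤ a → 0 ≤ b → |hB F ρ j u a b| ≤ B := fun a b ha hb =>
    (hhH.2.2.2.2.2.1 n u a b hu ha hb).trans (mul_le_mul_of_nonneg_right h2n hK)
  have hDD := hD (Finset (PP w (XR ρ N))) (fun e => ∏ i ∈ e, (qq i * (1 - 4 * qq i ^ 2)))
    (ss M N) (AA w N) ρ hA hρ hρ1 hN2.2 σ (fun a b => hB F ρ j u a b ^ 2) hσ.le hσρ
    (fun a b ha hb _ => by
      rw [abs_of_nonneg (sq_nonneg _), ← sq_abs]
      have := pow_le_pow_left₀ (abs_nonneg _) (hbd a b ha hb) 2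
      nlinarith [sq_nonneg B])
    (fun a b a' b' ha hb hab ha' hb' hab' => by
      have g1 := hhH.2.2.2.2.2.2.1 n u a b a' b' hu ha hb (hab.trans hσρ) ha' hb' (hab'.trans hσρ)
      have g2 := abs_le.mp (hbd a b ha hb)
      have g3 := abs_le.mp (hbd a' b' ha' hb')
      have g4 : |hB F ρ j u a b + hB F ρ j u a' b'| ≤ 2 * B := by
        rw [abs_le]
        constructor <;> linarith [g2.1, g2.2, g3.1, g3.2]
      have g5 : hB F ρ j u a b ^ 2 - hB F ρ j u a' b' ^ 2 =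
          (hB F ρ j u a b + hB F ρ j u a' b') * (hB F ρ j u a b - hB F ρ j u a' b') := by ring
      have g6 : (0 : ℝ) ≤ |a - a'| + |b - b'| := by positivity
      have g7 : 2 ^ n * (2 * K) * (|a - a'| + |b - b'|) ≤ 2 * B * (|a - a'| + |b - b'|) := by
        refine mul_le_mul_of_nonneg_right ?_ g6
        rw [hBdef]
        nlinarith
      rw [g5, abs_mul]
      calc _ ≤ (2 * B) * (2 * B * (|a - a'| + |b - b'|)) :=
            mul_le_mul g4 (g1.trans g7) (abs_nonneg _) (by positivity)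
        _ = 4 * B ^ 2 * (|a - a'| + |b - b'|) := by ring)
  have hDD1 := (abs_le.mp hDD).1
  have hcore := ij_core hTB hHH hDJ hPR hSQ ρ σ K r F w (XR ρ N) M N hww8 hρ hρ1 hr hσρ hF hA
    (ε / (16 * (B + 1))) (by positivity) j n u hn hu hTM' hG
    (AA w N ^ 2 * (JJ F ρ σ j u - ε / 4)) (by
      have h5 : AA w N ^ 2 * (JJ F ρ σ j u - ε / 4) = AA w N ^ 2 * JJ F ρ σ j u -
        ε / 4 * AA w N ^ 2 := by ring
      rw [h5]
      have h6 : -(ε / 4 * AA w N ^ 2) ≤ (∑ e : Finset (PP w (XR ρ N)),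
        ∑ e' : Finset (PP w (XR ρ N)), if ss M N e + ss M N e' ≤ σ then
          (∏ i ∈ e, (qq i * (1 - 4 * qq i ^ 2))) * (∏ i ∈ e', (qq i * (1 - 4 * qq i ^ 2))) *
            hB F ρ j u (ss M N e) (ss M N e') ^ 2 else 0) - AA w N ^ 2 * JJ F ρ σ j u := hDD1
      linarith)
  refine le_trans ?_ hcore
  have h7 : 26 * (8 * K) ^ 2 / w + 2 * (8 * K) * (ε / (16 * (B + 1))) ≤ ε / 4 + ε / 8 := by
    refine add_le_add ?_ ?_
    · rw [div_le_iff₀ hw0]
      have h8 : 26 * B ^ 2 / (ε / 4) ≤ w := hw3.trans (by exact_mod_cast hww3)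
      rw [div_le_iff₀ (by positivity)] at h8
      linarith
    · rw [mul_div_assoc', div_le_iff₀ (by positivity)]
      have : 0 ≤ ε := hε.le
      nlinarith
  have hA4 : 0 ≤ AA w N ^ 4 := by positivity
  have h9 := mul_le_mul_of_nonneg_left h7 hA4
  calc AA w N ^ 4 * (JJ F ρ σ j u - ε) ≤
        AA w N ^ 4 * (JJ F ρ σ j u - ε / 4) - AA w N ^ 4 * (ε / 4 + ε / 8) := by
        nlinarith [mul_nonneg hA4 hε.le]
    _ ≤ _ := by
        have h10 : AA w N ^ 2 * (AA w N ^ 2 * (JJ F ρ σ j u - ε / 4)) =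
          AA w N ^ 4 * (JJ F ρ σ j u - ε / 4) := by ring
        rw [h10]
        linarith

end Pool.Agent.PU
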