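import Pool.Agent.PU.StD
import Pool.Agent.PT.IR

set_option autoImplicit false

/-!
# PU / IR

As `PT/IR.lean` (whose lemmas on boxes and step functions are used), for the more general region.
-/

namespace Pool.Agent.PU

open Finset Filter Pool.Agent.MT Pool.Agent.PT MeasureTheory

open Topology

section main

variable {ρ σ K : ℝ} {r : Fin 3 → ℝ} {F : (Fin 3 → ℝ) → ℝ} {j : Fin 3} {n : ℕ}

theorem IR_tendsto (hHJ : St_HJ) (hρ : 0 < ρ) (hρ1 : ρ ≤ 1) (hr : ∀ j, ρ ≤ r j) (hσ : 0 < σ)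
    (hσρ : σ ≤ ρ) (hF : Pf ρ r K F) (u : Fin n → ℝ) (hu : u ∈ DD ρ n) :
    Tendsto (fun M : ℕ => IRf F ρ σ j n M u) atTop (𝓝 (JJ F ρ σ j u * PT.dens u)) := by
  obtain ⟨hu1, hu2, hu3, hu4⟩ := hu
  have hu0 : ∀ i, 0 < u i := fun i => lt_trans (by norm_num) (hu1 i)
  have hS0 : 0 ≤ ∑ l, u l := Finset.sum_nonneg fun i _ => (hu0 i).le
  have hev : ∀ c : ℝ, 0 < c → ∀ᶠ M : ℕ in atTop, (n : ℝ) + 2 ≤ c * M := by
    intro c hc
    have h1 : Tendsto (fun M : ℕ => c * (M : ℝ)) atTop atTop :=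
      tendsto_natCast_atTop_atTop.const_mul_atTop hc
    exact h1.eventually_ge_atTop _
  have eA : ∀ᶠ M : ℕ in atTop, ∀ i, (n : ℝ) + 2 ≤ (u i - 1 / 1000) * M :=
    eventually_all.2 fun i => hev _ (by linarith [hu1 i])
  have eB : ∀ᶠ M : ℕ in atTop, ∀ a b, a < b → (n : ℝ) + 2 ≤ (u b - u a) * M := by
    refine eventually_all.2 fun a => eventually_all.2 fun b => ?_
    by_cases hab : a < b
    · filter_upwards [hev (u b - u a) (by linarith [hu2 hab])] with M hM _
      exact hM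
    · exact Eventually.of_forall fun M h => absurd h hab
  have eC : ∀ᶠ M : ℕ in atTop, ∀ i, (n : ℝ) + 2 ≤ (1 - ∑ l, u l - u i) * M :=
    eventually_all.2 fun i => hev _ (by linarith [hu3 i])
  have eD : ∀ᶠ M : ℕ in atTop, (n : ℝ) + 2 ≤ (1 - ∑ l, u l - ρ) * M := hev _ (by linarith)
  -- the box is admissible
  have hbox : ∀ᶠ M : ℕ in atTop, IRk M u ∈ boxes ρ M n := by
    filter_upwards [eA, eB, eC, eD, eventually_ge_atTop 1] with M hA hB hC hD hM
    have hMr : (0 : ℝ) < M := by exact_mod_cast hM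
    have hk := IR_k M hM u hu0
    have hn0 : (0 : ℝ) ≤ n := Nat.cast_nonneg n
    have hsum : ∑ l, ((IRk M u l : ℝ) + 1) ≤ M * (∑ l, u l) + n := by
      calc ∑ l, ((IRk M u l : ℝ) + 1) ≤ ∑ l, ((M : ℝ) * u l + 1) :=
            Finset.sum_le_sum fun l _ => by linarith [(hk l).1]
        _ = M * (∑ l, u l) + n := by
            rw [Finset.sum_add_distrib, Finset.mul_sum]
            simp
    simp only [boxes, Finset.mem_filter, Fintype.mem_piFinset]
    refine ⟨fun i => ?_, ?_, ?_, ?_, ?_⟩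
    · rw [mem_range]
      have h1 : (IRk M u i : ℝ) < M := by
        have h2 : (M : ℝ) * u i ≤ M * 1 := mul_le_mul_of_nonneg_left (by linarith [hu3 i]) hMr.le
        linarith [(hk i).1]
      exact_mod_cast h1
    · intro a b hab
      have h1 := hB a b hab
      have h2 : (IRk M u a : ℝ) < IRk M u b := by
        have h3 : (u b - u a) * M = M * u b - M * u a := by ring
        linarith [(hk a).1, (hk b).2]
      exact_mod_cast h2
    · intro i
      have h1 := hA i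
      have h3 : (u i - 1 / 1000) * M = M * u i - M / 1000 := by ring
      linarith [(hk i).2]
    · intro i
      rw [← Finset.sum_div, div_lt_iff₀ hMr]
      have h1 := hC i
      have h3 : (1 - ∑ l, u l - u i) * M = M - M * ∑ l, u l - M * u i := by ring
      have h4 : (1 - (∑ l, ((IRk M u l : ℝ) + 1)) / M) * M = M - ∑ l, ((IRk M u l : ℝ) + 1) := by
        field_simp
      rw [h4]
      linarith [(hk i).1]
    · rw [← Finset.sum_div]
      have h3 : (1 - ∑ l, u l - ρ) * M = M - M * ∑ l, u l - M * ρ := by ring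
      have h4 : (1 - (∑ l, ((IRk M u l : ℝ) + 1)) / M) * M = M - ∑ l, ((IRk M u l : ℝ) + 1) := by
        field_simp
      refine lt_of_mul_lt_mul_right ?_ hMr.le
      rw [h4]
      have h5 : (ρ + 1 / (M : ℝ)) * M = M * ρ + 1 := by field_simp
      rw [h5]
      linarith
  -- limits
  have hinv : Tendsto (fun M : ℕ => 1 / (M : ℝ)) atTop (𝓝 0) :=
    tendsto_one_div_atTop_nhds_zero_nat
  have hlim1 : ∀ i, Tendsto (fun M : ℕ => (IRk M u i : ℝ) / M) atTop (𝓝 (u i)) := by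
    intro i
    have h1 : Tendsto (fun M : ℕ => u i - 1 / (M : ℝ)) atTop (𝓝 (u i)) := by
      have := (tendsto_const_nhds (x := u i)).sub hinv
      rwa [sub_zero] at this
    refine tendsto_of_tendsto_of_tendsto_of_le_of_le' h1 tendsto_const_nhds ?_ ?_
    · filter_upwards [eventually_ge_atTop 1] with M hM
      have hMr : (0 : ℝ) < M := by exact_mod_cast hM
      rw [le_div_iff₀ hMr]
      have h2 : (u i - 1 / (M : ℝ)) * M = M * u i - 1 := by field_simp
      rw [h2]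
      linarith [(IR_k M hM u hu0 i).2]
    · filter_upwards [eventually_ge_atTop 1] with M hM
      have hMr : (0 : ℝ) < M := by exact_mod_cast hM
      rw [div_le_iff₀ hMr, mul_comm]
      exact (IR_k M hM u hu0 i).1.le
  have hlim2 : ∀ i, Tendsto (fun M : ℕ => uu (IRk M u) M i) atTop (𝓝 (u i)) := by
    intro i
    have h1 := (hlim1 i).add hinv
    rw [add_zero] at h1
    refine h1.congr fun M => ?_
    unfold uu
    ring
  have hJ := hHJ ρ σ K r F hρ hρ1 hr hσ hσρ hF j n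
  have hlimJ : Tendsto (fun M : ℕ => JJ F ρ σ j (uu (IRk M u) M)) atTop (𝓝 (JJ F ρ σ j u)) := by
    rw [tendsto_iff_norm_sub_tendsto_zero]
    have h1 : Tendsto (fun M : ℕ => 2 * (2 ^ n * K) ^ 2 * ∑ i, |uu (IRk M u) M i - u i|) atTop
        (𝓝 (2 * (2 ^ n * K) ^ 2 * ∑ i : Fin n, |u i - u i|)) := by
      refine Tendsto.const_mul _ (tendsto_finsetSum _ fun i _ => ?_)
      exact ((hlim2 i).sub tendsto_const_nhds).abs
    have h2 : 2 * (2 ^ n * K) ^ 2 * ∑ i : Fin n, |u i - u i| = 0 := by simp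
    rw [h2] at h1
    refine squeeze_zero (fun _ => norm_nonneg _) (fun M => ?_) h1
    rw [Real.norm_eq_abs]
    exact (hJ (uu (IRk M u) M) u (fun i => by unfold uu; positivity) fun i => (hu0 i).le).2.2
  have hlimc : Tendsto (fun M : ℕ => IRc F ρ σ j M (IRk M u) * ∏ i, 1 / u i) atTop
      (𝓝 (JJ F ρ σ j u / (1 - ∑ i, u i) * ∏ i, 1 / u i)) := by
    refine Tendsto.mul_const _ ?_
    unfold IRc
    refine hlimJ.div ((tendsto_const_nhds).sub (tendsto_finsetSum _ fun i _ => hlim1 i)) ?_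
    linarith
  have hfin : JJ F ρ σ j u / (1 - ∑ i, u i) * ∏ i, 1 / u i = JJ F ρ σ j u * PT.dens u := by
    unfold PT.dens
    rw [Finset.prod_div_distrib, Finset.prod_const_one, one_div, one_div, mul_inv,
      div_eq_mul_inv]
    ring
  rw [hfin] at hlimc
  refine hlimc.congr' ?_
  filter_upwards [hbox, eventually_ge_atTop 1] with M h1 h2
  rw [IR_f M h2 u hu0, if_pos h1]

theorem IR_bound (hHJ : St_HJ) (hρ : 0 < ρ) (hρ1 : ρ ≤ 1) (hr : ∀ j, ρ ≤ r j) (hσ : 0 < σ)
    (hσρ : σ ≤ ρ) (hF : Pf ρ r K F) (u : Fin n → ℝ) (hu : u ∈ DD ρ n) (M : ℕ) (hM : 0 < M) :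
    ‖IRf F ρ σ j n M u‖ ≤ (2 ^ n * K) ^ 2 / ρ * 1000 ^ n := by
  obtain ⟨hu1, hu2, hu3, hu4⟩ := hu
  have hu0 : ∀ i, 0 < u i := fun i => lt_trans (by norm_num) (hu1 i)
  have hJ := hHJ ρ σ K r F hρ hρ1 hr hσ hσρ hF j n
  rw [IR_f M hM u hu0]
  split_ifs with h
  · obtain ⟨h1, h2⟩ := IR_box hM h
    obtain ⟨h3, h4, -⟩ := hJ (uu (IRk M u) M) u (fun i => by unfold uu; positivity)
      fun i => (hu0 i).le
    have h5 : 0 ≤ IRc F ρ σ j M (IRk M u) := div_nonneg h3 (by linarith)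
    have h6 : IRc F ρ σ j M (IRk M u) ≤ (2 ^ n * K) ^ 2 / ρ :=
      div_le_div₀ (sq_nonneg _) h4 hρ h2.le
    have h7 : 0 ≤ ∏ i, 1 / u i := Finset.prod_nonneg fun i _ => one_div_nonneg.2 (hu0 i).le
    have h8 : ∏ i, 1 / u i ≤ 1000 ^ n := by
      calc ∏ i, 1 / u i ≤ ∏ _i : Fin n, (1000 : ℝ) := by
            refine Finset.prod_le_prod (fun i _ => one_div_nonneg.2 (hu0 i).le) fun i _ => ?_
            rw [div_le_iff₀ (hu0 i)]
            linarith [hu1 i]
        _ = 1000 ^ n := by simp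
    rw [Real.norm_eq_abs, abs_of_nonneg (mul_nonneg h5 h7)]
    exact mul_le_mul h6 h8 h7 (by positivity)
  · rw [norm_zero]
    positivity

end main

theorem thm_R (hHJ : St_HJ) : St_R := by
  intro ρ σ K ε r F j n hρ hρ2 hr hσ hσρ hF hε
  have hρ1 : ρ ≤ 1 := by linarith
  have hlim : Tendsto (fun M : ℕ => ∫ u in DD ρ n, IRf F ρ σ j n M u) atTop
      (𝓝 (∫ u in DD ρ n, JJ F ρ σ j u * PT.dens u)) := by
    refine tendsto_integral_filter_of_dominated_convergence
      (fun _ => (2 ^ n * K) ^ 2 / ρ * 1000 ^ n) ?_ ?_ ?_ ?_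
    · filter_upwards [eventually_ge_atTop 1] with M hM
      exact (IR_integral M hM).1.aestronglyMeasurable.restrict
    · filter_upwards [eventually_ge_atTop 1] with M hM
      filter_upwards [self_mem_ae_restrict IR_DD_meas] with u hu
      exact IR_bound hHJ hρ hρ1 hr hσ hσρ hF u hu M hM
    · exact integrableOn_const (IR_DD_fin hρ).ne
    · filter_upwards [self_mem_ae_restrict IR_DD_meas] with u hu
      exact IR_tendsto hHJ hρ hρ1 hr hσ hσρ hF u hu
  have hev : ∀ᶠ M : ℕ in atTop, QQ F ρ σ j n - ε < ∫ u in DD ρ n, IRf F ρ σ j n M u := by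
    refine hlim.eventually_const_lt ?_
    unfold QQ
    linarith
  obtain ⟨M0, hM0⟩ := eventually_atTop.1 (hev.and (eventually_ge_atTop 1))
  refine ⟨M0, fun M hM => ?_⟩
  obtain ⟨h1, h2⟩ := hM0 M hM
  obtain ⟨h3, h4⟩ := IR_integral (F := F) (ρ := ρ) (σ := σ) (j := j) (n := n) M h2
  rw [← h4]
  refine h1.le.trans (setIntegral_le_integral h3 (Eventually.of_forall fun u => ?_))
  unfold IRf
  refine Finset.sum_nonneg fun k hk => ?_
  refine mul_nonneg (div_nonneg ?_ ?_) (Finset.prod_nonneg fun i _ => IR_h_nonneg _ _ _)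
  · exact (hHJ ρ σ K r F hρ hρ1 hr hσ hσρ hF j n (uu k M) (uu k M)
      (fun i => by unfold uu; positivity) fun i => by unfold uu; positivity).1
  · linarith [(IR_box h2 hk).2]

end Pool.Agent.PU
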