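import Pool.Agent.PU.Defs

set_option autoImplicit false

/-!
# PU: statements of the other modules
-/

namespace Pool.Agent.PU

open Finset Filter Pool.Agent.MT Pool.Agent.PT

/-- Cfg. As `PT/Cfg.lean`, with `Pf` instead of `Prof`. -/
def St_Cfg : Prop := ∀ (ρ K : ℝ) (r : Fin 3 → ℝ) (F : (Fin 3 → ℝ) → ℝ), 0 < ρ → ρ < 1 →
  (∀ j, ρ ≤ r j) → 0 < K → Pf ρ r K F →
  ∃ C : ℝ, 0 < C ∧ ∀ sh : Fin 3 → ℕ, Function.Injective sh → ∀ w : ℕ, 2 ≤ w → (∀ h, sh h ≤ w) →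
  ∀ M : ℕ, 1 ≤ M → ∀ᶠ N : ℕ in atTop, ∀ n : ℕ, n ≤ 3 → ∀ k : Fin n → ℕ, BoxOK ρ M k →
  ∀ (j : Fin 3) (a : ℕ), N < 8 * (a + sh j) → a + sh j ≤ N → bz k M N (a + sh j) ≠ 0 →
    |Lam F ρ M w N sh a -
      comb (bb (w := w) (X := XR ρ N)) (cc (FB F j (uu k M)) M N) (dl j (YY pr sh a))| ≤
    C * (N : ℝ) ^ (-(1 / 1000) : ℝ) * 2 ^ (supp (YY (pr (w := w) (X := XR ρ N)) sh a)).card *
      ∏ i : PP w (XR ρ N), (1 + 3 * qq i)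

/-- Int. As `PT/Int.lean`; level: `a_0 + a_1 + a_2 ≤ ρ + r j < 1/2` for one `j`. -/
def St_Int : Prop := ∀ η : ℝ → ℝ, IsWt η → ∀ (ρ K ε : ℝ) (r : Fin 3 → ℝ) (F : (Fin 3 → ℝ) → ℝ),
  0 < ρ → (∀ j, ρ ≤ r j) → (∃ j, r j + ρ < 1 / 2) → 0 < K → Pf ρ r K F → 0 < ε →
  ∀ sh : Fin 3 → ℕ, Function.Injective sh →
  ∃ w0 M0 : ℕ, ∀ w M : ℕ, w0 ≤ w → M0 ≤ M → ∀ v : ℕ, ∀ᶠ N : ℕ in atTop,
    ∑ a ∈ (range (N + 1)).filter (fun a => a % primorial w = v % primorial w),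
      η ((a : ℝ) / N) * Lam F ρ M w N sh a ^ 2 ≤
    N * mη η / primorial w * (AA w N ^ 3 * (II F ρ + ε)) + N

/-- Face. As `PT/Face.lean`, for one `j` with `r j + σ < 1/2`. -/
def St_Face : Prop := ∀ η : ℝ → ℝ, IsWt η → ∀ (ρ σ K ε : ℝ) (r : Fin 3 → ℝ)
  (F : (Fin 3 → ℝ) → ℝ), 0 < σ → σ ≤ ρ → ρ < 1 / 2 → (∀ j, ρ ≤ r j) → 0 < K → Pf ρ r K F → 0 < ε →
  ∀ sh : Fin 3 → ℕ,
  Function.Injective sh → ∃ w0 M0 : ℕ, ∀ w M : ℕ, w0 ≤ w → M0 ≤ M → ∀ v : ℕ,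
  (∀ h, (v + sh h).Coprime (primorial w)) → ∀ n : ℕ, n ≤ 3 → ∀ k : Fin n → ℕ, BoxOK ρ M k →
  ∀ j : Fin 3, r j + σ < 1 / 2 → ∀ᶠ N : ℕ in atTop,
    B0 η N (bz k M N) / (primorial w).totient * (AA w N ^ 4 * (JJ F ρ σ j (uu k M) - ε)) - N ≤
    ∑ a ∈ (range (N + 1)).filter (fun a => a % primorial w = v % primorial w),
      η ((a : ℝ) / N) * bz k M N (a + sh j) * Lam F ρ M w N sh a ^ 2

/-! ### The difference of the two weights on the primes -/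

/-- IntG. The expansion of `PT.int_exp` for arbitrary coefficients (same proof). -/
def St_IntG : Prop := ∀ η : ℝ → ℝ, IsWt η → ∃ C : ℝ, 0 < C ∧ ∀ (w X N v D1 : ℕ)
  (t : (PP w X → Option (Fin 3)) → ℝ) (T : ℝ), (∀ τ, |t τ| ≤ T) → (∀ τ, t τ ≠ 0 → nrm pr τ ≤ D1) →
  ∀ sh : Fin 3 → ℕ, Function.Injective sh → (∀ h, sh h ≤ w) → 2 ≤ N → 14 ≤ w →
    ∑ a ∈ (range (N + 1)).filter (fun a => a % primorial w = v % primorial w),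
        η ((a : ℝ) / N) * comb bb t (YY pr sh a) ^ 2 ≤
      Z1 η N / primorial w * ∑ τ, t τ ^ 2 * ∏ i ∈ supp τ, bb i +
      C * T ^ 2 * (∏ i : PP w X, (1 + qq i)) ^ 15 * (D1 : ℝ) ^ 2

/-- CB. The coefficients on the primes.
PROOF. `MT.sbst` with `b = q = bb`: in `cb F τ = ∑_σ cc F σ ∏_i lc {0} b b (σ i) (τ i)` a prime with
`τ i = some h`, `h ≠ 0`, needs `σ i = some h` (factor 1); `τ i = some 0` gives `0`; `τ i = none`: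
`σ i = none` gives `1`, `σ i = some 0` gives `-b`, `σ i = some h`, `h ≠ 0`, gives `b - b = 0`. So
`cb F τ = sg τ ∑_{e ∩ supp τ = ∅} ∏_e q F(s(e), s_1, s_2)`; without the condition
`e ∩ supp τ = ∅` this is `sg τ * tm F M N 0 ![] s_1 s_2`, the difference is at most
`|sg τ| K GG ∑_{supp τ} q` (compare `PT/TB.lean`). Then `St_TM` with `n = 0` and `GG ≤ A`. -/
def St_CB : Prop := ∀ (ρ K ε : ℝ) (r : Fin 3 → ℝ) (F : (Fin 3 → ℝ) → ℝ), 0 < ρ → ρ < 1 / 2 →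
  (∀ j, ρ ≤ r j) → Pf ρ r K F → 0 < ε → ∃ w0 M0 : ℕ, ∀ w M : ℕ, w0 ≤ w → M0 ≤ M →
  ∀ᶠ N : ℕ in atTop, ∀ τ : PP w (XR ρ N) → Option (Fin 3),
    ((∃ i, τ i = some 0) → cb F M N τ = 0) ∧
    (ρ < szs M N τ 1 ∨ ρ < szs M N τ 2 ∨ r 0 < szs M N τ 1 + szs M N τ 2 → cb F M N τ = 0) ∧
    ((∀ i, τ i ≠ some 0) →
      |cb F M N τ - sg τ * (AA w N * hh F ρ 0 (szs M N τ 1) (szs M N τ 2) 0)| ≤
        |sg τ| * AA w N * (ε + K * ∑ i ∈ supp τ, qq i))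

/-- NR. The normalising sum: `∏_{supp τ} (1 + q) nr ≥ ∑_{s(e) ≤ τ₀} ∏_e q ≥ A τ₀ / 2`.
PROOF. Every `e` with `ss e ≤ τ₀` is `l ∪ e'`, `l = e ∩ supp τ`, `e' ∩ supp τ = ∅`, `ss e' ≤ τ₀`, and
`∑_{l ⊆ supp τ} ∏_l q = ∏_{supp τ} (1 + q)`. Second inequality: `St_DS` with `ε = τ₀/2`. -/
def St_NR : Prop := ∀ ρ τ₀ : ℝ, 0 < τ₀ → τ₀ ≤ ρ → ρ ≤ 1 / 2 → ∃ w0 M0 : ℕ, ∀ w M : ℕ,
  w0 ≤ w → M0 ≤ M → ∀ᶠ N : ℕ in atTop, ∀ τ : PP w (XR ρ N) → Option (Fin 3),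
    AA w N * τ₀ / 2 ≤ (∏ i ∈ supp τ, (1 + qq i)) * nr τ₀ M N τ

/-- SP. Exact identity on the configurations without the value `0`.
PROOF. `comb_sbst {0} bb bb` for `spr D`, and `sbst {0} bb bb (spr D) = D`: for `τ` without the
value `0` the sum over `σ = e ∪ τ` is `∑_e (∏_e (-p/(p-1)) (-1/p)) D τ / nr τ = D τ`. -/
def St_SP : Prop := ∀ (w X M N : ℕ) (τ₀ : ℝ) (D : (PP w X → Option (Fin 3)) → ℝ), 2 ≤ w →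
  0 ≤ τ₀ → 1 ≤ M → 2 ≤ N → (∀ τ, (∃ i, τ i = some 0) → D τ = 0) →
  ∀ Y : PP w X → Option (Fin 3), (∀ i, Y i ≠ some 0) → comb bb (spr D τ₀ M N) Y = comb bb D Y

/-- S2. The square sum of the spread coefficients.
PROOF. `τ = e ∪ τ'`: `spr² ∏ b = [∏_e q (1 + q)] D(τ')² ∏_{τ'} b / nr(τ')²`. Sum over `e`
(disjointness dropped): `≤ 2 A` (DP, `τ₀ ≤ 1/2`). By NR
`1/nr(τ')² ≤ (2/(A τ₀))² ∏_{τ'} (1 + q)²`, and `D² ∏ b ≤ A² (δ + K' ∑ q)² ∏ q (1 + q)`.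
`(δ + K' ∑ q)² ≤ 2 δ² + 2 K'² (∑ q)²`, `∑_{τ'} ∏ q (1+q)³ [..] ≤ C A² (δ² + K'²/w)`: drop
disjointness of the parts (sizes `≤ ρ`), `∏_e (q + 7 q²)` against `∏_e q` as in `PT/DP.lean` (i),
`(∑_{i∈τ'} q_i)² ∏ v` summed over `τ'`: `≤ (∑ q_i v_i)² + ∑ q_i² v_i` times the total mass. -/
def St_S2 : Prop := ∀ ρ τ₀ K' ε : ℝ, 0 < τ₀ → τ₀ ≤ ρ → ρ < 1 / 2 → 0 ≤ K' →
  0 < ε → ∃ δ : ℝ, 0 < δ ∧ ∃ w0 M0 : ℕ, ∀ w M : ℕ, w0 ≤ w → M0 ≤ M → ∀ᶠ N : ℕ in atTop,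
  ∀ D : (PP w (XR ρ N) → Option (Fin 3)) → ℝ,
    (∀ τ, (∃ i, τ i = some 0) → D τ = 0) → (∀ τ, ρ < szs M N τ 1 ∨ ρ < szs M N τ 2 → D τ = 0) →
    (∀ τ, (∀ i, τ i ≠ some 0) → |D τ| ≤ |sg τ| * AA w N * (δ + K' * ∑ i ∈ supp τ, qq i)) →
    ∑ τ, spr D τ₀ M N τ ^ 2 * ∏ i ∈ supp τ, bb i ≤ ε * AA w N ^ 3

/-- DIF. The two weights almost coincide on the primes.
PROOF. `D = cb F - cb G` (CB for `F` and `G`, equal marginals), `τ₀ < 1/2 - r 0`, SP, IntG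
(level `N^(R + τ₀)`, `R = r 0`), S2. `a + sh 0` prime and `> N/8`: no sieving prime divides it, so
`YY` has no value `0`. (`|spr D| ≤ |D| ∏ (1+q)^2 / (A τ₀/2)`, polynomial in `log N`.) -/
def St_Dif : Prop := ∀ η : ℝ → ℝ, IsWt η → ∀ (ρ K ε : ℝ) (r r' : Fin 3 → ℝ)
  (F G : (Fin 3 → ℝ) → ℝ), 0 < ρ → (∀ j, ρ ≤ r j) → (∀ j, ρ ≤ r' j) → r' 0 = r 0 → r 0 < 1 / 2 →
  0 < K → Pf ρ r K F → Pf ρ r' K G →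
  (∀ a b : ℝ, 0 ≤ a → 0 ≤ b → hh F ρ 0 a b 0 = hh G ρ 0 a b 0) → 0 < ε →
  ∀ sh : Fin 3 → ℕ, Function.Injective sh →
  ∃ w0 M0 : ℕ, ∀ w M : ℕ, w0 ≤ w → M0 ≤ M → ∀ v : ℕ, ∀ᶠ N : ℕ in atTop,
    ∑ a ∈ (range (N + 1)).filter (fun a => a % primorial w = v % primorial w ∧
        (a + sh 0).Prime),
      η ((a : ℝ) / N) * (Lam F ρ M w N sh a - Lam G ρ M w N sh a) ^ 2 ≤
    N * mη η / primorial w * (AA w N ^ 3 * ε) + N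

/-! ### The criterion -/

open Classical in
/-- CORE. Criterion with two squares.
PROOF. As `PT/Core.lean` with
`Z = 1[n + h_0 prime] (log (n + h_0) / log N) ((1 - κ) Λ'² - (1/κ) (Λ' - Λ'')²)
   - (1 - g_1) Λ'² - (1 - g_2) Λ''²`, `Λ' = Lam F`, `Λ'' = Lam G`,
`g_j(n) = ∑_m ∑_{k ∈ boxes} c_j(m+1) bz k (n + h_j) ≤ c_j(Ω(n + h_j)) ≤ 1` (Box), `κ` small.
Sum: Face for `F`, `j = 0` (`σ`, `m = 0`), Face for `F`, `j = 1` (`ρ`), Face for `G`, `j = 2` (`ρ`),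
Int for `F` and `G`, Dif. Pointwise: `(1 - κ) Λ'² - (1/κ)(Λ' - Λ'')² ≤ min(Λ'², Λ''²)`, so `Z > 0`
implies `n + h_0` prime, `g_1 > 0`, `g_2 > 0`; then all prime factors are `> N^(1/1000)`, at most 4 in
each number, and `Z ≤ Λ'² ≤ C A^6` as in `PT/Core.lean` (`PT.core_supp`, CBd). -/
def St_Core : Prop := ∀ (ρ σ K : ℝ) (r r' : Fin 3 → ℝ) (F G : (Fin 3 → ℝ) → ℝ), 0 < σ → σ ≤ ρ →
  (∀ j, ρ ≤ r j) → (∀ j, ρ ≤ r' j) → r' 0 = r 0 → r 0 + σ < 1 / 2 → r 1 = ρ → r' 2 = ρ →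
  ρ + ρ < 1 / 2 → 0 < K → Pf ρ r K F → Pf ρ r' K G →
  (∀ a b : ℝ, 0 ≤ a → 0 ≤ b → hh F ρ 0 a b 0 = hh G ρ 0 a b 0) →
  ∀ c : Fin 3 → ℕ → ℝ, (∀ j m, 0 ≤ c j m ∧ c j m ≤ 1) →
  II F ρ + II G ρ < QQ F ρ σ 0 0 + ∑ n ∈ range 4, c 1 (n + 1) * QQ F ρ ρ 1 n +
    ∑ n ∈ range 4, c 2 (n + 1) * QQ G ρ ρ 2 n →
  ∀ sh : Fin 3 → ℕ, Function.Injective sh → Adm sh → ∃ c₀ : ℝ, 0 < c₀ ∧ ∀ᶠ x : ℕ in atTop,
    c₀ * x / Real.log x ^ 3 ≤ (((range (x + 1)).filter (fun n : ℕ =>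
      (n + sh 0).Prime ∧ 0 < c 1 (ArithmeticFunction.cardFactors (n + sh 1)) ∧
      0 < c 2 (ArithmeticFunction.cardFactors (n + sh 2)) ∧
      ∀ j, ∀ p : ℕ, p.Prime → p ∣ n + sh j → (x : ℝ) ^ (1 / 1000 : ℝ) < p)).card : ℝ)

end Pool.Agent.PU
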