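import Pool.Agent.PU.StD
import Pool.Agent.PU.Stmts
import Pool.Agent.PT.Int

set_option autoImplicit false

/-!
# PU / Int: the sum over the integers

As `PT/Int.lean`; the level is `N ^ (ρ + r j)`.
-/

namespace Pool.Agent.PU

open Finset Filter Pool.Agent.MT Pool.Agent.PT

theorem Int_level {w X M N : ℕ} (hM : 1 ≤ M) (hN : 2 ≤ N) {ρ K : ℝ} {r : Fin 3 → ℝ}
    {F : (Fin 3 → ℝ) → ℝ} (hF : Pf ρ r K F) (j : Fin 3) (τ : PP w X → Option (Fin 3))
    (h : cc F M N τ ≠ 0) : (nrm pr τ : ℝ) ≤ (N : ℝ) ^ (ρ + r j) := by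
  refine (nrm_le hM hN τ).trans ?_
  have h1 : (2 : ℝ) ≤ N := by exact_mod_cast hN
  have h2 : Reg2 ρ r (szs M N τ) := by
    by_contra hc
    exact h (by rw [cc, hF.zero _ hc, zero_mul])
  refine Real.rpow_le_rpow_of_exponent_le (by linarith) ?_
  rw [Fin.sum_univ_three]
  have h3 := h2.2 j
  have h4 := (h2.1 j).2
  fin_cases j
  · simp only [o1, o2] at h3 h4 ⊢
    simp at h3 h4 ⊢
    linarith
  · simp only [o1, o2] at h3 h4 ⊢
    simp at h3 h4 ⊢
    linarith
  · simp only [o1, o2] at h3 h4 ⊢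
    simp at h3 h4 ⊢
    linarith

/-- expansion of the sum -/
theorem Int_exp (η : ℝ → ℝ) (hη : IsWt η) : ∃ C : ℝ, 0 < C ∧ ∀ (ρ K : ℝ) (F : (Fin 3 → ℝ) → ℝ),
    0 < K → (∀ a, |F a| ≤ K) → ∀ sh : Fin 3 → ℕ, Function.Injective sh → ∀ w M N v D1 : ℕ,
    (∀ h, sh h ≤ w) → 1 ≤ M → 2 ≤ N → 14 ≤ w →
    (∀ τ : PP w (XR ρ N) → Option (Fin 3), cc F M N τ ≠ 0 → nrm pr τ ≤ D1) →
    |∑ a ∈ (range (N + 1)).filter (fun a => a % primorial w = v % primorial w),
        η ((a : ℝ) / N) * Lam F ρ M w N sh a ^ 2 -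
      Z1 η N / primorial w * EE univ (bb (w := w) (X := XR ρ N))
        (fun Z => comb bb (cc F M N) Z ^ 2)| ≤
      C * K ^ 2 * (∏ i : PP w (XR ρ N), (1 + qq i)) ^ 17 * (D1 : ℝ) ^ 2 := by
  classical
  obtain ⟨C, hC, hap⟩ := wt_sum_ap η hη
  refine ⟨C, hC, ?_⟩
  intro ρ K F hK hF sh hsh w M N v D1 hshw hM hN hw htD
  have hW : 1 ≤ primorial w := primorial_pos w
  have hlt : ∀ (i : PP w (XR ρ N)) h, sh h < pr i := fun i h => lt_of_le_of_lt (hshw h) (pr_gt i)
  obtain ⟨P, hP⟩ : ∃ P : ℝ, P = ∏ i : PP w (XR ρ N), (1 + qq i) := ⟨_, rfl⟩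
  have hP1 : 1 ≤ P := by rw [hP]; exact one_le_prod_qq
  have hmain := expand (pr (w := w) (X := XR ρ N)) (fun i => (pr_prime i).one_lt.le)
    ((range (N + 1)).filter (fun a => a % primorial w = v % primorial w))
    (fun a => η ((a : ℝ) / N)) (YY pr sh) (univ : Finset (Fin 3))
    bb bb (fun i => (bb_pos i).le) (Z1 η N / primorial w) (cc F M N)
    (K * ∏ i : PP w (XR ρ N), (1 + qq i)) (int_cc_le hF) D1 htD
    (fun _ => C) (fun _ => hC.le) ?_
  · unfold Lam
    refine hmain.trans ?_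
    rw [← sum_mul]
    have e1 : ((K * ∏ i : PP w (XR ρ N), (1 + qq i)) *
        ∏ i : PP w (XR ρ N), (1 + (Fintype.card (Fin 3) : ℝ) * bb i)) ^ 2 ≤ (K * P ^ 4) ^ 2 := by
      refine pow_le_pow_left₀ (mul_nonneg (mul_nonneg hK.le (by rw [← hP]; linarith))
        (prod_nonneg fun i _ => ?_)) ?_ 2
      · have := bb_pos i
        positivity
      have e2 := prod_bb_le (w := w) (X := XR ρ N) (Fintype.card (Fin 3))
      have e3 : Fintype.card (Fin 3) = 3 := by simp
      rw [← hP]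
      rw [← hP, e3] at e2
      rw [e3]
      calc K * P * ∏ i : PP w (XR ρ N), (1 + ((3 : ℕ) : ℝ) * bb i) ≤ K * P * P ^ 3 :=
            mul_le_mul_of_nonneg_left e2 (by positivity)
        _ = K * P ^ 4 := by ring
    have e4 : ∑ e ∈ (univ : Finset (Finset (PP w (XR ρ N)))).filter
        (fun e => ∏ i ∈ e, pr i ≤ D1 ^ 2), (3 * (Fintype.card (Fin 3) : ℝ)) ^ e.card ≤
        (D1 : ℝ) ^ 2 * P ^ 9 := by
      have e5 := count_rankin (w := w) (X := XR ρ N) 9 (D1 ^ 2)
      have e6 := prod_bb_le (w := w) (X := XR ρ N) 9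
      rw [← hP] at e6
      push_cast at e5 e6
      have e7 : (3 * (Fintype.card (Fin 3) : ℝ)) = 9 := by norm_num
      rw [e7]
      exact e5.trans (mul_le_mul_of_nonneg_left e6 (by positivity))
    have e8 : (0 : ℝ) ≤ ∑ e ∈ (univ : Finset (Finset (PP w (XR ρ N)))).filter
        (fun e => ∏ i ∈ e, pr i ≤ D1 ^ 2), (3 * (Fintype.card (Fin 3) : ℝ)) ^ e.card :=
      sum_nonneg fun e _ => pow_nonneg (mul_nonneg (by norm_num) (Nat.cast_nonneg _)) _
    rw [← hP]
    rw [← hP] at e1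
    calc (K * P * ∏ i : PP w (XR ρ N), (1 + (Fintype.card (Fin 3) : ℝ) * bb i)) ^ 2 *
        ((∑ e ∈ (univ : Finset (Finset (PP w (XR ρ N)))).filter
          (fun e => ∏ i ∈ e, pr i ≤ D1 ^ 2), (3 * (Fintype.card (Fin 3) : ℝ)) ^ e.card) * C) ≤
        (K * P ^ 4) ^ 2 * (((D1 : ℝ) ^ 2 * P ^ 9) * C) := by
          refine mul_le_mul e1 (mul_le_mul_of_nonneg_right e4 hC.le) (mul_nonneg e8 hC.le)
            (by positivity)
      _ = C * K ^ 2 * P ^ 17 * (D1 : ℝ) ^ 2 := by ring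
  · intro d hd
    rw [EE_indicator, if_pos (fun i h _ => mem_univ h)]
    obtain ⟨c, hc1, _⟩ := YY_class pr sh hsh hlt pr_prime pr_inj (primorial w) v hW pr_cop d
    have e2 : ∑ a ∈ (range (N + 1)).filter (fun a => a % primorial w = v % primorial w),
        η ((a : ℝ) / N) * (if ∀ i, d i ≠ none → YY pr sh a i = d i then (1 : ℝ) else 0) =
        ∑ a ∈ (range (N + 1)).filter (fun a => a % (primorial w * nrm pr d) =
          c % (primorial w * nrm pr d)), η ((a : ℝ) / N) := by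
      rw [sum_filter, sum_filter]
      apply sum_congr rfl
      intro a _
      by_cases h1 : a % (primorial w * nrm pr d) = c % (primorial w * nrm pr d)
      · have h2 := (hc1 a).2 h1
        rw [if_pos h2.1, if_pos h2.2, if_pos h1, mul_one]
      · rw [if_neg h1]
        split_ifs with h4 h5
        · exact absurd ((hc1 a).1 ⟨h4, h5⟩) h1
        · rw [mul_zero]
        · rfl
    have hn1 : 1 ≤ nrm pr d := by
      unfold nrm
      exact Nat.succ_le_of_lt (prod_pos fun i _ => (pr_prime i).pos)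
    have e4 : Z1 η N / primorial w * ∏ i ∈ supp d, bb i =
        Z1 η N / ((primorial w * nrm pr d : ℕ) : ℝ) := by
      unfold nrm bb
      rw [prod_div_distrib, prod_const_one, div_mul_div_comm, mul_one]
      push_cast
      rfl
    rw [e2, e4]
    exact hap N (primorial w * nrm pr d) c (by omega) (Nat.mul_pos hW hn1)

theorem thm_Int (hS : St_S1) (hZ : PT.St_Z1) : St_Int := by
  classical
  intro η hη ρ K ε r F hρ hr ⟨j, hj⟩ hK hF hε sh hsh
  obtain ⟨C, hC, hexp⟩ := Int_exp η hη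
  obtain ⟨lam, hlam⟩ : ∃ lam : ℝ, lam = ρ + r j := ⟨_, rfl⟩
  have hrj := hr j
  obtain ⟨hmη, CZ, hCZ, hZ1⟩ := hZ η hη
  obtain ⟨w0, M0, hD⟩ := hS ρ K ε r F hρ (by linarith) hr hF hε
  refine ⟨max w0 (14 + ∑ h, sh h), max M0 1, ?_⟩
  intro w M hw hM v
  have hw0 : w0 ≤ w := (le_max_left _ _).trans hw
  have hw14 : 14 ≤ w := by
    have := (le_max_right w0 (14 + ∑ h, sh h)).trans hw
    omega
  have hshw : ∀ h, sh h ≤ w := fun h => by
    have h1 := (le_max_right w0 (14 + ∑ h, sh h)).trans hw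
    have h2 : sh h ≤ ∑ h, sh h := Finset.single_le_sum (fun _ _ => Nat.zero_le _) (mem_univ h)
    omega
  have hM0 : M0 ≤ M := (le_max_left _ _).trans hM
  have hM1 : 1 ≤ M := (le_max_right _ _).trans hM
  obtain ⟨E, hE⟩ : ∃ E : ℝ, E = Real.exp 8 := ⟨_, rfl⟩
  have hE0 : 0 < E := by rw [hE]; exact Real.exp_pos _
  obtain ⟨I, hI⟩ : ∃ I : ℝ, I = II F ρ + ε := ⟨_, rfl⟩
  have hα : 0 < 1 - 2 * lam := by linarith
  filter_upwards [hD w M hw0 hM0, mert_ev hρ (by linarith) (by omega : 2 ≤ w),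
    log_pow_le (2 * C * K ^ 2 * E ^ 17) 17 hα,
    log_pow_le (2 * CZ * phW w ^ 3 * |I|) 3 (show (0 : ℝ) < 1 by norm_num),
    eventually_ge_atTop 2] with N h1 h2 h4 h5 hN
  rw [← hI] at h1 ⊢
  rw [← hE] at h2
  have hN1 : (2 : ℝ) ≤ N := by exact_mod_cast hN
  have hN0 : (0 : ℝ) < N := by linarith
  have hW0 : (0 : ℝ) < primorial w := by exact_mod_cast primorial_pos w
  have hW1 : (1 : ℝ) ≤ primorial w := by
    exact_mod_cast Nat.succ_le_of_lt (primorial_pos w)
  obtain ⟨D1, hD1⟩ : ∃ D1 : ℕ, D1 = ⌊(N : ℝ) ^ lam⌋₊ := ⟨_, rfl⟩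
  have hlev : ∀ τ : PP w (XR ρ N) → Option (Fin 3), cc F M N τ ≠ 0 → nrm pr τ ≤ D1 := by
    intro τ hτ
    rw [hD1]
    rw [hlam]
    exact Nat.le_floor (Int_level hM1 hN hF j τ hτ)
  have h6 := hexp ρ K F hK hF.bd sh hsh w M N v D1 hshw hM1 hN hw14 hlev
  obtain ⟨P, hP⟩ : ∃ P : ℝ, P = ∏ i : PP w (XR ρ N), (1 + qq i) := ⟨_, rfl⟩
  have hP1 : 1 ≤ P := by rw [hP]; exact one_le_prod_qq
  rw [← hP] at h6 h2
  -- the model
  obtain ⟨S, hSd⟩ : ∃ S : ℝ, S = EE univ (bb (w := w) (X := XR ρ N))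
    (fun Z => comb bb (cc F M N) Z ^ 2) := ⟨_, rfl⟩
  rw [← hSd] at h6
  have hS1 : S ≤ AA w N ^ 3 * I := by
    rw [hSd]
    refine (EE_comb_sq_le univ bb (fun i => (bb_pos i).le) (fun i => ?_) (cc F M N)
      (fun σ hσ => ?_)).trans (le_trans (le_of_eq ?_) h1)
    · have h7 := pr_gtR i
      have h8 : (14 : ℝ) ≤ w := by exact_mod_cast hw14
      have h9 : (0 : ℝ) < pr i := by linarith
      unfold bb
      rw [mul_one_div, div_le_one h9]
      have : ((univ : Finset (Fin 3)).card : ℝ) = 3 := by simp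
      rw [this]
      linarith
    · obtain ⟨i, h, _, h8⟩ := hσ
      exact absurd (mem_univ h) h8
    · refine sum_congr rfl fun τ _ => ?_
      unfold cc
      rw [mul_pow, mul_assoc, int_sg]
  have hS0 : 0 ≤ S := by
    have h7 := le_EE_comb_sq (univ : Finset (Fin 3)) (bb (w := w) (X := XR ρ N))
      (fun i => (bb_pos i).le) (fun i => ?_) (cc F M N) (fun σ hσ => ?_)
    · rw [hSd]
      refine le_trans (sum_nonneg fun τ _ => ?_) h7
      refine mul_nonneg (sq_nonneg _) (prod_nonneg fun i _ => ?_)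
      refine mul_nonneg (bb_pos i).le ?_
      have h7 := pr_gtR i
      have h8 : (14 : ℝ) ≤ w := by exact_mod_cast hw14
      have h9 : (0 : ℝ) < pr i := by linarith
      unfold bb
      rw [mul_one_div, sub_nonneg, div_le_one h9]
      have : ((univ : Finset (Fin 3)).card : ℝ) = 3 := by simp
      rw [this]
      linarith
    · have h7 := pr_gtR i
      have h8 : (14 : ℝ) ≤ w := by exact_mod_cast hw14
      have h9 : (0 : ℝ) < pr i := by linarith
      unfold bb
      rw [mul_one_div, div_le_one h9]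
      have : ((univ : Finset (Fin 3)).card : ℝ) = 3 := by simp
      rw [this]
      linarith
    · obtain ⟨i, h, _, h8⟩ := hσ
      exact absurd (mem_univ h) h8
  have hAI : 0 ≤ AA w N ^ 3 * I := hS0.trans hS1
  -- the main term
  have h7 : Z1 η N / primorial w * S ≤
      N * mη η / primorial w * (AA w N ^ 3 * I) + N / 2 := by
    have h8 := (abs_le.1 (hZ1 N (by omega))).2
    have h9 : 0 ≤ Z1 η N := Z1_nonneg η hη N
    calc Z1 η N / primorial w * S ≤ Z1 η N / primorial w * (AA w N ^ 3 * I) :=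
          mul_le_mul_of_nonneg_left hS1 (by positivity)
      _ ≤ (N * mη η + CZ) / primorial w * (AA w N ^ 3 * I) := by
          refine mul_le_mul_of_nonneg_right ?_ hAI
          exact div_le_div_of_nonneg_right (by linarith) hW0.le
      _ = N * mη η / primorial w * (AA w N ^ 3 * I) +
          CZ / primorial w * (AA w N ^ 3 * I) := by ring
      _ ≤ N * mη η / primorial w * (AA w N ^ 3 * I) + N / 2 := by
          have h10 : CZ / primorial w * (AA w N ^ 3 * I) ≤ CZ * (AA w N ^ 3 * I) := by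
            refine mul_le_mul_of_nonneg_right ?_ hAI
            exact div_le_self hCZ.le hW1
          have h11 : CZ * (AA w N ^ 3 * I) ≤ CZ * (AA w N ^ 3 * |I|) :=
            mul_le_mul_of_nonneg_left (mul_le_mul_of_nonneg_left (le_abs_self _)
              (pow_nonneg (AA_nonneg w N) 3)) hCZ.le
          rw [Real.rpow_one] at h5
          unfold AA at h11 h10 ⊢
          nlinarith
  -- the error
  have h12 : C * K ^ 2 * P ^ 17 * (D1 : ℝ) ^ 2 ≤ N / 2 := by
    have h13 : (D1 : ℝ) ≤ (N : ℝ) ^ lam := by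
      rw [hD1]
      exact Nat.floor_le (by positivity)
    have h14 : (D1 : ℝ) ^ 2 ≤ (N : ℝ) ^ (2 * lam) := by
      calc (D1 : ℝ) ^ 2 ≤ ((N : ℝ) ^ lam) ^ 2 := pow_le_pow_left₀ (by positivity) h13 2
        _ = (N : ℝ) ^ (2 * lam) := by
          rw [← Real.rpow_natCast, ← Real.rpow_mul (by linarith)]
          congr 1
          push_cast
          ring
    have h15 : P ^ 17 ≤ (E * Real.log N) ^ 17 := pow_le_pow_left₀ (by linarith) h2 17
    have h16 : (N : ℝ) ^ (1 - 2 * lam) * (N : ℝ) ^ (2 * lam) = N := by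
      rw [← Real.rpow_add hN0]
      simp
    calc C * K ^ 2 * P ^ 17 * (D1 : ℝ) ^ 2 ≤
        C * K ^ 2 * (E * Real.log N) ^ 17 * (N : ℝ) ^ (2 * lam) := by
          refine mul_le_mul (mul_le_mul_of_nonneg_left h15 (by positivity)) h14 (by positivity)
            ?_
          have : 0 ≤ Real.log N := Real.log_natCast_nonneg N
          positivity
      _ = (2 * C * K ^ 2 * E ^ 17 * Real.log N ^ 17) * (N : ℝ) ^ (2 * lam) / 2 := by ring
      _ ≤ ((N : ℝ) ^ (1 - 2 * lam)) * (N : ℝ) ^ (2 * lam) / 2 := by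
          refine div_le_div_of_nonneg_right (mul_le_mul_of_nonneg_right h4 (by positivity))
            (by norm_num)
      _ = N / 2 := by rw [h16]
  have h17 := (abs_le.1 h6).2
  linarith

end Pool.Agent.PU
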