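import Pool.Agent.PU.Stmts
import Pool.Agent.PT.Int

set_option autoImplicit false

/-!
# PU / IntG: the sum over the integers for arbitrary coefficients
-/

namespace Pool.Agent.PU

open Finset Filter Pool.Agent.MT Pool.Agent.PT

theorem thm_IntG : St_IntG := by
  classical
  intro η hη
  obtain ⟨C, hC, hap⟩ := wt_sum_ap η hη
  refine ⟨C, hC, ?_⟩
  intro w X N v D1 t T hT htD sh hsh hshw hN hw
  have hT0 : 0 ≤ T := (abs_nonneg _).trans (hT fun _ => none)
  have hW : 1 ≤ primorial w := primorial_pos w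
  have hlt : ∀ (i : PP w X) h, sh h < pr i := fun i h => lt_of_le_of_lt (hshw h) (pr_gt i)
  obtain ⟨P, hP⟩ : ∃ P : ℝ, P = ∏ i : PP w X, (1 + qq i) := ⟨_, rfl⟩
  have hP1 : 1 ≤ P := by rw [hP]; exact one_le_prod_qq
  have hmain : |∑ a ∈ (range (N + 1)).filter (fun a => a % primorial w = v % primorial w),
        η ((a : ℝ) / N) * comb bb t (YY (pr (w := w) (X := X)) sh a) ^ 2 -
      Z1 η N / primorial w * EE univ (bb (w := w) (X := X)) (fun Z => comb bb t Z ^ 2)| ≤
      C * T ^ 2 * P ^ 15 * (D1 : ℝ) ^ 2 := by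
    have hmain := expand (pr (w := w) (X := X)) (fun i => (pr_prime i).one_lt.le)
      ((range (N + 1)).filter (fun a => a % primorial w = v % primorial w))
      (fun a => η ((a : ℝ) / N)) (YY pr sh) (univ : Finset (Fin 3))
      bb bb (fun i => (bb_pos i).le) (Z1 η N / primorial w) t T hT D1 htD
      (fun _ => C) (fun _ => hC.le) ?_
    · refine hmain.trans ?_
      rw [← sum_mul]
      have e1 : (T * ∏ i : PP w X, (1 + (Fintype.card (Fin 3) : ℝ) * bb i)) ^ 2 ≤
          (T * P ^ 3) ^ 2 := by
        refine pow_le_pow_left₀ (mul_nonneg hT0 (prod_nonneg fun i _ => ?_)) ?_ 2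
        · have := bb_pos i
          positivity
        have e2 := prod_bb_le (w := w) (X := X) (Fintype.card (Fin 3))
        have e3 : Fintype.card (Fin 3) = 3 := by simp
        rw [← hP, e3] at e2
        rw [e3]
        exact mul_le_mul_of_nonneg_left e2 hT0
      have e4 : ∑ e ∈ (univ : Finset (Finset (PP w X))).filter
          (fun e => ∏ i ∈ e, pr i ≤ D1 ^ 2), (3 * (Fintype.card (Fin 3) : ℝ)) ^ e.card ≤
          (D1 : ℝ) ^ 2 * P ^ 9 := by
        have e5 := count_rankin (w := w) (X := X) 9 (D1 ^ 2)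
        have e6 := prod_bb_le (w := w) (X := X) 9
        rw [← hP] at e6
        push_cast at e5 e6
        have e7 : (3 * (Fintype.card (Fin 3) : ℝ)) = 9 := by norm_num
        rw [e7]
        exact e5.trans (mul_le_mul_of_nonneg_left e6 (by positivity))
      have e8 : (0 : ℝ) ≤ ∑ e ∈ (univ : Finset (Finset (PP w X))).filter
          (fun e => ∏ i ∈ e, pr i ≤ D1 ^ 2), (3 * (Fintype.card (Fin 3) : ℝ)) ^ e.card :=
        sum_nonneg fun e _ => pow_nonneg (mul_nonneg (by norm_num) (Nat.cast_nonneg _)) _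
      calc (T * ∏ i : PP w X, (1 + (Fintype.card (Fin 3) : ℝ) * bb i)) ^ 2 *
          ((∑ e ∈ (univ : Finset (Finset (PP w X))).filter
            (fun e => ∏ i ∈ e, pr i ≤ D1 ^ 2), (3 * (Fintype.card (Fin 3) : ℝ)) ^ e.card) * C) ≤
          (T * P ^ 3) ^ 2 * (((D1 : ℝ) ^ 2 * P ^ 9) * C) := by
            refine mul_le_mul e1 (mul_le_mul_of_nonneg_right e4 hC.le) (mul_nonneg e8 hC.le)
              (by positivity)
        _ = C * T ^ 2 * P ^ 15 * (D1 : ℝ) ^ 2 := by ring
    · intro d hd
      rw [EE_indicator, if_pos (fun i h _ => mem_univ h)]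
      obtain ⟨c, hc1, _⟩ := YY_class pr sh hsh hlt pr_prime pr_inj (primorial w) v hW pr_cop d
      have e2 : ∑ a ∈ (range (N + 1)).filter (fun a => a % primorial w = v % primorial w),
          η ((a : ℝ) / N) * (if ∀ i, d i ≠ none → YY pr sh a i = d i then (1 : ℝ) else 0) =
          ∑ a ∈ (range (N + 1)).filter (fun a => a % (primorial w * nrm pr d) =
            c % (primorial w * nrm pr d)), η ((a : ℝ) / N) := by
        rw [sum_filter, sum_filter]
        apply sum_congr rfl
        intro a _
        by_cases h1 : a % (primorial w * nrm pr d) = c % (primorial w * nrm pr d)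
        · have h2 := (hc1 a).2 h1
          rw [if_pos h2.1, if_pos h2.2, if_pos h1, mul_one]
        · rw [if_neg h1]
          split_ifs with h4 h5
          · exact absurd ((hc1 a).1 ⟨h4, h5⟩) h1
          · rw [mul_zero]
          · rfl
      have hn1 : 1 ≤ nrm pr d := by
        unfold nrm
        exact Nat.succ_le_of_lt (prod_pos fun i _ => (pr_prime i).pos)
      have e4 : Z1 η N / primorial w * ∏ i ∈ supp d, bb i =
          Z1 η N / ((primorial w * nrm pr d : ℕ) : ℝ) := by
        unfold nrm bb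
        rw [prod_div_distrib, prod_const_one, div_mul_div_comm, mul_one]
        push_cast
        rfl
      rw [e2, e4]
      exact hap N (primorial w * nrm pr d) c (by omega) (Nat.mul_pos hW hn1)
  have hS1 : EE univ (bb (w := w) (X := X)) (fun Z => comb bb t Z ^ 2) ≤
      ∑ τ, t τ ^ 2 * ∏ i ∈ supp τ, bb i := by
    refine EE_comb_sq_le univ bb (fun i => (bb_pos i).le) (fun i => ?_) t (fun σ hσ => ?_)
    · have h7 := pr_gtR i
      have h8 : (14 : ℝ) ≤ w := by exact_mod_cast hw
      have h9 : (0 : ℝ) < pr i := by linarith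
      unfold bb
      rw [mul_one_div, div_le_one h9]
      have : ((univ : Finset (Fin 3)).card : ℝ) = 3 := by simp
      rw [this]
      linarith
    · obtain ⟨i, h, _, h8⟩ := hσ
      exact absurd (mem_univ h) h8
  have hZ0 : 0 ≤ Z1 η N / primorial w := div_nonneg (Z1_nonneg η hη N) (Nat.cast_nonneg _)
  have h1 := (abs_le.1 hmain).2
  have h2 := mul_le_mul_of_nonneg_left hS1 hZ0
  rw [← hP]
  linarith

end Pool.Agent.PU
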