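import Pool.Agent.PU.Stmts
import Pool.Agent.PT.Elem
import Pool.Agent.PT.DG
import Pool.Agent.PT.DS

set_option autoImplicit false

/-!
# PU / NR: the normalising sum
-/

namespace Pool.Agent.PU

open Finset Filter Pool.Agent.MT Pool.Agent.PT

open Classical in
/-- dropping a set of primes costs at most `∏ (1 + q)` -/
theorem NR_drop {w X M N : ℕ} (hM : 1 ≤ M) (hN : 2 ≤ N) (τ₀ : ℝ) (T : Finset (PP w X)) :
    (∑ e : Finset (PP w X), if ss M N e ≤ τ₀ then ∏ i ∈ e, qq i else 0) ≤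
      (∏ i ∈ T, (1 + qq i)) *
        ∑ e : Finset (PP w X), if Disjoint e T ∧ ss M N e ≤ τ₀ then ∏ i ∈ e, qq i else 0 := by
  have h1 : ∏ i ∈ T, (1 + qq i) = ∑ l ∈ T.powerset, ∏ i ∈ l, qq i := Finset.prod_one_add T
  rw [h1, Finset.sum_mul_sum, ← Finset.sum_product', ← Finset.sum_filter]
  have hinj : Set.InjOn (fun e : Finset (PP w X) => (e ∩ T, e \ T))
      ((univ : Finset (Finset (PP w X))).filter (fun e => ss M N e ≤ τ₀) : Set _) := by
    intro a _ b _ hab
    have h2 := Prod.mk.inj hab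
    have h0 : ∀ c : Finset (PP w X), (c ∩ T) ∪ (c \ T) = c := by
      intro c
      ext i
      simp only [Finset.mem_union, Finset.mem_inter, Finset.mem_sdiff]
      tauto
    calc a = (a ∩ T) ∪ (a \ T) := (h0 a).symm
      _ = (b ∩ T) ∪ (b \ T) := by rw [h2.1, h2.2]
      _ = b := h0 b
  have h3 : ∑ e ∈ (univ : Finset (Finset (PP w X))).filter (fun e => ss M N e ≤ τ₀),
      ∏ i ∈ e, qq i =
      ∑ x ∈ ((univ : Finset (Finset (PP w X))).filter (fun e => ss M N e ≤ τ₀)).image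
        (fun e => (e ∩ T, e \ T)), (∏ i ∈ x.1, qq i) *
          (if Disjoint x.2 T ∧ ss M N x.2 ≤ τ₀ then ∏ i ∈ x.2, qq i else 0) := by
    rw [Finset.sum_image hinj]
    refine Finset.sum_congr rfl fun e he => ?_
    have h4 : ss M N e ≤ τ₀ := (Finset.mem_filter.1 he).2
    have h5 : ss M N (e \ T) ≤ ss M N e := by
      unfold ss
      exact Finset.sum_le_sum_of_subset_of_nonneg Finset.sdiff_subset
        fun i _ _ => sz_nonneg hM hN
    have h6 : Disjoint (e \ T) T := Finset.sdiff_disjoint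
    show ∏ i ∈ e, qq i = (∏ i ∈ e ∩ T, qq i) *
      (if Disjoint (e \ T) T ∧ ss M N (e \ T) ≤ τ₀ then ∏ i ∈ e \ T, qq i else 0)
    rw [if_pos ⟨h6, h5.trans h4⟩, Finset.prod_inter_mul_prod_sdiff]
  rw [h3]
  refine Finset.sum_le_sum_of_subset_of_nonneg ?_ ?_
  · intro x hx
    obtain ⟨e, -, rfl⟩ := Finset.mem_image.1 hx
    simp only [Finset.mem_product, Finset.mem_powerset, Finset.mem_univ, and_true]
    exact Finset.inter_subset_right
  · intro x _ _
    refine mul_nonneg (Finset.prod_nonneg fun i _ => (qq_pos i).le) ?_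
    split_ifs
    · exact Finset.prod_nonneg fun i _ => (qq_pos i).le
    · exact le_rfl

theorem thm_NR : St_NR := by
  classical
  intro ρ τ₀ h0 h1 h2
  obtain ⟨w0, M0, hD⟩ := PT.thm_DS PT.thm_DG (τ₀ / 2) (by linarith)
  refine ⟨w0, max M0 1, ?_⟩
  intro w M hw hM
  have hM1 : 1 ≤ M := (le_max_right _ _).trans hM
  filter_upwards [hD w hw M ((le_max_left _ _).trans hM) ρ (by linarith) h2,
    eventually_ge_atTop 2] with N h3 hN τ
  have h4 := (abs_le.1 (h3.le τ₀ h0.le h1)).1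
  have h5 := NR_drop (w := w) (X := XR ρ N) hM1 hN τ₀ (supp τ)
  unfold nr
  have h6 : (∑ e : Finset (PP w (XR ρ N)), if ss M N e ≤ τ₀ then ∏ i ∈ e, qq i else 0) ≥
      AA w N * τ₀ / 2 := by
    have h7 : -(τ₀ / 2 * AA w N) ≤ (∑ e : Finset (PP w (XR ρ N)),
        if ss M N e ≤ τ₀ then ∏ i ∈ e, qq i else 0) - AA w N * τ₀ := by
      refine h4.trans (le_of_eq ?_)
      congr 1
    linarith
  refine h6.le.trans (h5.trans (le_of_eq ?_))
  congr 1

end Pool.Agent.PU
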