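import Pool.Agent.PU.Stmts
import Pool.Agent.PT.DS
import Pool.Agent.PT.DG
import Pool.Agent.PT.DI
import Pool.Agent.PT.SQ

set_option autoImplicit false

/-!
# PU / S2

The square sum of the spread coefficients.
-/

namespace Pool.Agent.PU

open Finset Filter Pool.Agent.MT Pool.Agent.PT

section aux

variable {ι : Type} [Fintype ι] [DecidableEq ι] (v z : ι → ℝ)

open Classical in
private noncomputable def s2g (t : ℝ) (e : Finset ι) : ℝ :=
  if ∑ i ∈ e, z i ≤ t then ∏ i ∈ e, v i else 0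

omit [Fintype ι] [DecidableEq ι] in
private theorem s2g_nn (hv : ∀ i, 0 ≤ v i) (t : ℝ) (e : Finset ι) : 0 ≤ s2g v z t e := by
  unfold s2g
  split_ifs
  · exact prod_nonneg fun i _ => hv i
  · exact le_rfl

/-- the sets containing `f` -/
private theorem s2_inj (hv : ∀ i, 0 ≤ v i) (hz : ∀ i, 0 ≤ z i) (t : ℝ) (f : Finset ι) :
    ∑ e ∈ univ.filter (fun e : Finset ι => f ⊆ e),
      (if ∑ i ∈ e, z i ≤ t then ∏ i ∈ e \ f, v i else 0) ≤ ∑ e, s2g v z t e := by
  have h1 : ∀ e ∈ univ.filter (fun e : Finset ι => f ⊆ e),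
      (if ∑ i ∈ e, z i ≤ t then ∏ i ∈ e \ f, v i else 0) ≤ s2g v z t (e \ f) := by
    intro e _
    by_cases h : ∑ i ∈ e, z i ≤ t
    · have h2 : ∑ i ∈ e \ f, z i ≤ t :=
        (sum_le_sum_of_subset_of_nonneg sdiff_subset fun i _ _ => hz i).trans h
      unfold s2g
      rw [if_pos h, if_pos h2]
    · rw [if_neg h]
      exact s2g_nn v z hv t _
  refine (sum_le_sum h1).trans ?_
  have h2 : Set.InjOn (fun e : Finset ι => e \ f)
      (univ.filter (fun e : Finset ι => f ⊆ e) : Finset (Finset ι)) := by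
    intro e he e' he' h
    have he : f ⊆ e := (mem_filter.1 (mem_coe.1 he)).2
    have he' : f ⊆ e' := (mem_filter.1 (mem_coe.1 he')).2
    have h : e \ f = e' \ f := h
    rw [← sdiff_union_of_subset he, ← sdiff_union_of_subset he', h]
  rw [← sum_image (f := s2g v z t) h2]
  exact sum_le_sum_of_subset_of_nonneg (subset_univ _) fun e _ _ => s2g_nn v z hv t e

/-- perturbed weights -/
private theorem s2_up (c : ι → ℝ) (hv : ∀ i, 0 ≤ v i) (hc : ∀ i, 0 ≤ c i) (hz : ∀ i, 0 ≤ z i)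
    (t : ℝ) : ∑ e : Finset ι, s2g (fun i => v i * (1 + c i)) z t e ≤
      (∏ i, (1 + v i * c i)) * ∑ e, s2g v z t e := by
  have h1 : ∀ e : Finset ι, s2g (fun i => v i * (1 + c i)) z t e =
      ∑ f ∈ e.powerset, (∏ i ∈ f, v i * c i) *
        (if ∑ i ∈ e, z i ≤ t then ∏ i ∈ e \ f, v i else 0) := by
    intro e
    unfold s2g
    by_cases h : ∑ i ∈ e, z i ≤ t
    · simp only [if_pos h]
      rw [← prod_add]
      exact prod_congr rfl fun i _ => by ring
    · simp only [if_neg h, mul_zero, sum_const_zero]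
  rw [sum_congr rfl fun e _ => h1 e]
  have h2 : ∑ e : Finset ι, ∑ f ∈ e.powerset, (∏ i ∈ f, v i * c i) *
        (if ∑ i ∈ e, z i ≤ t then ∏ i ∈ e \ f, v i else 0) =
      ∑ f : Finset ι, ∑ e ∈ univ.filter (fun e : Finset ι => f ⊆ e), (∏ i ∈ f, v i * c i) *
        (if ∑ i ∈ e, z i ≤ t then ∏ i ∈ e \ f, v i else 0) := by
    refine sum_comm' fun e f => ?_
    simp only [mem_univ, true_and, and_true, mem_powerset, mem_filter]
  rw [h2, prod_one_add, powerset_univ, sum_mul]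
  refine sum_le_sum fun f _ => ?_
  rw [← mul_sum]
  exact mul_le_mul_of_nonneg_left (s2_inj v z hv hz t f)
    (prod_nonneg fun i _ => mul_nonneg (hv i) (hc i))

/-- sets which contain `i` -/
private theorem s2_mem (hv : ∀ i, 0 ≤ v i) (hz : ∀ i, 0 ≤ z i) (t : ℝ) (i : ι) :
    ∑ a : Finset ι, (if i ∈ a then s2g v z t a else 0) ≤ v i * ∑ a : Finset ι, s2g v z t a := by
  rw [← sum_filter]
  have h3 : ∑ e ∈ univ.filter (fun e : Finset ι => i ∈ e), s2g v z t e =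
      v i * ∑ e ∈ univ.filter (fun e : Finset ι => {i} ⊆ e),
        (if ∑ i ∈ e, z i ≤ t then ∏ i ∈ e \ {i}, v i else 0) := by
    simp only [singleton_subset_iff]
    rw [mul_sum]
    refine sum_congr rfl fun e he => ?_
    have hie : i ∈ e := (mem_filter.1 he).2
    unfold s2g
    by_cases h : ∑ i ∈ e, z i ≤ t
    · rw [if_pos h, if_pos h, sdiff_singleton_eq_erase, mul_prod_erase e v hie]
    · rw [if_neg h, if_neg h, mul_zero]
  rw [h3]
  exact mul_le_mul_of_nonneg_left (s2_inj v z hv hz t {i}) (hv i)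

/-- the sum of the elements -/
private theorem s2_sum (hv : ∀ i, 0 ≤ v i) (hz : ∀ i, 0 ≤ z i) (t : ℝ) :
    ∑ a : Finset ι, (∑ i ∈ a, v i) * s2g v z t a ≤ (∑ i, v i ^ 2) * ∑ a, s2g v z t a := by
  calc ∑ a : Finset ι, (∑ i ∈ a, v i) * s2g v z t a =
      ∑ a : Finset ι, ∑ i : ι, v i * (if i ∈ a then s2g v z t a else 0) := by
        refine sum_congr rfl fun a _ => ?_
        rw [sum_mul, ← sum_filter_add_sum_filter_not univ (fun i => i ∈ a)]
        rw [sum_eq_zero (s := univ.filter fun i => i ∉ a) (fun i hi => by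
          rw [if_neg (mem_filter.mp hi).2, mul_zero]), add_zero]
        have h2 : univ.filter (fun i : ι => i ∈ a) = a := by
          ext i
          simp
        rw [h2]
        exact sum_congr rfl fun i hi => by rw [if_pos hi]
    _ = ∑ i : ι, v i * ∑ a : Finset ι, (if i ∈ a then s2g v z t a else 0) := by
        rw [sum_comm]
        exact sum_congr rfl fun i _ => (mul_sum _ _ _).symm
    _ ≤ ∑ i : ι, v i * (v i * ∑ a, s2g v z t a) :=
        sum_le_sum fun i _ => mul_le_mul_of_nonneg_left (s2_mem v z hv hz t i) (hv i)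
    _ = (∑ i, v i ^ 2) * ∑ a, s2g v z t a := by
        rw [sum_mul]
        exact sum_congr rfl fun i _ => by ring

open Classical in
/-- the sum over the triples -/
private theorem s2_total (q : ι → ℝ) (hq : ∀ i, 0 ≤ q i) (hqv : ∀ i, q i ≤ v i)
    (hz : ∀ i, 0 ≤ z i) (t k α β : ℝ) (hk : 0 ≤ k) (hα : 0 ≤ α) (hβ : 0 ≤ β) :
    ∑ a : Finset ι, ∑ b : Finset ι, ∑ c : Finset ι,
      (if ∑ i ∈ a, z i ≤ t ∧ ∑ i ∈ b, z i ≤ t ∧ ∑ i ∈ c, z i ≤ t then
        k * (α + β * ((∑ i ∈ b, q i) + ∑ i ∈ c, q i)) else 0) *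
        ((∏ i ∈ a, v i) * (∏ i ∈ b, v i) * (∏ i ∈ c, v i)) ≤
      k * (α + 2 * β * ∑ i, v i ^ 2) * (∑ a, s2g v z t a) ^ 3 := by
  have hv : ∀ i, 0 ≤ v i := fun i => (hq i).trans (hqv i)
  have hn := fun a : Finset ι => s2g_nn v z hv t a
  set G := ∑ a, s2g v z t a with hG
  have hG0 : 0 ≤ G := sum_nonneg fun a _ => hn a
  have h1 : ∀ a b c : Finset ι,
      (if ∑ i ∈ a, z i ≤ t ∧ ∑ i ∈ b, z i ≤ t ∧ ∑ i ∈ c, z i ≤ t then
        k * (α + β * ((∑ i ∈ b, q i) + ∑ i ∈ c, q i)) else 0) *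
        ((∏ i ∈ a, v i) * (∏ i ∈ b, v i) * (∏ i ∈ c, v i)) ≤
      k * (s2g v z t a * (α * (s2g v z t b * s2g v z t c) +
        β * (((∑ i ∈ b, v i) * s2g v z t b) * s2g v z t c +
          s2g v z t b * ((∑ i ∈ c, v i) * s2g v z t c)))) := by
    intro a b c
    have hS : ∀ a : Finset ι, 0 ≤ ∑ i ∈ a, v i := fun a => sum_nonneg fun i _ => hv i
    split_ifs with h
    · obtain ⟨ha, hb, hc⟩ := h
      have ea : s2g v z t a = ∏ i ∈ a, v i := if_pos ha
      have eb : s2g v z t b = ∏ i ∈ b, v i := if_pos hb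
      have ec : s2g v z t c = ∏ i ∈ c, v i := if_pos hc
      rw [← ea, ← eb, ← ec]
      have hb2 : ∑ i ∈ b, q i ≤ ∑ i ∈ b, v i := sum_le_sum fun i _ => hqv i
      have hc2 : ∑ i ∈ c, q i ≤ ∑ i ∈ c, v i := sum_le_sum fun i _ => hqv i
      have h5 : k * (α + β * ((∑ i ∈ b, q i) + ∑ i ∈ c, q i)) ≤
          k * (α + β * ((∑ i ∈ b, v i) + ∑ i ∈ c, v i)) :=
        mul_le_mul_of_nonneg_left (by
          have := mul_le_mul_of_nonneg_left (add_le_add hb2 hc2) hβ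
          linarith) hk
      refine (mul_le_mul_of_nonneg_right h5 (mul_nonneg (mul_nonneg (hn a) (hn b)) (hn c))).trans
        (le_of_eq ?_)
      ring
    · rw [zero_mul]
      refine mul_nonneg hk (mul_nonneg (hn a) (add_nonneg (mul_nonneg hα
        (mul_nonneg (hn b) (hn c))) (mul_nonneg hβ (add_nonneg
          (mul_nonneg (mul_nonneg (hS b) (hn b)) (hn c))
          (mul_nonneg (hn b) (mul_nonneg (hS c) (hn c)))))))
  refine (sum_le_sum fun a _ => sum_le_sum fun b _ => sum_le_sum fun c _ => h1 a b c).trans ?_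
  have h2 : ∑ a : Finset ι, ∑ b : Finset ι, ∑ c : Finset ι,
      k * (s2g v z t a * (α * (s2g v z t b * s2g v z t c) +
        β * (((∑ i ∈ b, v i) * s2g v z t b) * s2g v z t c +
          s2g v z t b * ((∑ i ∈ c, v i) * s2g v z t c)))) =
      k * (G * (α * (G * G) + β * ((∑ b : Finset ι, (∑ i ∈ b, v i) * s2g v z t b) * G +
        G * ∑ c : Finset ι, (∑ i ∈ c, v i) * s2g v z t c))) := by
    simp only [← mul_sum, sum_add_distrib]
    simp only [← sum_mul, ← hG]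
  rw [h2]
  have h3 := s2_sum v z hv hz t
  rw [← hG] at h3
  set T := ∑ a : Finset ι, (∑ i ∈ a, v i) * s2g v z t a with hT
  have h4 : β * (T * G + G * T) ≤ β * (2 * ((∑ i, v i ^ 2) * G) * G) :=
    mul_le_mul_of_nonneg_left (by nlinarith) hβ
  calc k * (G * (α * (G * G) + β * (T * G + G * T)))
      ≤ k * (G * (α * (G * G) + β * (2 * ((∑ i, v i ^ 2) * G) * G))) :=
        mul_le_mul_of_nonneg_left (mul_le_mul_of_nonneg_left (by linarith) hG0) hk
    _ = k * (α + 2 * β * ∑ i, v i ^ 2) * G ^ 3 := by ring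

omit [Fintype ι] [DecidableEq ι] in
private theorem s2_one_add (q : ι → ℝ) (hq : ∀ i, 0 ≤ q i) (e : Finset ι) :
    1 + ∑ i ∈ e, q i ≤ ∏ i ∈ e, (1 + q i) := by
  classical
  induction e using Finset.induction_on with
  | empty => simp
  | insert i e hi ih =>
    rw [sum_insert hi, prod_insert hi]
    have h1 := hq i
    have h2 : 0 ≤ ∑ i ∈ e, q i := sum_nonneg fun i _ => hq i
    nlinarith

end aux

section conf

variable {w X : ℕ}

private theorem s2_q (hw : 2 ≤ w) (i : PP w X) :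
    0 < qq i ∧ (pr i : ℝ) / ((pr i : ℝ) - 1) = 1 + qq i ∧ bb i = qq i / (1 + qq i) ∧
      qq i ≤ 1 / w := by
  have h1 := (mem_Ioc.1 (mem_filter.1 i.2).1).1
  have h2 : w + 1 ≤ pr i := h1
  have h3 : (w : ℝ) + 1 ≤ (pr i : ℝ) := by exact_mod_cast h2
  have h4 : (2 : ℝ) ≤ w := by exact_mod_cast hw
  have h5 : (0 : ℝ) < (pr i : ℝ) - 1 := by linarith
  refine ⟨div_pos one_pos h5, ?_, ?_, ?_⟩
  · unfold qq
    field_simp
    ring
  · unfold qq bb
    have h6 : (pr i : ℝ) ≠ 0 := by linarith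
    field_simp
    ring
  · unfold qq
    exact one_div_le_one_div_of_le (by linarith) (by linarith)

/-- the support of the configuration without the value `0` -/
private theorem s2_dl (τ : PP w X → Option (Fin 3)) :
    supp (dl 0 τ) = part τ 1 ∪ part τ 2 ∧ Disjoint (part τ 1) (part τ 2) ∧
      (∀ i, dl 0 τ i ≠ some 0) ∧ part (dl 0 τ) 1 = part τ 1 ∧ part (dl 0 τ) 2 = part τ 2 := by
  have h0 : ∀ i, (dl 0 τ i = if τ i = some 0 then none else τ i) := fun i => rfl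
  refine ⟨?_, ?_, ?_, ?_, ?_⟩
  · ext i
    simp only [supp, part, mem_filter, mem_univ, true_and, mem_union, h0]
    by_cases h : τ i = some 0
    · rw [h]
      simp
    · rw [if_neg h]
      rcases hτ : τ i with _ | j
      · simp
      · rw [hτ] at h
        fin_cases j
        · exact absurd rfl h
        · simp
        · simp
  · rw [disjoint_left]
    intro i h1 h2
    simp only [part, mem_filter, mem_univ, true_and] at h1 h2
    rw [h1] at h2
    simp at h2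
  · intro i
    rw [h0]
    split_ifs with h
    · simp
    · exact h
  · ext i
    simp only [part, mem_filter, mem_univ, true_and, h0]
    by_cases h : τ i = some 0
    · rw [h]
      simp
    · rw [if_neg h]
  · ext i
    simp only [part, mem_filter, mem_univ, true_and, h0]
    by_cases h : τ i = some 0
    · rw [h]
      simp
    · rw [if_neg h]

open Classical in
/-- the pointwise bound -/
private theorem s2_pt (hw : 2 ≤ w) (M N : ℕ) (ρ τ₀ A δ K' : ℝ) (hτ₀ : 0 < τ₀) (hτρ : τ₀ ≤ ρ)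
    (hA : 0 < A) (_hδ : 0 ≤ δ) (_hK : 0 ≤ K') (D : (PP w X → Option (Fin 3)) → ℝ)
    (h2 : ∀ τ, ρ < szs M N τ 1 ∨ ρ < szs M N τ 2 → D τ = 0)
    (h3 : ∀ τ, (∀ i, τ i ≠ some 0) → |D τ| ≤ |sg τ| * A * (δ + K' * ∑ i ∈ supp τ, qq i))
    (hnr : ∀ τ : PP w X → Option (Fin 3),
      A * τ₀ / 2 ≤ (∏ i ∈ supp τ, (1 + qq i)) * nr τ₀ M N τ)
    (τ : PP w X → Option (Fin 3)) :
    spr D τ₀ M N τ ^ 2 * ∏ i ∈ supp τ, bb i ≤
      (if ∑ i ∈ part τ 0, sz M N (pr i) ≤ ρ ∧ ∑ i ∈ part τ 1, sz M N (pr i) ≤ ρ ∧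
          ∑ i ∈ part τ 2, sz M N (pr i) ≤ ρ then
        4 / τ₀ ^ 2 * (2 * δ ^ 2 + 2 * K' ^ 2 * ((∑ i ∈ part τ 1, qq i) + ∑ i ∈ part τ 2, qq i))
        else 0) * ∏ i ∈ supp τ, (qq i * (1 + qq i) ^ 4) := by
  obtain ⟨hs, hd, hz0, hp1, hp2⟩ := s2_dl τ
  have hq : ∀ i : PP w X, 0 < qq i := fun i => (s2_q hw i).1
  have hR : 0 ≤ (if ∑ i ∈ part τ 0, sz M N (pr i) ≤ ρ ∧ ∑ i ∈ part τ 1, sz M N (pr i) ≤ ρ ∧
          ∑ i ∈ part τ 2, sz M N (pr i) ≤ ρ then
        4 / τ₀ ^ 2 * (2 * δ ^ 2 + 2 * K' ^ 2 * ((∑ i ∈ part τ 1, qq i) + ∑ i ∈ part τ 2, qq i))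
        else 0) * ∏ i ∈ supp τ, (qq i * (1 + qq i) ^ 4) := by
    refine mul_nonneg ?_ (prod_nonneg fun i _ => mul_nonneg (hq i).le (by
      have := hq i
      positivity))
    split_ifs
    · have a1 : 0 ≤ ∑ i ∈ part τ 1, qq i := sum_nonneg fun i _ => (hq i).le
      have a2 : 0 ≤ ∑ i ∈ part τ 2, qq i := sum_nonneg fun i _ => (hq i).le
      positivity
    · exact le_rfl
  by_cases h0 : ss M N (part τ 0) ≤ τ₀
  swap
  · have e : spr D τ₀ M N τ = 0 := if_neg h0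
    rw [e, zero_pow two_ne_zero, zero_mul]
    exact hR
  by_cases hD : D (dl 0 τ) = 0
  · have e : spr D τ₀ M N τ = 0 := by
      unfold spr
      rw [if_pos h0, hD, zero_div, mul_zero]
    rw [e, zero_pow two_ne_zero, zero_mul]
    exact hR
  have hb1 : ss M N (part τ 1) ≤ ρ := by
    by_contra hcon
    refine hD (h2 _ (Or.inl ?_))
    unfold szs
    rw [hp1]
    exact not_le.1 hcon
  have hb2 : ss M N (part τ 2) ≤ ρ := by
    by_contra hcon
    refine hD (h2 _ (Or.inr ?_))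
    unfold szs
    rw [hp2]
    exact not_le.1 hcon
  have hcond : ∑ i ∈ part τ 0, sz M N (pr i) ≤ ρ ∧ ∑ i ∈ part τ 1, sz M N (pr i) ≤ ρ ∧
      ∑ i ∈ part τ 2, sz M N (pr i) ≤ ρ := ⟨h0.trans hτρ, hb1, hb2⟩
  rw [if_pos hcond]
  have e : spr D τ₀ M N τ = (∏ i ∈ part τ 0, (-((pr i : ℝ) / ((pr i : ℝ) - 1)))) *
      (D (dl 0 τ) / nr τ₀ M N (dl 0 τ)) := by
    unfold spr
    rw [if_pos h0]
  set x := ∑ i ∈ supp (dl 0 τ), qq i with hx
  have hx' : x = (∑ i ∈ part τ 1, qq i) + ∑ i ∈ part τ 2, qq i := by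
    rw [hx, hs, sum_union hd]
  set P := ∏ i ∈ supp (dl 0 τ), (1 + qq i) with hP
  have hx0 : 0 ≤ x := sum_nonneg fun i _ => (hq i).le
  have hPx : 1 + x ≤ P := s2_one_add qq (fun i => (hq i).le) _
  have hP0 : 0 < P := by linarith
  have hN0 := hnr (dl 0 τ)
  rw [← hP] at hN0
  set n0 := nr τ₀ M N (dl 0 τ) with hn0
  have hAτ : 0 < A * τ₀ / 2 := by positivity
  have hn0pos : 0 < n0 := by
    by_contra hcon
    have : P * n0 ≤ 0 := mul_nonpos_of_nonneg_of_nonpos hP0.le (not_lt.1 hcon)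
    linarith
  have hD3 := h3 (dl 0 τ) hz0
  rw [← hx] at hD3
  have hsg : sg (dl 0 τ) ^ 2 = P ^ 2 := by
    unfold sg
    rw [hP, ← prod_pow, ← prod_pow]
    refine prod_congr rfl fun i _ => ?_
    rw [(s2_q hw i).2.1]
    ring
  have hp0 : (∏ i ∈ part τ 0, (-((pr i : ℝ) / ((pr i : ℝ) - 1)))) ^ 2 =
      ∏ i ∈ part τ 0, (1 + qq i) ^ 2 := by
    rw [← prod_pow]
    refine prod_congr rfl fun i _ => ?_
    rw [(s2_q hw i).2.1]
    ring
  -- the quotient
  have hquot : (D (dl 0 τ) / n0) ^ 2 ≤ 4 / τ₀ ^ 2 * (δ + K' * x) ^ 2 * P ^ 4 := by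
    have h4 : D (dl 0 τ) ^ 2 ≤ P ^ 2 * A ^ 2 * (δ + K' * x) ^ 2 := by
      have h5 := pow_le_pow_left₀ (abs_nonneg _) hD3 2
      rw [sq_abs, mul_pow, mul_pow, sq_abs, hsg] at h5
      exact h5
    have h6 : (A * τ₀ / 2) ^ 2 ≤ (P * n0) ^ 2 := pow_le_pow_left₀ hAτ.le hN0 2
    rw [div_pow, div_le_iff₀ (by positivity)]
    refine h4.trans ?_
    have h7 : 4 / τ₀ ^ 2 * (δ + K' * x) ^ 2 * P ^ 4 * n0 ^ 2 =
        4 / τ₀ ^ 2 * (δ + K' * x) ^ 2 * P ^ 2 * (P * n0) ^ 2 := by ring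
    rw [h7]
    have h8 : 4 / τ₀ ^ 2 * (δ + K' * x) ^ 2 * P ^ 2 * (A * τ₀ / 2) ^ 2 =
        P ^ 2 * A ^ 2 * (δ + K' * x) ^ 2 := by
      field_simp
      ring
    rw [← h8]
    exact mul_le_mul_of_nonneg_left h6 (by positivity)
  -- the quadratic
  have hquad : (δ + K' * x) ^ 2 ≤ (2 * δ ^ 2 + 2 * K' ^ 2 * x) * P := by
    have h4 : (δ + K' * x) ^ 2 ≤ 2 * δ ^ 2 + 2 * K' ^ 2 * x ^ 2 := by
      nlinarith [sq_nonneg (δ - K' * x)]
    have h5 : 2 * δ ^ 2 ≤ 2 * δ ^ 2 * P :=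
      le_mul_of_one_le_right (by positivity) (by linarith)
    have h6 : 2 * K' ^ 2 * x ^ 2 ≤ 2 * K' ^ 2 * x * P := by
      have h7 : x * x ≤ x * P := mul_le_mul_of_nonneg_left (by linarith) hx0
      have h8 := mul_le_mul_of_nonneg_left h7 (by positivity : 0 ≤ 2 * K' ^ 2)
      calc 2 * K' ^ 2 * x ^ 2 = 2 * K' ^ 2 * (x * x) := by ring
        _ ≤ 2 * K' ^ 2 * (x * P) := h8
        _ = 2 * K' ^ 2 * x * P := by ring
    calc (δ + K' * x) ^ 2 ≤ 2 * δ ^ 2 + 2 * K' ^ 2 * x ^ 2 := h4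
      _ ≤ 2 * δ ^ 2 * P + 2 * K' ^ 2 * x * P := add_le_add h5 h6
      _ = (2 * δ ^ 2 + 2 * K' ^ 2 * x) * P := by ring
  have hall := fun f : PP w X → ℝ => Sums_supp (univ : Finset (Fin 3)) τ (fun _ _ _ => mem_univ _) f
  have hsplit : ∀ f : PP w X → ℝ, ∏ i ∈ supp τ, f i =
      (∏ i ∈ part τ 0, f i) * ∏ i ∈ supp (dl 0 τ), f i := by
    intro f
    rw [hall f, Fin.prod_univ_three, hs, prod_union hd, mul_assoc]
  have hb : ∀ e : Finset (PP w X), ∏ i ∈ e, bb i = ∏ i ∈ e, (qq i / (1 + qq i)) := fun e =>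
    prod_congr rfl fun i _ => (s2_q hw i).2.2.1
  rw [e, mul_pow, hp0, hsplit bb, hsplit (fun i => qq i * (1 + qq i) ^ 4), hb, hb, ← hx']
  set B0 := ∏ i ∈ part τ 0, (qq i / (1 + qq i))
  set B1 := ∏ i ∈ supp (dl 0 τ), (qq i / (1 + qq i)) with hB1
  have hB0 : 0 ≤ B0 := prod_nonneg fun i _ => div_nonneg (hq i).le (by
    have := hq i
    linarith)
  have hB1n : 0 ≤ B1 := prod_nonneg fun i _ => div_nonneg (hq i).le (by
    have := hq i
    linarith)
  have hone : 0 ≤ ∏ i ∈ part τ 0, (1 + qq i) ^ 2 := prod_nonneg fun i _ => sq_nonneg _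
  have hpart0 : (∏ i ∈ part τ 0, (1 + qq i) ^ 2) * B0 ≤ ∏ i ∈ part τ 0, (qq i * (1 + qq i) ^ 4) := by
    rw [← prod_mul_distrib]
    refine prod_le_prod (fun i _ => ?_) fun i _ => ?_
    · have := hq i
      positivity
    · have h9 := hq i
      have h10 : (1 + qq i) ^ 2 * (qq i / (1 + qq i)) = qq i * (1 + qq i) := by
        have : (1 + qq i) ≠ 0 := by linarith
        field_simp
      rw [h10]
      refine mul_le_mul_of_nonneg_left ?_ h9.le
      calc 1 + qq i = (1 + qq i) ^ 1 := (pow_one _).symm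
        _ ≤ (1 + qq i) ^ 4 := pow_le_pow_right₀ (by linarith) (by norm_num)
  have hpart1 : P ^ 5 * B1 = ∏ i ∈ supp (dl 0 τ), (qq i * (1 + qq i) ^ 4) := by
    rw [hP, hB1, ← prod_pow, ← prod_mul_distrib]
    refine prod_congr rfl fun i _ => ?_
    have := hq i
    have : (1 + qq i) ≠ 0 := by linarith
    field_simp
  have hk : 0 ≤ 4 / τ₀ ^ 2 := by positivity
  calc (∏ i ∈ part τ 0, (1 + qq i) ^ 2) * (D (dl 0 τ) / n0) ^ 2 * (B0 * B1)
      = ((∏ i ∈ part τ 0, (1 + qq i) ^ 2) * B0) * ((D (dl 0 τ) / n0) ^ 2 * B1) := by ring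
    _ ≤ (∏ i ∈ part τ 0, (qq i * (1 + qq i) ^ 4)) *
          ((4 / τ₀ ^ 2 * ((2 * δ ^ 2 + 2 * K' ^ 2 * x) * P) * P ^ 4) * B1) := by
        refine mul_le_mul hpart0 (mul_le_mul_of_nonneg_right (hquot.trans ?_) hB1n)
          (mul_nonneg (sq_nonneg _) hB1n) (prod_nonneg fun i _ => ?_)
        · exact mul_le_mul_of_nonneg_right (mul_le_mul_of_nonneg_left hquad hk) (by positivity)
        · have := hq i
          positivity
    _ = 4 / τ₀ ^ 2 * (2 * δ ^ 2 + 2 * K' ^ 2 * x) *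
          ((∏ i ∈ part τ 0, (qq i * (1 + qq i) ^ 4)) * (P ^ 5 * B1)) := by ring
    _ = _ := by rw [hpart1]

end conf

/-- S2 -/
theorem thm_S2 (hNR : St_NR) : St_S2 := by
  classical
  intro ρ τ₀ K' ε hτ₀ hτρ hρ2 hK hε
  have hρ : 0 < ρ := hτ₀.trans_le hτρ
  obtain ⟨w1, M1, h1⟩ := hNR ρ τ₀ hτ₀ hτρ hρ2.le
  obtain ⟨w2, M2, h2⟩ := thm_DS thm_DG 1 one_pos
  refine ⟨τ₀ * Real.sqrt ε / 32, by positivity, max (max w1 w2)
    (max 100 (⌈8192 * K' ^ 2 / (τ₀ ^ 2 * ε)⌉₊)), max M1 M2, ?_⟩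
  intro w M hw hM
  have hw1 : w1 ≤ w := (le_max_left _ _).trans ((le_max_left _ _).trans hw)
  have hw2 : w2 ≤ w := (le_max_right _ _).trans ((le_max_left _ _).trans hw)
  have hw3 : 100 ≤ w := (le_max_left _ _).trans ((le_max_right _ _).trans hw)
  have hw4 : 8192 * K' ^ 2 / (τ₀ ^ 2 * ε) ≤ w := by
    have h : ⌈8192 * K' ^ 2 / (τ₀ ^ 2 * ε)⌉₊ ≤ w :=
      (le_max_right _ _).trans ((le_max_right _ _).trans hw)
    exact (Nat.le_ceil _).trans (by exact_mod_cast h)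
  filter_upwards [h1 w M hw1 ((le_max_left _ _).trans hM),
    h2 w hw2 M ((le_max_right _ _).trans hM) ρ hρ hρ2.le, eventually_ge_atTop 2]
    with N hN1 hN2 hN D hD0 hD1 hD2
  have hA : 0 < AA w N := by
    unfold AA phW
    have h := primorial_pos w
    exact mul_pos (div_pos (by exact_mod_cast Nat.totient_pos.mpr h) (by exact_mod_cast h))
      (Real.log_pos (by exact_mod_cast (by omega : 1 < N)))
  have hw0 : (100 : ℝ) ≤ w := by exact_mod_cast hw3
  have hq := fun i : PP w (XR ρ N) => s2_q (by omega : 2 ≤ w) i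
  have hz : ∀ i : PP w (XR ρ N), 0 ≤ sz M N (pr i) := by
    intro i
    have := hN2.sn {i}
    unfold ss at this
    rwa [sum_singleton] at this
  set v : PP w (XR ρ N) → ℝ := fun i => qq i * (1 + qq i) ^ 4 with hv
  set z : PP w (XR ρ N) → ℝ := fun i => sz M N (pr i) with hzd
  set δ := τ₀ * Real.sqrt ε / 32 with hδ
  have hδ0 : 0 ≤ δ := by positivity
  -- the sum over the configurations
  have hpt := fun τ => s2_pt (by omega : 2 ≤ w) M N ρ τ₀ (AA w N) δ K' hτ₀ hτρ hA hδ0 hK D hD1 hD2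
    hN1 τ
  refine (sum_le_sum fun τ _ => hpt τ).trans ?_
  have hDI := thm_DI (PP w (XR ρ N)) v (fun a b c =>
    if ∑ i ∈ a, z i ≤ ρ ∧ ∑ i ∈ b, z i ≤ ρ ∧ ∑ i ∈ c, z i ≤ ρ then
      4 / τ₀ ^ 2 * (2 * δ ^ 2 + 2 * K' ^ 2 * ((∑ i ∈ b, qq i) + ∑ i ∈ c, qq i)) else 0)
    (fun i => mul_nonneg (hq i).1.le (by
      have := (hq i).1
      positivity)) (fun a b c => by
      have a1 : 0 ≤ ∑ i ∈ b, qq i := sum_nonneg fun i _ => (hq i).1.le
      have a2 : 0 ≤ ∑ i ∈ c, qq i := sum_nonneg fun i _ => (hq i).1.le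
      split_ifs
      · positivity
      · exact le_rfl)
  refine hDI.trans ?_
  have hvq : ∀ i : PP w (XR ρ N), qq i ≤ v i := by
    intro i
    have h := (hq i).1
    have h5 : (1 : ℝ) ≤ (1 + qq i) ^ 4 := one_le_pow₀ (by linarith)
    calc qq i = qq i * 1 := (mul_one _).symm
      _ ≤ _ := mul_le_mul_of_nonneg_left h5 h.le
  refine (s2_total v z qq (fun i => (hq i).1.le) hvq hz ρ (4 / τ₀ ^ 2) (2 * δ ^ 2) (2 * K' ^ 2)
    (by positivity) (by positivity) (by positivity)).trans ?_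
  -- the masses
  have hq01 : ∀ i : PP w (XR ρ N), qq i ≤ 1 / 100 := fun i =>
    (hq i).2.2.2.trans (one_div_le_one_div_of_le (by norm_num) hw0)
  have hSQ := thm_SQ w (XR ρ N) (by omega)
  have hV : ∑ i : PP w (XR ρ N), v i ^ 2 ≤ 4 / w := by
    have h5 : ∑ i : PP w (XR ρ N), v i ^ 2 ≤ ∑ i : PP w (XR ρ N), 2 * qq i ^ 2 := by
      refine sum_le_sum fun i _ => ?_
      have h6 : (1 + qq i) ^ 4 ≤ (101 / 100) ^ 4 :=
        pow_le_pow_left₀ (by linarith [(hq i).1]) (by linarith [hq01 i]) 4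
      have h7 : ((1 + qq i) ^ 4) ^ 2 ≤ 2 := by
        have h8 : ((1 + qq i) ^ 4) ^ 2 ≤ ((101 / 100) ^ 4) ^ 2 :=
          pow_le_pow_left₀ (by have := (hq i).1; positivity) h6 2
        refine h8.trans (by norm_num)
      have h9 : v i ^ 2 = qq i ^ 2 * ((1 + qq i) ^ 4) ^ 2 := by
        rw [hv]
        ring
      rw [h9]
      nlinarith [sq_nonneg (qq i)]
    rw [← mul_sum] at h5
    refine h5.trans ?_
    have h6 : 2 * (2 / (w : ℝ)) = 4 / w := by ring
    rw [← h6]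
    exact mul_le_mul_of_nonneg_left hSQ (by norm_num)
  have hGq : ∑ e : Finset (PP w (XR ρ N)), s2g qq z ρ e ≤ 2 * AA w N := by
    have h5 := (abs_le.1 (hN2.le ρ hρ.le le_rfl)).2
    have h6 : AA w N * ρ ≤ AA w N * 1 := mul_le_mul_of_nonneg_left (by linarith) hA.le
    have h7 : (∑ e : Finset (PP w (XR ρ N)), if ss M N e ≤ ρ then ∏ i ∈ e, qq i else 0) =
        ∑ e : Finset (PP w (XR ρ N)), s2g qq z ρ e := rfl
    rw [h7] at h5
    linarith
  have hGv : ∑ e : Finset (PP w (XR ρ N)), s2g v z ρ e ≤ 4 * AA w N := by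
    have h5 := s2_up (qq (w := w) (X := XR ρ N)) z (fun i => (1 + qq i) ^ 4 - 1)
      (fun i => (hq i).1.le) (fun i => by
        have h : (1 : ℝ) ≤ (1 + qq i) ^ 4 := one_le_pow₀ (by linarith [(hq i).1])
        linarith) hz ρ
    have h6 : (fun i : PP w (XR ρ N) => qq i * (1 + ((1 + qq i) ^ 4 - 1))) = v := by
      funext i
      rw [hv]
      ring
    rw [h6] at h5
    have h7 : ∏ i : PP w (XR ρ N), (1 + qq i * ((1 + qq i) ^ 4 - 1)) ≤ 2 := by
      calc ∏ i : PP w (XR ρ N), (1 + qq i * ((1 + qq i) ^ 4 - 1))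
          ≤ ∏ i : PP w (XR ρ N), Real.exp (15 * qq i ^ 2) := by
            refine prod_le_prod (fun i _ => ?_) fun i _ => ?_
            · have h : (1 : ℝ) ≤ (1 + qq i) ^ 4 := one_le_pow₀ (by linarith [(hq i).1])
              have := (hq i).1
              nlinarith
            · have h8 := Real.add_one_le_exp (15 * qq i ^ 2)
              have h9 := (hq i).1
              have h10 := hq01 i
              have h11 : qq i * ((1 + qq i) ^ 4 - 1) ≤ 15 * qq i ^ 2 := by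
                have h12 : (1 + qq i) ^ 4 - 1 ≤ 15 * qq i := by
                  have e1 : (1 + qq i) ^ 4 - 1 = qq i * (4 + 6 * qq i + 4 * qq i ^ 2 + qq i ^ 3) := by
                    ring
                  rw [e1, mul_comm (15 : ℝ)]
                  refine mul_le_mul_of_nonneg_left ?_ h9.le
                  have e2 : qq i ^ 2 ≤ 1 := by nlinarith
                  have e3 : qq i ^ 3 ≤ 1 := pow_le_one₀ h9.le (by linarith)
                  nlinarith
                calc qq i * ((1 + qq i) ^ 4 - 1) ≤ qq i * (15 * qq i) :=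
                      mul_le_mul_of_nonneg_left h12 h9.le
                  _ = 15 * qq i ^ 2 := by ring
              linarith
        _ = Real.exp (15 * ∑ i : PP w (XR ρ N), qq i ^ 2) := by
            rw [mul_sum, Real.exp_sum]
        _ ≤ Real.exp (1 / 2) := by
            refine Real.exp_le_exp.2 ?_
            have h8 : 2 / (w : ℝ) ≤ 2 / 100 := div_le_div_of_nonneg_left (by norm_num) (by norm_num) hw0
            nlinarith
        _ ≤ 2 := by
            have h9 := Real.exp_one_lt_d9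
            have h10 : Real.exp (1 / 2) ^ 2 = Real.exp 1 := by
              rw [← Real.exp_nat_mul]
              norm_num
            nlinarith [Real.exp_pos (1 / 2)]
    have h8 : 0 ≤ ∑ e : Finset (PP w (XR ρ N)), s2g qq z ρ e :=
      sum_nonneg fun e _ => s2g_nn qq z (fun i => (hq i).1.le) ρ e
    nlinarith
  have hGv0 : 0 ≤ ∑ e : Finset (PP w (XR ρ N)), s2g v z ρ e :=
    sum_nonneg fun e _ => s2g_nn v z (fun i => (hq i).1.le.trans (hvq i)) ρ e
  have hδ2 : δ ^ 2 = τ₀ ^ 2 * ε / 1024 := by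
    rw [hδ, div_pow, mul_pow, Real.sq_sqrt hε.le]
    norm_num
  have hw5 : 8192 * K' ^ 2 ≤ w * (τ₀ ^ 2 * ε) := by
    rwa [div_le_iff₀ (by positivity)] at hw4
  have hcoef : 4 / τ₀ ^ 2 * (2 * δ ^ 2 + 2 * (2 * K' ^ 2) * ∑ i : PP w (XR ρ N), v i ^ 2) ≤
      ε / 64 := by
    have h5 : 2 * (2 * K' ^ 2) * ∑ i : PP w (XR ρ N), v i ^ 2 ≤ 2 * (2 * K' ^ 2) * (4 / w) :=
      mul_le_mul_of_nonneg_left hV (by positivity)
    have h6 : 2 * (2 * K' ^ 2) * (4 / (w : ℝ)) ≤ τ₀ ^ 2 * ε / 512 := by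
      have h7 : 2 * (2 * K' ^ 2) * (4 / (w : ℝ)) = 16 * K' ^ 2 / w := by ring
      rw [h7, div_le_iff₀ (by linarith)]
      linarith
    calc 4 / τ₀ ^ 2 * (2 * δ ^ 2 + 2 * (2 * K' ^ 2) * ∑ i : PP w (XR ρ N), v i ^ 2)
        ≤ 4 / τ₀ ^ 2 * (2 * (τ₀ ^ 2 * ε / 1024) + τ₀ ^ 2 * ε / 512) := by
          refine mul_le_mul_of_nonneg_left ?_ (by positivity)
          rw [hδ2]
          linarith
      _ = ε / 64 := by
          field_simp
          ring
  have hcube : (∑ e : Finset (PP w (XR ρ N)), s2g v z ρ e) ^ 3 ≤ (4 * AA w N) ^ 3 :=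
    pow_le_pow_left₀ hGv0 hGv 3
  calc _ ≤ ε / 64 * (4 * AA w N) ^ 3 :=
        mul_le_mul hcoef hcube (pow_nonneg hGv0 3) (by positivity)
    _ = ε * AA w N ^ 3 := by ring

end Pool.Agent.PU
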