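import Pool.Agent.PU.Stmts
import Pool.Agent.PT.TB
import Pool.Agent.MT.Subst

set_option autoImplicit false

/-!
# PU / SP: the spread coefficients give the same weight

See the docstring of `St_SP` in `PU/Stmts.lean`.
-/

namespace Pool.Agent.PU

open Finset Filter Pool.Agent.MT Pool.Agent.PT

theorem SP_part {w X : ℕ} (τ : PP w X → Option (Fin 3)) (hτ : ∀ i, τ i ≠ some 0)
    (e : Finset (PP w X)) (he : ∀ i ∈ e, τ i = none) : part (TBphi 0 τ e) 0 = e := by
  ext i
  rw [part, mem_filter]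
  unfold TBphi
  constructor
  · rintro ⟨-, h⟩
    by_cases h1 : τ i = none
    · rw [if_pos h1] at h
      by_contra h2
      rw [if_neg h2] at h
      exact absurd h (by simp)
    · rw [if_neg h1] at h
      exact absurd h (hτ i)
  · intro h
    exact ⟨mem_univ _, by rw [if_pos (he i h), if_pos h]⟩

theorem SP_dl {w X : ℕ} (τ : PP w X → Option (Fin 3)) (hτ : ∀ i, τ i ≠ some 0)
    (e : Finset (PP w X)) : dl 0 (TBphi 0 τ e) = τ := by
  funext i
  unfold dl TBphi
  by_cases h1 : τ i = none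
  · rw [if_pos h1]
    by_cases h2 : i ∈ e
    · rw [if_pos h2, if_pos rfl, h1]
    · rw [if_neg h2, h1]
      simp
  · rw [if_neg h1, if_neg (hτ i)]

/-- the change of basis with equal parameters -/
theorem SP_sbst {w X : ℕ} (g : (PP w X → Option (Fin 3)) → ℝ) (τ : PP w X → Option (Fin 3))
    (hτ : ∀ i, τ i ≠ some 0) :
    sbst {0} bb bb g τ =
      ∑ e ∈ univ.filter (fun e : Finset (PP w X) => ∀ i ∈ e, τ i = none),
        (∏ i ∈ e, (-bb i)) * g (TBphi 0 τ e) := by
  have hinj : Set.InjOn (TBphi 0 τ) (univ.filter (fun e : Finset (PP w X) =>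
      ∀ i ∈ e, τ i = none) : Finset (Finset (PP w X))) := by
    intro a ha b hb hab
    have ha1 := (mem_filter.1 (Finset.mem_coe.1 ha)).2
    have hb1 := (mem_filter.1 (Finset.mem_coe.1 hb)).2
    rw [← SP_part τ hτ a ha1, ← SP_part τ hτ b hb1, hab]
  have hval : ∀ e ∈ univ.filter (fun e : Finset (PP w X) => ∀ i ∈ e, τ i = none),
      (∏ i ∈ e, (-bb i)) * g (TBphi 0 τ e) =
        g (TBphi 0 τ e) * ∏ i, lc {0} (bb i) (bb i) (TBphi 0 τ e i) (τ i) := by
    intro e he
    have he1 := (mem_filter.1 he).2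
    have e1 : ∏ i ∈ e, (-bb i) = ∏ i : PP w X, (if i ∈ e then -bb i else 1) := by
      rw [Finset.prod_ite_mem, Finset.univ_inter]
    rw [mul_comm, e1]
    congr 1
    refine Finset.prod_congr rfl fun i _ => ?_
    unfold TBphi
    by_cases h1 : τ i = none
    · rw [if_pos h1, h1]
      by_cases h2 : i ∈ e
      · rw [if_pos h2, if_pos h2]
        simp [lc]
      · rw [if_neg h2, if_neg h2]
        simp [lc]
    · obtain ⟨h, hh⟩ := Option.ne_none_iff_exists'.1 h1
      have h3 : h ≠ 0 := fun h4 => hτ i (by rw [hh, h4])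
      have h4 : i ∉ e := fun h4 => h1 (he1 i h4)
      rw [if_neg h1, hh, if_neg h4]
      simp [lc, h3]
  unfold sbst
  rw [Finset.sum_congr rfl hval, ← Finset.sum_image (f := fun σ =>
    g σ * ∏ i, lc {0} (bb i) (bb i) (σ i) (τ i)) hinj]
  symm
  refine Finset.sum_subset (Finset.subset_univ _) ?_
  intro σ _ hσ'
  have hex : ∃ i, (τ i ≠ none ∧ σ i ≠ τ i) ∨ (τ i = none ∧ σ i ≠ none ∧ σ i ≠ some 0) := by
    by_contra hcon
    push Not at hcon
    apply hσ'
    rw [mem_image]
    refine ⟨part σ 0, ?_, ?_⟩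
    · rw [mem_filter]
      refine ⟨mem_univ _, fun i hi => ?_⟩
      rw [part, mem_filter] at hi
      by_contra h1
      exact hτ i (((hcon i).1 h1).symm.trans hi.2)
    · funext i
      unfold TBphi
      by_cases h1 : τ i = none
      · rw [if_pos h1]
        by_cases h2 : i ∈ part σ 0
        · rw [if_pos h2]
          rw [part, mem_filter] at h2
          exact h2.2.symm
        · rw [if_neg h2]
          rw [part, mem_filter] at h2
          by_contra h3
          exact h2 ⟨mem_univ _, (hcon i).2 h1 (Ne.symm h3)⟩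
      · rw [if_neg h1]
        exact ((hcon i).1 h1).symm
  obtain ⟨i, h⟩ := hex
  rw [Finset.prod_eq_zero (mem_univ i), mul_zero]
  rcases h with ⟨h1, h2⟩ | ⟨h1, h2, h3⟩
  · obtain ⟨h, hh⟩ := Option.ne_none_iff_exists'.1 h1
    rw [hh] at h2 ⊢
    cases hσi : σ i with
    | none => simp [lc]
    | some h' =>
      have h4 : h' ≠ h := fun h5 => h2 (by rw [hσi, h5])
      simp [lc, h4]
  · obtain ⟨h, hh⟩ := Option.ne_none_iff_exists'.1 h2
    rw [h1, hh]
    have h4 : h ≠ 0 := fun h5 => h3 (by rw [hh, h5])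
    simp [lc, h4]

theorem SP_nr {w X : ℕ} (τ₀ : ℝ) (M N : ℕ) (h0 : 0 ≤ τ₀) (τ : PP w X → Option (Fin 3)) :
    1 ≤ nr τ₀ M N τ := by
  classical
  unfold nr
  have h1 := Finset.single_le_sum (s := univ) (f := fun e : Finset (PP w X) =>
    if Disjoint e (supp τ) ∧ ss M N e ≤ τ₀ then ∏ i ∈ e, qq i else 0) (fun e _ => by
      split_ifs
      · exact Finset.prod_nonneg fun i _ => (TB_q i).le
      · exact le_rfl) (mem_univ (∅ : Finset (PP w X)))
  beta_reduce at h1
  rw [if_pos ⟨Finset.disjoint_empty_left _, by simpa [ss] using h0⟩, Finset.prod_empty] at h1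
  exact h1.trans (le_of_eq (Finset.sum_congr rfl fun e _ => by congr))

theorem SP_key {w X : ℕ} (τ₀ : ℝ) (M N : ℕ) (h0 : 0 ≤ τ₀)
    (D : (PP w X → Option (Fin 3)) → ℝ) (hD : ∀ τ, (∃ i, τ i = some 0) → D τ = 0)
    (τ : PP w X → Option (Fin 3)) :
    sbst {0} bb bb (spr D τ₀ M N) τ = D τ := by
  classical
  by_cases hτ : ∀ i, τ i ≠ some 0
  · rw [SP_sbst _ τ hτ]
    have h1 : ∀ e ∈ univ.filter (fun e : Finset (PP w X) => ∀ i ∈ e, τ i = none),
        (∏ i ∈ e, (-bb i)) * spr D τ₀ M N (TBphi 0 τ e) =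
        (D τ / nr τ₀ M N τ) * (if ss M N e ≤ τ₀ then ∏ i ∈ e, qq i else 0) := by
      intro e he
      have he1 := (mem_filter.1 he).2
      unfold spr
      rw [SP_part τ hτ e he1, SP_dl τ hτ e]
      split_ifs with h
      · rw [← mul_assoc, ← Finset.prod_mul_distrib, mul_comm]
        congr 1
        refine Finset.prod_congr rfl fun i _ => ?_
        have h1 := TB_pr2 i
        have h2 : (pr i : ℝ) ≠ 0 := by linarith
        have h3 : (pr i : ℝ) - 1 ≠ 0 := by linarith
        unfold bb qq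
        field_simp
      · rw [mul_zero, mul_zero]
    rw [Finset.sum_congr rfl h1, ← Finset.mul_sum]
    have h2 : ∑ e ∈ univ.filter (fun e : Finset (PP w X) => ∀ i ∈ e, τ i = none),
        (if ss M N e ≤ τ₀ then ∏ i ∈ e, qq i else 0) = nr τ₀ M N τ := by
      unfold nr
      rw [Finset.sum_filter]
      refine Finset.sum_congr rfl fun e _ => ?_
      have h3 : (∀ i ∈ e, τ i = none) ↔ Disjoint e (supp τ) := by
        rw [Finset.disjoint_left]
        unfold supp
        simp
      by_cases h4 : ∀ i ∈ e, τ i = none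
      · rw [if_pos h4]
        by_cases h5 : ss M N e ≤ τ₀
        · rw [if_pos h5, if_pos ⟨h3.1 h4, h5⟩]
        · rw [if_neg h5, if_neg (fun h6 => h5 h6.2)]
      · rw [if_neg h4, if_neg (fun h6 => h4 (h3.2 h6.1))]
    rw [h2]
    have h3 := SP_nr τ₀ M N h0 τ
    exact div_mul_cancel₀ _ (by linarith)
  · push Not at hτ
    obtain ⟨i, hi⟩ := hτ
    rw [hD τ ⟨i, hi⟩]
    exact sbst_eq_zero _ _ _ _ _ ⟨i, 0, hi, by simp⟩

theorem thm_SP : St_SP := by
  intro w X M N τ₀ D _ h0 _ _ hD Y hY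
  rw [comb_sbst {0} bb bb (spr D τ₀ M N) Y (fun i h hi hh => hY i (by
    rw [mem_singleton] at hh
    rw [hi, hh]))]
  congr 1
  funext τ
  exact SP_key τ₀ M N h0 D hD τ

end Pool.Agent.PU
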