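import Pool.Agent.PU.StD
import Pool.Agent.PT.D1
import Pool.Agent.PT.HH

set_option autoImplicit false

/-!
# PU / TM

Module of the density block of PU (see the docstring of the statement in `PU/StD.lean`).
-/

namespace Pool.Agent.PU

open Finset Filter Pool.Agent.MT Pool.Agent.PT MeasureTheory

private lemma tm_cor_j (j : Fin 3) (a b t : ℝ) : cor j a b t j = t := by
  simp [cor]

private lemma tm_update (j : Fin 3) (a b t v : ℝ) :
    Function.update (cor j a b t) j (cor j a b t j + v) = cor j a b (t + v) := by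
  funext i
  by_cases hi : i = j
  · subst hi
    rw [Function.update_self, tm_cor_j, tm_cor_j]
  · rw [Function.update_of_ne hi]
    simp only [cor, if_neg hi]

private lemma tm_reg (j : Fin 3) (ρ : ℝ) (r : Fin 3 → ℝ) (a b t : ℝ) :
    Reg2 ρ r (cor j a b t) ↔ (0 ≤ t ∧ t ≤ ρ) ∧ (0 ≤ a ∧ a ≤ ρ) ∧ (0 ≤ b ∧ b ≤ ρ) ∧
      a + b ≤ r j ∧ t + b ≤ r (o1 j) ∧ t + a ≤ r (o2 j) := by
  constructor
  · rintro ⟨h1, h2⟩
    have a0 := h1 0
    have a1 := h1 1
    have a2 := h1 2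
    have b0 := h2 0
    have b1 := h2 1
    have b2 := h2 2
    fin_cases j <;> simp [cor, o1, o2] at a0 a1 a2 b0 b1 b2 ⊢ <;>
      refine ⟨?_, ?_, ?_, ?_, ?_, ?_⟩ <;> first | assumption | linarith
  · rintro ⟨h1, h2, h3, h4, h5, h6⟩
    refine ⟨fun i => ?_, fun i => ?_⟩
    · fin_cases j <;> fin_cases i <;> simp [cor, o1] <;> assumption
    · fin_cases j <;> fin_cases i <;> simp [cor, o1, o2] at h4 h5 h6 ⊢ <;> linarith

private lemma tm_TT {ρ : ℝ} {r : Fin 3 → ℝ} {j : Fin 3} {a b t : ℝ} :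
    t ≤ TT ρ r j a b ↔ t ≤ ρ ∧ t + b ≤ r (o1 j) ∧ t + a ≤ r (o2 j) := by
  unfold TT
  rw [le_min_iff, le_min_iff, le_sub_iff_add_le, le_sub_iff_add_le]

private lemma tm_zero {ρ K : ℝ} {r : Fin 3 → ℝ} {F : (Fin 3 → ℝ) → ℝ} (hF : Pf ρ r K F)
    {j : Fin 3} {a b t : ℝ} (ht : TT ρ r j a b < t) : F (cor j a b t) = 0 := by
  refine hF.zero _ fun h => ?_
  obtain ⟨h1, -, -, -, h5, h6⟩ := (tm_reg j ρ r a b t).1 h
  exact absurd (tm_TT.2 ⟨h1.2, h5, h6⟩) (not_le.2 ht)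

private lemma tm_zero' {ρ K : ℝ} {r : Fin 3 → ℝ} {F : (Fin 3 → ℝ) → ℝ} (hF : Pf ρ r K F)
    {j : Fin 3} {a b t : ℝ} (hab : ¬ (a ≤ ρ ∧ b ≤ ρ ∧ a + b ≤ r j)) :
    F (cor j a b t) = 0 := by
  refine hF.zero _ fun h => ?_
  obtain ⟨-, h2, h3, h4, -, -⟩ := (tm_reg j ρ r a b t).1 h
  exact hab ⟨h2.2, h3.2, h4⟩

private lemma tm_int_zero {ρ K : ℝ} {r : Fin 3 → ℝ} {F : (Fin 3 → ℝ) → ℝ} (hF : Pf ρ r K F)
    {j : Fin 3} {a b x y : ℝ} (hx : TT ρ r j a b ≤ x) (hy : TT ρ r j a b ≤ y) :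
    ∫ t in x..y, F (cor j a b t) = 0 := by
  refine intervalIntegral.integral_zero_ae (Filter.Eventually.of_forall fun t ht => ?_)
  rw [Set.uIoc, Set.mem_Ioc] at ht
  exact tm_zero hF (lt_of_le_of_lt (le_min hx hy) ht.1)

/-- integrability -/
private lemma tm_int {ρ K : ℝ} {r : Fin 3 → ℝ} {F : (Fin 3 → ℝ) → ℝ} (hF : Pf ρ r K F)
    (j : Fin 3) (a b : ℝ) (ha : 0 ≤ a) (hb : 0 ≤ b) :
    Integrable (fun t => F (cor j a b t)) volume := by
  have hK : 0 ≤ K := (abs_nonneg _).trans (hF.bd 0)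
  by_cases hab : a ≤ ρ ∧ b ≤ ρ ∧ a + b ≤ r j
  · have hc : ContinuousOn (fun t => F (cor j a b t)) (Set.Icc 0 (TT ρ r j a b)) := by
      have hL : LipschitzOnWith ⟨K, hK⟩ (fun t => F (cor j a b t))
          (Set.Icc 0 (TT ρ r j a b)) := by
        apply LipschitzOnWith.of_dist_le_mul
        intro t ht t' ht'
        rw [Real.dist_eq, Real.dist_eq]
        obtain ⟨p1, p2, p3⟩ := tm_TT.1 ht.2
        obtain ⟨q1, q2, q3⟩ := tm_TT.1 ht'.2
        have h1 := hF.lip (cor j a b t) (cor j a b t')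
          ((tm_reg j ρ r a b t).2 ⟨⟨ht.1, p1⟩, ⟨ha, hab.1⟩, ⟨hb, hab.2.1⟩, hab.2.2, p2, p3⟩)
          ((tm_reg j ρ r a b t').2 ⟨⟨ht'.1, q1⟩, ⟨ha, hab.1⟩, ⟨hb, hab.2.1⟩, hab.2.2, q2, q3⟩)
        rw [HH_sum, sub_self, sub_self, abs_zero, add_zero, add_zero] at h1
        exact h1
      exact hL.continuousOn
    have h2 : (fun t => F (cor j a b t)) =
        Set.indicator (Set.Icc 0 (TT ρ r j a b)) (fun t => F (cor j a b t)) := by
      funext t
      by_cases ht : t ∈ Set.Icc 0 (TT ρ r j a b)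
      · rw [Set.indicator_of_mem ht]
      · rw [Set.indicator_of_notMem ht]
        apply hF.zero
        rw [tm_reg]
        rintro ⟨h3, -, -, -, h4, h5⟩
        exact ht ⟨h3.1, tm_TT.2 ⟨h3.2, h4, h5⟩⟩
    rw [h2]
    exact (hc.integrableOn_Icc).integrable_indicator measurableSet_Icc
  · have h2 : (fun t => F (cor j a b t)) = fun _ => 0 := by
      funext t
      exact tm_zero' hF hab
    rw [h2]
    exact integrable_zero _ _ _

/-- one summand -/
private lemma tm_one (hD1 : St_D1) (K ε0 : ℝ) (hε0 : 0 < ε0) :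
    ∃ ε1 : ℝ, 0 < ε1 ∧ ∀ (ρ : ℝ) (r : Fin 3 → ℝ) (F : (Fin 3 → ℝ) → ℝ) (w X M N : ℕ), 0 < ρ →
      ρ ≤ 1 → Pf ρ r K F → 0 < AA w N →
      Dist (fun e : Finset (PP w X) => ∏ i ∈ e, qq i) (ss M N) (AA w N) ε1 ρ →
      ∀ (j : Fin 3) (a b v : ℝ), 0 ≤ v → 0 ≤ a → 0 ≤ b →
        |(∑ e : Finset (PP w X), (∏ i ∈ e, qq i) * F (cor j a b (ss M N e + v))) -
          AA w N * hh F ρ j a b v| ≤ ε0 * AA w N := by
  obtain ⟨ε1, hε1, h1⟩ := hD1 K ε0 hε0
  refine ⟨ε1, hε1, fun ρ r F w X M N hρ hρ1 hF hA hD j a b v hv ha hb => ?_⟩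
  have hpos : 0 ≤ ε0 * AA w N := (mul_pos hε0 hA).le
  by_cases hab : a ≤ ρ ∧ b ≤ ρ ∧ a + b ≤ r j
  swap
  · have e1 : ∑ e : Finset (PP w X), (∏ i ∈ e, qq i) * F (cor j a b (ss M N e + v)) = 0 :=
      Finset.sum_eq_zero fun e _ => by rw [tm_zero' hF hab, mul_zero]
    have e2 : hh F ρ j a b v = 0 := by
      unfold hh
      rw [intervalIntegral.integral_zero_ae
        (Filter.Eventually.of_forall fun t _ => tm_zero' hF hab)]
    rw [e1, e2, mul_zero, sub_zero, abs_zero]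
    exact hpos
  have hTρ : TT ρ r j a b ≤ ρ := min_le_left _ _
  rcases lt_or_ge (TT ρ r j a b - v) 0 with hτ | hτ
  · have e1 : ∑ e : Finset (PP w X), (∏ i ∈ e, qq i) * F (cor j a b (ss M N e + v)) = 0 := by
      refine Finset.sum_eq_zero fun e _ => ?_
      have h2 : 0 ≤ ss M N e := hD.sn e
      rw [tm_zero hF (by linarith), mul_zero]
    have e2 : hh F ρ j a b v = 0 := tm_int_zero hF (by linarith) hTρ
    rw [e1, e2, mul_zero, sub_zero, abs_zero]
    exact hpos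
  · have h2 := h1 (Finset (PP w X)) (fun e => ∏ i ∈ e, qq i) (ss M N) (AA w N) ρ hA hρ hρ1 hD
      (TT ρ r j a b - v) (fun x => F (cor j a b (x + v))) hτ (by linarith)
      (fun x _ _ => hF.bd _)
      (fun x y hx hx' hy hy' => by
        have hx2 : x + v ≤ TT ρ r j a b := by linarith
        have hy2 : y + v ≤ TT ρ r j a b := by linarith
        obtain ⟨p1, p2, p3⟩ := tm_TT.1 hx2
        obtain ⟨q1, q2, q3⟩ := tm_TT.1 hy2
        have h3 := hF.lip (cor j a b (x + v)) (cor j a b (y + v))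
          ((tm_reg j ρ r a b (x + v)).2
            ⟨⟨by linarith, p1⟩, ⟨ha, hab.1⟩, ⟨hb, hab.2.1⟩, hab.2.2, p2, p3⟩)
          ((tm_reg j ρ r a b (y + v)).2
            ⟨⟨by linarith, q1⟩, ⟨ha, hab.1⟩, ⟨hb, hab.2.1⟩, hab.2.2, q2, q3⟩)
        have h5 : x + v - (y + v) = x - y := by ring
        rw [HH_sum, sub_self, sub_self, abs_zero, add_zero, add_zero, h5] at h3
        exact h3)
    have e1 : ∫ x in (0 : ℝ)..(TT ρ r j a b - v), F (cor j a b (x + v)) =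
        hh F ρ j a b v := by
      rw [intervalIntegral.integral_comp_add_right (fun t => F (cor j a b t))]
      have hI := tm_int hF j a b ha hb
      unfold hh
      have h5 : (0 : ℝ) + v = v := zero_add v
      have h6 : TT ρ r j a b - v + v = TT ρ r j a b := by ring
      rw [h5, h6, ← intervalIntegral.integral_add_adjacent_intervals
        (hI.intervalIntegrable (a := v) (b := TT ρ r j a b))
        (hI.intervalIntegrable (a := TT ρ r j a b) (b := ρ)),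
        tm_int_zero (x := TT ρ r j a b) (y := ρ) hF le_rfl hTρ, add_zero]
    rw [e1] at h2
    have e2 : ∑ e : Finset (PP w X), (∏ i ∈ e, qq i) * F (cor j a b (ss M N e + v)) =
        ∑ e : Finset (PP w X), if ss M N e ≤ TT ρ r j a b - v then
          (∏ i ∈ e, qq i) * F (cor j a b (ss M N e + v)) else 0 := by
      refine Finset.sum_congr rfl fun e _ => ?_
      split_ifs with h
      · rfl
      · rw [not_le] at h
        rw [tm_zero hF (by linarith), mul_zero]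
    rw [e2]
    exact h2

theorem thm_TM : St_TM := by
  intro K ε hε
  obtain ⟨ε1, hε1, h1⟩ := tm_one thm_D1 K (ε / 8) (by linarith)
  refine ⟨ε1, hε1, fun ρ r F w X M N hρ hρ1 _ hF hA hD j n u a b hn hu ha hb => ?_⟩
  have e1 : tm (w := w) (X := X) F M N j u a b = ∑ S : Finset (Fin n), (-1 : ℝ) ^ S.card *
      ∑ e : Finset (PP w X), (∏ i ∈ e, qq i) * F (cor j a b (ss M N e + ∑ i ∈ S, u i)) := by
    unfold tm FB
    simp only [Finset.mul_sum, tm_update]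
    rw [Finset.sum_comm]
    refine Finset.sum_congr rfl fun S _ => Finset.sum_congr rfl fun e _ => ?_
    ring
  unfold hB
  rw [e1, Finset.mul_sum, ← Finset.sum_sub_distrib]
  refine (Finset.abs_sum_le_sum_abs _ _).trans ?_
  have h2 : ∀ S ∈ (Finset.univ : Finset (Finset (Fin n))),
      |(-1 : ℝ) ^ S.card * (∑ e : Finset (PP w X), (∏ i ∈ e, qq i) *
        F (cor j a b (ss M N e + ∑ i ∈ S, u i))) -
        AA w N * ((-1 : ℝ) ^ S.card * hh F ρ j a b (∑ i ∈ S, u i))| ≤ ε / 8 * AA w N := by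
    intro S _
    have h3 := h1 ρ r F w X M N hρ hρ1 hF hA hD j a b (∑ i ∈ S, u i)
      (Finset.sum_nonneg fun i _ => hu i) ha hb
    have h4 : (-1 : ℝ) ^ S.card * (∑ e : Finset (PP w X), (∏ i ∈ e, qq i) *
        F (cor j a b (ss M N e + ∑ i ∈ S, u i))) -
        AA w N * ((-1 : ℝ) ^ S.card * hh F ρ j a b (∑ i ∈ S, u i)) =
        (-1 : ℝ) ^ S.card * ((∑ e : Finset (PP w X), (∏ i ∈ e, qq i) *
        F (cor j a b (ss M N e + ∑ i ∈ S, u i))) - AA w N * hh F ρ j a b (∑ i ∈ S, u i)) := by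
      ring
    rw [h4, abs_mul, abs_pow, abs_neg, abs_one, one_pow, one_mul]
    exact h3
  refine (Finset.sum_le_sum h2).trans ?_
  rw [Finset.sum_const, Finset.card_univ, Fintype.card_finset, Fintype.card_fin, nsmul_eq_mul]
  have h5 : ((2 ^ n : ℕ) : ℝ) ≤ 8 := by
    have : 2 ^ n ≤ 2 ^ 3 := Nat.pow_le_pow_right (by norm_num) hn
    exact_mod_cast this
  have h6 : 0 ≤ ε / 8 * AA w N := mul_nonneg (by linarith) hA.le
  calc ((2 ^ n : ℕ) : ℝ) * (ε / 8 * AA w N) ≤ 8 * (ε / 8 * AA w N) :=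
        mul_le_mul_of_nonneg_right h5 h6
    _ = ε * AA w N := by ring

end Pool.Agent.PU
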