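import Pool.Agent.PT.AllC
import Pool.Agent.PU.CB
import Pool.Agent.PU.Cfg
import Pool.Agent.PU.Core
import Pool.Agent.PU.D3
import Pool.Agent.PU.Dif
import Pool.Agent.PU.Face
import Pool.Agent.PU.HH
import Pool.Agent.PU.HJ
import Pool.Agent.PU.IB
import Pool.Agent.PU.IJ
import Pool.Agent.PU.IR
import Pool.Agent.PU.IS
import Pool.Agent.PU.Int
import Pool.Agent.PU.IntG
import Pool.Agent.PU.NR
import Pool.Agent.PU.S2
import Pool.Agent.PU.SP
import Pool.Agent.PU.TB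
import Pool.Agent.PU.TM

set_option autoImplicit false

/-!
# PU / AllU: the criterion with two squares
-/

namespace Pool.Agent.PU

theorem u_S1 : St_S1 := thm_S1 PT.thm_DI (PT.alld_DP PT.thm_DG) thm_D3

theorem u_tB : St_tB := thm_tB thm_TB (PT.thm_DS PT.thm_DG)

theorem u_J : St_J :=
  thm_J thm_TB thm_TM (PT.thm_DS PT.thm_DG) (PT.alld_DP PT.thm_DG) PT.alld_D2 thm_HH PT.thm_DJ
    PT.thm_PR PT.thm_SQ

theorem u_Face : St_Face :=
  thm_Face PT.thm_BExp PT.thm_EE0 PT.thm_CBd thm_Cfg PT.thm_Crude PT.thm_Box u_tB u_J PT.thm_BVB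

theorem u_Dif : St_Dif :=
  thm_Dif (thm_CB thm_TM) thm_NR thm_SP thm_IntG (thm_S2 thm_NR) PT.thm_Z1

theorem core_holds : St_Core :=
  thm_Core (thm_Int u_S1 PT.thm_Z1) u_Face u_Dif PT.thm_Box PT.thm_MuSum PT.thm_Mass
    (thm_R (thm_HJ thm_HH)) PT.thm_CBd PT.thm_Adm PT.thm_Z1

end Pool.Agent.PU
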