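import Pool.Agent.PT.Stmts
import Pool.Agent.PT.StD

set_option autoImplicit false

/-!
# PU: a prime, a `P_3` and a `P_4` in prescribed places (MP_c0d11e_nt)

Paper: /team-store/E34_paper.md.  All the definitions of `PT.Defs` are used; only the region of the
profiles is more general: `ρ` is the bound of the coordinates (sieving level) and `r j` the bound of
the sum of the two coordinates different from `j` (`ρ ≤ r j`).
-/

namespace Pool.Agent.PU

open Finset Filter Pool.Agent.MT Pool.Agent.PT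

/-- the region of the sizes -/
def Reg2 (ρ : ℝ) (r : Fin 3 → ℝ) (a : Fin 3 → ℝ) : Prop :=
  (∀ i, 0 ≤ a i ∧ a i ≤ ρ) ∧ ∀ j, a (o1 j) + a (o2 j) ≤ r j

/-- a profile: bounded, supported on the region, Lipschitz there -/
structure Pf (ρ : ℝ) (r : Fin 3 → ℝ) (K : ℝ) (F : (Fin 3 → ℝ) → ℝ) : Prop where
  bd : ∀ a, |F a| ≤ K
  zero : ∀ a, ¬ Reg2 ρ r a → F a = 0
  lip : ∀ a a', Reg2 ρ r a → Reg2 ρ r a' → |F a - F a'| ≤ K * ∑ i, |a i - a' i|

/-- the upper end of the fibre in the direction `j`: `t ≤ ρ`, `t + b ≤ r (o1 j)`,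
`t + a ≤ r (o2 j)`, where `a`, `b` are the coordinates `o1 j`, `o2 j` -/
noncomputable def TT (ρ : ℝ) (r : Fin 3 → ℝ) (j : Fin 3) (a b : ℝ) : ℝ :=
  min ρ (min (r (o1 j) - b) (r (o2 j) - a))

/-- the coefficients on the integers for which `n + sh 0` is prime (no value `0` any more);
`cb F τ = sg τ ∑_{e ∩ supp τ = ∅} ∏_{p ∈ e} 1/(p-1) F (s(e), s_1(τ), s_2(τ))` -/
noncomputable def cb {w X : ℕ} (F : (Fin 3 → ℝ) → ℝ) (M N : ℕ)
    (τ : PP w X → Option (Fin 3)) : ℝ :=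
  sbst {0} bb bb (cc F M N) τ

open Classical in
/-- the normalising sum of the spread coefficients -/
noncomputable def nr {w X : ℕ} (τ₀ : ℝ) (M N : ℕ) (τ : PP w X → Option (Fin 3)) : ℝ :=
  ∑ e : Finset (PP w X), if Disjoint e (supp τ) ∧ ss M N e ≤ τ₀ then ∏ i ∈ e, qq i else 0

open Classical in
/-- the spread coefficients of `D`: `τ = e ∪ τ'` (value `0` on `e`) has the coefficient
`sg(e) D(τ') / nr(τ')` if `s(e) ≤ τ₀` -/
noncomputable def spr {w X : ℕ} (D : (PP w X → Option (Fin 3)) → ℝ) (τ₀ : ℝ) (M N : ℕ)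
    (τ : PP w X → Option (Fin 3)) : ℝ :=
  if ss M N (part τ 0) ≤ τ₀ then
    (∏ i ∈ part τ 0, (-((pr i : ℝ) / ((pr i : ℝ) - 1)))) * (D (dl 0 τ) / nr τ₀ M N (dl 0 τ))
  else 0

end Pool.Agent.PU
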