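import Pool.Agent.PU.NumD
import Pool.Agent.PTN.DDm
import Pool.Agent.PTN.DD1
import Pool.Agent.PTN.DD2
import Pool.Agent.PTN.Low2c
import Pool.Agent.PTN.HB

set_option autoImplicit false

/-!
# PU: `Psi 1` and `Psi 2`
-/

namespace Pool.Agent.PU

open Finset Filter Pool.Agent.MT Pool.Agent.PT MeasureTheory

theorem nc12_rho : ρ0 = 250 / 1001 := rfl

/-- a function which vanishes beyond `Z` -/
theorem nc12_cut {f : ℝ → ℝ} (hf : Continuous f) {y Z u : ℝ} (hZ : Z ≤ u)
    (h : ∀ z, Z ≤ z → f z = 0) : ∫ z in y..u, f z = ∫ z in y..Z, f z := by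
  rw [← intervalIntegral.integral_add_adjacent_intervals (hf.intervalIntegrable y Z)
    (hf.intervalIntegrable Z u)]
  have : ∫ z in Z..u, f z = 0 := by
    refine (intervalIntegral.integral_congr (g := fun _ => (0 : ℝ)) fun z hz => ?_).trans
      intervalIntegral.integral_zero
    rw [Set.uIcc_of_le hZ] at hz
    exact h z hz.1
  rw [this, add_zero]

/-- a function which vanishes on the interval -/
theorem nc12_zero {f : ℝ → ℝ} {y u : ℝ} (hyu : y ≤ u) (h : ∀ z, y ≤ z → z ≤ u → f z = 0) :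
    ∫ z in y..u, f z = 0 := by
  refine (intervalIntegral.integral_congr (g := fun _ => (0 : ℝ)) fun z hz => ?_).trans
    intervalIntegral.integral_zero
  rw [Set.uIcc_of_le hyu] at hz
  exact h z hz.1 hz.2

theorem nc12_min {g : ℝ → ℝ} {x T : ℝ} (h : T ≤ x) : g T - g (min x T) = 0 := by
  rw [min_eq_right h, sub_self]

/-- linearity -/
theorem nc12_lin1 (a b : ℝ) {f₁ f₂ f₃ f₄ f₅ : ℝ → ℝ} (c₁ : Continuous f₁) (c₂ : Continuous f₂)
    (c₃ : Continuous f₃) (c₄ : Continuous f₄) (c₅ : Continuous f₅) :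
    ∫ x in a..b, (2 * (f₁ x - f₂ x - f₃ x + f₄ x) - f₅ x) =
      2 * ((∫ x in a..b, f₁ x) - (∫ x in a..b, f₂ x) - (∫ x in a..b, f₃ x) + ∫ x in a..b, f₄ x) -
        ∫ x in a..b, f₅ x := by
  have s1 : ∫ x in a..b, (2 * (f₁ x - f₂ x - f₃ x + f₄ x) - f₅ x) =
      (∫ x in a..b, 2 * (f₁ x - f₂ x - f₃ x + f₄ x)) - ∫ x in a..b, f₅ x :=
    intervalIntegral.integral_sub ((((c₁.sub c₂).sub c₃).add c₄).const_mul 2 |>.intervalIntegrable
      _ _) (c₅.intervalIntegrable _ _)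
  have s2 : ∫ x in a..b, 2 * (f₁ x - f₂ x - f₃ x + f₄ x) =
      2 * ∫ x in a..b, (f₁ x - f₂ x - f₃ x + f₄ x) := intervalIntegral.integral_const_mul _ _
  have s3 : ∫ x in a..b, (f₁ x - f₂ x - f₃ x + f₄ x) =
      (∫ x in a..b, (f₁ x - f₂ x - f₃ x)) + ∫ x in a..b, f₄ x :=
    intervalIntegral.integral_add (((c₁.sub c₂).sub c₃).intervalIntegrable _ _)
      (c₄.intervalIntegrable _ _)
  have s4 : ∫ x in a..b, (f₁ x - f₂ x - f₃ x) =
      (∫ x in a..b, (f₁ x - f₂ x)) - ∫ x in a..b, f₃ x :=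
    intervalIntegral.integral_sub ((c₁.sub c₂).intervalIntegrable _ _) (c₃.intervalIntegrable _ _)
  have s5 : ∫ x in a..b, (f₁ x - f₂ x) = (∫ x in a..b, f₁ x) - ∫ x in a..b, f₂ x :=
    intervalIntegral.integral_sub (c₁.intervalIntegrable _ _) (c₂.intervalIntegrable _ _)
  rw [s1, s2, s3, s4, s5]

theorem thm_C1 : St_C1 := by
  intro g P T hg hP hg0 hT1 hT2
  have hr := nc12_rho
  have hT0 : 0 ≤ T := by rw [hr] at hT1; linarith
  have hTl : 1 / 1000 ≤ T := by rw [hr] at hT1; linarith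
  have hTu : T ≤ 1 / 2 := by rw [hr] at hT2; linarith
  obtain ⟨m1, -, m3, -⟩ := PTN.thm_DDm 1 ρ0 (by rw [hr]; norm_num)
  set κ : ℝ → ℝ := fun x => 2 * (g T * P x - (g T - g (min x T)) * P x) -
    x * (1 - x) * P x ^ 2 with hκ
  have e1 : Psi 1 g P T = ∫ u in DD ρ0 1, (κ (u 0) * (u 0 * (1 - u 0))) * dens u := by
    unfold Psi
    refine setIntegral_congr_fun m1 fun u hu => ?_
    have h0 := m3 u hu 0
    have hD : Dg g T u = g T - (g T - g (min (u 0) T)) := by
      unfold Dg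
      rw [show (Finset.univ : Finset (Finset (Fin 1))) = {∅, {0}} by decide,
        Finset.sum_pair (by decide)]
      simp only [Finset.sum_empty, Finset.card_empty, pow_zero, one_mul, Finset.sum_singleton,
        Finset.card_singleton, pow_one, min_eq_left hT0, hg0]
      ring
    show 2 * Dg g T u * P (∑ i, u i) - P (∑ i, u i) ^ 2 * ((∏ i, u i) * (1 - ∑ i, u i)) = _
    rw [hD]
    simp only [Fin.sum_univ_one, Fin.prod_univ_one, Pool.Agent.PT.dens, hκ]
    have h1 : u 0 ≠ 0 := h0.1.ne'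
    have h2 : 1 - u 0 ≠ 0 := by linarith [h0.2]
    field_simp
  rw [e1, PTN.thm_DD1.2 ρ0 (fun x => κ x * (x * (1 - x))) (by rw [hr]; norm_num)]
  have e2 : ∫ x in (1 / 1000 : ℝ)..(1 / 2), κ x * (x * (1 - x)) / (x * (1 - x)) =
      ∫ x in (1 / 1000 : ℝ)..(1 / 2), κ x := by
    refine intervalIntegral.integral_congr fun x hx => ?_
    rw [Set.uIcc_of_le (by norm_num)] at hx
    have h1 : x ≠ 0 := by linarith [hx.1]
    have h2 : 1 - x ≠ 0 := by linarith [hx.2]
    show κ x * (x * (1 - x)) / (x * (1 - x)) = κ x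
    field_simp
  rw [e2]
  have c1 : Continuous fun x => g T * P x := by fun_prop
  have c2 : Continuous fun x => (g T - g (min x T)) * P x := by fun_prop
  have c3 : Continuous fun x => x * (1 - x) * P x ^ 2 := by fun_prop
  have e4 : ∫ x in (1 / 1000 : ℝ)..(1 / 2), κ x =
      2 * ((∫ x in (1 / 1000 : ℝ)..(1 / 2), g T * P x) -
        ∫ x in (1 / 1000 : ℝ)..(1 / 2), (g T - g (min x T)) * P x) -
      ∫ x in (1 / 1000 : ℝ)..(1 / 2), x * (1 - x) * P x ^ 2 := by
    have := nc12_lin1 (1 / 1000) (1 / 2) c1 c2 (continuous_const (y := (0 : ℝ)))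
      (continuous_const (y := (0 : ℝ))) c3
    simp only [intervalIntegral.integral_zero, sub_zero, add_zero] at this
    exact this
  rw [e4, nc12_cut c2 hTu fun z hz => by rw [nc12_min hz, zero_mul]]
  unfold Ps1
  have e3 : ∫ x in (1 / 1000 : ℝ)..T, (g T - g (min x T)) * P x =
      ∫ x in (1 / 1000 : ℝ)..T, (g T - g x) * P x := by
    refine intervalIntegral.integral_congr fun x hx => ?_
    rw [Set.uIcc_of_le hTl] at hx
    show (g T - g (min x T)) * P x = _
    rw [min_eq_left hx.2]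
  rw [e3]

/-- linearity of the iterated integral -/
theorem nc12_lin (α β : ℝ) (lo hi : ℝ → ℝ) (hlo : Continuous lo) (hhi : Continuous hi)
    (f₁ f₂ f₃ f₄ f₅ : ℝ → ℝ → ℝ) (h₁ : Continuous (fun q : ℝ × ℝ => f₁ q.1 q.2))
    (h₂ : Continuous (fun q : ℝ × ℝ => f₂ q.1 q.2)) (h₃ : Continuous (fun q : ℝ × ℝ => f₃ q.1 q.2))
    (h₄ : Continuous (fun q : ℝ × ℝ => f₄ q.1 q.2))
    (h₅ : Continuous (fun q : ℝ × ℝ => f₅ q.1 q.2)) :
    ∫ x in α..β, ∫ z in (lo x)..(hi x),
      (2 * (f₁ x z - f₂ x z - f₃ x z + f₄ x z) - f₅ x z) =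
    2 * ((∫ x in α..β, ∫ z in (lo x)..(hi x), f₁ x z) -
      (∫ x in α..β, ∫ z in (lo x)..(hi x), f₂ x z) -
      (∫ x in α..β, ∫ z in (lo x)..(hi x), f₃ x z) +
      ∫ x in α..β, ∫ z in (lo x)..(hi x), f₄ x z) -
      ∫ x in α..β, ∫ z in (lo x)..(hi x), f₅ x z := by
  have hc : ∀ (f : ℝ → ℝ → ℝ), Continuous (fun q : ℝ × ℝ => f q.1 q.2) → ∀ x, Continuous (f x) :=
    fun f hf x => hf.comp (continuous_const.prodMk continuous_id)
  have hi' : ∀ (f : ℝ → ℝ → ℝ), Continuous (fun q : ℝ × ℝ => f q.1 q.2) →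
      Continuous (fun x => ∫ z in (lo x)..(hi x), f x z) := fun f hf =>
    PTN.low2c_cont hf hlo hhi
  have e : ∀ x, ∫ z in (lo x)..(hi x), (2 * (f₁ x z - f₂ x z - f₃ x z + f₄ x z) - f₅ x z) =
      2 * ((∫ z in (lo x)..(hi x), f₁ x z) - (∫ z in (lo x)..(hi x), f₂ x z) -
        (∫ z in (lo x)..(hi x), f₃ x z) + ∫ z in (lo x)..(hi x), f₄ x z) -
        ∫ z in (lo x)..(hi x), f₅ x z := fun x =>
    nc12_lin1 _ _ (hc f₁ h₁ x) (hc f₂ h₂ x) (hc f₃ h₃ x) (hc f₄ h₄ x) (hc f₅ h₅ x)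
  simp only [e]
  exact nc12_lin1 _ _ (hi' f₁ h₁) (hi' f₂ h₂) (hi' f₃ h₃) (hi' f₄ h₄) (hi' f₅ h₅)

theorem thm_C2 : St_C2 := by
  intro g P T hg hP hg0 hT1 hT2
  have hr := nc12_rho
  have hT0 : 0 ≤ T := by rw [hr] at hT1; linarith
  have hTl : 1 / 500 ≤ T := by rw [hr] at hT1; linarith
  have hTu : T ≤ 1 / 4 := by rw [hr] at hT2; linarith
  obtain ⟨m1, -, m3, -⟩ := PTN.thm_DDm 2 ρ0 (by rw [hr]; norm_num)
  have hDD : ∀ u ∈ DD ρ0 2, 0 < 1 - u 0 - u 1 := by
    intro u hu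
    have h := hu.2.2.2
    rw [Fin.sum_univ_two] at h
    have : (0 : ℝ) < ρ0 := by rw [hr]; norm_num
    linarith
  set f₁ : ℝ → ℝ → ℝ := fun x z => g T * P (x + z) with hf₁
  set f₂ : ℝ → ℝ → ℝ := fun x z => (g T - g (min x T)) * P (x + z) with hf₂
  set f₃ : ℝ → ℝ → ℝ := fun x z => (g T - g (min z T)) * P (x + z) with hf₃
  set f₄ : ℝ → ℝ → ℝ := fun x z => (g T - g (min (x + z) T)) * P (x + z) with hf₄
  set f₅ : ℝ → ℝ → ℝ := fun x z => x * z * (1 - x - z) * P (x + z) ^ 2 with hf₅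
  have c₁ : Continuous (fun q : ℝ × ℝ => f₁ q.1 q.2) := by rw [hf₁]; fun_prop
  have c₂ : Continuous (fun q : ℝ × ℝ => f₂ q.1 q.2) := by rw [hf₂]; fun_prop
  have c₃ : Continuous (fun q : ℝ × ℝ => f₃ q.1 q.2) := by rw [hf₃]; fun_prop
  have c₄ : Continuous (fun q : ℝ × ℝ => f₄ q.1 q.2) := by rw [hf₄]; fun_prop
  have c₅ : Continuous (fun q : ℝ × ℝ => f₅ q.1 q.2) := by rw [hf₅]; fun_prop
  set κ : ℝ → ℝ → ℝ := fun x z => 2 * (f₁ x z - f₂ x z - f₃ x z + f₄ x z) - f₅ x z with hκ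
  have hk : Continuous (fun q : ℝ × ℝ => κ q.1 q.2 * (q.1 * q.2 * (1 - q.1 - q.2))) := by
    rw [hκ]
    exact ((((c₁.sub c₂).sub c₃).add c₄).const_mul 2 |>.sub c₅).mul (by fun_prop)
  have e1 : Psi 2 g P T = ∫ u in DD ρ0 2,
      (κ (u 0) (u 1) * (u 0 * u 1 * (1 - u 0 - u 1))) * dens u := by
    unfold Psi
    refine setIntegral_congr_fun m1 fun u hu => ?_
    have h0 := m3 u hu 0
    have h1 := m3 u hu 1
    have h2 := hDD u hu
    have hD : Dg g T u = g T - (g T - g (min (u 0) T)) - (g T - g (min (u 1) T)) +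
        (g T - g (min (u 0 + u 1) T)) := by
      unfold Dg
      rw [show (Finset.univ : Finset (Finset (Fin 2))) = {∅, {0}, {1}, {0, 1}} by decide]
      rw [Finset.sum_insert (by decide), Finset.sum_insert (by decide),
        Finset.sum_pair (by decide)]
      rw [show (({0, 1} : Finset (Fin 2))).card = 2 by decide, Finset.sum_pair (by decide)]
      simp only [Finset.sum_empty, Finset.card_empty, pow_zero, one_mul, Finset.sum_singleton,
        Finset.card_singleton, pow_one, min_eq_left hT0, hg0]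
      ring
    show 2 * Dg g T u * P (∑ i, u i) - P (∑ i, u i) ^ 2 * ((∏ i, u i) * (1 - ∑ i, u i)) = _
    rw [hD]
    simp only [Fin.sum_univ_two, Fin.prod_univ_two, Pool.Agent.PT.dens, hκ, hf₁, hf₂, hf₃, hf₄, hf₅]
    have k1 : u 0 ≠ 0 := h0.1.ne'
    have k2 : u 1 ≠ 0 := h1.1.ne'
    have k3 : 1 - (u 0 + u 1) ≠ 0 := by linarith
    field_simp
    ring
  rw [e1, PTN.thm_DD2 ρ0 (fun x z => κ x z * (x * z * (1 - x - z))) (by rw [hr]; norm_num) hk]
  have e2 : ∫ x in (1 / 1000 : ℝ)..(1 / 3), ∫ z in x..((1 - x) / 2),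
      κ x z * (x * z * (1 - x - z)) / (x * z * (1 - x - z)) =
      ∫ x in (1 / 1000 : ℝ)..(1 / 3), ∫ z in x..((1 - x) / 2), κ x z := by
    refine intervalIntegral.integral_congr fun x hx => ?_
    rw [Set.uIcc_of_le (by norm_num)] at hx
    refine intervalIntegral.integral_congr fun z hz => ?_
    rw [Set.uIcc_of_le (by linarith [hx.2])] at hz
    have h1 : x ≠ 0 := by linarith [hx.1]
    have h2 : z ≠ 0 := by linarith [hx.1, hz.1]
    have h3 : 1 - x - z ≠ 0 := by linarith [hx.2, hz.2]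
    show κ x z * (x * z * (1 - x - z)) / (x * z * (1 - x - z)) = κ x z
    field_simp
  rw [e2, hκ, nc12_lin (1 / 1000) (1 / 3) (fun x => x) (fun x => (1 - x) / 2) (by fun_prop)
    (by fun_prop) f₁ f₂ f₃ f₄ f₅ c₁ c₂ c₃ c₄ c₅]
  have hc : ∀ (f : ℝ → ℝ → ℝ), Continuous (fun q : ℝ × ℝ => f q.1 q.2) → ∀ x, Continuous (f x) :=
    fun f hf x => hf.comp (continuous_const.prodMk continuous_id)
  have hi' : ∀ (f : ℝ → ℝ → ℝ), Continuous (fun q : ℝ × ℝ => f q.1 q.2) →
      Continuous (fun x => ∫ z in x..((1 - x) / 2), f x z) := fun f hf =>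
    PTN.low2c_cont hf (lo := fun x => x) (hi := fun x => (1 - x) / 2) (by fun_prop) (by fun_prop)
  -- second term
  have t2 : ∫ x in (1 / 1000 : ℝ)..(1 / 3), ∫ z in x..((1 - x) / 2), f₂ x z =
      ∫ x in (1 / 1000 : ℝ)..T, ∫ z in x..((1 - x) / 2), (g T - g x) * P (x + z) := by
    rw [← intervalIntegral.integral_add_adjacent_intervals
      ((hi' f₂ c₂).intervalIntegrable (1 / 1000) T) ((hi' f₂ c₂).intervalIntegrable T (1 / 3)),
      nc12_zero (y := T) (u := 1 / 3) (by linarith) (fun x hx _ => by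
        refine (intervalIntegral.integral_congr (g := fun _ => (0 : ℝ)) fun z _ => ?_).trans
          intervalIntegral.integral_zero
        show (g T - g (min x T)) * P (x + z) = 0
        rw [nc12_min hx, zero_mul]), add_zero]
    refine intervalIntegral.integral_congr fun x hx => ?_
    rw [Set.uIcc_of_le (by linarith)] at hx
    refine intervalIntegral.integral_congr fun z _ => ?_
    show (g T - g (min x T)) * P (x + z) = _
    rw [min_eq_left hx.2]
  -- third term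
  have t3 : ∫ x in (1 / 1000 : ℝ)..(1 / 3), ∫ z in x..((1 - x) / 2), f₃ x z =
      ∫ x in (1 / 1000 : ℝ)..T, ∫ z in x..T, (g T - g z) * P (x + z) := by
    rw [← intervalIntegral.integral_add_adjacent_intervals
      ((hi' f₃ c₃).intervalIntegrable (1 / 1000) T) ((hi' f₃ c₃).intervalIntegrable T (1 / 3)),
      nc12_zero (y := T) (u := 1 / 3) (by linarith) (fun x hx hx' =>
        nc12_zero (by linarith) (fun z hz _ => by
          show (g T - g (min z T)) * P (x + z) = 0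
          rw [nc12_min (hx.trans hz), zero_mul])), add_zero]
    refine intervalIntegral.integral_congr fun x hx => ?_
    rw [Set.uIcc_of_le (by linarith)] at hx
    show ∫ z in x..((1 - x) / 2), f₃ x z = _
    rw [nc12_cut (hc f₃ c₃ x) (Z := T) (by linarith [hx.2]) (fun z hz => by
      show (g T - g (min z T)) * P (x + z) = 0
      rw [nc12_min hz, zero_mul])]
    refine intervalIntegral.integral_congr fun z hz => ?_
    rw [Set.uIcc_of_le hx.2] at hz
    show (g T - g (min z T)) * P (x + z) = _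
    rw [min_eq_left hz.2]
  -- fourth term
  have t4 : ∫ x in (1 / 1000 : ℝ)..(1 / 3), ∫ z in x..((1 - x) / 2), f₄ x z =
      ∫ x in (1 / 1000 : ℝ)..(T / 2), ∫ z in x..(T - x), (g T - g (x + z)) * P (x + z) := by
    rw [← intervalIntegral.integral_add_adjacent_intervals
      ((hi' f₄ c₄).intervalIntegrable (1 / 1000) (T / 2))
      ((hi' f₄ c₄).intervalIntegrable (T / 2) (1 / 3)),
      nc12_zero (y := T / 2) (u := 1 / 3) (by linarith) (fun x hx hx' =>
        nc12_zero (by linarith) (fun z hz _ => by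
          show (g T - g (min (x + z) T)) * P (x + z) = 0
          rw [nc12_min (by linarith), zero_mul])), add_zero]
    refine intervalIntegral.integral_congr fun x hx => ?_
    rw [Set.uIcc_of_le (by linarith)] at hx
    show ∫ z in x..((1 - x) / 2), f₄ x z = _
    rw [nc12_cut (hc f₄ c₄ x) (Z := T - x) (by linarith [hx.1, hx.2]) (fun z hz => by
      show (g T - g (min (x + z) T)) * P (x + z) = 0
      rw [nc12_min (by linarith), zero_mul])]
    refine intervalIntegral.integral_congr fun z hz => ?_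
    rw [Set.uIcc_of_le (by linarith [hx.2])] at hz
    show (g T - g (min (x + z) T)) * P (x + z) = _
    rw [min_eq_left (by linarith [hz.2])]
  rw [t2, t3, t4]
  unfold Ps2
  rfl

end Pool.Agent.PU
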