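import Pool.Agent.PU.NumD
import Pool.Agent.PTN.DD3
import Pool.Agent.PTN.DDm
import Pool.Agent.PTN.HB

set_option autoImplicit false

/-!
# PU / NC3: `Psi 3` as a sum of iterated integrals
-/

namespace Pool.Agent.PU

open Finset Filter Pool.Agent.MT Pool.Agent.PT MeasureTheory

/-- cutting an integral -/
theorem NC3_cut {f f' : ℝ → ℝ} {a c b : ℝ} (hac : a ≤ c) (hcb : c ≤ b)
    (h0 : ∀ x, c ≤ x → x ≤ b → f x = 0) (h1 : ∀ x, a ≤ x → x ≤ c → f x = f' x) :
    ∫ x in a..b, f x = ∫ x in a..c, f' x := by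
  have h2 : ∫ x in a..b, f x = ∫ x in a..c, f x := by
    rw [intervalIntegral.integral_of_le (hac.trans hcb), intervalIntegral.integral_of_le hac]
    refine setIntegral_eq_of_subset_of_forall_sdiff_eq_zero measurableSet_Ioc
      (Set.Ioc_subset_Ioc_right hcb) ?_
    intro x hx
    have h3 : c < x := by
      by_contra h4
      exact hx.2 ⟨hx.1.1, not_lt.1 h4⟩
    exact h0 x h3.le hx.1.2
  rw [h2]
  refine intervalIntegral.integral_congr fun x hx => ?_
  rw [Set.uIcc_of_le hac] at hx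
  exact h1 x hx.1 hx.2

/-- a vanishing integral -/
theorem NC3_zero {f : ℝ → ℝ} {a b : ℝ} (hab : a ≤ b) (h0 : ∀ x, a ≤ x → x ≤ b → f x = 0) :
    ∫ x in a..b, f x = 0 := by
  rw [← intervalIntegral.integral_zero (a := a) (b := b)]
  refine intervalIntegral.integral_congr fun x hx => ?_
  rw [Set.uIcc_of_le hab] at hx
  exact h0 x hx.1 hx.2

/-- equal integrands -/
theorem NC3_congr {f f' : ℝ → ℝ} {a b : ℝ} (hab : a ≤ b) (h0 : ∀ x, a ≤ x → x ≤ b → f x = f' x) :
    ∫ x in a..b, f x = ∫ x in a..b, f' x := by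
  refine intervalIntegral.integral_congr fun x hx => ?_
  rw [Set.uIcc_of_le hab] at hx
  exact h0 x hx.1 hx.2

theorem NC3_rho : ρ0 ≤ 1 / 4 ∧ 3 / 1000 ≤ ρ0 / 4 := by
  unfold ρ0
  constructor <;> norm_num

/-- iterated integrals over `DD` -/
theorem NC3_iter (κ : ℝ → ℝ → ℝ → ℝ) (hκ : Continuous fun q : ℝ × ℝ × ℝ => κ q.1 q.2.1 q.2.2) :
    ∫ u in DD ρ0 3, κ (u 0) (u 1) (u 2) =
      ∫ x in (1 / 1000 : ℝ)..(1 / 4), ∫ y in x..((1 - x) / 3), ∫ z in y..((1 - x - y) / 2),
        κ x y z := by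
  have hc : Continuous fun q : ℝ × ℝ × ℝ =>
      κ q.1 q.2.1 q.2.2 * (q.1 * q.2.1 * q.2.2 * (1 - q.1 - q.2.1 - q.2.2)) :=
    hκ.mul (by fun_prop)
  have h := PTN.thm_DD3 ρ0 (fun x y z => κ x y z * (x * y * z * (1 - x - y - z))) NC3_rho.1 hc
  have h1 : ∫ u in DD ρ0 3, κ (u 0) (u 1) (u 2) =
      ∫ u in DD ρ0 3, (fun x y z => κ x y z * (x * y * z * (1 - x - y - z))) (u 0) (u 1) (u 2) *
        PT.dens u := by
    refine setIntegral_congr_fun (PTN.ddm_meas 3 ρ0) fun u hu => ?_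
    obtain ⟨hu1, -, -, hu4⟩ := hu
    have hρ : 0 < ρ0 := by unfold ρ0; norm_num
    have hp : ∀ i, 0 < u i := fun i => lt_trans (by norm_num) (hu1 i)
    have h0 := hp 0
    have h1 := hp 1
    have h2 := hp 2
    rw [Fin.sum_univ_three] at hu4
    have h3 : 0 < 1 - u 0 - u 1 - u 2 := by linarith
    simp only [PT.dens, Fin.prod_univ_three, Fin.sum_univ_three]
    rw [show 1 - (u 0 + u 1 + u 2) = 1 - u 0 - u 1 - u 2 by ring]
    have h4 : u 0 * u 1 * u 2 * (1 - u 0 - u 1 - u 2) ≠ 0 := by positivity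
    rw [mul_assoc, mul_one_div_cancel h4, mul_one]
  rw [h1, h]
  refine NC3_congr (by norm_num) fun x hx hx' => ?_
  refine NC3_congr (by linarith) fun y hy hy' => ?_
  refine NC3_congr (by linarith) fun z hz hz' => ?_
  have h2 : 0 < x := by linarith
  have h3 : 0 < y := by linarith
  have h4 : 0 < z := by linarith
  have h5 : 0 < 1 - x - y - z := by linarith
  have h6 : x * y * z * (1 - x - y - z) ≠ 0 := by positivity
  exact mul_div_cancel_right₀ _ h6

theorem NC3_int (κ : ℝ → ℝ → ℝ → ℝ) (hκ : Continuous fun q : ℝ × ℝ × ℝ => κ q.1 q.2.1 q.2.2) :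
    Integrable (fun u : Fin 3 → ℝ => κ (u 0) (u 1) (u 2)) (volume.restrict (DD ρ0 3)) := by
  have h1 : Continuous (fun u : Fin 3 → ℝ => κ (u 0) (u 1) (u 2)) :=
    hκ.comp (f := fun u : Fin 3 → ℝ => (u 0, u 1, u 2)) (by fun_prop)
  have hD : DD ρ0 3 ⊆ Set.Icc (0 : Fin 3 → ℝ) 1 := fun u hu =>
    ⟨fun i => (((PTN.thm_DDm 3 ρ0 (by unfold ρ0; norm_num)).2.2.1 u hu i).1).le,
      fun i => (((PTN.thm_DDm 3 ρ0 (by unfold ρ0; norm_num)).2.2.1 u hu i).2).le⟩
  exact (h1.continuousOn.integrableOn_compact isCompact_Icc).mono_set hD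

/-- the integrand of a term -/
noncomputable def NC3_t (g P : ℝ → ℝ) (T : ℝ) (l : ℝ → ℝ → ℝ → ℝ) (x y z : ℝ) : ℝ :=
  (g T - g (min (l x y z) T)) * P (x + y + z)

theorem NC3_tc {g P : ℝ → ℝ} (hg : Continuous g) (hP : Continuous P) (T : ℝ)
    (l : ℝ → ℝ → ℝ → ℝ) (hl : Continuous fun q : ℝ × ℝ × ℝ => l q.1 q.2.1 q.2.2) :
    Continuous fun q : ℝ × ℝ × ℝ => NC3_t g P T l q.1 q.2.1 q.2.2 := by
  unfold NC3_t
  refine (continuous_const.sub (hg.comp (hl.min continuous_const))).mul (hP.comp ?_)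
  fun_prop

theorem NC3_t0 (g P : ℝ → ℝ) (T : ℝ) (l : ℝ → ℝ → ℝ → ℝ) (x y z : ℝ) (h : T ≤ l x y z) :
    NC3_t g P T l x y z = 0 := by
  unfold NC3_t
  rw [min_eq_right h, sub_self, zero_mul]

theorem NC3_t1 (g P : ℝ → ℝ) (T : ℝ) (l : ℝ → ℝ → ℝ → ℝ) (x y z : ℝ) (h : l x y z ≤ T) :
    NC3_t g P T l x y z = (g T - g (l x y z)) * P (x + y + z) := by
  unfold NC3_t
  rw [min_eq_left h]

theorem NC3_sum {g P : ℝ → ℝ} (hg : Continuous g) (hP : Continuous P) (T : ℝ) :
    Psi 3 g P T =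
      2 * ((∫ u in DD ρ0 3, NC3_t g P T (fun _ _ _ => 0) (u 0) (u 1) (u 2)) -
        (∫ u in DD ρ0 3, NC3_t g P T (fun x _ _ => x) (u 0) (u 1) (u 2)) -
        (∫ u in DD ρ0 3, NC3_t g P T (fun _ y _ => y) (u 0) (u 1) (u 2)) -
        (∫ u in DD ρ0 3, NC3_t g P T (fun _ _ z => z) (u 0) (u 1) (u 2)) +
        (∫ u in DD ρ0 3, NC3_t g P T (fun x y _ => x + y) (u 0) (u 1) (u 2)) +
        (∫ u in DD ρ0 3, NC3_t g P T (fun x _ z => x + z) (u 0) (u 1) (u 2)) +
        (∫ u in DD ρ0 3, NC3_t g P T (fun _ y z => y + z) (u 0) (u 1) (u 2)) -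
        (∫ u in DD ρ0 3, NC3_t g P T (fun x y z => x + y + z) (u 0) (u 1) (u 2))) -
      ∫ u in DD ρ0 3, (fun x y z => x * y * z * (1 - x - y - z) * P (x + y + z) ^ 2)
        (u 0) (u 1) (u 2) := by
  have hI := fun l hl => NC3_int _ (NC3_tc hg hP T l hl)
  have i0 := hI (fun _ _ _ => 0) continuous_const
  have ix := hI (fun x _ _ => x) (by fun_prop)
  have iy := hI (fun _ y _ => y) (by fun_prop)
  have iz := hI (fun _ _ z => z) (by fun_prop)
  have ixy := hI (fun x y _ => x + y) (by fun_prop)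
  have ixz := hI (fun x _ z => x + z) (by fun_prop)
  have iyz := hI (fun _ y z => y + z) (by fun_prop)
  have ixyz := hI (fun x y z => x + y + z) (by fun_prop)
  have hP2 : Continuous fun q : ℝ × ℝ × ℝ => (fun x y z : ℝ =>
      x * y * z * (1 - x - y - z) * P (x + y + z) ^ 2) q.1 q.2.1 q.2.2 := by
    have h1 : Continuous fun q : ℝ × ℝ × ℝ => P (q.1 + q.2.1 + q.2.2) := hP.comp (by fun_prop)
    have h2 : Continuous fun q : ℝ × ℝ × ℝ => q.1 * q.2.1 * q.2.2 * (1 - q.1 - q.2.1 - q.2.2) := by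
      fun_prop
    exact h2.mul (h1.pow 2)
  have iq := NC3_int (fun x y z => x * y * z * (1 - x - y - z) * P (x + y + z) ^ 2) hP2
  have h1 := i0.sub ix
  have h2 := h1.sub iy
  have h3 := h2.sub iz
  have h4 := h3.add ixy
  have h5 := h4.add ixz
  have h6 := h5.add iyz
  have h7 := h6.sub ixyz
  rw [← integral_sub' i0 ix, ← integral_sub' h1 iy, ← integral_sub' h2 iz,
    ← integral_add' h3 ixy, ← integral_add' h4 ixz, ← integral_add' h5 iyz,
    ← integral_sub' h6 ixyz, ← integral_const_mul, ← integral_sub (h7.const_mul 2) iq]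
  unfold Psi
  refine integral_congr_ae (Eventually.of_forall fun u => ?_)
  simp only [Dg, PTN.hb_sum3, NC3_t, Fin.prod_univ_three, Fin.sum_univ_three, Pi.sub_apply,
    Pi.add_apply]
  rw [show (({0, 1} : Finset (Fin 3))).card = 2 by decide,
    show (({0, 2} : Finset (Fin 3))).card = 2 by decide,
    show (({1, 2} : Finset (Fin 3))).card = 2 by decide,
    show (({0, 1, 2} : Finset (Fin 3))).card = 3 by decide,
    Finset.sum_pair (show (0 : Fin 3) ≠ 1 by decide), Finset.sum_pair (show (0 : Fin 3) ≠ 2 by decide),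
    Finset.sum_pair (show (1 : Fin 3) ≠ 2 by decide),
    Finset.sum_insert (show (0 : Fin 3) ∉ ({1, 2} : Finset (Fin 3)) by decide),
    Finset.sum_pair (show (1 : Fin 3) ≠ 2 by decide)]
  simp only [Finset.sum_empty, Finset.card_empty, pow_zero, one_mul, Finset.sum_singleton,
    Finset.card_singleton, pow_one]
  rw [← add_assoc (u 0) (u 1) (u 2)]
  ring

theorem thm_C3 : St_C3 := by
  intro g P T hg hP hg0 hT1 hT2
  have hρ := NC3_rho
  have hT3 : 3 / 1000 ≤ T := hρ.2.trans hT1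
  have hT4 : T ≤ 1 / 4 := hT2.trans hρ.1
  rw [NC3_sum hg hP T]
  have hit := fun l hl => NC3_iter _ (NC3_tc hg hP T l hl)
  have hP2 : Continuous fun q : ℝ × ℝ × ℝ => (fun x y z : ℝ =>
      x * y * z * (1 - x - y - z) * P (x + y + z) ^ 2) q.1 q.2.1 q.2.2 := by
    have h1 : Continuous fun q : ℝ × ℝ × ℝ => P (q.1 + q.2.1 + q.2.2) := hP.comp (by fun_prop)
    have h2 : Continuous fun q : ℝ × ℝ × ℝ => q.1 * q.2.1 * q.2.2 * (1 - q.1 - q.2.1 - q.2.2) := by
      fun_prop
    exact h2.mul (h1.pow 2)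
  rw [hit (fun _ _ _ => 0) continuous_const, hit (fun x _ _ => x) (by fun_prop),
    hit (fun _ y _ => y) (by fun_prop), hit (fun _ _ z => z) (by fun_prop),
    hit (fun x y _ => x + y) (by fun_prop), hit (fun x _ z => x + z) (by fun_prop),
    hit (fun _ y z => y + z) (by fun_prop), hit (fun x y z => x + y + z) (by fun_prop),
    NC3_iter (fun x y z => x * y * z * (1 - x - y - z) * P (x + y + z) ^ 2) hP2]
  unfold Ps3
  have e0 : (∫ x in (1 / 1000 : ℝ)..(1 / 4), ∫ y in x..((1 - x) / 3),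
      ∫ z in y..((1 - x - y) / 2), NC3_t g P T (fun _ _ _ => 0) x y z) =
      ∫ x in (1 / 1000 : ℝ)..(1 / 4), ∫ y in x..((1 - x) / 3), ∫ z in y..((1 - x - y) / 2),
        g T * P (x + y + z) := by
    refine NC3_congr (by norm_num) fun x hx hx' => ?_
    refine NC3_congr (by linarith) fun y hy hy' => ?_
    refine NC3_congr (by linarith) fun z hz hz' => ?_
    rw [NC3_t1 _ _ _ _ _ _ _ (by linarith), hg0, sub_zero]
  have e1 : (∫ x in (1 / 1000 : ℝ)..(1 / 4), ∫ y in x..((1 - x) / 3),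
      ∫ z in y..((1 - x - y) / 2), NC3_t g P T (fun x _ _ => x) x y z) =
      ∫ x in (1 / 1000 : ℝ)..T, ∫ y in x..((1 - x) / 3), ∫ z in y..((1 - x - y) / 2),
        (g T - g x) * P (x + y + z) := by
    refine NC3_cut (by linarith) hT4 (fun x hx hx' => ?_) fun x hx hx' => ?_
    · refine NC3_zero (by linarith) fun y hy hy' => ?_
      refine NC3_zero (by linarith) fun z hz hz' => ?_
      exact NC3_t0 _ _ _ _ _ _ _ hx
    · refine NC3_congr (by linarith) fun y hy hy' => ?_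
      refine NC3_congr (by linarith) fun z hz hz' => ?_
      exact NC3_t1 _ _ _ _ _ _ _ hx'
  have e2 : (∫ x in (1 / 1000 : ℝ)..(1 / 4), ∫ y in x..((1 - x) / 3),
      ∫ z in y..((1 - x - y) / 2), NC3_t g P T (fun _ y _ => y) x y z) =
      ∫ x in (1 / 1000 : ℝ)..T, ∫ y in x..T, ∫ z in y..((1 - x - y) / 2),
        (g T - g y) * P (x + y + z) := by
    refine NC3_cut (by linarith) hT4 (fun x hx hx' => ?_) fun x hx hx' => ?_
    · refine NC3_zero (by linarith) fun y hy hy' => ?_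
      refine NC3_zero (by linarith) fun z hz hz' => ?_
      exact NC3_t0 _ _ _ _ _ _ _ (hx.trans hy)
    · refine NC3_cut hx' (by linarith) (fun y hy hy' => ?_) fun y hy hy' => ?_
      · refine NC3_zero (by linarith) fun z hz hz' => ?_
        exact NC3_t0 _ _ _ _ _ _ _ hy
      · refine NC3_congr (by linarith) fun z hz hz' => ?_
        exact NC3_t1 _ _ _ _ _ _ _ hy'
  have e3 : (∫ x in (1 / 1000 : ℝ)..(1 / 4), ∫ y in x..((1 - x) / 3),
      ∫ z in y..((1 - x - y) / 2), NC3_t g P T (fun _ _ z => z) x y z) =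
      ∫ x in (1 / 1000 : ℝ)..T, ∫ y in x..T, ∫ z in y..T, (g T - g z) * P (x + y + z) := by
    refine NC3_cut (by linarith) hT4 (fun x hx hx' => ?_) fun x hx hx' => ?_
    · refine NC3_zero (by linarith) fun y hy hy' => ?_
      refine NC3_zero (by linarith) fun z hz hz' => ?_
      exact NC3_t0 _ _ _ _ _ _ _ ((hx.trans hy).trans hz)
    · refine NC3_cut hx' (by linarith) (fun y hy hy' => ?_) fun y hy hy' => ?_
      · refine NC3_zero (by linarith) fun z hz hz' => ?_
        exact NC3_t0 _ _ _ _ _ _ _ (hy.trans hz)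
      · refine NC3_cut hy' (by linarith) (fun z hz hz' => ?_) fun z hz hz' => ?_
        · exact NC3_t0 _ _ _ _ _ _ _ hz
        · exact NC3_t1 _ _ _ _ _ _ _ hz'
  have e4 : (∫ x in (1 / 1000 : ℝ)..(1 / 4), ∫ y in x..((1 - x) / 3),
      ∫ z in y..((1 - x - y) / 2), NC3_t g P T (fun x y _ => x + y) x y z) =
      ∫ x in (1 / 1000 : ℝ)..(T / 2), ∫ y in x..(T - x), ∫ z in y..((1 - x - y) / 2),
        (g T - g (x + y)) * P (x + y + z) := by
    refine NC3_cut (by linarith) (by linarith) (fun x hx hx' => ?_) fun x hx hx' => ?_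
    · refine NC3_zero (by linarith) fun y hy hy' => ?_
      refine NC3_zero (by linarith) fun z hz hz' => ?_
      exact NC3_t0 _ _ _ _ _ _ _ (by linarith)
    · refine NC3_cut (by linarith) (by linarith) (fun y hy hy' => ?_) fun y hy hy' => ?_
      · refine NC3_zero (by linarith) fun z hz hz' => ?_
        exact NC3_t0 _ _ _ _ _ _ _ (by linarith)
      · refine NC3_congr (by linarith) fun z hz hz' => ?_
        exact NC3_t1 _ _ _ _ _ _ _ (by linarith)
  have e5 : (∫ x in (1 / 1000 : ℝ)..(1 / 4), ∫ y in x..((1 - x) / 3),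
      ∫ z in y..((1 - x - y) / 2), NC3_t g P T (fun x _ z => x + z) x y z) =
      ∫ x in (1 / 1000 : ℝ)..(T / 2), ∫ y in x..(T - x), ∫ z in y..(T - x),
        (g T - g (x + z)) * P (x + y + z) := by
    refine NC3_cut (by linarith) (by linarith) (fun x hx hx' => ?_) fun x hx hx' => ?_
    · refine NC3_zero (by linarith) fun y hy hy' => ?_
      refine NC3_zero (by linarith) fun z hz hz' => ?_
      exact NC3_t0 _ _ _ _ _ _ _ (by linarith)
    · refine NC3_cut (by linarith) (by linarith) (fun y hy hy' => ?_) fun y hy hy' => ?_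
      · refine NC3_zero (by linarith) fun z hz hz' => ?_
        exact NC3_t0 _ _ _ _ _ _ _ (by linarith)
      · refine NC3_cut (by linarith) (by linarith) (fun z hz hz' => ?_) fun z hz hz' => ?_
        · exact NC3_t0 _ _ _ _ _ _ _ (by linarith)
        · exact NC3_t1 _ _ _ _ _ _ _ (by linarith)
  have e6 : (∫ x in (1 / 1000 : ℝ)..(1 / 4), ∫ y in x..((1 - x) / 3),
      ∫ z in y..((1 - x - y) / 2), NC3_t g P T (fun _ y z => y + z) x y z) =
      ∫ x in (1 / 1000 : ℝ)..(T / 2), ∫ y in x..(T / 2), ∫ z in y..(T - y),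
        (g T - g (y + z)) * P (x + y + z) := by
    refine NC3_cut (by linarith) (by linarith) (fun x hx hx' => ?_) fun x hx hx' => ?_
    · refine NC3_zero (by linarith) fun y hy hy' => ?_
      refine NC3_zero (by linarith) fun z hz hz' => ?_
      exact NC3_t0 _ _ _ _ _ _ _ (by linarith)
    · refine NC3_cut (by linarith) (by linarith) (fun y hy hy' => ?_) fun y hy hy' => ?_
      · refine NC3_zero (by linarith) fun z hz hz' => ?_
        exact NC3_t0 _ _ _ _ _ _ _ (by linarith)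
      · refine NC3_cut (by linarith) (by linarith) (fun z hz hz' => ?_) fun z hz hz' => ?_
        · exact NC3_t0 _ _ _ _ _ _ _ (by linarith)
        · exact NC3_t1 _ _ _ _ _ _ _ (by linarith)
  have e7 : (∫ x in (1 / 1000 : ℝ)..(1 / 4), ∫ y in x..((1 - x) / 3),
      ∫ z in y..((1 - x - y) / 2), NC3_t g P T (fun x y z => x + y + z) x y z) =
      ∫ x in (1 / 1000 : ℝ)..(T / 3), ∫ y in x..((T - x) / 2), ∫ z in y..(T - x - y),
        (g T - g (x + y + z)) * P (x + y + z) := by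
    refine NC3_cut (by linarith) (by linarith) (fun x hx hx' => ?_) fun x hx hx' => ?_
    · refine NC3_zero (by linarith) fun y hy hy' => ?_
      refine NC3_zero (by linarith) fun z hz hz' => ?_
      exact NC3_t0 _ _ _ _ _ _ _ (by linarith)
    · refine NC3_cut (by linarith) (by linarith) (fun y hy hy' => ?_) fun y hy hy' => ?_
      · refine NC3_zero (by linarith) fun z hz hz' => ?_
        exact NC3_t0 _ _ _ _ _ _ _ (by linarith)
      · refine NC3_cut (by linarith) (by linarith) (fun z hz hz' => ?_) fun z hz hz' => ?_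
        · exact NC3_t0 _ _ _ _ _ _ _ (by linarith)
        · exact NC3_t1 _ _ _ _ _ _ _ (by linarith)
  rw [e0, e1, e2, e3, e4, e5, e6, e7]

end Pool.Agent.PU
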