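import Pool.Agent.PTN.Eng

set_option autoImplicit false

/-!
# PU: the certificate in rational arithmetic
-/

namespace Pool.Agent.PU

open Pool.Agent.PTN

/-- `ρ` -/
def rq : ℚ := 250 / 1001

section
variable {α : Type} [Ops α]

/-- `Ps1` -/
def en1 (g P : List ℚ) (T : α) : α :=
  let X : List α := XX
  let G : List α := CC (atQ g T)
  let p : List α := atQ P X
  sub (Ops.sc 2 (sub (intg (Ops.mul G p) (kk (1 / 1000)) (kk (1 / 2)))
      (intg (Ops.mul (sub G (atQ g X)) p) (kk (1 / 1000)) T)))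
    (intg (Ops.mul (Ops.mul X (sub Ops.one X)) (Ops.mul p p)) (kk (1 / 1000)) (kk (1 / 2)))

/-- double integral -/
def intg2 (p : List (List α)) (lo hi : List α) (a b : α) : α := intg (intg p lo hi) a b

/-- triple integral -/
def intg3 (p : List (List (List α))) (lo hi : List (List α)) (lo' hi' : List α) (a b : α) : α :=
  intg2 (intg p lo hi) lo' hi' a b

/-- `Ps2` -/
def en2 (g P : List ℚ) (T : α) : α :=
  let X : List (List α) := CC XX
  let Z : List (List α) := XX
  let G : List (List α) := CC (CC (atQ g T))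
  let p : List (List α) := atQ P (Ops.add X Z)
  let x : List α := XX
  let u : List α := Ops.sc (1 / 2) (sub Ops.one x)
  let t : List α := CC T
  let c : α := kk (1 / 1000)
  sub (Ops.sc 2 (Ops.add (sub (sub
      (intg2 (Ops.mul G p) x u c (kk (1 / 3)))
      (intg2 (Ops.mul (sub G (atQ g X)) p) x u c T))
      (intg2 (Ops.mul (sub G (atQ g Z)) p) x t c T))
      (intg2 (Ops.mul (sub G (atQ g (Ops.add X Z))) p) x (sub t x) c (Ops.sc (1 / 2) T))))
    (intg2 (Ops.mul (Ops.mul (Ops.mul X Z) (sub (sub Ops.one X) Z)) (Ops.mul p p)) x u c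
      (kk (1 / 3)))

/-- `Ps3` -/
def en3 (g P : List ℚ) (T : α) : α :=
  let X : List (List (List α)) := CC (CC XX)
  let Y : List (List (List α)) := CC XX
  let Z : List (List (List α)) := XX
  let G : List (List (List α)) := CC (CC (CC (atQ g T)))
  let p : List (List (List α)) := atQ P (Ops.add (Ops.add X Y) Z)
  let x : List α := XX
  let x' : List (List α) := CC XX
  let y' : List (List α) := XX
  let u : List α := Ops.sc (1 / 3) (sub Ops.one x)
  let v : List (List α) := Ops.sc (1 / 2) (sub (sub Ops.one x') y')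
  let t : List α := CC T
  let t' : List (List α) := CC (CC T)
  let c : α := kk (1 / 1000)
  let d := fun e : List (List (List α)) => Ops.mul (sub G (atQ g e)) p
  sub (Ops.sc 2 (sub (Ops.add (Ops.add (Ops.add (sub (sub (sub
      (intg3 (Ops.mul G p) y' v x u c (kk (1 / 4)))
      (intg3 (d X) y' v x u c T))
      (intg3 (d Y) y' v x t c T))
      (intg3 (d Z) y' t' x t c T))
      (intg3 (d (Ops.add X Y)) y' v x (sub t x) c (Ops.sc (1 / 2) T)))
      (intg3 (d (Ops.add X Z)) y' (sub t' x') x (sub t x) c (Ops.sc (1 / 2) T)))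
      (intg3 (d (Ops.add Y Z)) y' (sub t' y') x (Ops.sc (1 / 2) t) c (Ops.sc (1 / 2) T)))
      (intg3 (d (Ops.add (Ops.add X Y) Z)) y' (sub (sub t' x') y') x (Ops.sc (1 / 2) (sub t x)) c
        (Ops.sc (1 / 3) T))))
    (intg3 (Ops.mul (Ops.mul (Ops.mul (Ops.mul X Y) Z) (sub (sub (sub Ops.one X) Y) Z))
      (Ops.mul p p)) y' v x u c (kk (1 / 4)))

end

/-- the outer integral, `∫ (ρ - b) wt(b)² φ(Tn b) db` -/
def outT (wt : List ℚ) (φ : List ℚ → List ℚ) : ℚ :=
  let w : List ℚ := Ops.mul [rq, -1] (Ops.mul wt wt)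
  intg (Ops.mul w (φ [rq])) 0 (rq / 4) + intg (Ops.mul w (φ [5 / 4 * rq, -1])) (rq / 4) rq

/-- `ga1` -/
def gq1 : List ℚ := [0, 1, -1 / (2 * rq)]

/-- `ga2` -/
def gq2 : List ℚ := [0, 1, -1 / rq, 1 / (3 * rq ^ 2)]

/-- weight for `F` -/
def wq1 : List ℚ := [1, -1 / rq]

/-- weight for `G` -/
def wq2 : List ℚ := [1]

/-- `∫_0^T (1 - t/ρ)^4 dt` -/
def iq4 (T : List ℚ) : List ℚ :=
  intg ([[1], [-4 / rq], [6 / rq ^ 2], [-4 / rq ^ 3], [1 / rq ^ 4]] : List (List ℚ)) [] T

/-- the integrand of `II PF` as a polynomial in `b` (inner list) and `t` (outer list) -/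
def fq : List (List (List ℚ)) :=
  let B : List (List (List ℚ)) := CC XX
  let Z : List (List (List ℚ)) := XX
  let b := sub Ops.one (Ops.sc (1 / rq) B)
  let z := sub Ops.one (Ops.sc (1 / rq) Z)
  Ops.mul (Ops.mul b b) (Ops.mul z z)

/-- `II PF ρ0` -/
def iqF : ℚ :=
  intg (Ops.add
      (intg2 fq Ops.zero (CC (sub (kk rq) XX)) Ops.zero (Ops.add XX (kk (rq / 4))))
      (intg2 fq Ops.zero (sub (kk (5 / 4 * rq)) XX) (Ops.add XX (kk (rq / 4))) (kk rq)) : List ℚ)
    0 (3 / 4 * rq) +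
  intg (intg2 fq Ops.zero (CC (sub (kk rq) XX)) Ops.zero (kk rq) : List ℚ) (3 / 4 * rq) rq

/-- the prime face -/
def pq : ℚ :=
  let A : List (List ℚ) := sub Ops.one (Ops.sc (1 / rq) (CC XX))
  let B : List (List ℚ) := sub Ops.one (Ops.sc (1 / rq) XX)
  let f := Ops.sc rq (Ops.mul A (Ops.mul B B))
  intg2 (Ops.mul f f) Ops.zero (sub (CC (3 / 4 * rq)) XX) 0 (3 / 4 * rq)

/-- the polynomials `P` -/
def pF1 : List ℚ := [11 / 10, -23 / 10, 21 / 10]
def pF2 : List ℚ := [13 / 2, -49 / 10]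
def pG1 : List ℚ := [1, -31 / 10, 18 / 5]
def pG2 : List ℚ := [7, -8]
def pG3 : List ℚ := [62, -58]

theorem cert : iqF + outT wq2 iq4 < pq +
    (outT wq1 (fun T => Ops.mul (atQ gq1 T) (atQ gq1 T)) + outT wq1 (en1 gq1 pF1) +
      outT wq1 (en2 gq1 pF2)) +
    (outT wq2 (fun T => Ops.mul (atQ gq2 T) (atQ gq2 T)) + outT wq2 (en1 gq2 pG1) +
      outT wq2 (en2 gq2 pG2) + outT wq2 (en3 gq2 pG3)) := by
  decide +kernel

end Pool.Agent.PU
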