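import Pool.Agent.PU.NumD
import Pool.Agent.PTN.Swap
import Pool.Agent.PTN.DDm

set_option autoImplicit false

/-!
# PU / NE: the lower bound for `QQ`
-/

namespace Pool.Agent.PU

open Finset Filter Pool.Agent.MT Pool.Agent.PT MeasureTheory

theorem NE_Tn : Continuous Tn := by
  unfold Tn
  fun_prop

theorem NE_Dg {n : ℕ} {g : ℝ → ℝ} (hg : Continuous g) :
    Continuous fun q : (Fin n → ℝ) × ℝ × ℝ => Dg g (Tn q.2.2) q.1 := by
  unfold Dg
  have hT : Continuous fun q : (Fin n → ℝ) × ℝ × ℝ => Tn q.2.2 :=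
    NE_Tn.comp (continuous_snd.comp continuous_snd)
  refine continuous_finset_sum _ fun S _ => continuous_const.mul ?_
  refine (hg.comp hT).sub (hg.comp (Continuous.min ?_ hT))
  exact continuous_finset_sum _ fun i _ => (continuous_apply i).comp continuous_fst

/-- double integrals with a parameter are continuous -/
theorem NE_par {n : ℕ} {κ : (Fin n → ℝ) → ℝ → ℝ → ℝ}
    (hκ : Continuous fun q : (Fin n → ℝ) × ℝ × ℝ => κ q.1 q.2.1 q.2.2) (σ : ℝ) :
    Continuous fun u : Fin n → ℝ => ∫ a in (0 : ℝ)..σ, ∫ b in (0 : ℝ)..(σ - a), κ u a b := by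
  have h1 : Continuous (fun q : (Fin n → ℝ) × ℝ => ∫ b in (0 : ℝ)..(σ - q.2), κ q.1 q.2 b) := by
    have h2 : Continuous (Function.uncurry
        (fun (q : (Fin n → ℝ) × ℝ) (b : ℝ) => κ q.1 q.2 b)) := by
      exact hκ.comp ((continuous_fst.comp continuous_fst).prodMk
        ((continuous_snd.comp continuous_fst).prodMk continuous_snd))
    exact intervalIntegral.continuous_parametric_intervalIntegral_of_continuous h2
      (continuous_const.sub continuous_snd)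
  exact intervalIntegral.continuous_parametric_intervalIntegral_of_continuous' h1 0 σ

theorem NE_rho : 0 < ρ0 := by
  unfold ρ0
  norm_num

theorem NE_sub (n : ℕ) : DD ρ0 n ⊆ Set.Icc (0 : Fin n → ℝ) 1 := fun u hu =>
  ⟨fun i => (((PTN.thm_DDm n ρ0 NE_rho).2.2.1 u hu i).1).le,
    fun i => (((PTN.thm_DDm n ρ0 NE_rho).2.2.1 u hu i).2).le⟩

theorem NE_int {n : ℕ} {f : (Fin n → ℝ) → ℝ} (hf : Continuous f) :
    Integrable f (volume.restrict (DD ρ0 n)) :=
  (hf.continuousOn.integrableOn_compact isCompact_Icc).mono_set (NE_sub n)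

theorem thm_E : St_E := by
  intro P j g wt Q n hg hwt hQ hB0
  have hρ := NE_rho
  have hm := PTN.ddm_meas n ρ0
  have hden := PTN.thm_DDm n ρ0 hρ
  -- the lower integrand
  obtain ⟨κ, hκ⟩ : ∃ κ : (Fin n → ℝ) → ℝ → ℝ → ℝ, κ = fun u _ b =>
      wt b ^ 2 * (2 * Dg g (Tn b) u * Q (∑ i, u i) -
        Q (∑ i, u i) ^ 2 * ((∏ i, u i) * (1 - ∑ i, u i))) := ⟨_, rfl⟩
  obtain ⟨μ, hμ⟩ : ∃ μ : (Fin n → ℝ) → ℝ → ℝ → ℝ, μ = fun u _ b =>
      (wt b * Dg g (Tn b) u) ^ 2 := ⟨_, rfl⟩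
  have hcD := NE_Dg (n := n) hg
  have hcw : Continuous fun q : (Fin n → ℝ) × ℝ × ℝ => wt q.2.2 :=
    hwt.comp (continuous_snd.comp continuous_snd)
  have hs : Continuous fun u : Fin n → ℝ => ∑ i, u i :=
    continuous_finset_sum _ fun i _ => continuous_apply i
  have hp : Continuous fun u : Fin n → ℝ => ∏ i, u i :=
    continuous_finset_prod _ fun i _ => continuous_apply i
  have hκc : Continuous fun q : (Fin n → ℝ) × ℝ × ℝ => κ q.1 q.2.1 q.2.2 := by
    rw [hκ]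
    have hQs : Continuous fun q : (Fin n → ℝ) × ℝ × ℝ => Q (∑ i, q.1 i) :=
      (hQ.comp hs).comp continuous_fst
    have h1 : Continuous fun q : (Fin n → ℝ) × ℝ × ℝ => (∏ i, q.1 i) * (1 - ∑ i, q.1 i) :=
      (hp.comp continuous_fst).mul (continuous_const.sub (hs.comp continuous_fst))
    exact (hcw.pow 2).mul (((continuous_const.mul hcD).mul hQs).sub ((hQs.pow 2).mul h1))
  have hμc : Continuous fun q : (Fin n → ℝ) × ℝ × ℝ => μ q.1 q.2.1 q.2.2 := by
    rw [hμ]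
    exact (hcw.mul hcD).pow 2
  -- the swap
  have h1 := PTN.thm_Swap n (DD ρ0 n) (fun _ => 1) κ ρ0 1 hρ.le hm
    (fun u hu i => ⟨((hden.2.2.1 u hu i).1).le, ((hden.2.2.1 u hu i).2).le⟩) measurable_const
    (fun u _ => by simp) hκc
  have h2 : (∫ a in (0 : ℝ)..ρ0, ∫ b in (0 : ℝ)..(ρ0 - a), wt b ^ 2 * Psi n g Q (Tn b)) =
      ∫ a in (0 : ℝ)..ρ0, ∫ b in (0 : ℝ)..(ρ0 - a), ∫ u in DD ρ0 n, κ u a b * 1 := by
    refine intervalIntegral.integral_congr fun a _ => ?_
    refine intervalIntegral.integral_congr fun b _ => ?_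
    simp only [hκ, mul_one, Psi]
    rw [integral_const_mul]
  rw [h2, ← h1]
  unfold QQ
  -- the right side
  have h3 : ∀ u ∈ DD ρ0 n, JJ P ρ0 ρ0 j u * PT.dens u =
      (∫ a in (0 : ℝ)..ρ0, ∫ b in (0 : ℝ)..(ρ0 - a), μ u a b) * PT.dens u := by
    intro u hu
    congr 1
    unfold JJ
    refine intervalIntegral.integral_congr fun a ha => ?_
    rw [Set.uIcc_of_le hρ.le] at ha
    refine intervalIntegral.integral_congr fun b hb => ?_
    rw [Set.uIcc_of_le (by linarith [ha.2])] at hb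
    simp only [hμ]
    rw [hB0 u a b (fun i => ((hden.2.2.1 u hu i).1).le) ha.1 hb.1 (by linarith [hb.2])]
  rw [setIntegral_congr_fun hm h3]
  have hJc := NE_par hμc ρ0
  have hKc := NE_par hκc ρ0
  have hi1 : IntegrableOn (fun u : Fin n → ℝ =>
      (∫ a in (0 : ℝ)..ρ0, ∫ b in (0 : ℝ)..(ρ0 - a), κ u a b) * 1) (DD ρ0 n) :=
    NE_int (hKc.mul continuous_const)
  have hi2 : IntegrableOn (fun u : Fin n → ℝ =>
      (∫ a in (0 : ℝ)..ρ0, ∫ b in (0 : ℝ)..(ρ0 - a), μ u a b) * PT.dens u) (DD ρ0 n) := by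
    refine Integrable.mul_bdd (c := 1000 ^ n / ρ0) (NE_int hJc) hden.2.1.aestronglyMeasurable ?_
    filter_upwards [self_mem_ae_restrict hm] with u hu
    rw [Real.norm_eq_abs, abs_of_pos (hden.2.2.2 u hu).1]
    exact (hden.2.2.2 u hu).2
  refine setIntegral_mono_on hi1 hi2 hm fun u hu => ?_
  obtain ⟨hd1, -⟩ := hden.2.2.2 u hu
  rw [mul_one, ← intervalIntegral.integral_mul_const]
  have hk2 : Continuous (Function.uncurry fun a b : ℝ => κ u a b) :=
    hκc.comp (f := fun q : ℝ × ℝ => (u, q.1, q.2)) (by fun_prop)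
  have hm2 : Continuous (Function.uncurry fun a b : ℝ => μ u a b) :=
    hμc.comp (f := fun q : ℝ × ℝ => (u, q.1, q.2)) (by fun_prop)
  have hca : Continuous fun a : ℝ => ∫ b in (0 : ℝ)..(ρ0 - a), κ u a b :=
    intervalIntegral.continuous_parametric_intervalIntegral_of_continuous hk2
      (continuous_const.sub continuous_id)
  have hcb : Continuous fun a : ℝ => (∫ b in (0 : ℝ)..(ρ0 - a), μ u a b) * PT.dens u :=
    (intervalIntegral.continuous_parametric_intervalIntegral_of_continuous hm2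
      (continuous_const.sub continuous_id)).mul continuous_const
  refine intervalIntegral.integral_mono_on hρ.le (hca.intervalIntegrable _ _)
    (hcb.intervalIntegrable _ _) fun a ha => ?_
  rw [← intervalIntegral.integral_mul_const]
  have hcc : Continuous fun b : ℝ => κ u a b :=
    hκc.comp (f := fun b : ℝ => (u, a, b)) (by fun_prop)
  have hcd : Continuous fun b : ℝ => μ u a b * PT.dens u :=
    (hμc.comp (f := fun b : ℝ => (u, a, b)) (by fun_prop)).mul continuous_const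
  refine intervalIntegral.integral_mono_on (by linarith [ha.2]) (hcc.intervalIntegrable _ _)
    (hcd.intervalIntegrable _ _) fun b _ => ?_
  rw [hκ, hμ]
  simp only
  -- pointwise
  have hd2 : PT.dens u * ((∏ i, u i) * (1 - ∑ i, u i)) = 1 := by
    have h5 : PT.dens u = 1 / ((∏ i, u i) * (1 - ∑ i, u i)) := rfl
    have h6 : (∏ i, u i) * (1 - ∑ i, u i) ≠ 0 := by
      intro h7
      rw [h5, h7, div_zero] at hd1
      exact lt_irrefl _ hd1
    rw [h5, one_div_mul_cancel h6]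
  obtain ⟨e, he⟩ : ∃ e : ℝ, e = (∏ i, u i) * (1 - ∑ i, u i) := ⟨_, rfl⟩
  obtain ⟨d, hd⟩ : ∃ d : ℝ, d = PT.dens u := ⟨_, rfl⟩
  obtain ⟨x, hx⟩ : ∃ x : ℝ, x = Dg g (Tn b) u := ⟨_, rfl⟩
  obtain ⟨q, hq⟩ : ∃ q : ℝ, q = Q (∑ i, u i) := ⟨_, rfl⟩
  rw [← he, ← hd] at hd2
  rw [← hd] at hd1
  rw [← he, ← hd, ← hx, ← hq]
  have h7 : 2 * x * q - q ^ 2 * e ≤ x ^ 2 * d := by
    have h8 : x ^ 2 * d - (2 * x * q - q ^ 2 * e) = d * (x - q * e) ^ 2 := by
      have h9 : q ^ 2 * e = q ^ 2 * e * (d * e) := by rw [hd2, mul_one]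
      have h10 : 2 * x * q = 2 * x * q * (d * e) := by rw [hd2, mul_one]
      rw [h10, h9]
      ring
    have h11 : 0 ≤ d * (x - q * e) ^ 2 := mul_nonneg hd1.le (sq_nonneg _)
    linarith
  calc wt b ^ 2 * (2 * x * q - q ^ 2 * e) ≤ wt b ^ 2 * (x ^ 2 * d) :=
        mul_le_mul_of_nonneg_left h7 (sq_nonneg _)
    _ = (wt b * x) ^ 2 * d := by ring

end Pool.Agent.PU
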