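import Pool.Agent.PU.NumD
import Pool.Agent.PTN.DD1

set_option autoImplicit false

/-!
# PU: the term `n = 0`, and a double integral over a triangle

Author helper5.
-/

namespace Pool.Agent.PU

open Finset Filter Pool.Agent.MT Pool.Agent.PT Pool.Agent.PTN MeasureTheory

theorem rho0_pos : 0 < ρ0 := by
  unfold ρ0
  norm_num

theorem Tn_ge (b : ℝ) (hb : b ≤ ρ0) : ρ0 / 4 ≤ Tn b := by
  have h := rho0_pos
  unfold Tn
  refine le_min ?_ ?_ <;> linarith

theorem Dg_zero (g : ℝ → ℝ) (hg : g 0 = 0) (T : ℝ) (hT : 0 ≤ T) (u : Fin 0 → ℝ) :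
    Dg g T u = g T := by
  unfold Dg
  rw [Fintype.sum_unique]
  have h1 : (default : Finset (Fin 0)) = ∅ := rfl
  rw [h1, card_empty, pow_zero, one_mul, sum_empty, min_eq_left hT, hg, sub_zero]

theorem thm_E0 : St_E0 := by
  intro P j g wt hg h
  have hρ := rho0_pos
  obtain ⟨k, hk⟩ : ∃ k : ℝ, ∀ u : Fin 0 → ℝ, JJ P ρ0 ρ0 j u = k :=
    ⟨JJ P ρ0 ρ0 j 0, fun u => by rw [Subsingleton.elim u 0]⟩
  have h1 : QQ P ρ0 ρ0 j 0 = k := by
    unfold QQ
    simp only [hk]
    exact thm_DD1.1 ρ0 k (by unfold ρ0; norm_num)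
  rw [h1, ← hk 0]
  unfold JJ
  refine intervalIntegral.integral_congr fun a ha => ?_
  rw [Set.uIcc_of_le hρ.le] at ha
  refine intervalIntegral.integral_congr fun b hb => ?_
  rw [Set.uIcc_of_le (by linarith [ha.2])] at hb
  show hB P ρ0 j (0 : Fin 0 → ℝ) a b ^ 2 = wt b ^ 2 * g (Tn b) ^ 2
  have h2 := Tn_ge b (by linarith [hb.2, ha.1])
  rw [h 0 a b (fun i => le_rfl) ha.1 hb.1 (by linarith [hb.2]),
    Dg_zero g hg (Tn b) (by linarith), mul_pow]

theorem thm_Tri : St_Tri := by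
  intro ρ f hf
  have hF : ∀ x, HasDerivAt (fun x => ∫ b in (0 : ℝ)..x, f b) (f x) x := fun x =>
    intervalIntegral.integral_hasDerivAt_right (hf.intervalIntegrable _ _)
      (hf.stronglyMeasurableAtFilter _ _) hf.continuousAt
  have h1 : ∫ a in (0 : ℝ)..ρ, ∫ b in (0 : ℝ)..(ρ - a), f b =
      ∫ a in (0 : ℝ)..ρ, ∫ b in (0 : ℝ)..a, f b := by
    have h2 := intervalIntegral.integral_comp_sub_left (a := 0) (b := ρ)
      (fun x => ∫ b in (0 : ℝ)..x, f b) ρ
    rw [h2, sub_self, sub_zero]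
  have h2 := intervalIntegral.integral_mul_deriv_eq_deriv_mul (a := 0) (b := ρ)
    (u := fun b => ρ - b) (u' := fun _ => -1) (v := fun x => ∫ b in (0 : ℝ)..x, f b) (v' := f)
    (fun x _ => by
      have h3 := (hasDerivAt_id x).const_sub ρ
      exact h3) (fun x _ => hF x)
    (continuous_const.intervalIntegrable _ _) (hf.intervalIntegrable _ _)
  rw [h1, h2]
  simp

end Pool.Agent.PU
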