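import Pool.Agent.PU.NumD
import Pool.Agent.PU.NCert
import Pool.Agent.PTN.Defs

set_option autoImplicit false

/-!
# PU: the rational polynomials of `NCert` are the integrals of `NumD`
-/

namespace Pool.Agent.PU

open Pool.Agent.PTN

section
variable {α : Type} [Ops α] {ev : α → ℝ}

theorem ev_intg2 (h : Hom ev) (p : List (List α)) (lo hi : List α) (a b : α) :
    ev (intg2 p lo hi a b) =
      ∫ x in (ev a)..(ev b), ∫ z in (evL ev x lo)..(evL ev x hi), evL (evL ev x) z p := by
  unfold intg2
  rw [← integral_evL h]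
  refine intervalIntegral.integral_congr fun x _ => ?_
  exact (integral_evL (h.list x) p lo hi).symm

theorem ev_intg3 (h : Hom ev) (p : List (List (List α))) (lo hi : List (List α))
    (lo' hi' : List α) (a b : α) :
    ev (intg3 p lo hi lo' hi' a b) =
      ∫ x in (ev a)..(ev b), ∫ y in (evL ev x lo')..(evL ev x hi'),
        ∫ z in (evL (evL ev x) y lo)..(evL (evL ev x) y hi), evL (evL (evL ev x) y) z p := by
  unfold intg3
  rw [ev_intg2 h]
  refine intervalIntegral.integral_congr fun x _ => ?_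
  refine intervalIntegral.integral_congr fun y _ => ?_
  exact (integral_evL ((h.list x).list y) p lo hi).symm

theorem evq (h : Hom ev) (p : List ℚ) (x : α) : ev (atQ p x) = evQ (ev x) p := h.hatQ p x

theorem en1_ev (h : Hom ev) (g P : List ℚ) (T : α) :
    ev (en1 g P T) = Ps1 (fun x => evQ x g) (fun x => evQ x P) (ev T) := by
  have e1 : ((1 / 1000 : ℚ) : ℝ) = 1 / 1000 := by norm_num
  have e2 : ((1 / 2 : ℚ) : ℝ) = 1 / 2 := by norm_num
  unfold en1 Ps1
  simp only [h.hsub, h.sc, ← integral_evL h, h.hkk, e1, e2]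
  have hX : ∀ x : ℝ, evL ev x (XX : List α) = x := fun x => h.hXX x
  simp only [fun x => (h.list x).mul, fun x => (h.list x).hsub, fun x => (h.list x).hatQ, hX,
    evL_CC, h.hatQ, fun x => (h.list x).one, evQ]
  push_cast
  congr 1
  refine intervalIntegral.integral_congr fun x _ => ?_
  ring

theorem en2_ev (h : Hom ev) (g P : List ℚ) (T : α) :
    ev (en2 g P T) = Ps2 (fun x => evQ x g) (fun x => evQ x P) (ev T) := by
  have e1 : ((1 / 1000 : ℚ) : ℝ) = 1 / 1000 := by norm_num
  have e2 : ((1 / 2 : ℚ) : ℝ) = 1 / 2 := by norm_num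
  have e3 : ((1 / 3 : ℚ) : ℝ) = 1 / 3 := by norm_num
  have hX : ∀ x : ℝ, evL ev x (XX : List α) = x := fun x => h.hXX x
  have hZ : ∀ x z : ℝ, evL (evL ev x) z (XX : List (List α)) = z := fun x z => (h.list x).hXX z
  unfold en2 Ps2
  simp only [h.hsub, h.sc, h.add, ev_intg2 h, h.hkk, e1, e2, e3]
  simp only [fun x => (h.list x).hsub, fun x => (h.list x).sc,
    fun x => (h.list x).one, hX, evL_CC,
    fun x z => ((h.list x).list z).mul, fun x z => ((h.list x).list z).hsub,
    fun x z => ((h.list x).list z).hatQ, fun x z => ((h.list x).list z).add,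
    fun x z => ((h.list x).list z).one, hZ, h.hatQ, evQ]
  push_cast
  have hu : ∀ x : ℝ, 1 / 2 * (1 - x) = (1 - x) / 2 := fun x => by ring
  have ht : 1 / 2 * ev T = ev T / 2 := by ring
  simp only [hu, ht]
  congr 1
  refine intervalIntegral.integral_congr fun x _ => ?_
  refine intervalIntegral.integral_congr fun z _ => ?_
  ring

theorem en3_ev (h : Hom ev) (g P : List ℚ) (T : α) :
    ev (en3 g P T) = Ps3 (fun x => evQ x g) (fun x => evQ x P) (ev T) := by
  have e1 : ((1 / 1000 : ℚ) : ℝ) = 1 / 1000 := by norm_num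
  have e2 : ((1 / 2 : ℚ) : ℝ) = 1 / 2 := by norm_num
  have e3 : ((1 / 3 : ℚ) : ℝ) = 1 / 3 := by norm_num
  have e4 : ((1 / 4 : ℚ) : ℝ) = 1 / 4 := by norm_num
  have hX : ∀ x : ℝ, evL ev x (XX : List α) = x := fun x => h.hXX x
  have hY : ∀ x y : ℝ, evL (evL ev x) y (XX : List (List α)) = y := fun x y => (h.list x).hXX y
  have hZ : ∀ x y z : ℝ, evL (evL (evL ev x) y) z (XX : List (List (List α))) = z :=
    fun x y z => ((h.list x).list y).hXX z
  unfold en3 Ps3
  simp only [h.hsub, h.sc, h.add, ev_intg3 h, h.hkk, e1, e2, e3, e4]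
  simp only [fun x => (h.list x).hsub, fun x => (h.list x).sc,
    fun x => (h.list x).one, hX, evL_CC,
    fun x z => ((h.list x).list z).hsub, fun x z => ((h.list x).list z).sc,
    fun x z => ((h.list x).list z).one, hY,
    fun x y z => (((h.list x).list y).list z).mul, fun x y z => (((h.list x).list y).list z).hsub,
    fun x y z => (((h.list x).list y).list z).hatQ, fun x y z => (((h.list x).list y).list z).add,
    fun x y z => (((h.list x).list y).list z).one, hZ, h.hatQ, evQ]
  push_cast
  have hu : ∀ x : ℝ, 1 / 3 * (1 - x) = (1 - x) / 3 := fun x => by ring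
  have hv : ∀ x y : ℝ, 1 / 2 * (1 - x - y) = (1 - x - y) / 2 := fun x y => by ring
  have hw : ∀ x : ℝ, 1 / 2 * (ev T - x) = (ev T - x) / 2 := fun x => by ring
  have ht : 1 / 2 * ev T = ev T / 2 := by ring
  have ht3 : 1 / 3 * ev T = ev T / 3 := by ring
  simp only [hu, hv, hw, ht, ht3]
  congr 1
  refine intervalIntegral.integral_congr fun x _ => ?_
  refine intervalIntegral.integral_congr fun y _ => ?_
  refine intervalIntegral.integral_congr fun z _ => ?_
  ring

end

end Pool.Agent.PU
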