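import Pool.Agent.PU.NhF
import Pool.Agent.PTN.II
import Pool.Agent.PTN.Low2c

set_option autoImplicit false

/-!
# PU: `II` of the two profiles as iterated integrals
-/

namespace Pool.Agent.PU

open Finset Filter Pool.Agent.MT Pool.Agent.PT MeasureTheory

theorem nii_regF {a b t : ℝ} (ha : 0 ≤ a) (hb : 0 ≤ b) (ht : 0 ≤ t) (ha' : a ≤ ρ0)
    (hb' : b ≤ ρ0) : Reg2 ρ0 rF ![a, b, t] ↔ t ≤ min (ρ0 - a) (5 / 4 * ρ0 - b) := by
  have h := nhf_rho
  have e0 : rF 0 = 5 / 4 * ρ0 := rfl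
  have e1 : rF 1 = ρ0 := rfl
  have e2 : rF 2 = 2 * ρ0 := rfl
  rw [nhf_reg, e0, e1, e2, le_min_iff]
  constructor
  · rintro ⟨-, h0, h1, -⟩
    exact ⟨by linarith, by linarith⟩
  · rintro ⟨h1, h2⟩
    refine ⟨⟨⟨ha, ha'⟩, ⟨hb, hb'⟩, ht, by linarith⟩, ?_, ?_, ?_⟩ <;> linarith

theorem nii_regG {a b t : ℝ} (ha : 0 ≤ a) (hb : 0 ≤ b) (ht : 0 ≤ t) (ha' : a ≤ ρ0)
    (hb' : b ≤ ρ0) : Reg2 ρ0 rG ![a, b, t] ↔ b ≤ ρ0 - a ∧ t ≤ Tn b := by
  have h := nhf_rho
  have e0 : rG 0 = 5 / 4 * ρ0 := rfl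
  have e1 : rG 1 = 2 * ρ0 := rfl
  have e2 : rG 2 = ρ0 := rfl
  rw [nhf_reg, e0, e1, e2]
  unfold Tn
  rw [le_min_iff]
  constructor
  · rintro ⟨⟨-, -, -, h3⟩, h0, -, h2⟩
    exact ⟨by linarith, h3, by linarith⟩
  · rintro ⟨h1, h2, h3⟩
    refine ⟨⟨⟨ha, ha'⟩, ⟨hb, hb'⟩, ht, h2⟩, ?_, ?_, ?_⟩ <;> linarith

/-- the integrand -/
noncomputable def nii_K (b t : ℝ) : ℝ := (1 - b / ρ0) ^ 2 * (1 - t / ρ0) ^ 2

/-- the integral over the third variable -/
noncomputable def nii_J (a b : ℝ) : ℝ :=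
  ∫ t in (0 : ℝ)..(min (ρ0 - a) (5 / 4 * ρ0 - b)), nii_K b t

theorem nii_J_cont : Continuous (fun q : ℝ × ℝ => nii_J q.1 q.2) := by
  unfold nii_J
  refine intervalIntegral.continuous_parametric_intervalIntegral_of_continuous
    (f := fun (q : ℝ × ℝ) (t : ℝ) => nii_K q.2 t) ?_ (by fun_prop)
  unfold nii_K
  fun_prop

theorem nii_step (a : ℝ) (ha : 0 ≤ a) (ha' : a ≤ ρ0) :
    ∫ b in (0 : ℝ)..ρ0, ∫ t in (0 : ℝ)..ρ0, PF ![a, b, t] ^ 2 = ∫ b in (0 : ℝ)..ρ0, nii_J a b := by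
  have h := nhf_rho
  refine intervalIntegral.integral_congr fun b hb => ?_
  rw [Set.uIcc_of_le h.le] at hb
  have h1 : 0 ≤ min (ρ0 - a) (5 / 4 * ρ0 - b) := le_min (by linarith) (by linarith [hb.2])
  have h2 : min (ρ0 - a) (5 / 4 * ρ0 - b) ≤ ρ0 := (min_le_left _ _).trans (by linarith)
  refine Eq.trans ?_ (PTN.ii_cut (nii_K b) h1 h2)
  refine intervalIntegral.integral_congr fun t ht => ?_
  rw [Set.uIcc_of_le h.le] at ht
  show PF ![a, b, t] ^ 2 = if t ≤ min (ρ0 - a) (5 / 4 * ρ0 - b) then _ else _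
  by_cases hc : t ≤ min (ρ0 - a) (5 / 4 * ρ0 - b)
  · rw [if_pos hc, PF, if_pos ((nii_regF ha hb.1 ht.1 ha' hb.2).2 hc)]
    show ((1 - b / ρ0) * (1 - t / ρ0)) ^ 2 = nii_K b t
    unfold nii_K
    ring
  · rw [if_neg hc, PF, if_neg fun h' => hc ((nii_regF ha hb.1 ht.1 ha' hb.2).1 h')]
    norm_num

theorem thm_IIF : St_IIF := by
  have h := nhf_rho
  have hJ := nii_J_cont
  have hJa : ∀ a, Continuous (nii_J a) := fun a => hJ.comp (continuous_const.prodMk continuous_id)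
  have hI : Continuous fun a => ∫ b in (0 : ℝ)..ρ0, nii_J a b :=
    PTN.low2c_cont (F := nii_J) hJ (lo := fun _ => (0 : ℝ)) (hi := fun _ => ρ0)
      (by fun_prop) (by fun_prop)
  have e1 : II PF ρ0 = ∫ a in (0 : ℝ)..ρ0, ∫ b in (0 : ℝ)..ρ0, nii_J a b := by
    unfold II
    refine intervalIntegral.integral_congr fun a ha => ?_
    rw [Set.uIcc_of_le h.le] at ha
    exact nii_step a ha.1 ha.2
  unfold St_IIF
  rw [e1, ← intervalIntegral.integral_add_adjacent_intervals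
    (hI.intervalIntegrable 0 (3 / 4 * ρ0)) (hI.intervalIntegrable (3 / 4 * ρ0) ρ0)]
  congr 1
  · refine intervalIntegral.integral_congr fun a ha => ?_
    rw [Set.uIcc_of_le (by linarith)] at ha
    show ∫ b in (0 : ℝ)..ρ0, nii_J a b = _
    rw [← intervalIntegral.integral_add_adjacent_intervals
      ((hJa a).intervalIntegrable 0 (a + ρ0 / 4)) ((hJa a).intervalIntegrable (a + ρ0 / 4) ρ0)]
    congr 1
    · refine intervalIntegral.integral_congr fun b hb => ?_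
      rw [Set.uIcc_of_le (by linarith [ha.1])] at hb
      show nii_J a b = _
      unfold nii_J nii_K
      rw [min_eq_left (by linarith [hb.2])]
    · refine intervalIntegral.integral_congr fun b hb => ?_
      rw [Set.uIcc_of_le (by linarith [ha.2])] at hb
      show nii_J a b = _
      unfold nii_J nii_K
      rw [min_eq_right (by linarith [hb.1])]
  · refine intervalIntegral.integral_congr fun a ha => ?_
    rw [Set.uIcc_of_le (by linarith)] at ha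
    refine intervalIntegral.integral_congr fun b hb => ?_
    rw [Set.uIcc_of_le h.le] at hb
    show nii_J a b = _
    unfold nii_J nii_K
    rw [min_eq_left (by linarith [hb.2, ha.1])]

theorem thm_IIG : St_IIG := by
  have h := nhf_rho
  unfold St_IIG II
  refine intervalIntegral.integral_congr fun a ha => ?_
  rw [Set.uIcc_of_le h.le] at ha
  refine Eq.trans ?_ (PTN.ii_cut (fun b => ∫ t in (0 : ℝ)..(Tn b), (1 - t / ρ0) ^ 4)
    (sub_nonneg.2 ha.2) (by linarith [ha.1]))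
  refine intervalIntegral.integral_congr fun b hb => ?_
  rw [Set.uIcc_of_le h.le] at hb
  show ∫ t in (0 : ℝ)..ρ0, PG ![a, b, t] ^ 2 = if b ≤ ρ0 - a then _ else _
  by_cases hab : b ≤ ρ0 - a
  · rw [if_pos hab]
    refine Eq.trans ?_ (PTN.ii_cut (fun t => (1 - t / ρ0) ^ 4) (nhf_Tn0 hb.2) (nhf_Tn1 b))
    refine intervalIntegral.integral_congr fun t ht => ?_
    rw [Set.uIcc_of_le h.le] at ht
    show PG ![a, b, t] ^ 2 = if t ≤ Tn b then _ else _
    by_cases hc : t ≤ Tn b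
    · rw [if_pos hc, PG, if_pos ((nii_regG ha.1 hb.1 ht.1 ha.2 hb.2).2 ⟨hab, hc⟩)]
      show ((1 - t / ρ0) ^ 2) ^ 2 = _
      ring
    · rw [if_neg hc, PG, if_neg fun h' => hc ((nii_regG ha.1 hb.1 ht.1 ha.2 hb.2).1 h').2]
      norm_num
  · rw [if_neg hab]
    refine (intervalIntegral.integral_congr (g := fun _ => (0 : ℝ)) fun t ht => ?_).trans
      intervalIntegral.integral_zero
    rw [Set.uIcc_of_le h.le] at ht
    show PG ![a, b, t] ^ 2 = 0
    rw [PG, if_neg fun h' => hab ((nii_regG ha.1 hb.1 ht.1 ha.2 hb.2).1 h').1]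
    norm_num

end Pool.Agent.PU
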