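import Pool.Agent.PU.NE0

set_option autoImplicit false

/-!
# PU: facts on the two profiles

Author helper5.
-/

namespace Pool.Agent.PU

open Finset Filter Pool.Agent.MT Pool.Agent.PT Pool.Agent.PTN MeasureTheory

/-! ### the regions -/

theorem npf_regF (a : Fin 3 → ℝ) : Reg2 ρ0 rF a ↔ ((0 ≤ a 0 ∧ a 0 ≤ ρ0) ∧ (0 ≤ a 1 ∧ a 1 ≤ ρ0) ∧
    (0 ≤ a 2 ∧ a 2 ≤ ρ0)) ∧ a 1 + a 2 ≤ 5 / 4 * ρ0 ∧ a 0 + a 2 ≤ ρ0 ∧ a 0 + a 1 ≤ 2 * ρ0 := by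
  unfold Reg2
  rw [Fin.forall_fin_succ, Fin.forall_fin_two, Fin.forall_fin_succ, Fin.forall_fin_two]
  exact Iff.rfl

theorem npf_regG (a : Fin 3 → ℝ) : Reg2 ρ0 rG a ↔ ((0 ≤ a 0 ∧ a 0 ≤ ρ0) ∧ (0 ≤ a 1 ∧ a 1 ≤ ρ0) ∧
    (0 ≤ a 2 ∧ a 2 ≤ ρ0)) ∧ a 1 + a 2 ≤ 5 / 4 * ρ0 ∧ a 0 + a 2 ≤ 2 * ρ0 ∧ a 0 + a 1 ≤ ρ0 := by
  unfold Reg2
  rw [Fin.forall_fin_succ, Fin.forall_fin_two, Fin.forall_fin_succ, Fin.forall_fin_two]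
  exact Iff.rfl

theorem npf_unit {x : ℝ} (h0 : 0 ≤ x) (h1 : x ≤ ρ0) : 0 ≤ 1 - x / ρ0 ∧ 1 - x / ρ0 ≤ 1 := by
  have hρ := rho0_pos
  have h2 : x / ρ0 ≤ 1 := (div_le_one hρ).mpr h1
  have h3 : 0 ≤ x / ρ0 := div_nonneg h0 hρ.le
  constructor <;> linarith

theorem npf_mul {p q p' q' : ℝ} (hq : 0 ≤ q) (hq1 : q ≤ 1) (hp : 0 ≤ p') (hp1 : p' ≤ 1) :
    |p * q - p' * q'| ≤ |p - p'| + |q - q'| := by
  have h1 : p * q - p' * q' = (p - p') * q + p' * (q - q') := by ring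
  rw [h1]
  refine (abs_add_le _ _).trans ?_
  rw [abs_mul, abs_mul, abs_of_nonneg hq, abs_of_nonneg hp]
  have h2 := mul_le_mul_of_nonneg_left hq1 (abs_nonneg (p - p'))
  have h3 := mul_le_mul_of_nonneg_right hp1 (abs_nonneg (q - q'))
  linarith

theorem npf_dif (x y : ℝ) : |(1 - x / ρ0) - (1 - y / ρ0)| ≤ 5 * |x - y| := by
  have h1 : (1 - x / ρ0) - (1 - y / ρ0) = (1001 / 250) * -(x - y) := by
    unfold ρ0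
    ring
  rw [h1, abs_mul, abs_neg, abs_of_pos (by norm_num)]
  have := abs_nonneg (x - y)
  linarith

theorem thm_PF : St_PF := by
  refine ⟨10, by norm_num, ⟨fun a => ?_, fun a ha => ?_, fun a a' ha ha' => ?_⟩,
    ⟨fun a => ?_, fun a ha => ?_, fun a a' ha ha' => ?_⟩⟩
  · unfold PF
    split_ifs with h
    · obtain ⟨⟨-, h1, h2⟩, -⟩ := (npf_regF a).mp h
      obtain ⟨e1, e2⟩ := npf_unit h1.1 h1.2
      obtain ⟨e3, e4⟩ := npf_unit h2.1 h2.2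
      rw [abs_of_nonneg (mul_nonneg e1 e3)]
      exact (mul_le_one₀ e2 e3 e4).trans (by norm_num)
    · norm_num
  · unfold PF
    exact if_neg ha
  · unfold PF
    rw [if_pos ha, if_pos ha']
    obtain ⟨⟨-, h1, h2⟩, -⟩ := (npf_regF a).mp ha
    obtain ⟨⟨-, h1', h2'⟩, -⟩ := (npf_regF a').mp ha'
    obtain ⟨e1, e2⟩ := npf_unit h2.1 h2.2
    obtain ⟨e3, e4⟩ := npf_unit h1'.1 h1'.2
    refine (npf_mul e1 e2 e3 e4).trans ?_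
    have d1 := npf_dif (a 1) (a' 1)
    have d2 := npf_dif (a 2) (a' 2)
    rw [Fin.sum_univ_three]
    have g0 := abs_nonneg (a 0 - a' 0)
    have g1 := abs_nonneg (a 1 - a' 1)
    have g2 := abs_nonneg (a 2 - a' 2)
    linarith
  · unfold PG
    split_ifs with h
    · obtain ⟨⟨-, -, h2⟩, -⟩ := (npf_regG a).mp h
      obtain ⟨e3, e4⟩ := npf_unit h2.1 h2.2
      rw [pow_two, abs_of_nonneg (mul_nonneg e3 e3)]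
      exact (mul_le_one₀ e4 e3 e4).trans (by norm_num)
    · norm_num
  · unfold PG
    exact if_neg ha
  · unfold PG
    rw [if_pos ha, if_pos ha', pow_two, pow_two]
    obtain ⟨⟨-, -, h2⟩, -⟩ := (npf_regG a).mp ha
    obtain ⟨⟨-, -, h2'⟩, -⟩ := (npf_regG a').mp ha'
    obtain ⟨e1, e2⟩ := npf_unit h2.1 h2.2
    obtain ⟨e3, e4⟩ := npf_unit h2'.1 h2'.2
    refine (npf_mul e1 e2 e3 e4).trans ?_
    have d2 := npf_dif (a 2) (a' 2)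
    rw [Fin.sum_univ_three]
    have g0 := abs_nonneg (a 0 - a' 0)
    have g1 := abs_nonneg (a 1 - a' 1)
    have g2 := abs_nonneg (a 2 - a' 2)
    linarith

/-! ### the marginals -/

theorem int_step (c r k : ℝ) (f : ℝ → ℝ) (hc : 0 ≤ c) (hcr : c ≤ r)
    (h1 : ∀ t, 0 < t → t ≤ c → f t = k) (h2 : ∀ t, c < t → t ≤ r → f t = 0) :
    ∫ t in (0 : ℝ)..r, f t = c * k := by
  rw [intervalIntegral.integral_of_le (hc.trans hcr)]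
  have e : ∀ t ∈ Set.Ioc 0 r, f t = Set.indicator (Set.Iic c) (fun _ => k) t := by
    intro t ht
    by_cases h : t ≤ c
    · rw [Set.indicator_of_mem (show t ∈ Set.Iic c from h)]
      exact h1 t ht.1 h
    · rw [Set.indicator_of_notMem (show t ∉ Set.Iic c from h)]
      exact h2 t (lt_of_not_ge h) ht.2
  rw [setIntegral_congr_fun measurableSet_Ioc e, setIntegral_indicator measurableSet_Iic]
  have e2 : Set.Ioc 0 r ∩ Set.Iic c = Set.Ioc 0 c := by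
    ext t
    constructor
    · rintro ⟨h, h'⟩
      exact ⟨h.1, h'⟩
    · rintro ⟨h, h'⟩
      exact ⟨⟨h, h'.trans hcr⟩, h'⟩
  rw [e2, setIntegral_const, smul_eq_mul, measureReal_def, Real.volume_Ioc, sub_zero,
    ENNReal.toReal_ofReal hc]

theorem npf_c0 (a b t : ℝ) : cor 0 a b t 0 = t := rfl

theorem npf_c1 (a b t : ℝ) : cor 0 a b t 1 = a := rfl

theorem npf_c2 (a b t : ℝ) : cor 0 a b t 2 = b := rfl

theorem npf_margF (a b : ℝ) (ha : 0 ≤ a) (hb : 0 ≤ b) (ha1 : a ≤ ρ0) (hb1 : b ≤ ρ0)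
    (hab : a + b ≤ 5 / 4 * ρ0) :
    hh PF ρ0 0 a b 0 = ρ0 * (1 - a / ρ0) * (1 - b / ρ0) ^ 2 := by
  have hρ := rho0_pos
  unfold hh
  rw [int_step (ρ0 - b) ρ0 ((1 - a / ρ0) * (1 - b / ρ0)) _ (by linarith) (by linarith)
    (fun t ht ht1 => ?_) (fun t ht ht1 => ?_)]
  · field_simp
  · unfold PF
    rw [if_pos]
    · rfl
    · rw [npf_regF]
      show ((0 ≤ t ∧ t ≤ ρ0) ∧ (0 ≤ a ∧ a ≤ ρ0) ∧ (0 ≤ b ∧ b ≤ ρ0)) ∧ a + b ≤ 5 / 4 * ρ0 ∧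
        t + b ≤ ρ0 ∧ t + a ≤ 2 * ρ0
      refine ⟨⟨⟨ht.le, by linarith⟩, ⟨ha, ha1⟩, hb, hb1⟩, hab, by linarith, by linarith⟩
  · unfold PF
    rw [if_neg]
    rw [npf_regF]
    show ¬(((0 ≤ t ∧ t ≤ ρ0) ∧ (0 ≤ a ∧ a ≤ ρ0) ∧ (0 ≤ b ∧ b ≤ ρ0)) ∧ a + b ≤ 5 / 4 * ρ0 ∧
        t + b ≤ ρ0 ∧ t + a ≤ 2 * ρ0)
    rintro ⟨-, -, h, -⟩
    linarith

theorem npf_margG (a b : ℝ) (ha : 0 ≤ a) (hb : 0 ≤ b) (ha1 : a ≤ ρ0) (hb1 : b ≤ ρ0)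
    (hab : a + b ≤ 5 / 4 * ρ0) :
    hh PG ρ0 0 a b 0 = ρ0 * (1 - a / ρ0) * (1 - b / ρ0) ^ 2 := by
  have hρ := rho0_pos
  unfold hh
  rw [int_step (ρ0 - a) ρ0 ((1 - b / ρ0) ^ 2) _ (by linarith) (by linarith)
    (fun t ht ht1 => ?_) (fun t ht ht1 => ?_)]
  · field_simp
  · unfold PG
    rw [if_pos]
    · rfl
    · rw [npf_regG]
      show ((0 ≤ t ∧ t ≤ ρ0) ∧ (0 ≤ a ∧ a ≤ ρ0) ∧ (0 ≤ b ∧ b ≤ ρ0)) ∧ a + b ≤ 5 / 4 * ρ0 ∧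
        t + b ≤ 2 * ρ0 ∧ t + a ≤ ρ0
      refine ⟨⟨⟨ht.le, by linarith⟩, ⟨ha, ha1⟩, hb, hb1⟩, hab, by linarith, by linarith⟩
  · unfold PG
    rw [if_neg]
    rw [npf_regG]
    show ¬(((0 ≤ t ∧ t ≤ ρ0) ∧ (0 ≤ a ∧ a ≤ ρ0) ∧ (0 ≤ b ∧ b ≤ ρ0)) ∧ a + b ≤ 5 / 4 * ρ0 ∧
        t + b ≤ 2 * ρ0 ∧ t + a ≤ ρ0)
    rintro ⟨-, -, -, h⟩
    linarith

theorem thm_Mar : St_Mar := by
  intro a b ha hb
  by_cases h : a ≤ ρ0 ∧ b ≤ ρ0 ∧ a + b ≤ 5 / 4 * ρ0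
  · rw [npf_margF a b ha hb h.1 h.2.1 h.2.2, npf_margG a b ha hb h.1 h.2.1 h.2.2]
  · have e1 : ∀ t, PF (cor 0 a b t) = 0 := by
      intro t
      unfold PF
      rw [if_neg]
      rw [npf_regF]
      show ¬(((0 ≤ t ∧ t ≤ ρ0) ∧ (0 ≤ a ∧ a ≤ ρ0) ∧ (0 ≤ b ∧ b ≤ ρ0)) ∧ a + b ≤ 5 / 4 * ρ0 ∧
        t + b ≤ ρ0 ∧ t + a ≤ 2 * ρ0)
      rintro ⟨⟨-, h1, h2⟩, h3, -⟩
      exact h ⟨h1.2, h2.2, h3⟩
    have e2 : ∀ t, PG (cor 0 a b t) = 0 := by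
      intro t
      unfold PG
      rw [if_neg]
      rw [npf_regG]
      show ¬(((0 ≤ t ∧ t ≤ ρ0) ∧ (0 ≤ a ∧ a ≤ ρ0) ∧ (0 ≤ b ∧ b ≤ ρ0)) ∧ a + b ≤ 5 / 4 * ρ0 ∧
        t + b ≤ 2 * ρ0 ∧ t + a ≤ ρ0)
      rintro ⟨⟨-, h1, h2⟩, h3, -⟩
      exact h ⟨h1.2, h2.2, h3⟩
    unfold hh
    simp only [e1, e2]

theorem thm_QP : St_QP := by
  have hρ := rho0_pos
  have hσ : σ0 = 3 / 4 * ρ0 := rfl
  obtain ⟨k, hk⟩ : ∃ k : ℝ, ∀ u : Fin 0 → ℝ, JJ PF ρ0 σ0 0 u = k :=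
    ⟨JJ PF ρ0 σ0 0 0, fun u => by rw [Subsingleton.elim u 0]⟩
  have h1 : QQ PF ρ0 σ0 0 0 = k := by
    unfold QQ
    simp only [hk]
    exact thm_DD1.1 ρ0 k (by unfold ρ0; norm_num)
  unfold St_QP
  rw [h1, ← hk 0]
  unfold JJ
  refine intervalIntegral.integral_congr fun a ha => ?_
  rw [Set.uIcc_of_le (by linarith)] at ha
  refine intervalIntegral.integral_congr fun b hb => ?_
  rw [Set.uIcc_of_le (by linarith [ha.2])] at hb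
  show hB PF ρ0 0 (0 : Fin 0 → ℝ) a b ^ 2 = (ρ0 * (1 - a / ρ0) * (1 - b / ρ0) ^ 2) ^ 2
  have h2 : hB PF ρ0 0 (0 : Fin 0 → ℝ) a b = hh PF ρ0 0 a b 0 := by
    unfold hB
    rw [Fintype.sum_unique]
    have h3 : (default : Finset (Fin 0)) = ∅ := rfl
    rw [h3, card_empty, pow_zero, one_mul, sum_empty]
  rw [h2, npf_margF a b ha.1 hb.1 (by linarith [ha.2]) (by linarith [hb.2, ha.1])
    (by linarith [hb.2])]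

end Pool.Agent.PU
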