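import Pool.Agent.PU.NumD

set_option autoImplicit false

/-!
# PU: the tail integrals of the two profiles
-/

namespace Pool.Agent.PU

open Finset Filter Pool.Agent.MT Pool.Agent.PT MeasureTheory

/-- tail integral of a function which is `p` up to `T` and `0` beyond -/
theorem nhf_int {f p G : ℝ → ℝ} (hG : ∀ t, HasDerivAt G (p t) t) (hp : Continuous p)
    {T ρ u : ℝ} (hu : 0 ≤ u) (hTρ : T ≤ ρ) (h1 : ∀ t, 0 ≤ t → t ≤ T → f t = p t)
    (h2 : ∀ t, 0 ≤ t → T < t → f t = 0) (hT : 0 ≤ T) :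
    ∫ t in u..ρ, f t = G T - G (min u T) := by
  have hz : ∀ x y : ℝ, T ≤ x → T ≤ y → IntervalIntegrable f volume x y ∧
      ∫ t in x..y, f t = 0 := by
    intro x y hx hy
    have e : Set.EqOn (fun _ : ℝ => (0 : ℝ)) f (Set.uIoc x y) := by
      intro t ht
      have : T < t := (le_min hx hy).trans_lt ht.1
      exact (h2 t (hT.trans this.le) this).symm
    refine ⟨(intervalIntegrable_const (c := (0 : ℝ))).congr e, ?_⟩
    rw [intervalIntegral.integral_congr_ae (g := fun _ => (0 : ℝ))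
      (Filter.Eventually.of_forall fun t ht => (e ht).symm)]
    simp
  rcases le_total u T with h | h
  · rw [min_eq_left h]
    have e : Set.EqOn p f (Set.uIoc u T) := by
      intro t ht
      rw [Set.uIoc_of_le h] at ht
      exact (h1 t (hu.trans ht.1.le) ht.2).symm
    obtain ⟨i2, e2⟩ := hz T ρ le_rfl hTρ
    rw [← intervalIntegral.integral_add_adjacent_intervals
      ((hp.intervalIntegrable u T).congr e) i2, e2, add_zero,
      intervalIntegral.integral_congr_ae (g := p)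
        (Filter.Eventually.of_forall fun t ht => (e ht).symm)]
    exact intervalIntegral.integral_eq_sub_of_hasDerivAt (fun t _ => hG t)
      (hp.intervalIntegrable _ _)
  · rw [min_eq_right h, sub_self]
    exact (hz u ρ h hTρ).2

theorem nhf_rho : (0 : ℝ) < ρ0 := by
  unfold ρ0
  norm_num

theorem nhf_ga1 (t : ℝ) : HasDerivAt ga1 (1 - t / ρ0) t := by
  have h := nhf_rho
  unfold ga1
  refine ((hasDerivAt_id t).sub ((hasDerivAt_pow 2 t).div_const (2 * ρ0))).congr_deriv ?_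
  simp
  field_simp

theorem nhf_ga2 (t : ℝ) : HasDerivAt ga2 ((1 - t / ρ0) ^ 2) t := by
  have h := nhf_rho
  unfold ga2
  refine (((hasDerivAt_id t).sub ((hasDerivAt_pow 2 t).div_const ρ0)).add
    ((hasDerivAt_pow 3 t).div_const (3 * ρ0 ^ 2))).congr_deriv ?_
  simp
  field_simp
  ring

theorem nhf_Tn0 {b : ℝ} (hb : b ≤ ρ0) : 0 ≤ Tn b := by
  have h := nhf_rho
  unfold Tn
  refine le_min h.le ?_
  linarith

theorem nhf_Tn1 (b : ℝ) : Tn b ≤ ρ0 := min_le_left _ _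

theorem nhf_reg {ρ x y z : ℝ} {r : Fin 3 → ℝ} : Reg2 ρ r ![x, y, z] ↔
    ((0 ≤ x ∧ x ≤ ρ) ∧ (0 ≤ y ∧ y ≤ ρ) ∧ (0 ≤ z ∧ z ≤ ρ)) ∧
      y + z ≤ r 0 ∧ x + z ≤ r 1 ∧ x + y ≤ r 2 := by
  constructor
  · rintro ⟨h1, h2⟩
    exact ⟨⟨h1 0, h1 1, h1 2⟩, h2 0, h2 1, h2 2⟩
  · rintro ⟨⟨h0, h1, h2⟩, k0, k1, k2⟩
    refine ⟨fun i => ?_, fun i => ?_⟩
    · fin_cases i
      · exact h0
      · exact h1
      · exact h2
    · fin_cases i
      · exact k0
      · exact k1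
      · exact k2

theorem nhf_cor1 (a b t : ℝ) : cor 1 a b t = ![a, t, b] := by
  funext i
  fin_cases i <;> rfl

theorem nhf_cor2 (a b t : ℝ) : cor 2 a b t = ![a, b, t] := by
  funext i
  fin_cases i <;> rfl

theorem nhf_regF {a b t : ℝ} (ha : 0 ≤ a) (hb : 0 ≤ b) (ht : 0 ≤ t) (hab : a + b ≤ ρ0) :
    Reg2 ρ0 rF (cor 1 a b t) ↔ t ≤ Tn b := by
  have h := nhf_rho
  have e0 : rF 0 = 5 / 4 * ρ0 := rfl
  have e1 : rF 1 = ρ0 := rfl
  have e2 : rF 2 = 2 * ρ0 := rfl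
  rw [nhf_cor1, nhf_reg, e0, e1, e2]
  unfold Tn
  rw [le_min_iff]
  constructor
  · rintro ⟨⟨-, h2, -⟩, h3, -, -⟩
    exact ⟨h2.2, by linarith⟩
  · rintro ⟨h1, h2⟩
    refine ⟨⟨⟨ha, by linarith⟩, ⟨ht, h1⟩, hb, by linarith⟩, ?_, ?_, ?_⟩ <;> linarith

theorem nhf_regG {a b t : ℝ} (ha : 0 ≤ a) (hb : 0 ≤ b) (ht : 0 ≤ t) (hab : a + b ≤ ρ0) :
    Reg2 ρ0 rG (cor 2 a b t) ↔ t ≤ Tn b := by
  have h := nhf_rho
  have e0 : rG 0 = 5 / 4 * ρ0 := rfl
  have e1 : rG 1 = 2 * ρ0 := rfl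
  have e2 : rG 2 = ρ0 := rfl
  rw [nhf_cor2, nhf_reg, e0, e1, e2]
  unfold Tn
  rw [le_min_iff]
  constructor
  · rintro ⟨⟨-, -, h2⟩, h3, -, -⟩
    exact ⟨h2.2, by linarith⟩
  · rintro ⟨h1, h2⟩
    refine ⟨⟨⟨ha, by linarith⟩, ⟨hb, by linarith⟩, ht, h1⟩, ?_, ?_, ?_⟩ <;> linarith

theorem thm_hF : St_hF := by
  intro n u a b hu ha hb hab
  have h := nhf_rho
  have key : ∀ v : ℝ, 0 ≤ v → hh PF ρ0 1 a b v =
      (1 - b / ρ0) * (ga1 (Tn b) - ga1 (min v (Tn b))) := by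
    intro v hv
    unfold hh
    rw [nhf_int (f := fun t => PF (cor 1 a b t)) (p := fun t => (1 - b / ρ0) * (1 - t / ρ0))
      (G := fun t => (1 - b / ρ0) * ga1 t) (T := Tn b)
      (fun t => (nhf_ga1 t).const_mul (1 - b / ρ0)) (by fun_prop) hv (nhf_Tn1 b) ?_ ?_
      (nhf_Tn0 (by linarith))]
    · ring
    · intro t ht ht'
      show PF (cor 1 a b t) = _
      rw [PF, if_pos ((nhf_regF ha hb ht hab).2 ht'), nhf_cor1]
      show (1 - t / ρ0) * (1 - b / ρ0) = (1 - b / ρ0) * (1 - t / ρ0)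
      ring
    · intro t ht ht'
      show PF (cor 1 a b t) = _
      rw [PF, if_neg fun h' => absurd ((nhf_regF ha hb ht hab).1 h') (not_le.2 ht')]
  unfold hB Dg
  rw [Finset.mul_sum]
  refine Finset.sum_congr rfl fun S _ => ?_
  rw [key _ (Finset.sum_nonneg fun i _ => hu i)]
  ring

theorem thm_hG : St_hG := by
  intro n u a b hu ha hb hab
  have h := nhf_rho
  have key : ∀ v : ℝ, 0 ≤ v → hh PG ρ0 2 a b v = ga2 (Tn b) - ga2 (min v (Tn b)) := by
    intro v hv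
    unfold hh
    rw [nhf_int (f := fun t => PG (cor 2 a b t)) (p := fun t => (1 - t / ρ0) ^ 2)
      (G := ga2) (T := Tn b) nhf_ga2 (by fun_prop) hv (nhf_Tn1 b) ?_ ?_
      (nhf_Tn0 (by linarith))]
    · intro t ht ht'
      show PG (cor 2 a b t) = _
      rw [PG, if_pos ((nhf_regG ha hb ht hab).2 ht'), nhf_cor2]
      rfl
    · intro t ht ht'
      show PG (cor 2 a b t) = _
      rw [PG, if_neg fun h' => absurd ((nhf_regG ha hb ht hab).1 h') (not_le.2 ht')]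
  unfold hB Dg
  rw [one_mul]
  refine Finset.sum_congr rfl fun S _ => ?_
  rw [key _ (Finset.sum_nonneg fun i _ => hu i)]

end Pool.Agent.PU
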