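import Pool.Agent.PU.NumS

set_option autoImplicit false

/-!
# PU: the numerical inequality, definitions and statements

For every function `p` we have `D² dens ≥ 2 D p - p² / dens`, and `p = P (∑ u)` with a polynomial `P`
of degree 1 or 2 is good enough (loss `< 0.0007`, available `.0015`, in units of `ρ³`).  All the
integrals become integrals of polynomials over simplices.
-/

namespace Pool.Agent.PU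

open Finset Filter Pool.Agent.MT Pool.Agent.PT MeasureTheory

/-- the upper end of the profiles in the variable of the place, as a function of the second of the
two other variables -/
noncomputable def Tn (b : ℝ) : ℝ := min ρ0 (5 / 4 * ρ0 - b)

/-- antiderivative of `1 - x/ρ` -/
noncomputable def ga1 (x : ℝ) : ℝ := x - x ^ 2 / (2 * ρ0)

/-- antiderivative of `(1 - x/ρ)²` -/
noncomputable def ga2 (x : ℝ) : ℝ := x - x ^ 2 / ρ0 + x ^ 3 / (3 * ρ0 ^ 2)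

/-- the alternating sum -/
noncomputable def Dg (g : ℝ → ℝ) (T : ℝ) {n : ℕ} (u : Fin n → ℝ) : ℝ :=
  ∑ S : Finset (Fin n), (-1 : ℝ) ^ S.card * (g T - g (min (∑ i ∈ S, u i) T))

/-- `∫ (2 D p - p² / dens)` for `p = P (∑ u)` -/
noncomputable def Psi (n : ℕ) (g P : ℝ → ℝ) (T : ℝ) : ℝ :=
  ∫ u in DD ρ0 n, (2 * Dg g T u * P (∑ i, u i) -
    P (∑ i, u i) ^ 2 * ((∏ i, u i) * (1 - ∑ i, u i)))

/-- `Psi 1` -/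
noncomputable def Ps1 (g P : ℝ → ℝ) (T : ℝ) : ℝ :=
  2 * ((∫ x in (1 / 1000 : ℝ)..(1 / 2), g T * P x) -
    ∫ x in (1 / 1000 : ℝ)..T, (g T - g x) * P x) -
  ∫ x in (1 / 1000 : ℝ)..(1 / 2), x * (1 - x) * P x ^ 2

/-- `Psi 2` -/
noncomputable def Ps2 (g P : ℝ → ℝ) (T : ℝ) : ℝ :=
  2 * ((∫ x in (1 / 1000 : ℝ)..(1 / 3), ∫ z in x..((1 - x) / 2), g T * P (x + z)) -
    (∫ x in (1 / 1000 : ℝ)..T, ∫ z in x..((1 - x) / 2), (g T - g x) * P (x + z)) -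
    (∫ x in (1 / 1000 : ℝ)..T, ∫ z in x..T, (g T - g z) * P (x + z)) +
    ∫ x in (1 / 1000 : ℝ)..(T / 2), ∫ z in x..(T - x), (g T - g (x + z)) * P (x + z)) -
  ∫ x in (1 / 1000 : ℝ)..(1 / 3), ∫ z in x..((1 - x) / 2), x * z * (1 - x - z) * P (x + z) ^ 2

/-- `Psi 3` -/
noncomputable def Ps3 (g P : ℝ → ℝ) (T : ℝ) : ℝ :=
  2 * ((∫ x in (1 / 1000 : ℝ)..(1 / 4), ∫ y in x..((1 - x) / 3), ∫ z in y..((1 - x - y) / 2),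
      g T * P (x + y + z)) -
    (∫ x in (1 / 1000 : ℝ)..T, ∫ y in x..((1 - x) / 3), ∫ z in y..((1 - x - y) / 2),
      (g T - g x) * P (x + y + z)) -
    (∫ x in (1 / 1000 : ℝ)..T, ∫ y in x..T, ∫ z in y..((1 - x - y) / 2),
      (g T - g y) * P (x + y + z)) -
    (∫ x in (1 / 1000 : ℝ)..T, ∫ y in x..T, ∫ z in y..T, (g T - g z) * P (x + y + z)) +
    (∫ x in (1 / 1000 : ℝ)..(T / 2), ∫ y in x..(T - x), ∫ z in y..((1 - x - y) / 2),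
      (g T - g (x + y)) * P (x + y + z)) +
    (∫ x in (1 / 1000 : ℝ)..(T / 2), ∫ y in x..(T - x), ∫ z in y..(T - x),
      (g T - g (x + z)) * P (x + y + z)) +
    (∫ x in (1 / 1000 : ℝ)..(T / 2), ∫ y in x..(T / 2), ∫ z in y..(T - y),
      (g T - g (y + z)) * P (x + y + z)) -
    ∫ x in (1 / 1000 : ℝ)..(T / 3), ∫ y in x..((T - x) / 2), ∫ z in y..(T - x - y),
      (g T - g (x + y + z)) * P (x + y + z)) -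
  ∫ x in (1 / 1000 : ℝ)..(1 / 4), ∫ y in x..((1 - x) / 3), ∫ z in y..((1 - x - y) / 2),
    x * y * z * (1 - x - y - z) * P (x + y + z) ^ 2

/-- hF. `PF (cor 1 a b t) = (1 - t/ρ)(1 - b/ρ)` for `0 ≤ t ≤ Tn b` (`0 ≤ a`, `0 ≤ b`, `a + b ≤ ρ`)
and `0` for `t > Tn b`; so `hh PF ρ0 1 a b u = (1 - b/ρ) (ga1 T - ga1 (min u T))`, `T = Tn b ≥ 0`,
for `u ≥ 0` (also for `u > ρ`). -/
def St_hF : Prop := ∀ (n : ℕ) (u : Fin n → ℝ) (a b : ℝ), (∀ i, 0 ≤ u i) → 0 ≤ a → 0 ≤ b →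
  a + b ≤ ρ0 → hB PF ρ0 1 u a b = (1 - b / ρ0) * Dg ga1 (Tn b) u

/-- hG. `PG (cor 2 a b t) = (1 - t/ρ)²` for `0 ≤ t ≤ Tn b`, `0` for `t > Tn b`. -/
def St_hG : Prop := ∀ (n : ℕ) (u : Fin n → ℝ) (a b : ℝ), (∀ i, 0 ≤ u i) → 0 ≤ a → 0 ≤ b →
  a + b ≤ ρ0 → hB PG ρ0 2 u a b = 1 * Dg ga2 (Tn b) u

/-- E. Lower bound for `QQ`.
PROOF. For `u ∈ DD`: `JJ u * dens u = ∫∫ (wt b * Dg ..)² dens ≥ ∫∫ wt b ² (2 Dg P - P² / dens)`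
(`dens > 0`, `1/dens = (∏ u)(1 - ∑ u)`, `D² d + p²/d ≥ 2 D p`); integrate over `DD` (everything
continuous in `u`, `dens` bounded and measurable: `PTN.thm_DDm`), then `PTN.thm_Swap` with
`dn = fun _ => 1`. -/
def St_E : Prop := ∀ (P : (Fin 3 → ℝ) → ℝ) (j : Fin 3) (g wt Q : ℝ → ℝ) (n : ℕ),
  Continuous g → Continuous wt → Continuous Q →
  (∀ (u : Fin n → ℝ) (a b : ℝ), (∀ i, 0 ≤ u i) → 0 ≤ a → 0 ≤ b → a + b ≤ ρ0 →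
    hB P ρ0 j u a b = wt b * Dg g (Tn b) u) →
  ∫ a in (0 : ℝ)..ρ0, ∫ b in (0 : ℝ)..(ρ0 - a), wt b ^ 2 * Psi n g Q (Tn b) ≤ QQ P ρ0 ρ0 j n

/-- E0. `n = 0` (`PTN.thm_DD1`, first part). -/
def St_E0 : Prop := ∀ (P : (Fin 3 → ℝ) → ℝ) (j : Fin 3) (g wt : ℝ → ℝ), g 0 = 0 →
  (∀ (u : Fin 0 → ℝ) (a b : ℝ), (∀ i, 0 ≤ u i) → 0 ≤ a → 0 ≤ b → a + b ≤ ρ0 →
    hB P ρ0 j u a b = wt b * Dg g (Tn b) u) →
  QQ P ρ0 ρ0 j 0 = ∫ a in (0 : ℝ)..ρ0, ∫ b in (0 : ℝ)..(ρ0 - a), wt b ^ 2 * g (Tn b) ^ 2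

/-- Tri. `∫_0^ρ ∫_0^{ρ-a} f(b) db da = ∫_0^ρ (ρ - b) f(b) db`. -/
def St_Tri : Prop := ∀ (ρ : ℝ) (f : ℝ → ℝ), Continuous f →
  ∫ a in (0 : ℝ)..ρ, ∫ b in (0 : ℝ)..(ρ - a), f b = ∫ b in (0 : ℝ)..ρ, (ρ - b) * f b

/-- C1. `PTN.thm_DD1` (second part, with `k x = κ x * (x (1 - x))`), and `g (min x T) = g T` for
`x ≥ T`. -/
def St_C1 : Prop := ∀ (g P : ℝ → ℝ) (T : ℝ), Continuous g → Continuous P → g 0 = 0 →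
  ρ0 / 4 ≤ T → T ≤ ρ0 → Psi 1 g P T = Ps1 g P T

/-- C2. The same with `PTN.thm_DD2`. The term of `S` is nonzero only for `∑_S u < T`. -/
def St_C2 : Prop := ∀ (g P : ℝ → ℝ) (T : ℝ), Continuous g → Continuous P → g 0 = 0 →
  ρ0 / 4 ≤ T → T ≤ ρ0 → Psi 2 g P T = Ps2 g P T

/-- C3. The same with `PTN.thm_DD3`. -/
def St_C3 : Prop := ∀ (g P : ℝ → ℝ) (T : ℝ), Continuous g → Continuous P → g 0 = 0 →
  ρ0 / 4 ≤ T → T ≤ ρ0 → Psi 3 g P T = Ps3 g P T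

/-- IIF. `PF ![a, b, t]` is nonzero only for `t ≤ ρ - a` and `t ≤ 5/4 ρ - b`; the smaller one is
`ρ - a` iff `b ≤ a + ρ/4`. -/
def St_IIF : Prop := II PF ρ0 =
  (∫ a in (0 : ℝ)..(3 / 4 * ρ0), ((∫ b in (0 : ℝ)..(a + ρ0 / 4), ∫ t in (0 : ℝ)..(ρ0 - a),
      (1 - b / ρ0) ^ 2 * (1 - t / ρ0) ^ 2) +
    ∫ b in (a + ρ0 / 4)..ρ0, ∫ t in (0 : ℝ)..(5 / 4 * ρ0 - b),
      (1 - b / ρ0) ^ 2 * (1 - t / ρ0) ^ 2)) +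
  ∫ a in (3 / 4 * ρ0)..ρ0, ∫ b in (0 : ℝ)..ρ0, ∫ t in (0 : ℝ)..(ρ0 - a),
      (1 - b / ρ0) ^ 2 * (1 - t / ρ0) ^ 2

/-- IIG. `PG ![a, b, t]` is nonzero only for `b ≤ ρ - a` and `t ≤ Tn b`. -/
def St_IIG : Prop := II PG ρ0 =
  ∫ a in (0 : ℝ)..ρ0, ∫ b in (0 : ℝ)..(ρ0 - a), ∫ t in (0 : ℝ)..(Tn b), (1 - t / ρ0) ^ 4

/-- QP. The prime face (`hh PF ρ0 0 a b 0 = ρ (1 - a/ρ)(1 - b/ρ)²` for `a + b ≤ 3/4 ρ`). -/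
def St_QP : Prop := QQ PF ρ0 σ0 0 0 =
  ∫ a in (0 : ℝ)..σ0, ∫ b in (0 : ℝ)..(σ0 - a), (ρ0 * (1 - a / ρ0) * (1 - b / ρ0) ^ 2) ^ 2

end Pool.Agent.PU
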