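import Pool.Agent.PU.NEv

set_option autoImplicit false

/-!
# PU: assembly of the numerical inequality
-/

namespace Pool.Agent.PU

open Pool.Agent.PTN Pool.Agent.PT

theorem rho_eq : ρ0 = ((rq : ℚ) : ℝ) := by
  unfold ρ0 rq
  push_cast
  norm_num

theorem rho_pos : 0 < ρ0 := by
  unfold ρ0
  norm_num

theorem evQ_hom (b : ℝ) : Hom (fun p : List ℚ => evQ b p) := Hom.rat.list b

theorem ga1_eq : ga1 = fun x => evQ x gq1 := by
  funext x
  have := rho_pos.ne'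
  simp only [ga1, evQ, evL, gq1]
  rw [rho_eq]
  push_cast
  ring

theorem ga2_eq : ga2 = fun x => evQ x gq2 := by
  funext x
  simp only [ga2, evQ, evL, gq2]
  rw [rho_eq]
  push_cast
  ring

theorem wt1_eq (b : ℝ) : 1 - b / ρ0 = evQ b wq1 := by
  simp only [evQ, evL, wq1]
  rw [rho_eq]
  push_cast
  ring

theorem wt2_eq (b : ℝ) : 1 = evQ b wq2 := by
  simp [evQ, evL, wq2]

theorem Tn_lo {b : ℝ} (h : b ≤ ρ0 / 4) : Tn b = ρ0 := by
  unfold Tn
  exact min_eq_left (by linarith)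

theorem Tn_hi {b : ℝ} (h : ρ0 / 4 ≤ b) : Tn b = 5 / 4 * ρ0 - b := by
  unfold Tn
  exact min_eq_right (by linarith)

theorem Tn_mem {b : ℝ} (h1 : b ≤ ρ0) : ρ0 / 4 ≤ Tn b ∧ Tn b ≤ ρ0 := by
  unfold Tn
  have := rho_pos
  exact ⟨le_min (by linarith) (by linarith), min_le_left _ _⟩

theorem continuous_Tn : Continuous Tn := by
  unfold Tn
  fun_prop

/-- the outer integral -/
theorem out_ev (hTri : St_Tri) (wt : List ℚ) (φ : List ℚ → List ℚ) (Φ : ℝ → ℝ)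
    (hφ : ∀ (T : List ℚ) (b : ℝ), evQ b (φ T) = Φ (evQ b T)) :
    ∫ a in (0 : ℝ)..ρ0, ∫ b in (0 : ℝ)..(ρ0 - a), evQ b wt ^ 2 * Φ (Tn b) =
      ((outT wt φ : ℚ) : ℝ) := by
  have hΦ : Φ = fun x => evQ x (φ XX) := by
    funext x
    rw [hφ]
    simp [XX, evQ, evL, Ops.zero, Ops.one]
  have hcp : ∀ p : List ℚ, Continuous fun x : ℝ => evQ x p := fun p => continuous_evL _ p
  have hcΦ : Continuous Φ := by
    rw [hΦ]
    exact hcp _
  have hc : Continuous fun b => evQ b wt ^ 2 * Φ (Tn b) :=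
    ((hcp wt).pow 2).mul (hcΦ.comp continuous_Tn)
  rw [hTri ρ0 _ hc]
  have hc2 : Continuous fun b => (ρ0 - b) * (evQ b wt ^ 2 * Φ (Tn b)) := by fun_prop
  rw [← intervalIntegral.integral_add_adjacent_intervals (hc2.intervalIntegrable 0 (ρ0 / 4))
    (hc2.intervalIntegrable (ρ0 / 4) ρ0)]
  unfold outT
  have hw : ∀ (b : ℝ) (q : List ℚ), evQ b (Ops.mul (Ops.mul [rq, -1] (Ops.mul wt wt)) q) =
      (ρ0 - b) * evQ b wt ^ 2 * evQ b q := by
    intro b q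
    rw [(evQ_hom b).mul, (evQ_hom b).mul, (evQ_hom b).mul]
    have : evQ b ([rq, -1] : List ℚ) = ρ0 - b := by
      simp only [evQ, evL]
      rw [rho_eq]
      push_cast
      ring
    rw [this]
    ring
  have hr4 : ((rq / 4 : ℚ) : ℝ) = ρ0 / 4 := by
    rw [rho_eq]
    push_cast
    ring
  push_cast
  congr 1
  · have := integral_evL Hom.rat (Ops.mul (Ops.mul [rq, -1] (Ops.mul wt wt)) (φ [rq])) 0 (rq / 4)
    rw [← this]
    simp only [hr4, Rat.cast_zero]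
    refine intervalIntegral.integral_congr fun b hb => ?_
    rw [Set.uIcc_of_le (by linarith [rho_pos])] at hb
    have h2 := hw b (φ [rq])
    unfold evQ at h2
    rw [h2]
    have h3 := hφ [rq] b
    have h4 : evQ b [rq] = ρ0 := by
      simp only [evQ, evL]
      rw [rho_eq]
      ring
    rw [h4] at h3
    unfold evQ at h3
    rw [h3, Tn_lo hb.2]
    simp only [evQ]
    ring
  · have := integral_evL Hom.rat
      (Ops.mul (Ops.mul [rq, -1] (Ops.mul wt wt)) (φ [5 / 4 * rq, -1])) (rq / 4) rq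
    rw [← this]
    simp only [hr4, ← rho_eq]
    refine intervalIntegral.integral_congr fun b hb => ?_
    rw [Set.uIcc_of_le (by linarith [rho_pos])] at hb
    have h2 := hw b (φ [5 / 4 * rq, -1])
    unfold evQ at h2
    rw [h2]
    have h3 := hφ [5 / 4 * rq, -1] b
    have h4 : evQ b [5 / 4 * rq, -1] = 5 / 4 * ρ0 - b := by
      simp only [evQ, evL]
      rw [rho_eq]
      push_cast
      ring
    rw [h4] at h3
    unfold evQ at h3
    rw [h3, Tn_hi hb.1]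
    simp only [evQ]
    ring

theorem cont_evQ (p : List ℚ) : Continuous fun x : ℝ => evQ x p := continuous_evL _ p

/-- lower bound from the pieces -/
theorem low_of (hE : St_E) (hTri : St_Tri) (P : (Fin 3 → ℝ) → ℝ) (j : Fin 3) (gq wq pq : List ℚ)
    (n : ℕ) (φ : List ℚ → List ℚ) (Φ : ℝ → ℝ)
    (hB : ∀ (u : Fin n → ℝ) (a b : ℝ), (∀ i, 0 ≤ u i) → 0 ≤ a → 0 ≤ b → a + b ≤ ρ0 →
      hB P ρ0 j u a b = evQ b wq * Dg (fun x => evQ x gq) (Tn b) u)
    (hφ : ∀ (T : List ℚ) (b : ℝ), evQ b (φ T) = Φ (evQ b T))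
    (hP : ∀ T, ρ0 / 4 ≤ T → T ≤ ρ0 → Psi n (fun x => evQ x gq) (fun x => evQ x pq) T = Φ T) :
    ((outT wq φ : ℚ) : ℝ) ≤ QQ P ρ0 ρ0 j n := by
  refine le_trans (le_of_eq ?_) (hE P j (fun x => evQ x gq) (fun b => evQ b wq)
    (fun x => evQ x pq) n (cont_evQ _) (cont_evQ _) (cont_evQ _) hB)
  rw [← out_ev hTri wq φ Φ hφ]
  have h0 := rho_pos
  refine intervalIntegral.integral_congr fun a ha => ?_
  rw [Set.uIcc_of_le h0.le] at ha
  refine intervalIntegral.integral_congr fun b hb => ?_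
  rw [Set.uIcc_of_le (by linarith [ha.2])] at hb
  have h1 := Tn_mem (b := b) (by linarith [hb.2, ha.1])
  rw [hP _ h1.1 h1.2]

/-- value for one prime -/
theorem val0 (hE0 : St_E0) (hTri : St_Tri) (P : (Fin 3 → ℝ) → ℝ) (j : Fin 3) (gq wq : List ℚ)
    (h0 : evQ 0 gq = 0)
    (hB : ∀ (u : Fin 0 → ℝ) (a b : ℝ), (∀ i, 0 ≤ u i) → 0 ≤ a → 0 ≤ b → a + b ≤ ρ0 →
      hB P ρ0 j u a b = evQ b wq * Dg (fun x => evQ x gq) (Tn b) u) :
    QQ P ρ0 ρ0 j 0 = ((outT wq (fun T => Ops.mul (atQ gq T) (atQ gq T)) : ℚ) : ℝ) := by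
  rw [hE0 P j (fun x => evQ x gq) (fun b => evQ b wq) h0 hB,
    ← out_ev hTri wq _ (fun T => evQ T gq ^ 2)]
  intro T b
  rw [(evQ_hom b).mul, evq (evQ_hom b)]
  ring

theorem int4 (T : ℝ) : ∫ t in (0 : ℝ)..T, (1 - t / ρ0) ^ 4 = ∫ t in (0 : ℝ)..T,
    (1 + t * (-4 / ρ0 + t * (6 / ρ0 ^ 2 + t * (-4 / ρ0 ^ 3 + t * (1 / ρ0 ^ 4))))) := by
  refine intervalIntegral.integral_congr fun t _ => ?_
  ring

theorem iq4_ev (T : List ℚ) (b : ℝ) :
    evQ b (iq4 T) = ∫ t in (0 : ℝ)..(evQ b T), (1 - t / ρ0) ^ 4 := by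
  unfold iq4
  have h := integral_evL (evQ_hom b)
    ([[1], [-4 / rq], [6 / rq ^ 2], [-4 / rq ^ 3], [1 / rq ^ 4]] : List (List ℚ)) [] T
  rw [← h, int4]
  have e0 : evQ b ([] : List ℚ) = 0 := rfl
  rw [e0]
  refine intervalIntegral.integral_congr fun t _ => ?_
  simp only [evL, evQ]
  rw [rho_eq]
  push_cast
  ring

theorem num_IIG (hTri : St_Tri) (h : St_IIG) : II PG ρ0 = ((outT wq2 iq4 : ℚ) : ℝ) := by
  rw [h, ← out_ev hTri wq2 iq4 (fun T => ∫ t in (0 : ℝ)..T, (1 - t / ρ0) ^ 4)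
    (fun T b => iq4_ev T b)]
  refine intervalIntegral.integral_congr fun a _ => ?_
  refine intervalIntegral.integral_congr fun b _ => ?_
  rw [← wt2_eq]
  ring

theorem fq_ev (a b t : ℝ) : evL (evL (evL (fun q : ℚ => (q : ℝ)) a) b) t fq =
    (1 - b / ρ0) ^ 2 * (1 - t / ρ0) ^ 2 := by
  have h1 := Hom.rat.list a
  have h2 := h1.list b
  have h3 := h2.list t
  unfold fq
  simp only [h3.mul, h3.hsub, h3.sc, h3.one, evL_CC, h1.hXX, h2.hXX]
  rw [rho_eq]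
  push_cast
  ring

theorem num_IIF (h : St_IIF) : II PF ρ0 = ((iqF : ℚ) : ℝ) := by
  rw [h]
  unfold iqF
  push_cast
  have hr := Hom.rat
  have e3 : (((3 / 4 * rq : ℚ)) : ℝ) = 3 / 4 * ρ0 := by
    rw [rho_eq]
    push_cast
    ring
  congr 1
  · have hI := integral_evL Hom.rat
      (Ops.add (intg2 fq Ops.zero (CC (sub (kk rq) XX)) Ops.zero (Ops.add XX (kk (rq / 4))))
        (intg2 fq Ops.zero (sub (kk (5 / 4 * rq)) XX) (Ops.add XX (kk (rq / 4))) (kk rq)) : List ℚ)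
      0 (3 / 4 * rq)
    rw [← hI, e3]
    simp only [Rat.cast_zero]
    refine intervalIntegral.integral_congr fun a _ => ?_
    have h1 := Hom.rat.list a
    simp only [h1.add, ev_intg2 h1, h1.zero, h1.hkk, Hom.rat.hXX a, fq_ev]
    have h2 := fun b : ℝ => h1.list b
    simp only [fun b => (h2 b).zero, evL_CC, h1.hsub, fun b => (h2 b).hsub, h1.hkk,
      fun b => (h2 b).hkk, Hom.rat.hXX a, fun b => h1.hXX b]
    rw [rho_eq]
    push_cast
    rfl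
  · have hI := integral_evL Hom.rat
      (intg2 fq Ops.zero (CC (sub (kk rq) XX)) Ops.zero (kk rq) : List ℚ) (3 / 4 * rq) rq
    rw [← hI, e3]
    simp only [← rho_eq]
    refine intervalIntegral.integral_congr fun a _ => ?_
    have h1 := Hom.rat.list a
    simp only [ev_intg2 h1, h1.zero, h1.hkk, fq_ev]
    have h2 := fun b : ℝ => h1.list b
    simp only [fun b => (h2 b).zero, evL_CC, h1.hsub, h1.hkk, Hom.rat.hXX a]
    rw [rho_eq]

theorem num_QP (h : St_QP) : QQ PF ρ0 σ0 0 0 = ((pq : ℚ) : ℝ) := by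
  rw [h]
  unfold pq
  have hr := Hom.rat
  rw [ev_intg2 Hom.rat]
  have e3 : (((3 / 4 * rq : ℚ)) : ℝ) = σ0 := by
    unfold σ0
    rw [rho_eq]
    push_cast
    ring
  simp only [Rat.cast_zero, e3]
  refine intervalIntegral.integral_congr fun a _ => ?_
  have h1 := Hom.rat.list a
  simp only [h1.zero, h1.hsub, evL_CC, Hom.rat.hXX a, e3]
  refine intervalIntegral.integral_congr fun b _ => ?_
  have h2 := h1.list b
  simp only [h2.mul, h2.hsub, h2.sc, h2.one, evL_CC, h1.hXX, Hom.rat.hXX a]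
  rw [rho_eq]
  push_cast
  ring

/-- the numerical inequality -/
theorem num_of (hF : St_hF) (hG : St_hG) (hE : St_E) (hE0 : St_E0) (hTri : St_Tri) (hC1 : St_C1)
    (hC2 : St_C2) (hC3 : St_C3) (hIF : St_IIF) (hIG : St_IIG) (hQP : St_QP) : St_Num := by
  have g10 : evQ 0 gq1 = 0 := by simp [evQ, evL, gq1]
  have g20 : evQ 0 gq2 = 0 := by simp [evQ, evL, gq2]
  have bF : ∀ (n : ℕ) (u : Fin n → ℝ) (a b : ℝ), (∀ i, 0 ≤ u i) → 0 ≤ a → 0 ≤ b → a + b ≤ ρ0 →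
      hB PF ρ0 1 u a b = evQ b wq1 * Dg (fun x => evQ x gq1) (Tn b) u := by
    intro n u a b h1 h2 h3 h4
    rw [hF n u a b h1 h2 h3 h4, wt1_eq, ga1_eq]
  have bG : ∀ (n : ℕ) (u : Fin n → ℝ) (a b : ℝ), (∀ i, 0 ≤ u i) → 0 ≤ a → 0 ≤ b → a + b ≤ ρ0 →
      hB PG ρ0 2 u a b = evQ b wq2 * Dg (fun x => evQ x gq2) (Tn b) u := by
    intro n u a b h1 h2 h3 h4
    rw [hG n u a b h1 h2 h3 h4, ← wt2_eq, ga2_eq]
  have F0 := val0 hE0 hTri PF 1 gq1 wq1 g10 (bF 0)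
  have G0 := val0 hE0 hTri PG 2 gq2 wq2 g20 (bG 0)
  have F1 := low_of hE hTri PF 1 gq1 wq1 pF1 1 (en1 gq1 pF1) _ (bF 1)
    (fun T b => en1_ev (evQ_hom b) gq1 pF1 T)
    (fun T h1 h2 => hC1 _ _ T (cont_evQ _) (cont_evQ _) g10 h1 h2)
  have F2 := low_of hE hTri PF 1 gq1 wq1 pF2 2 (en2 gq1 pF2) _ (bF 2)
    (fun T b => en2_ev (evQ_hom b) gq1 pF2 T)
    (fun T h1 h2 => hC2 _ _ T (cont_evQ _) (cont_evQ _) g10 h1 h2)
  have G1 := low_of hE hTri PG 2 gq2 wq2 pG1 1 (en1 gq2 pG1) _ (bG 1)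
    (fun T b => en1_ev (evQ_hom b) gq2 pG1 T)
    (fun T h1 h2 => hC1 _ _ T (cont_evQ _) (cont_evQ _) g20 h1 h2)
  have G2 := low_of hE hTri PG 2 gq2 wq2 pG2 2 (en2 gq2 pG2) _ (bG 2)
    (fun T b => en2_ev (evQ_hom b) gq2 pG2 T)
    (fun T h1 h2 => hC2 _ _ T (cont_evQ _) (cont_evQ _) g20 h1 h2)
  have G3 := low_of hE hTri PG 2 gq2 wq2 pG3 3 (en3 gq2 pG3) _ (bG 3)
    (fun T b => en3_ev (evQ_hom b) gq2 pG3 T)
    (fun T h1 h2 => hC3 _ _ T (cont_evQ _) (cont_evQ _) g20 h1 h2)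
  have c := (Rat.cast_lt (K := ℝ)).2 cert
  push_cast at c
  unfold St_Num
  rw [num_IIF hIF, num_IIG hTri hIG, num_QP hQP, F0, G0]
  linarith

end Pool.Agent.PU
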