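import Pool.Agent.PU.Stmts

set_option autoImplicit false

/-!
# PU: the profiles for a prime, a `P_3` and a `P_4`, and the numerical inequality

Everything in units of `ρ`: `t_i = a_i / ρ`.  `F = (1 - t_1)(1 - t_2)` on `t_i ≤ 1`,
`t_1 + t_2 ≤ 5/4`, `t_0 + t_2 ≤ 1`; `G = (1 - t_2)²` on `t_i ≤ 1`, `t_1 + t_2 ≤ 5/4`,
`t_0 + t_1 ≤ 1`.  Both have the marginal `(1 - t_1)(1 - t_2)²` in the place `0`.
-/

namespace Pool.Agent.PU

open Finset Filter Pool.Agent.MT Pool.Agent.PT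

/-- the level `ρ = 1/4.004` -/
noncomputable def ρ0 : ℝ := 250 / 1001

/-- `3/4 ρ` -/
noncomputable def σ0 : ℝ := 3 / 4 * ρ0

/-- bounds of the sums for `F` -/
noncomputable def rF : Fin 3 → ℝ := ![5 / 4 * ρ0, ρ0, 2 * ρ0]

/-- bounds of the sums for `G` -/
noncomputable def rG : Fin 3 → ℝ := ![5 / 4 * ρ0, 2 * ρ0, ρ0]

open Classical in
/-- the first profile -/
noncomputable def PF (a : Fin 3 → ℝ) : ℝ :=
  if Reg2 ρ0 rF a then (1 - a 1 / ρ0) * (1 - a 2 / ρ0) else 0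

open Classical in
/-- the second profile -/
noncomputable def PG (a : Fin 3 → ℝ) : ℝ :=
  if Reg2 ρ0 rG a then (1 - a 2 / ρ0) ^ 2 else 0

/-- Pf. Both are profiles (any `K ≥ 10/ρ0` should do; as `PT/ProfA.lean`). -/
def St_PF : Prop := ∃ K : ℝ, 0 < K ∧ Pf ρ0 rF K PF ∧ Pf ρ0 rG K PG

/-- Mar. The equal marginals. For `a ≤ ρ`, `b ≤ ρ`, `a + b ≤ 5/4 ρ` both are
`ρ (1 - a/ρ)(1 - b/ρ)²`, otherwise `0`. -/
def St_Mar : Prop := ∀ a b : ℝ, 0 ≤ a → 0 ≤ b → hh PF ρ0 0 a b 0 = hh PG ρ0 0 a b 0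

/-- Num. The numerical inequality. In units of `ρ³` (`S = 1/ρ0 = 4.004`): left side
`.083016 + .099364`, right side `.014980 + (.015262 + .03351 + .02513) + (.013266 + .03379 + .03258
+ .01535)`; the difference is `.00155`. -/
def St_Num : Prop := II PF ρ0 + II PG ρ0 < QQ PF ρ0 σ0 0 0 +
  (QQ PF ρ0 ρ0 1 0 + QQ PF ρ0 ρ0 1 1 + QQ PF ρ0 ρ0 1 2) +
  (QQ PG ρ0 ρ0 2 0 + QQ PG ρ0 ρ0 2 1 + QQ PG ρ0 ρ0 2 2 + QQ PG ρ0 ρ0 2 3)

end Pool.Agent.PU
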