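import Pool.Agent.PU.AllU
import Pool.Agent.PU.NumP
import Pool.Agent.PU.NhF
import Pool.Agent.PU.NPF
import Pool.Agent.PU.NE
import Pool.Agent.PU.NE0
import Pool.Agent.PU.NC12
import Pool.Agent.PU.NC3
import Pool.Agent.PU.NII
import Pool.Agent.PT.FinB

set_option autoImplicit false

/-!
# PU / Out34: a prime, a `P_3` and a `P_4` in prescribed places
-/

namespace Pool.Agent.PU

open Finset Filter Pool.Agent.MT Pool.Agent.PT

theorem num_holds : St_Num :=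
  num_of thm_hF thm_hG thm_E thm_E0 thm_Tri thm_C1 thm_C2 thm_C3 thm_IIF thm_IIG thm_QP

/-- weights of the numbers of prime factors -/
noncomputable def c34 (j : Fin 3) (m : ℕ) : ℝ := if j = 1 ∧ 3 < m then 0 else if 4 < m then 0 else 1

theorem c34_range (j : Fin 3) (m : ℕ) : 0 ≤ c34 j m ∧ c34 j m ≤ 1 := by
  unfold c34
  split_ifs <;> norm_num

theorem c34_one {m : ℕ} (h : 0 < c34 1 m) : m ≤ 3 := by
  by_contra hm
  unfold c34 at h
  rw [if_pos ⟨rfl, by omega⟩] at h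
  exact lt_irrefl _ h

theorem c34_two {m : ℕ} (h : 0 < c34 2 m) : m ≤ 4 := by
  by_contra hm
  unfold c34 at h
  rw [if_neg (by simp), if_pos (by omega)] at h
  exact lt_irrefl _ h

theorem e34_gap : II PF ρ0 + II PG ρ0 < QQ PF ρ0 σ0 0 0 +
    ∑ n ∈ range 4, c34 1 (n + 1) * QQ PF ρ0 ρ0 1 n +
    ∑ n ∈ range 4, c34 2 (n + 1) * QQ PG ρ0 ρ0 2 n := by
  have h := num_holds
  unfold St_Num at h
  have e1 : ∑ n ∈ range 4, c34 1 (n + 1) * QQ PF ρ0 ρ0 1 n =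
      QQ PF ρ0 ρ0 1 0 + QQ PF ρ0 ρ0 1 1 + QQ PF ρ0 ρ0 1 2 := by
    simp [sum_range_succ, c34]
  have e2 : ∑ n ∈ range 4, c34 2 (n + 1) * QQ PG ρ0 ρ0 2 n =
      QQ PG ρ0 ρ0 2 0 + QQ PG ρ0 ρ0 2 1 + QQ PG ρ0 ρ0 2 2 + QQ PG ρ0 ρ0 2 3 := by
    simp [sum_range_succ, c34]
  rw [e1, e2]
  exact h

open Classical in
theorem e34_core (sh : Fin 3 → ℕ) (hinj : Function.Injective sh) (hadm : Adm sh) :
    ∃ c₀ : ℝ, 0 < c₀ ∧ ∀ᶠ x : ℕ in atTop,
    c₀ * x / Real.log x ^ 3 ≤ (((range (x + 1)).filter (fun n : ℕ =>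
      ((n + sh 0).Prime ∧ ArithmeticFunction.cardFactors (n + sh 1) ≤ 3 ∧
      ArithmeticFunction.cardFactors (n + sh 2) ≤ 4) ∧
      ∀ j, ∀ p : ℕ, p.Prime → p ∣ n + sh j → (x : ℝ) ^ (1 / 1000 : ℝ) < p)).card : ℝ) := by
  have hr : ρ0 = 250 / 1001 := rfl
  obtain ⟨K, hK, hPF, hPG⟩ := thm_PF
  have hrF : ∀ j, ρ0 ≤ rF j := by
    intro j
    fin_cases j <;> simp [rF, hr] <;> norm_num
  have hrG : ∀ j, ρ0 ≤ rG j := by
    intro j
    fin_cases j <;> simp [rG, hr] <;> norm_num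
  obtain ⟨c₀, h0, h1⟩ := core_holds ρ0 σ0 K rF rG PF PG (by unfold σ0; rw [hr]; norm_num)
    (by unfold σ0; rw [hr]; norm_num) hrF hrG (by simp [rF, rG])
    (by simp only [rF, σ0, hr]; norm_num) (by simp [rF]) (by simp [rG])
    (by rw [hr]; norm_num) hK hPF hPG thm_Mar c34 c34_range e34_gap sh hinj hadm
  refine ⟨c₀, h0, h1.mono fun x hx => hx.trans ?_⟩
  refine Nat.cast_le.2 (card_le_card fun n hn => ?_)
  obtain ⟨h2, h3, h4, h5, h6⟩ := mem_filter.1 hn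
  exact mem_filter.2 ⟨h2, ⟨h3, c34_one h4, c34_two h5⟩, h6⟩

/-- a prime, a `P_3` and a `P_4` in prescribed places -/
theorem e34 (h : Fin 3 → ℕ) (hinj : Function.Injective h)
    (hadm : ∀ p : ℕ, p.Prime → ∃ a : ℕ, ∀ i, ¬ p ∣ a + h i) (e : Equiv.Perm (Fin 3)) :
    ∃ c : ℝ, 0 < c ∧ ∀ᶠ x : ℕ in Filter.atTop,
      c * x / Real.log x ^ 3 ≤
        ({n : ℕ | n ≤ x ∧
          ((n + h (e 0)).Prime ∧
            ArithmeticFunction.cardFactors (n + h (e 1)) ≤ 3 ∧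
            ArithmeticFunction.cardFactors (n + h (e 2)) ≤ 4) ∧
          ∀ i, ∀ p : ℕ, p.Prime → p ∣ n + h i → (x : ℝ) ^ (1 / 1000 : ℝ) < p}.ncard : ℝ) := by
  classical
  obtain ⟨c, h0, h1⟩ := e34_core (fun i => h (e i)) (hinj.comp e.injective)
    (fun p hp => (hadm p hp).imp fun a ha i => ha (e i))
  refine ⟨c, h0, h1.mono fun x hx => hx.trans ?_⟩
  rw [finb_card]
  refine Nat.cast_le.2 (card_le_card fun n hn => ?_)
  obtain ⟨h2, h3, h4⟩ := mem_filter.1 hn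
  refine mem_filter.2 ⟨h2, h3, fun i p hp hd => ?_⟩
  exact h4 (e.symm i) p hp (by simpa using hd)

end Pool.Agent.PU
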