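import Pool.Agent.PU.StD
import Pool.Agent.PT.TB
import Pool.Agent.PT.SQ

set_option autoImplicit false

/-!
# PU / TB

Adapted from `PT/TB.lean`; only the region changes.
-/

namespace Pool.Agent.PU

open Finset Filter Pool.Agent.MT Pool.Agent.PT MeasureTheory

section FB

variable {ρ K : ℝ} {r : Fin 3 → ℝ} {F : (Fin 3 → ℝ) → ℝ}

theorem TB_K (hF : Pf ρ r K F) : 0 ≤ K := (abs_nonneg _).trans (hF.bd 0)

theorem TB_FB (hF : Pf ρ r K F) (j : Fin 3) {n : ℕ} (u : Fin n → ℝ) (a : Fin 3 → ℝ) :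
    |FB F j u a| ≤ 2 ^ n * K := by
  unfold FB
  refine (Finset.abs_sum_le_sum_abs _ _).trans ?_
  refine (Finset.sum_le_card_nsmul _ _ K fun S _ => ?_).trans (le_of_eq ?_)
  · rw [abs_mul, abs_pow, abs_neg, abs_one, one_pow, one_mul]
    exact hF.bd _
  · rw [Finset.card_univ, Fintype.card_finset, Fintype.card_fin, nsmul_eq_mul]
    push_cast
    ring

theorem TB_zero (hF : Pf ρ r K F) (j : Fin 3) {n : ℕ} (u : Fin n → ℝ) (hu : ∀ i, 0 ≤ u i)
    (a : Fin 3 → ℝ) (h : ρ < a j ∨ r j < a (o1 j) + a (o2 j)) : FB F j u a = 0 := by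
  unfold FB
  refine Finset.sum_eq_zero fun S _ => ?_
  obtain ⟨h1, h2, h3⟩ := PT.TB_o j
  rw [hF.zero, mul_zero]
  rintro ⟨h4, h5⟩
  have hS : 0 ≤ ∑ i ∈ S, u i := Finset.sum_nonneg fun i _ => hu i
  rcases h with h | h
  · have h6 := (h4 j).2
    rw [Function.update_self] at h6
    linarith
  · have h6 := h5 j
    rw [Function.update_of_ne h1, Function.update_of_ne h2] at h6
    linarith

end FB

/-- all terms -/
theorem TB_abs {w X : ℕ} {ρ K : ℝ} {r : Fin 3 → ℝ} {F : (Fin 3 → ℝ) → ℝ} (hF : Pf ρ r K F) (M N : ℕ) (j : Fin 3)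
    {n : ℕ} (u : Fin n → ℝ) (hu : ∀ i, 0 ≤ u i) (τ σ : PP w X → Option (Fin 3)) :
    |FB F j u (szs M N σ) * ∏ i, TBw j i (σ i) (τ i)| ≤
      (if ss M N (part σ j) ≤ ρ then 2 ^ n * K else 0) * ∏ i, |TBw j i (σ i) (τ i)| := by
  rw [abs_mul, Finset.abs_prod]
  refine mul_le_mul_of_nonneg_right ?_ (Finset.prod_nonneg fun i _ => abs_nonneg _)
  split_ifs with h
  · exact TB_FB hF j u _
  · rw [TB_zero hF j u hu _ (Or.inl (not_le.1 h)), abs_zero]

/-- the first bound -/
theorem TB_up (hSQ : St_SQ) {w X : ℕ} (hw : 8 ≤ w) {ρ K : ℝ} {r : Fin 3 → ℝ} {F : (Fin 3 → ℝ) → ℝ}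
    (hF : Pf ρ r K F) (M N : ℕ) (j : Fin 3)
    {n : ℕ} (u : Fin n → ℝ) (hu : ∀ i, 0 ≤ u i) (τ : PP w X → Option (Fin 3)) :
    |tB F M N j u τ| ≤ |sg τ| * (2 ^ n * K) * (2 * GG w X M N ρ) := by
  have hK := TB_K hF
  have hP := PT.TB_P (X := X) hSQ hw
  rw [PT.TB_tB]
  refine (Finset.abs_sum_le_sum_abs _ _).trans ?_
  refine (Finset.sum_le_sum fun σ _ => TB_abs hF M N j u hu τ σ).trans ?_
  rw [PT.TB_fiber j (fun e => if ss M N e ≤ ρ then 2 ^ n * K else 0)
    (fun i s => |TBw j i s (τ i)|)]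
  have h1 : ∀ e : Finset (PP w X), (if ss M N e ≤ ρ then 2 ^ n * K else 0) *
      ((∏ i ∈ e, |TBw j i (some j) (τ i)|) *
        ∏ i ∈ eᶜ, ∑ s ∈ univ.erase (some j), |TBw j i s (τ i)|) ≤
      (|sg τ| * (2 ^ n * K) * 2) * (if ss M N e ≤ ρ then ∏ i ∈ e, qq i else 0) := by
    intro e
    split_ifs with h
    · have h2 : ∏ i ∈ eᶜ, ∑ s ∈ univ.erase (some j), |TBw j i s (τ i)| ≤
          (∏ i ∈ eᶜ, (if τ i = none then 1 else (pr i : ℝ) / ((pr i : ℝ) - 1))) * 2 := by
        refine (Finset.prod_le_prod (fun i _ => Finset.sum_nonneg fun s _ => abs_nonneg _)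
          fun i _ => PT.TB_x j i (τ i)).trans ?_
        rw [Finset.prod_mul_distrib]
        refine mul_le_mul_of_nonneg_left ?_ (Finset.prod_nonneg fun i _ => ?_)
        · refine (PT.TB_compl e).trans ?_
          linarith [hP.1, hP.2]
        · split_ifs
          · exact zero_le_one
          · exact (PT.TB_r i).le
      have h3 := mul_le_mul_of_nonneg_left h2
        (Finset.prod_nonneg (s := e) fun i _ => abs_nonneg (TBw j i (some j) (τ i)))
      have h4 := PT.TB_main j τ e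
      have h5 : 0 ≤ 2 ^ n * K := by positivity
      calc 2 ^ n * K * ((∏ i ∈ e, |TBw j i (some j) (τ i)|) *
            ∏ i ∈ eᶜ, ∑ s ∈ univ.erase (some j), |TBw j i s (τ i)|)
          ≤ 2 ^ n * K * (((∏ i ∈ e, |TBw j i (some j) (τ i)|) *
            (∏ i ∈ eᶜ, (if τ i = none then 1 else (pr i : ℝ) / ((pr i : ℝ) - 1)))) * 2) := by
            refine mul_le_mul_of_nonneg_left ?_ h5
            linarith
        _ ≤ 2 ^ n * K * (((∏ i ∈ e, qq i) * |sg τ|) * 2) := by
            refine mul_le_mul_of_nonneg_left ?_ h5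
            linarith
        _ = _ := by ring
    · rw [zero_mul, mul_zero]
  refine (Finset.sum_le_sum fun e _ => h1 e).trans (le_of_eq ?_)
  rw [← Finset.mul_sum]
  unfold GG
  ring

/-- the second bound -/
theorem TB_low (hSQ : St_SQ) {w X : ℕ} (hw : 8 ≤ w) {ρ K : ℝ} {r : Fin 3 → ℝ} {F : (Fin 3 → ℝ) → ℝ}
    (hF : Pf ρ r K F) (M N : ℕ) (j : Fin 3)
    {n : ℕ} (u : Fin n → ℝ) (hu : ∀ i, 0 ≤ u i) (τ : PP w X → Option (Fin 3))
    (hτ : ∀ i, τ i ≠ some j) :
    |tB F M N j u τ - sg τ * tm (w := w) (X := X) F M N j u (szs M N τ (o1 j))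
      (szs M N τ (o2 j))| ≤
      |sg τ| * (2 ^ n * K) * GG w X M N ρ * (8 / w + ∑ i ∈ supp τ, qq i) := by
  classical
  have hK := TB_K hF
  have hP := PT.TB_P (X := X) hSQ hw
  have hnK : 0 ≤ 2 ^ n * K := by positivity
  have hG := PT.TB_GG (w := w) (X := X) M N ρ
  set D := univ.filter (fun σ : PP w X → Option (Fin 3) =>
        ∀ i, τ i ≠ none ∨ σ i = none ∨ σ i = some j) with hD
  set f : (PP w X → Option (Fin 3)) → ℝ := fun σ => FB F j u (szs M N σ) *
    ∏ i, TBw j i (σ i) (τ i) with hf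
  have hdiag := PT.TB_diag F M N j u τ hτ
  -- first difference
  have h1 : |tB F M N j u τ - ∑ σ ∈ D, f σ| ≤ |sg τ| * (2 ^ n * K) * GG w X M N ρ * (8 / w) := by
    have e1 : tB F M N j u τ - ∑ σ ∈ D, f σ = ∑ σ ∈ Dᶜ, f σ := by
      rw [PT.TB_tB, ← Finset.sum_add_sum_compl D]
      ring
    rw [e1]
    refine (Finset.abs_sum_le_sum_abs _ _).trans ?_
    refine (Finset.sum_le_sum fun σ _ => TB_abs hF M N j u hu τ σ).trans ?_
    have e2 := Finset.sum_add_sum_compl D (fun σ : PP w X → Option (Fin 3) =>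
      (if ss M N (part σ j) ≤ ρ then 2 ^ n * K else 0) * ∏ i, |TBw j i (σ i) (τ i)|)
    rw [PT.TB_fiber j (fun e => if ss M N e ≤ ρ then 2 ^ n * K else 0)
      (fun i s => |TBw j i s (τ i)|)] at e2
    have e3 : ∑ σ ∈ D, (if ss M N (part σ j) ≤ ρ then 2 ^ n * K else 0) *
        ∏ i, |TBw j i (σ i) (τ i)| = ∑ σ : PP w X → Option (Fin 3),
        (if ss M N (part σ j) ≤ ρ then 2 ^ n * K else 0) * ∏ i,
        (if τ i ≠ none ∨ σ i = none ∨ σ i = some j then |TBw j i (σ i) (τ i)| else 0) := by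
      rw [hD, Finset.sum_filter]
      refine Finset.sum_congr rfl fun σ _ => ?_
      split_ifs with h2 h3 h3
      · congr 1
        exact Finset.prod_congr rfl fun i _ => by rw [if_pos (h2 i)]
      · rw [zero_mul, zero_mul]
      · push Not at h2
        obtain ⟨i, h4, h5, h6⟩ := h2
        rw [Finset.prod_eq_zero (mem_univ i), mul_zero]
        rw [if_neg]
        rintro (h7 | h7 | h7)
        · exact h7 h4
        · exact h5 h7
        · exact h6 h7
      · rw [zero_mul]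
    rw [PT.TB_fiber j (fun e => if ss M N e ≤ ρ then 2 ^ n * K else 0)
      (fun i s => if τ i ≠ none ∨ s = none ∨ s = some j then |TBw j i s (τ i)| else 0)] at e3
    rw [e3] at e2
    have e4 : ∑ σ ∈ Dᶜ, (if ss M N (part σ j) ≤ ρ then 2 ^ n * K else 0) *
        ∏ i, |TBw j i (σ i) (τ i)| = ∑ e : Finset (PP w X),
        (if ss M N e ≤ ρ then 2 ^ n * K else 0) * ((∏ i ∈ e, |TBw j i (some j) (τ i)|) *
        ((∏ i ∈ eᶜ, ∑ s ∈ univ.erase (some j), |TBw j i s (τ i)|) -
          ∏ i ∈ eᶜ, (if τ i = none then 1 else (pr i : ℝ) / ((pr i : ℝ) - 1)))) := by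
      have e5 : ∀ e : Finset (PP w X), (if ss M N e ≤ ρ then 2 ^ n * K else 0) *
          ((∏ i ∈ e, (if τ i ≠ none ∨ (some j : Option (Fin 3)) = none ∨
            (some j : Option (Fin 3)) = some j then |TBw j i (some j) (τ i)| else 0)) *
          ∏ i ∈ eᶜ, ∑ s ∈ univ.erase (some j),
            (if τ i ≠ none ∨ s = none ∨ s = some j then |TBw j i s (τ i)| else 0)) =
          (if ss M N e ≤ ρ then 2 ^ n * K else 0) * ((∏ i ∈ e, |TBw j i (some j) (τ i)|) *
          ∏ i ∈ eᶜ, (if τ i = none then 1 else (pr i : ℝ) / ((pr i : ℝ) - 1))) := by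
        intro e
        congr 2
        · refine Finset.prod_congr rfl fun i _ => ?_
          rw [if_pos (Or.inr (Or.inr rfl))]
        · exact Finset.prod_congr rfl fun i _ => PT.TB_y j i (τ i) (hτ i)
      rw [Finset.sum_congr rfl fun e _ => e5 e] at e2
      simp only [mul_sub, Finset.sum_sub_distrib]
      linarith
    rw [e4]
    have e6 : ∀ e : Finset (PP w X), (if ss M N e ≤ ρ then 2 ^ n * K else 0) *
        ((∏ i ∈ e, |TBw j i (some j) (τ i)|) *
        ((∏ i ∈ eᶜ, ∑ s ∈ univ.erase (some j), |TBw j i s (τ i)|) -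
          ∏ i ∈ eᶜ, (if τ i = none then 1 else (pr i : ℝ) / ((pr i : ℝ) - 1)))) ≤
        (|sg τ| * (2 ^ n * K) * (8 / w)) * (if ss M N e ≤ ρ then ∏ i ∈ e, qq i else 0) := by
      intro e
      split_ifs with h
      · have hy : 0 ≤ ∏ i ∈ eᶜ, (if τ i = none then 1 else (pr i : ℝ) / ((pr i : ℝ) - 1)) :=
          Finset.prod_nonneg fun i _ => by
            split_ifs
            · exact zero_le_one
            · exact (PT.TB_r i).le
        have h2 : ∏ i ∈ eᶜ, ∑ s ∈ univ.erase (some j), |TBw j i s (τ i)| ≤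
            (∏ i ∈ eᶜ, (if τ i = none then 1 else (pr i : ℝ) / ((pr i : ℝ) - 1))) *
              (1 + 8 / w) := by
          refine (Finset.prod_le_prod (fun i _ => Finset.sum_nonneg fun s _ => abs_nonneg _)
            fun i _ => PT.TB_x j i (τ i)).trans ?_
          rw [Finset.prod_mul_distrib]
          exact mul_le_mul_of_nonneg_left ((PT.TB_compl e).trans hP.1) hy
        have h3 : (∏ i ∈ eᶜ, ∑ s ∈ univ.erase (some j), |TBw j i s (τ i)|) -
            ∏ i ∈ eᶜ, (if τ i = none then 1 else (pr i : ℝ) / ((pr i : ℝ) - 1)) ≤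
            (∏ i ∈ eᶜ, (if τ i = none then 1 else (pr i : ℝ) / ((pr i : ℝ) - 1))) * (8 / w) := by
          linarith
        have h4 := mul_le_mul_of_nonneg_left h3
          (Finset.prod_nonneg (s := e) fun i _ => abs_nonneg (TBw j i (some j) (τ i)))
        have h5 := PT.TB_main j τ e
        have h6 : (0 : ℝ) ≤ 8 / w := by positivity
        have h7 := mul_le_mul_of_nonneg_right h5 h6
        calc 2 ^ n * K * ((∏ i ∈ e, |TBw j i (some j) (τ i)|) *
              ((∏ i ∈ eᶜ, ∑ s ∈ univ.erase (some j), |TBw j i s (τ i)|) -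
                ∏ i ∈ eᶜ, (if τ i = none then 1 else (pr i : ℝ) / ((pr i : ℝ) - 1))))
            ≤ 2 ^ n * K * (((∏ i ∈ e, qq i) * |sg τ|) * (8 / w)) := by
              refine mul_le_mul_of_nonneg_left ?_ hnK
              linarith
          _ = _ := by ring
      · rw [zero_mul, mul_zero]
    refine (Finset.sum_le_sum fun e _ => e6 e).trans (le_of_eq ?_)
    rw [← Finset.mul_sum]
    unfold GG
    ring
  -- second difference
  have h2 : |∑ σ ∈ D, f σ - sg τ * tm (w := w) (X := X) F M N j u (szs M N τ (o1 j))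
      (szs M N τ (o2 j))| ≤
      |sg τ| * (2 ^ n * K) * GG w X M N ρ * ∑ i ∈ supp τ, qq i := by
    rw [hD, hf, hdiag, ← mul_sub, abs_mul, mul_assoc, mul_assoc]
    refine mul_le_mul_of_nonneg_left ?_ (abs_nonneg _)
    unfold tm
    set A := univ.filter (fun e : Finset (PP w X) => ∀ i ∈ e, τ i = none) with hA
    have e1 := Finset.sum_add_sum_compl A (fun e : Finset (PP w X) => (∏ i ∈ e, qq i) *
      FB F j u (cor j (szs M N τ (o1 j)) (szs M N τ (o2 j)) (ss M N e)))
    rw [← e1, sub_add_cancel_left, abs_neg]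
    refine (Finset.abs_sum_le_sum_abs _ _).trans ?_
    have e2 : ∀ e ∈ Aᶜ, |(∏ i ∈ e, qq i) *
        FB F j u (cor j (szs M N τ (o1 j)) (szs M N τ (o2 j)) (ss M N e))| ≤
        (2 ^ n * K) * ∑ i ∈ supp τ, (if i ∈ e ∧ ss M N e ≤ ρ then ∏ l ∈ e, qq l else 0) := by
      intro e he
      have hqe : 0 ≤ ∏ i ∈ e, qq i := Finset.prod_nonneg fun i _ => (PT.TB_q i).le
      have hnn : ∀ i ∈ supp τ, 0 ≤ (if i ∈ e ∧ ss M N e ≤ ρ then ∏ l ∈ e, qq l else 0) := by
        intro i _
        split_ifs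
        · exact hqe
        · exact le_rfl
      rw [abs_mul, abs_of_nonneg hqe]
      by_cases h3 : ss M N e ≤ ρ
      · rw [mem_compl, hA, mem_filter] at he
        push Not at he
        obtain ⟨i, hi, hτi⟩ := he (mem_univ _)
        have hi' : i ∈ supp τ := by
          rw [supp, mem_filter]
          exact ⟨mem_univ _, hτi⟩
        have h4 := Finset.single_le_sum hnn hi'
        rw [if_pos ⟨hi, h3⟩] at h4
        calc (∏ i ∈ e, qq i) * |FB F j u (cor j (szs M N τ (o1 j)) (szs M N τ (o2 j))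
              (ss M N e))| ≤ (∏ i ∈ e, qq i) * (2 ^ n * K) :=
              mul_le_mul_of_nonneg_left (TB_FB hF j u _) hqe
          _ = 2 ^ n * K * ∏ i ∈ e, qq i := mul_comm _ _
          _ ≤ _ := mul_le_mul_of_nonneg_left h4 hnK
      · rw [TB_zero hF j u hu _ (Or.inl (by
          show ρ < cor j (szs M N τ (o1 j)) (szs M N τ (o2 j)) (ss M N e) j
          unfold cor
          rw [if_pos rfl]
          exact not_le.1 h3)), abs_zero, mul_zero]
        exact mul_nonneg hnK (Finset.sum_nonneg hnn)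
    refine (Finset.sum_le_sum e2).trans ?_
    rw [← Finset.mul_sum]
    refine mul_le_mul_of_nonneg_left ?_ hnK
    refine (Finset.sum_le_sum_of_subset_of_nonneg (Finset.subset_univ _) ?_).trans ?_
    · intro e _ _
      refine Finset.sum_nonneg fun i _ => ?_
      split_ifs
      · exact Finset.prod_nonneg fun i _ => (PT.TB_q i).le
      · exact le_rfl
    · rw [Finset.sum_comm, Finset.mul_sum]
      refine Finset.sum_le_sum fun i _ => ?_
      rw [mul_comm]
      exact PT.TB_inj M N ρ i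
  have h3 := abs_sub_le (tB F M N j u τ) (∑ σ ∈ D, f σ)
    (sg τ * tm (w := w) (X := X) F M N j u (szs M N τ (o1 j)) (szs M N τ (o2 j)))
  rw [mul_add]
  linarith

theorem thm_TB : St_TB := by
  intro ρ K r F w X M N j n u hw _ _ hF hu τ
  have hSQ : St_SQ := thm_SQ
  refine ⟨?_, ?_, TB_up hSQ hw hF M N j u hu τ, TB_low hSQ hw hF M N j u hu τ⟩
  · rintro ⟨i, hi⟩
    rw [PT.TB_tB]
    refine Finset.sum_eq_zero fun σ _ => ?_
    rw [Finset.prod_eq_zero (mem_univ i), mul_zero]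
    rw [hi]
    cases hσi : σ i with
    | none => exact PT.TB_ns j j i
    | some h' =>
      rw [PT.TB_ss, if_neg]
      rintro ⟨h3, h4⟩
      exact h4 h3
  · intro h
    rw [PT.TB_tB]
    refine Finset.sum_eq_zero fun σ _ => ?_
    by_cases hσ : ∀ i, τ i ≠ none → σ i = τ i
    · have hsub : ∀ g : Fin 3, part τ g ⊆ part σ g := by
        intro g i hi
        rw [part, mem_filter] at hi ⊢
        refine ⟨mem_univ _, ?_⟩
        rw [hσ i (by rw [hi.2]; simp), hi.2]
      rw [TB_zero hF j u hu _ (Or.inr ?_), zero_mul]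
      have h1 : szs M N τ (o1 j) ≤ szs M N σ (o1 j) := PT.TB_ssmono M N (hsub _)
      have h2 : szs M N τ (o2 j) ≤ szs M N σ (o2 j) := PT.TB_ssmono M N (hsub _)
      linarith
    · push Not at hσ
      obtain ⟨i, h1, h2⟩ := hσ
      rw [Finset.prod_eq_zero (mem_univ i), mul_zero]
      obtain ⟨g, hg⟩ := Option.ne_none_iff_exists'.1 h1
      rw [hg] at h2 ⊢
      cases hσi : σ i with
      | none => exact PT.TB_ns j g i
      | some h' =>
        rw [PT.TB_ss, if_neg]
        rintro ⟨h3, -⟩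
        exact h2 (by rw [hσi, h3])

end Pool.Agent.PU
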